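import Pool.Agent.Helper21.Dupin.Defs

/-!
Basic calculus for partial derivatives of smooth functions on open sets.
-/

namespace Pool.Agent.Helper21.Dupin

open scoped ContDiff InnerProductSpace

variable {n : ℕ} {U : Set (Dom n)} {V W : Type*} [NormedAddCommGroup V] [NormedSpace ℝ V]
  [NormedAddCommGroup W] [NormedSpace ℝ W]

theorem pd_smooth (hU : IsOpen U) {f : Dom n → V} (hf : ContDiffOn ℝ ∞ f U) (i : Fin n) :
    ContDiffOn ℝ ∞ (pd i f) U := by
  have h := hf.fderiv_of_isOpen hU (m := ∞) (by simp)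
  exact h.clm_apply contDiffOn_const

theorem diffAt (hU : IsOpen U) {f : Dom n → V} (hf : ContDiffOn ℝ ∞ f U) {u : Dom n}
    (hu : u ∈ U) : DifferentiableAt ℝ f u :=
  (hf.contDiffAt (hU.mem_nhds hu)).differentiableAt (by simp)

theorem pd_congr (hU : IsOpen U) {f g : Dom n → V} (h : ∀ u ∈ U, f u = g u) {u : Dom n}
    (hu : u ∈ U) (i : Fin n) : pd i f u = pd i g u := by
  unfold pd
  have : f =ᶠ[nhds u] g := Filter.eventuallyEq_of_mem (hU.mem_nhds hu) h
  rw [this.fderiv_eq]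

theorem pd_add (hU : IsOpen U) {f g : Dom n → V} (hf : ContDiffOn ℝ ∞ f U)
    (hg : ContDiffOn ℝ ∞ g U) {u : Dom n} (hu : u ∈ U) (i : Fin n) :
    pd i (fun v => f v + g v) u = pd i f u + pd i g u := by
  unfold pd
  rw [fderiv_fun_add (diffAt hU hf hu) (diffAt hU hg hu)]
  rfl

theorem pd_sub (hU : IsOpen U) {f g : Dom n → V} (hf : ContDiffOn ℝ ∞ f U)
    (hg : ContDiffOn ℝ ∞ g U) {u : Dom n} (hu : u ∈ U) (i : Fin n) :
    pd i (fun v => f v - g v) u = pd i f u - pd i g u := by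
  unfold pd
  rw [fderiv_fun_sub (diffAt hU hf hu) (diffAt hU hg hu)]
  rfl

theorem pd_smul (hU : IsOpen U) {f : Dom n → ℝ} {g : Dom n → V} (hf : ContDiffOn ℝ ∞ f U)
    (hg : ContDiffOn ℝ ∞ g U) {u : Dom n} (hu : u ∈ U) (i : Fin n) :
    pd i (fun v => f v • g v) u = f u • pd i g u + pd i f u • g u := by
  unfold pd
  rw [fderiv_fun_smul (diffAt hU hf hu) (diffAt hU hg hu)]
  simp

theorem pd_mul (hU : IsOpen U) {f g : Dom n → ℝ} (hf : ContDiffOn ℝ ∞ f U)
    (hg : ContDiffOn ℝ ∞ g U) {u : Dom n} (hu : u ∈ U) (i : Fin n) :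
    pd i (fun v => f v * g v) u = f u * pd i g u + g u * pd i f u := by
  have := pd_smul hU hf hg hu i
  simp only [smul_eq_mul] at this
  rw [this]; ring

theorem pd_const (c : V) (i : Fin n) (u : Dom n) : pd i (fun _ => c) u = 0 := by
  unfold pd; simp

theorem pd_const_smul (c : ℝ) (hU : IsOpen U) {g : Dom n → V}
    (hg : ContDiffOn ℝ ∞ g U) {u : Dom n} (hu : u ∈ U) (i : Fin n) :
    pd i (fun v => c • g v) u = c • pd i g u := by
  rw [pd_smul hU contDiffOn_const hg hu, pd_const]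
  simp

theorem pd_sum (hU : IsOpen U) {ι : Type*} (s : Finset ι) {f : ι → Dom n → V}
    (hf : ∀ a ∈ s, ContDiffOn ℝ ∞ (f a) U) {u : Dom n} (hu : u ∈ U) (i : Fin n) :
    pd i (fun v => ∑ a ∈ s, f a v) u = ∑ a ∈ s, pd i (f a) u := by
  unfold pd
  rw [fderiv_fun_sum (fun a ha => diffAt hU (hf a ha) hu)]
  simp

theorem pd_clm (hU : IsOpen U) (T : V →L[ℝ] W) {f : Dom n → V} (hf : ContDiffOn ℝ ∞ f U)
    {u : Dom n} (hu : u ∈ U) (i : Fin n) :
    pd i (fun v => T (f v)) u = T (pd i f u) := by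
  unfold pd
  have h := (T.hasFDerivAt.comp u (diffAt hU hf hu).hasFDerivAt).fderiv
  have h' : fderiv ℝ (fun v => T (f v)) u = T.comp (fderiv ℝ f u) := h
  rw [h']; rfl

theorem pd_inner (hU : IsOpen U) {F : Type*} [NormedAddCommGroup F] [InnerProductSpace ℝ F]
    {f g : Dom n → F} (hf : ContDiffOn ℝ ∞ f U)
    (hg : ContDiffOn ℝ ∞ g U) {u : Dom n} (hu : u ∈ U) (i : Fin n) :
    pd i (fun v => ⟪f v, g v⟫_ℝ) u = ⟪f u, pd i g u⟫_ℝ + ⟪pd i f u, g u⟫_ℝ := by
  unfold pd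
  exact fderiv_inner_apply ℝ (diffAt hU hf hu) (diffAt hU hg hu) _

theorem pd_comm (hU : IsOpen U) {f : Dom n → V} (hf : ContDiffOn ℝ ∞ f U) {u : Dom n}
    (hu : u ∈ U) (i j : Fin n) : pd i (pd j f) u = pd j (pd i f) u := by
  have hsym : IsSymmSndFDerivAt ℝ f u :=
    (hf.contDiffAt (hU.mem_nhds hu)).isSymmSndFDerivAt (by
      simp only [minSmoothness_of_isRCLikeNormedField]; exact WithTop.coe_le_coe.mpr le_top)
  have hd : DifferentiableAt ℝ (fderiv ℝ f) u := by
    have h := hf.fderiv_of_isOpen hU (m := ∞) (by simp)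
    exact (h.contDiffAt (hU.mem_nhds hu)).differentiableAt (by simp)
  have key : ∀ a b : Fin n, pd a (pd b f) u =
      fderiv ℝ (fderiv ℝ f) u (Pi.single a 1) (Pi.single b 1) := by
    intro a b
    unfold pd
    rw [fderiv_clm_apply hd (differentiableAt_const _)]
    simp
  rw [key, key]
  exact hsym _ _

/-- the derivative in terms of the partial derivatives -/
theorem fderiv_eq_sum (f : Dom n → V) (u v : Dom n) :
    fderiv ℝ f u v = ∑ i, v i • pd i f u := by
  unfold pd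
  conv_lhs => rw [← Finset.univ_sum_single v]
  rw [map_sum]
  refine Finset.sum_congr rfl fun i _ => ?_
  rw [← map_smul]
  congr 1
  ext j
  simp [Pi.single_apply]

end Pool.Agent.Helper21.Dupin
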