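import Pool.Agent.Helper21.Dupin.Tri

/-!
The three-term recursions of the problem.
-/

namespace Pool.Agent.Helper21.Dupin

open Polynomial

/-- diagonal coefficients -/
noncomputable def αc (μ₀ : ℝ) (p q : ℕ) (j : ℕ) : ℝ :=
  -(1 + μ₀ ^ 2) * ((j : ℝ) - 1) * ((j : ℝ) - (p + q))

/-- first off-diagonal coefficients -/
noncomputable def βc (μ₀ : ℝ) (p q : ℕ) (j : ℕ) : ℝ :=
  -μ₀ * ((j : ℝ) - 1) * (2 * ((j : ℝ) - (p + q)) + q)

/-- second off-diagonal coefficients for the function `1 / w` -/
noncomputable def γy (κ : ℝ) (p : ℕ) (j : ℕ) : ℝ := κ * ((j : ℝ) - 1) * ((j : ℝ) - p)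

/-- second off-diagonal coefficients for the functions `φ` -/
noncomputable def γφ (κ : ℝ) (p : ℕ) (j : ℕ) : ℝ := κ * (j : ℝ) * ((j : ℝ) - 1 - p) - p

theorem two_mul_sub_one_ne (j : ℕ) : (2 * (j : ℝ) - 1) ≠ 0 := by
  intro h
  have h1 : (2 * (j : ℝ)) = 1 := by linarith
  have h2 : (2 * j : ℕ) = 1 := by exact_mod_cast h1
  omega

theorem ychain {κ μ₀ : ℝ} {p q : ℕ} (hp : 0 < p) (hq : 0 < q) (hκ : κ ≠ 0) {P : ℝ[X]}
    (hP : P ≠ 0) {c : ℝ}
    (h : aeval (tri (αc μ₀ p q) (βc μ₀ p q) (γy κ p)) P (1 : ℝ[X]) = C c * X) :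
    μ₀ = 0 ∧ Even p := by
  set T := tri (αc μ₀ p q) (βc μ₀ p q) (γy κ p) with hT
  have hcoef : ∀ m, m ≠ 1 → (aeval T P (1 : ℝ[X])).coeff m = 0 := by
    intro m hm
    rw [h, coeff_C_mul, coeff_X, if_neg (fun h => hm h.symm), mul_zero]
  by_contra hcon
  by_cases hodd : Even p
  · -- `p` even, `μ₀ ≠ 0`
    have hμ : μ₀ ≠ 0 := fun h0 => hcon ⟨h0, hodd⟩
    obtain ⟨p', hp'⟩ := hodd
    have hp'1 : 1 ≤ p' := by omega
    have hpr : (p : ℝ) = 2 * (p' : ℝ) := by rw [hp']; push_cast; ring
    -- first part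
    have first : ∀ j, j ≤ p' → (T^[j] (1 : ℝ[X])).coeff (2 * j) ≠ 0 ∧
        (∀ m, 2 * j < m → (T^[j] (1 : ℝ[X])).coeff m = 0) ∧
        ∃ s : ℝ, 0 ≤ s ∧ (0 < j → κ * (T^[j] (1 : ℝ[X])).coeff (2 * j - 1)
          = -μ₀ * s * (T^[j] (1 : ℝ[X])).coeff (2 * j)) := by
      intro j
      induction j with
      | zero =>
        intro _
        refine ⟨by simp, ?_, 0, le_refl _, fun h => absurd h (lt_irrefl _)⟩
        intro m hm
        simp only [Function.iterate_zero, id_eq, coeff_one]
        rw [if_neg (by omega)]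
      | succ j ih =>
        intro hj
        obtain ⟨i1, i2, s, hs0, i3⟩ := ih (by omega)
        obtain ⟨t1, t2, t3⟩ := tri_top (α := αc μ₀ p q) (β := βc μ₀ p q) (γ := γy κ p) i2
        rw [← hT] at t1 t2 t3
        have hiter : T^[j + 1] (1 : ℝ[X]) = T (T^[j] (1 : ℝ[X])) := Function.iterate_succ_apply' T j 1
        have e1 : 2 * (j + 1) = 2 * j + 2 := by ring
        have e2 : 2 * (j + 1) - 1 = 2 * j + 1 := by omega
        rw [hiter, e1]
        have hjp : (2 * (j : ℝ) - p) < 0 := by
          have : ((2 * (j + 1) : ℕ) : ℝ) ≤ (p : ℕ) := by exact_mod_cast (by omega : 2 * (j + 1) ≤ p)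
          push_cast at this
          linarith
        have hγ : γy κ p (2 * j) = κ * (2 * (j : ℝ) - 1) * (2 * (j : ℝ) - p) := by
          unfold γy; push_cast; ring
        have hγne : γy κ p (2 * j) ≠ 0 := by
          rw [hγ]
          exact mul_ne_zero (mul_ne_zero hκ (two_mul_sub_one_ne j)) hjp.ne
        refine ⟨?_, t1, ?_⟩
        · rw [t2]; exact mul_ne_zero hγne i1
        · have hqpos : (0 : ℝ) < q := by exact_mod_cast hq
          have hppos : (0 : ℝ) < p := by exact_mod_cast hp
          rcases Nat.eq_zero_or_pos j with h0 | h0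
          · subst h0
            refine ⟨(2 * p + q) / p, by positivity, fun _ => ?_⟩
            have e3 : 2 * 0 + 2 - 1 = 2 * 0 + 1 := rfl
            rw [e3, t3, t2, hγ]
            simp only [Nat.cast_zero, mul_zero, zero_sub, Nat.mul_zero, Nat.not_lt_zero,
              Function.iterate_zero, id_eq, coeff_one_zero, mul_one, Nat.le_zero_eq,
              one_ne_zero, if_false, add_zero]
            unfold βc
            push_cast
            field_simp
            ring
          · have i3' := i3 h0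
            have hj1 : (1 : ℝ) ≤ j := by exact_mod_cast h0
            set a := (T^[j] (1 : ℝ[X])).coeff (2 * j) with ha
            set b := (T^[j] (1 : ℝ[X])).coeff (2 * j - 1) with hb
            -- the new value of s
            set num := (2 * (j : ℝ) - 1) * (4 * j - 2 * p - q) + s * (2 * j - 2) * (2 * j - 1 - p)
              with hnum
            have hnum_neg : num ≤ 0 := by
              have n1 : (2 * (j : ℝ) - 1) * (4 * j - 2 * p - q) ≤ 0 :=
                mul_nonpos_of_nonneg_of_nonpos (by linarith) (by linarith)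
              have n2 : s * (2 * j - 2) * (2 * j - 1 - p) ≤ 0 :=
                mul_nonpos_of_nonneg_of_nonpos (mul_nonneg hs0 (by linarith)) (by linarith)
              linarith
            have hden : (2 * (j : ℝ) - 1) * (2 * j - p) < 0 :=
              mul_neg_of_pos_of_neg (by linarith) hjp
            refine ⟨num / ((2 * (j : ℝ) - 1) * (2 * j - p)), div_nonneg_of_nonpos hnum_neg hden.le,
              fun _ => ?_⟩
            have e3 : 2 * j + 2 - 1 = 2 * j + 1 := by omega
            have e4 : (if 1 ≤ 2 * j then γy κ p (2 * j - 1) * b else 0)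
                = γy κ p (2 * j - 1) * b := if_pos (by omega)
            rw [e3, t3, t2, e4, hγ]
            have hβ : βc μ₀ p q (2 * j) = -μ₀ * (2 * (j : ℝ) - 1) * (4 * j - 2 * p - q) := by
              unfold βc; push_cast; ring
            have hγ1 : γy κ p (2 * j - 1) = κ * (2 * (j : ℝ) - 2) * (2 * j - 1 - p) := by
              unfold γy
              rw [Nat.cast_sub (by omega)]
              push_cast; ring
            rw [hβ, hγ1]
            have hs' : num / ((2 * (j : ℝ) - 1) * (2 * j - p)) * ((2 * (j : ℝ) - 1) * (2 * j - p))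
                = num := div_mul_cancel₀ _ hden.ne
            have goal' : κ * (-μ₀ * (2 * (j : ℝ) - 1) * (4 * j - 2 * p - q) * a
                + κ * (2 * (j : ℝ) - 2) * (2 * j - 1 - p) * b)
                = -μ₀ * κ * num * a := by
              rw [hnum]
              linear_combination (κ * (2 * (j : ℝ) - 2) * (2 * j - 1 - p)) * i3'
            rw [goal']
            linear_combination (-μ₀ * κ * a) * hs'.symm
    -- the transition at `j = p'`
    obtain ⟨f1, f2, s, hs0, f3⟩ := first p' le_rfl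
    have f3' := f3 (by omega)
    have trans : (T^[p' + 1] (1 : ℝ[X])).coeff (2 * p' + 1) ≠ 0 ∧
        ∀ m, 2 * p' + 1 < m → (T^[p' + 1] (1 : ℝ[X])).coeff m = 0 := by
      obtain ⟨t1, t2, t3⟩ := tri_top (α := αc μ₀ p q) (β := βc μ₀ p q) (γ := γy κ p) f2
      rw [← hT] at t1 t2 t3
      have hiter : T^[p' + 1] (1 : ℝ[X]) = T (T^[p'] (1 : ℝ[X])) := Function.iterate_succ_apply' T p' 1
      rw [hiter]
      have hγ : γy κ p (2 * p') = 0 := by
        unfold γy; rw [hpr]; push_cast; ring
      rw [hγ, zero_mul] at t2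
      constructor
      · rw [t3, if_pos (by omega)]
        have hβ : βc μ₀ p q (2 * p') = μ₀ * (2 * (p' : ℝ) - 1) * q := by
          unfold βc; rw [hpr]; push_cast; ring
        have hγ1 : γy κ p (2 * p' - 1) = -(κ * (2 * (p' : ℝ) - 2)) := by
          unfold γy
          rw [Nat.cast_sub (by omega), hpr]
          push_cast; ring
        rw [hβ, hγ1]
        have e5 : μ₀ * (2 * (p' : ℝ) - 1) * q * (T^[p'] (1 : ℝ[X])).coeff (2 * p')
            + -(κ * (2 * (p' : ℝ) - 2)) * (T^[p'] (1 : ℝ[X])).coeff (2 * p' - 1)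
            = μ₀ * (T^[p'] (1 : ℝ[X])).coeff (2 * p')
              * ((2 * (p' : ℝ) - 1) * q + (2 * (p' : ℝ) - 2) * s) := by
          linear_combination (-(2 * (p' : ℝ) - 2)) * f3'
        rw [e5]
        have hp'r : (1 : ℝ) ≤ p' := by exact_mod_cast hp'1
        have hqpos : (0 : ℝ) < q := by exact_mod_cast hq
        have hpos : 0 < (2 * (p' : ℝ) - 1) * q + (2 * (p' : ℝ) - 2) * s := by
          have m1 : 0 < (2 * (p' : ℝ) - 1) * q := mul_pos (by linarith) hqpos
          have m2 : 0 ≤ (2 * (p' : ℝ) - 2) * s := mul_nonneg (by linarith) hs0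
          linarith
        exact mul_ne_zero (mul_ne_zero hμ f1) hpos.ne'
      · intro m hm
        rcases Nat.lt_or_ge (2 * p' + 2) m with h1 | h1
        · exact t1 m h1
        · have : m = 2 * p' + 2 := by omega
          rw [this, t2]
    have second : ∀ i, (T^[p' + 1 + i] (1 : ℝ[X])).coeff (2 * p' + 1 + 2 * i) ≠ 0 ∧
        ∀ m, 2 * p' + 1 + 2 * i < m → (T^[p' + 1 + i] (1 : ℝ[X])).coeff m = 0 := by
      intro i
      induction i with
      | zero => simpa using trans
      | succ i ih =>
        obtain ⟨i1, i2⟩ := ih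
        obtain ⟨t1, t2, t3⟩ := tri_top (α := αc μ₀ p q) (β := βc μ₀ p q) (γ := γy κ p) i2
        rw [← hT] at t1 t2 t3
        have hiter : T^[p' + 1 + (i + 1)] (1 : ℝ[X]) = T (T^[p' + 1 + i] (1 : ℝ[X])) := by
          rw [← add_assoc]; exact Function.iterate_succ_apply' T _ 1
        rw [hiter]
        have e1 : 2 * p' + 1 + 2 * (i + 1) = 2 * p' + 1 + 2 * i + 2 := by ring
        rw [e1]
        refine ⟨?_, t1⟩
        rw [t2]
        refine mul_ne_zero ?_ i1
        unfold γy
        rw [hpr]
        push_cast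
        have hp'r : (1 : ℝ) ≤ p' := by exact_mod_cast hp'1
        have hi0 : (0 : ℝ) ≤ i := Nat.cast_nonneg i
        refine mul_ne_zero (mul_ne_zero hκ ?_) ?_
        · have : (0 : ℝ) < 2 * p' + 1 + 2 * i - 1 := by linarith
          exact this.ne'
        · have : (0 : ℝ) < 2 * p' + 1 + 2 * i - 2 * p' := by linarith
          exact this.ne'
    -- degrees
    let d : ℕ → ℕ := fun j => if j ≤ p' then 2 * j else 2 * j - 1
    have hd : StrictMono d := by
      apply strictMono_nat_of_lt_succ
      intro j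
      simp only [d]
      split_ifs <;> omega
    have hd1 : ∀ j, (T^[j] (1 : ℝ[X])).coeff (d j) ≠ 0 := by
      intro j
      simp only [d]
      by_cases hj : j ≤ p'
      · rw [if_pos hj]; exact (first j hj).1
      · rw [if_neg hj]
        have h2 := (second (j - (p' + 1))).1
        have e1 : p' + 1 + (j - (p' + 1)) = j := by omega
        have e2 : 2 * p' + 1 + 2 * (j - (p' + 1)) = 2 * j - 1 := by omega
        rwa [e1, e2] at h2
    have hd2 : ∀ j m, d j < m → (T^[j] (1 : ℝ[X])).coeff m = 0 := by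
      intro j m
      simp only [d]
      by_cases hj : j ≤ p'
      · rw [if_pos hj]; exact (first j hj).2.1 m
      · rw [if_neg hj]
        have h2 := (second (j - (p' + 1))).2 m
        have e1 : p' + 1 + (j - (p' + 1)) = j := by omega
        have e2 : 2 * p' + 1 + 2 * (j - (p' + 1)) = 2 * j - 1 := by omega
        rwa [e1, e2] at h2
    have := coeff_top T 1 d hd hd1 hd2 P hP
    apply this
    apply hcoef
    simp only [d]
    split_ifs <;> omega
  · -- `p` odd
    have hind : ∀ j, (T^[j] (1 : ℝ[X])).coeff (2 * j) ≠ 0 ∧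
        ∀ m, 2 * j < m → (T^[j] (1 : ℝ[X])).coeff m = 0 := by
      intro j
      induction j with
      | zero =>
        refine ⟨by simp, ?_⟩
        intro m hm
        simp only [Function.iterate_zero, id_eq, coeff_one]
        rw [if_neg (by omega)]
      | succ j ih =>
        obtain ⟨i1, i2⟩ := ih
        obtain ⟨t1, t2, t3⟩ := tri_top (α := αc μ₀ p q) (β := βc μ₀ p q) (γ := γy κ p) i2
        rw [← hT] at t1 t2 t3
        have hiter : T^[j + 1] (1 : ℝ[X]) = T (T^[j] (1 : ℝ[X])) := Function.iterate_succ_apply' T j 1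
        have e1 : 2 * (j + 1) = 2 * j + 2 := by ring
        rw [hiter, e1]
        refine ⟨?_, t1⟩
        rw [t2]
        refine mul_ne_zero ?_ i1
        unfold γy
        refine mul_ne_zero (mul_ne_zero hκ ?_) ?_
        · push_cast; exact two_mul_sub_one_ne j
        · intro h0
          apply hodd
          have h1 : ((2 * j : ℕ) : ℝ) = p := by linarith
          have h2 : 2 * j = p := by exact_mod_cast h1
          exact ⟨j, by omega⟩
    have := coeff_top T 1 (fun j => 2 * j) (fun a b hab => by simp only; omega)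
      (fun j => (hind j).1) (fun j m hm => (hind j).2 m hm) P hP
    apply this
    apply hcoef
    omega

theorem φchain_zero {μ₀ : ℝ} {p q : ℕ} (hp : 0 < p) {P : ℝ[X]} (hP : P ≠ 0)
    (h : aeval (tri (αc μ₀ p q) (βc μ₀ p q) (γφ 0 p)) P (1 : ℝ[X]) = 0) : False := by
  set T := tri (αc μ₀ p q) (βc μ₀ p q) (γφ 0 p) with hT
  have hind : ∀ j, (T^[j] (1 : ℝ[X])).coeff (2 * j) ≠ 0 ∧
      ∀ m, 2 * j < m → (T^[j] (1 : ℝ[X])).coeff m = 0 := by
    intro j
    induction j with
    | zero =>
      refine ⟨by simp, ?_⟩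
      intro m hm
      simp only [Function.iterate_zero, id_eq, coeff_one]
      rw [if_neg (by omega)]
    | succ j ih =>
      obtain ⟨i1, i2⟩ := ih
      obtain ⟨t1, t2, t3⟩ := tri_top (α := αc μ₀ p q) (β := βc μ₀ p q) (γ := γφ 0 p) i2
      rw [← hT] at t1 t2 t3
      have hiter : T^[j + 1] (1 : ℝ[X]) = T (T^[j] (1 : ℝ[X])) := Function.iterate_succ_apply' T j 1
      have e1 : 2 * (j + 1) = 2 * j + 2 := by ring
      rw [hiter, e1]
      refine ⟨?_, t1⟩
      rw [t2]
      refine mul_ne_zero ?_ i1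
      unfold γφ
      have : (0 : ℝ) < p := by exact_mod_cast hp
      simp [this.ne']
  have := coeff_top T 1 (fun j => 2 * j) (fun a b hab => by simp only; omega)
    (fun j => (hind j).1) (fun j m hm => (hind j).2 m hm) P hP
  apply this
  rw [h, coeff_zero]

theorem βc_zero (p q : ℕ) : βc 0 p q = fun _ => 0 := by
  funext j; unfold βc; simp

/-- the values `αc 0 p q (2 i)` -/
theorem αc_eq_iff {p q i j : ℕ} : αc 0 p q (2 * i) = αc 0 p q (2 * j) ↔
    i = j ∨ 2 * (i + j) = p + q + 1 := by
  unfold αc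
  push_cast
  constructor
  · intro h
    have h1 : ((i : ℝ) - j) * (2 * (i + j) - (p + q + 1)) = 0 := by linarith
    rcases mul_eq_zero.mp h1 with h2 | h2
    · left
      have : (i : ℝ) = j := by linarith
      exact_mod_cast this
    · right
      have : (2 * ((i : ℝ) + j)) = p + q + 1 := by linarith
      exact_mod_cast this
  · rintro (h | h)
    · rw [h]
    · have h' : (2 * ((i : ℝ) + j)) = p + q + 1 := by exact_mod_cast h
      have h1 : ((i : ℝ) - j) * (2 * (i + j) - (p + q + 1)) = 0 := by rw [h']; ring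
      linarith

theorem αc_injOn_iff {p q r : ℕ} (hr : 1 ≤ r) :
    Set.InjOn (fun i => αc 0 p q (2 * i)) (Finset.range (r + 1)) ↔
      Even (p + q) ∨ 4 * r < p + q + 2 := by
  constructor
  · intro h
    by_contra hcon
    push Not at hcon
    obtain ⟨hodd, hle⟩ := hcon
    rw [Nat.not_even_iff_odd] at hodd
    obtain ⟨t, ht⟩ := hodd
    -- i + j = t + 1
    rcases Nat.lt_or_ge r (t + 1) with h1 | h1
    · have := @h (t + 1 - r)
        (by simp only [Finset.coe_range, Set.mem_Iio]; omega) r (by simp) (by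
          simp only
          rw [αc_eq_iff]; right; omega)
      omega
    · have := @h 0 (by simp) (t + 1) (by
          simp only [Finset.coe_range, Set.mem_Iio]; omega) (by
          simp only
          rw [αc_eq_iff]; right; omega)
      omega
  · intro h i hi j hj hij
    simp only [Finset.coe_range, Set.mem_Iio] at hi hj
    simp only at hij
    rw [αc_eq_iff] at hij
    rcases hij with h1 | h1
    · exact h1
    · by_contra hne
      rcases h with ⟨t, ht⟩ | h
      · omega
      · omega

theorem prod_dvd_injOn {S : Finset ℝ} {a : ℕ → ℝ} {r : ℕ}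
    (h : (∏ i ∈ Finset.range r, (X - C (a i))) ∣ ∏ s ∈ S, (X - C s)) :
    Set.InjOn a (Finset.range r) := by
  have h1 : ∏ s ∈ S, (X - C s) ≠ 0 := Finset.prod_ne_zero_iff.mpr fun i _ => X_sub_C_ne_zero _
  have h2 := roots.le_of_dvd h1 h
  rw [roots_prod _ _ (Finset.prod_ne_zero_iff.mpr fun i _ => X_sub_C_ne_zero _),
    roots_prod_X_sub_C] at h2
  simp only [roots_X_sub_C, Multiset.bind_singleton] at h2
  have h3 := Multiset.nodup_of_le h2 S.nodup
  have h4 := Multiset.inj_on_of_nodup_map h3
  intro i hi j hj hij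
  exact h4 i (by simpa using hi) j (by simpa using hj) hij

/-- The `φ`-chain for `μ₀ = 0`. -/
theorem φchain {κ : ℝ} {p q : ℕ} (hp : 0 < p) {S : Finset ℝ}
    (h : aeval (tri (αc 0 p q) (fun _ => 0) (γφ κ p)) (∏ s ∈ S, (X - C s)) (1 : ℝ[X]) = 0) :
    ∃ r : ℕ, 1 ≤ r ∧ γφ κ p (2 * r) = 0 ∧ (Even (p + q) ∨ 4 * r < p + q + 2) := by
  have hP : (∏ s ∈ S, (X - C s)) ≠ 0 := Finset.prod_ne_zero_iff.mpr fun i _ => X_sub_C_ne_zero _
  have hex : ∃ r, γφ κ p (2 * r) = 0 := by
    by_contra hcon
    push Not at hcon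
    exact hP (chain_infinite h hcon)
  classical
  set r := Nat.find hex with hr
  have h1 : γφ κ p (2 * r) = 0 := Nat.find_spec hex
  have h2 : ∀ i, i < r → γφ κ p (2 * i) ≠ 0 := fun i hi => Nat.find_min hex hi
  have hr1 : 1 ≤ r := by
    by_contra hlt
    have h0 : r = 0 := by omega
    rw [h0] at h1
    unfold γφ at h1
    have : (0 : ℝ) < p := by exact_mod_cast hp
    simp at h1
    omega
  refine ⟨r, hr1, h1, ?_⟩
  rw [← αc_injOn_iff hr1]
  exact prod_dvd_injOn (a := fun i => αc 0 p q (2 * i)) (chain_stop h r h2 h1)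

end Pool.Agent.Helper21.Dupin
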