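import Pool.Agent.Helper21.Dupin.ConeEx2

/-!
The minimal cone over the Clifford torus.
-/

namespace Pool.Agent.Helper21.Dupin

open scoped ContDiff InnerProductSpace

namespace Hypersurface

variable {n : ℕ} {M : Hypersurface n}

/-- All principal curvatures of a Dupin hypersurface are among the `κ_a`. -/
theorem IsDupinWith.exists_eq {g : ℕ} {κ : Fin g → Dom n → ℝ} {m : Fin g → ℕ}
    (hD : M.IsDupinWith g κ m) {u : Dom n} (hu : u ∈ M.U) {c : ℝ}
    (hc : M.IsPrincipalCurvature u c) : ∃ a, κ a u = c := by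
  obtain ⟨-, hne, -, hsum, hfr, -⟩ := hD
  by_contra hcon
  push Not at hcon
  apply hc
  have hind : iSupIndep fun a => Module.End.eigenspace (M.shape u) (κ a u) :=
    (Module.End.eigenspaces_iSupIndep (M.shape u)).comp fun a b h => hne u hu a b h
  have hfr' : ∀ a, Module.finrank ℝ (Module.End.eigenspace (M.shape u) (κ a u)) = m a := by
    intro a
    rw [← M.curvSpace_eq_eigenspace hu]
    exact hfr u hu a
  have hint := isInternal_of_indep _ hind (by simp [hfr', hsum])
  have htop := hint.submodule_iSup_eq_top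
  have hdis := (Module.End.eigenspaces_iSupIndep (M.shape u)) c
  have hle : (⨆ a, Module.End.eigenspace (M.shape u) (κ a u))
      ≤ ⨆ j, ⨆ (_ : j ≠ c), Module.End.eigenspace (M.shape u) j :=
    iSup_le fun a => le_iSup₂_of_le (κ a u) (hcon a) le_rfl
  rw [htop, top_le_iff] at hle
  rw [hle, disjoint_top] at hdis
  rw [M.curvSpace_eq_eigenspace hu]
  exact hdis

theorem IsDupinWith.isPrincipal {g : ℕ} {κ : Fin g → Dom n → ℝ} {m : Fin g → ℕ}
    (hD : M.IsDupinWith g κ m) {u : Dom n} (hu : u ∈ M.U) (a : Fin g) :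
    M.IsPrincipalCurvature u (κ a u) := by
  obtain ⟨-, hne, hpos, hsum, hfr, -⟩ := hD
  intro h
  have h1 := hfr u hu a
  rw [h, finrank_bot] at h1
  have := hpos a
  omega

end Hypersurface

section Clifford

variable (m : ℕ)

/-- first index -/
def i₀ : Fin (2 + m) := Fin.castAdd m 0

/-- second index -/
def i₁ : Fin (2 + m) := Fin.castAdd m 1

theorem i₀_ne_i₁ : i₀ m ≠ i₁ m := by
  intro h
  have := congrArg Fin.val h
  simp [i₀, i₁] at this

/-- third unit vector -/
noncomputable def eC : Amb (2 + m) := Jm (2 + m) (Pi.single (i₀ m) 1)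

/-- fourth unit vector -/
noncomputable def eD : Amb (2 + m) := Jm (2 + m) (Pi.single (i₁ m) 1)

theorem inner_eC_eC : ⟪eC m, eC m⟫_ℝ = 1 := by
  unfold eC; rw [inner_Jm]; simp [Pi.single_apply]

theorem inner_eD_eD : ⟪eD m, eD m⟫_ℝ = 1 := by
  unfold eD; rw [inner_Jm]; simp [Pi.single_apply]

theorem inner_eC_eD : ⟪eC m, eD m⟫_ℝ = 0 := by
  unfold eC eD; rw [inner_Jm]; simp [Pi.single_apply, i₀_ne_i₁ m, (i₀_ne_i₁ m).symm]

theorem inner_eA_eC : ⟪eA (2 + m), eC m⟫_ℝ = 0 := inner_eA_Jm _ _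
theorem inner_eA_eD : ⟪eA (2 + m), eD m⟫_ℝ = 0 := inner_eA_Jm _ _
theorem inner_eB_eC : ⟪eB (2 + m), eC m⟫_ℝ = 0 := inner_eB_Jm _ _
theorem inner_eB_eD : ⟪eB (2 + m), eD m⟫_ℝ = 0 := inner_eB_Jm _ _

theorem inner_eC_Jm (u : Dom (2 + m)) : ⟪eC m, Jm (2 + m) (P₂ (2 + m) 2 u)⟫_ℝ = 0 := by
  unfold eC; rw [inner_Jm]
  apply Finset.sum_eq_zero
  intro i _
  rw [P₂_apply, Pi.single_apply]
  by_cases h : i = i₀ m
  · subst h; simp [i₀]
  · simp [h]

theorem inner_eD_Jm (u : Dom (2 + m)) : ⟪eD m, Jm (2 + m) (P₂ (2 + m) 2 u)⟫_ℝ = 0 := by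
  unfold eD; rw [inner_Jm]
  apply Finset.sum_eq_zero
  intro i _
  rw [P₂_apply, Pi.single_apply]
  by_cases h : i = i₁ m
  · subst h; simp [i₁]
  · simp [h]

/-- the first circle -/
noncomputable def cA (t : ℝ) : Amb (2 + m) := Real.cos t • eA (2 + m) + Real.sin t • eB (2 + m)
/-- its derivative -/
noncomputable def cA' (t : ℝ) : Amb (2 + m) :=
  -Real.sin t • eA (2 + m) + Real.cos t • eB (2 + m)
/-- the second circle -/
noncomputable def cB (t : ℝ) : Amb (2 + m) := Real.cos t • eC m + Real.sin t • eD m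
/-- its derivative -/
noncomputable def cB' (t : ℝ) : Amb (2 + m) := -Real.sin t • eC m + Real.cos t • eD m

theorem hasDerivAt_cA (t : ℝ) : HasDerivAt (cA m) (cA' m t) t :=
  ((Real.hasDerivAt_cos t).smul_const _).add ((Real.hasDerivAt_sin t).smul_const _)

theorem hasDerivAt_cB (t : ℝ) : HasDerivAt (cB m) (cB' m t) t :=
  ((Real.hasDerivAt_cos t).smul_const _).add ((Real.hasDerivAt_sin t).smul_const _)

theorem contDiff_cA : ContDiff ℝ ∞ (cA m) :=
  (Real.contDiff_cos.smul contDiff_const).add (Real.contDiff_sin.smul contDiff_const)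

theorem contDiff_cB : ContDiff ℝ ∞ (cB m) :=
  (Real.contDiff_cos.smul contDiff_const).add (Real.contDiff_sin.smul contDiff_const)

theorem inner_eB_eA : ⟪eB (2 + m), eA (2 + m)⟫_ℝ = 0 := by
  rw [real_inner_comm]; exact inner_eA_eB _

theorem inner_eD_eC : ⟪eD m, eC m⟫_ℝ = 0 := by
  rw [real_inner_comm]; exact inner_eC_eD _

theorem cA_cA (t : ℝ) : ⟪cA m t, cA m t⟫_ℝ = 1 := by
  unfold cA
  simp only [inner_add_left, inner_add_right, real_inner_smul_left, real_inner_smul_right,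
    inner_eA_eA, inner_eB_eB, inner_eA_eB, inner_eB_eA]
  linear_combination Real.cos_sq_add_sin_sq t

theorem cA_cA' (t : ℝ) : ⟪cA m t, cA' m t⟫_ℝ = 0 := by
  unfold cA cA'
  simp only [inner_add_left, inner_add_right, real_inner_smul_left, real_inner_smul_right,
    inner_eA_eA, inner_eB_eB, inner_eA_eB, inner_eB_eA]
  ring

theorem cA'_cA' (t : ℝ) : ⟪cA' m t, cA' m t⟫_ℝ = 1 := by
  unfold cA'
  simp only [inner_add_left, inner_add_right, real_inner_smul_left, real_inner_smul_right,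
    inner_eA_eA, inner_eB_eB, inner_eA_eB, inner_eB_eA]
  linear_combination Real.sin_sq_add_cos_sq t

theorem cB_cB (t : ℝ) : ⟪cB m t, cB m t⟫_ℝ = 1 := by
  unfold cB
  simp only [inner_add_left, inner_add_right, real_inner_smul_left, real_inner_smul_right,
    inner_eC_eC, inner_eD_eD, inner_eC_eD, inner_eD_eC]
  linear_combination Real.cos_sq_add_sin_sq t

theorem cB_cB' (t : ℝ) : ⟪cB m t, cB' m t⟫_ℝ = 0 := by
  unfold cB cB'
  simp only [inner_add_left, inner_add_right, real_inner_smul_left, real_inner_smul_right,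
    inner_eC_eC, inner_eD_eD, inner_eC_eD, inner_eD_eC]
  ring

theorem cB'_cB' (t : ℝ) : ⟪cB' m t, cB' m t⟫_ℝ = 1 := by
  unfold cB'
  simp only [inner_add_left, inner_add_right, real_inner_smul_left, real_inner_smul_right,
    inner_eC_eC, inner_eD_eD, inner_eC_eD, inner_eD_eC]
  linear_combination Real.sin_sq_add_cos_sq t

theorem cA_cB (s t : ℝ) : ⟪cA m s, cB m t⟫_ℝ = 0 := by
  unfold cA cB
  simp only [inner_add_left, inner_add_right, real_inner_smul_left, real_inner_smul_right,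
    inner_eA_eC, inner_eA_eD, inner_eB_eC, inner_eB_eD]
  ring

theorem cA_cB' (s t : ℝ) : ⟪cA m s, cB' m t⟫_ℝ = 0 := by
  unfold cA cB'
  simp only [inner_add_left, inner_add_right, real_inner_smul_left, real_inner_smul_right,
    inner_eA_eC, inner_eA_eD, inner_eB_eC, inner_eB_eD]
  ring

theorem cA'_cB (s t : ℝ) : ⟪cA' m s, cB m t⟫_ℝ = 0 := by
  unfold cA' cB
  simp only [inner_add_left, inner_add_right, real_inner_smul_left, real_inner_smul_right,
    inner_eA_eC, inner_eA_eD, inner_eB_eC, inner_eB_eD]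
  ring

theorem cA'_cB' (s t : ℝ) : ⟪cA' m s, cB' m t⟫_ℝ = 0 := by
  unfold cA' cB'
  simp only [inner_add_left, inner_add_right, real_inner_smul_left, real_inner_smul_right,
    inner_eA_eC, inner_eA_eD, inner_eB_eC, inner_eB_eD]
  ring

theorem cA_J (s : ℝ) (u : Dom (2 + m)) : ⟪cA m s, Jm (2 + m) (P₂ (2 + m) 2 u)⟫_ℝ = 0 := by
  unfold cA
  simp only [inner_add_left, real_inner_smul_left, inner_eA_Jm, inner_eB_Jm]
  ring

theorem cA'_J (s : ℝ) (u : Dom (2 + m)) : ⟪cA' m s, Jm (2 + m) (P₂ (2 + m) 2 u)⟫_ℝ = 0 := by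
  unfold cA'
  simp only [inner_add_left, real_inner_smul_left, inner_eA_Jm, inner_eB_Jm]
  ring

theorem cB_J (s : ℝ) (u : Dom (2 + m)) : ⟪cB m s, Jm (2 + m) (P₂ (2 + m) 2 u)⟫_ℝ = 0 := by
  unfold cB
  simp only [inner_add_left, real_inner_smul_left, inner_eC_Jm, inner_eD_Jm]
  ring

theorem cB'_J (s : ℝ) (u : Dom (2 + m)) : ⟪cB' m s, Jm (2 + m) (P₂ (2 + m) 2 u)⟫_ℝ = 0 := by
  unfold cB'
  simp only [inner_add_left, real_inner_smul_left, inner_eC_Jm, inner_eD_Jm]
  ring

/-- `1/√2` -/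
noncomputable def rr : ℝ := (Real.sqrt 2)⁻¹

theorem rr_pos : 0 < rr := by unfold rr; positivity

theorem rr_sq : rr ^ 2 = 1 / 2 := by
  unfold rr; rw [inv_pow, Real.sq_sqrt (by norm_num)]; norm_num

/-- the position vector of the cone over the Clifford torus -/
noncomputable def cliX (u : Dom (2 + m)) : Amb (2 + m) :=
  nrm (P₂ (2 + m) 2 u) • (rr • (cA m (u (i₀ m)) + cB m (u (i₁ m)))
    + Jm (2 + m) (P₂ (2 + m) 2 u))

/-- the normal -/
noncomputable def cliN (u : Dom (2 + m)) : Amb (2 + m) :=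
  rr • (cA m (u (i₀ m)) - cB m (u (i₁ m)))

theorem contDiff_cliX : ContDiff ℝ ∞ (cliX m) := by
  unfold cliX
  refine (contDiff_nrm.comp (P₂ (2 + m) 2).contDiff).smul (ContDiff.add ?_ ?_)
  · exact (((contDiff_cA m).comp (contDiff_apply ℝ ℝ (i₀ m))).add
      ((contDiff_cB m).comp (contDiff_apply ℝ ℝ (i₁ m)))).const_smul rr
  · exact (Jm (2 + m)).contDiff.comp (P₂ (2 + m) 2).contDiff

theorem contDiff_cliN : ContDiff ℝ ∞ (cliN m) := by
  unfold cliN
  exact (((contDiff_cA m).comp (contDiff_apply ℝ ℝ (i₀ m))).sub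
      ((contDiff_cB m).comp (contDiff_apply ℝ ℝ (i₁ m)))).const_smul rr

theorem hasFDerivAt_cA (u : Dom (2 + m)) : HasFDerivAt (fun u : Dom (2 + m) => cA m (u (i₀ m)))
    ((ContinuousLinearMap.proj (i₀ m) : Dom (2 + m) →L[ℝ] ℝ).smulRight (cA' m (u (i₀ m)))) u := by
  have h1 : HasFDerivAt (fun u : Dom (2 + m) => u (i₀ m))
    (ContinuousLinearMap.proj (i₀ m) : Dom (2 + m) →L[ℝ] ℝ) u := hasFDerivAt_apply _ _
  have h2 := (hasDerivAt_cA m (u (i₀ m))).hasFDerivAt.comp u h1
  refine h2.congr_fderiv (ContinuousLinearMap.ext fun w => ?_)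
  simp

theorem hasFDerivAt_cB (u : Dom (2 + m)) : HasFDerivAt (fun u : Dom (2 + m) => cB m (u (i₁ m)))
    ((ContinuousLinearMap.proj (i₁ m) : Dom (2 + m) →L[ℝ] ℝ).smulRight (cB' m (u (i₁ m)))) u := by
  have h1 : HasFDerivAt (fun u : Dom (2 + m) => u (i₁ m))
    (ContinuousLinearMap.proj (i₁ m) : Dom (2 + m) →L[ℝ] ℝ) u := hasFDerivAt_apply _ _
  have h2 := (hasDerivAt_cB m (u (i₁ m))).hasFDerivAt.comp u h1
  refine h2.congr_fderiv (ContinuousLinearMap.ext fun w => ?_)
  simp

theorem hasFDerivAt_nP2 (u : Dom (2 + m)) : HasFDerivAt (fun u => nrm (P₂ (2 + m) 2 u))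
    ((fderiv ℝ nrm (P₂ (2 + m) 2 u)).comp (P₂ (2 + m) 2)) u :=
  (contDiff_nrm.differentiable (by simp) _).hasFDerivAt.comp u (P₂ (2 + m) 2).hasFDerivAt

theorem fderiv_cliX (u w : Dom (2 + m)) : fderiv ℝ (cliX m) u w =
    fderiv ℝ nrm (P₂ (2 + m) 2 u) (P₂ (2 + m) 2 w) •
      (rr • (cA m (u (i₀ m)) + cB m (u (i₁ m))) + Jm (2 + m) (P₂ (2 + m) 2 u))
    + nrm (P₂ (2 + m) 2 u) • (rr • (w (i₀ m) • cA' m (u (i₀ m)) + w (i₁ m) • cB' m (u (i₁ m)))
      + Jm (2 + m) (P₂ (2 + m) 2 w)) := by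
  have h1 := hasFDerivAt_nP2 m u
  have h2 := (((hasFDerivAt_cA m u).add (hasFDerivAt_cB m u)).const_smul rr).add
    ((Jm (2 + m)).hasFDerivAt.comp u (P₂ (2 + m) 2).hasFDerivAt)
  have h3 := (h1.smul h2).fderiv
  have h4 : fderiv ℝ (cliX m) u = _ := h3
  rw [h4]
  simp [add_comm]

theorem fderiv_cliN (u w : Dom (2 + m)) : fderiv ℝ (cliN m) u w =
    rr • (w (i₀ m) • cA' m (u (i₀ m)) - w (i₁ m) • cB' m (u (i₁ m))) := by
  have h2 := ((hasFDerivAt_cA m u).sub (hasFDerivAt_cB m u)).const_smul rr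
  have h4 : fderiv ℝ (cliN m) u = _ := h2.fderiv
  rw [h4]
  simp

variable {m}

theorem flip_inner {n : ℕ} {a b : Amb n} (h : ⟪a, b⟫_ℝ = 0) : ⟪b, a⟫_ℝ = 0 := by
  rw [real_inner_comm]; exact h

theorem cliX_component (u w : Dom (2 + m)) :
    ⟪fderiv ℝ (cliX m) u w, rr • (cA m (u (i₀ m)) + cB m (u (i₁ m)))⟫_ℝ
      = fderiv ℝ nrm (P₂ (2 + m) 2 u) (P₂ (2 + m) 2 w) := by
  rw [fderiv_cliX]
  simp only [inner_add_left, inner_add_right, real_inner_smul_left, real_inner_smul_right,
    cA_cA, cB_cB, cA_cB, flip_inner (cA_cB m _ _), flip_inner (cA_cA' m _),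
    flip_inner (cB_cB' m _), flip_inner (cA_cB' m _ _), cA'_cB, flip_inner (cA_J m _ _),
    flip_inner (cB_J m _ _)]
  have h := rr_sq
  linear_combination (2 * fderiv ℝ nrm (P₂ (2 + m) 2 u) (P₂ (2 + m) 2 w)) * h

theorem dom_ext {w : Dom (2 + m)} (h0 : w (i₀ m) = 0) (h1 : w (i₁ m) = 0)
    (h2 : P₂ (2 + m) 2 w = 0) : w = 0 := by
  funext i
  by_cases hi : (i : ℕ) < 2
  · have : i = i₀ m ∨ i = i₁ m := by
      have h3 : (i : ℕ) = 0 ∨ (i : ℕ) = 1 := by omega
      rcases h3 with h3 | h3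
      · left; apply Fin.ext; rw [h3]; rfl
      · right; apply Fin.ext; rw [h3]; rfl
    rcases this with rfl | rfl
    · exact h0
    · exact h1
  · have := congrFun h2 i
    rw [P₂_apply, if_neg hi] at this
    exact this

theorem P₂_of_Jm {n p : ℕ} {w : Dom n} (h : Jm n (P₂ n p w) = 0) : P₂ n p w = 0 := by
  funext i
  rw [← Jm_succ n (P₂ n p w) i, h]; rfl

theorem cliX_injective (u : Dom (2 + m)) : Function.Injective (fderiv ℝ (cliX m) u) := by
  rw [injective_iff_map_eq_zero]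
  intro w hw
  have h1 := cliX_component u w
  rw [hw, inner_zero_left] at h1
  rw [fderiv_cliX, ← h1, zero_smul, zero_add] at hw
  have h2 := (smul_eq_zero.mp hw).resolve_left (nrm_pos _).ne'
  have a1 := congrArg (fun z => ⟪z, cA' m (u (i₀ m))⟫_ℝ) h2
  have a2 := congrArg (fun z => ⟪z, cB' m (u (i₁ m))⟫_ℝ) h2
  simp only [inner_add_left, real_inner_smul_left, cA'_cA', cA'_cB', cB'_cB',
    flip_inner (cA'_cB' m _ _), flip_inner (cA'_J m _ _), flip_inner (cB'_J m _ _),
    inner_zero_left, mul_zero, add_zero, zero_add, mul_one] at a1 a2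
  have b1 := (mul_eq_zero.mp a1).resolve_left rr_pos.ne'
  have b2 := (mul_eq_zero.mp a2).resolve_left rr_pos.ne'
  rw [b1, b2, zero_smul, zero_smul, add_zero, smul_zero, zero_add] at h2
  exact dom_ext b1 b2 (P₂_of_Jm h2)

/-- The cone over the Clifford torus. -/
noncomputable def cliM (m : ℕ) : Hypersurface (2 + m) where
  U := Set.univ
  x := cliX m
  ν := cliN m
  isOpen := isOpen_univ
  isConnected := isConnected_univ
  smooth_x := (contDiff_cliX m).contDiffOn
  smooth_ν := (contDiff_cliN m).contDiffOn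
  immersion := fun u _ => cliX_injective u
  norm_x := by
    intro u _
    have h1 : ⟪cliX m u, cliX m u⟫_ℝ = 1 := by
      unfold cliX
      simp only [inner_add_left, inner_add_right, real_inner_smul_left, real_inner_smul_right,
        cA_cA, cB_cB, cA_cB, flip_inner (cA_cB m _ _), cA_J, cB_J, flip_inner (cA_J m _ _),
        flip_inner (cB_J m _ _), inner_Jm]
      have h2 := nrm_sq (P₂ (2 + m) 2 u)
      unfold ssq at h2
      linear_combination h2 + (2 * (nrm (P₂ (2 + m) 2 u)) ^ 2) * rr_sq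
    rw [real_inner_self_eq_norm_sq] at h1
    have h2 := norm_nonneg (cliX m u)
    nlinarith
  norm_ν := by
    intro u _
    have h1 : ⟪cliN m u, cliN m u⟫_ℝ = 1 := by
      unfold cliN
      simp only [inner_sub_left, inner_sub_right, real_inner_smul_left, real_inner_smul_right,
        cA_cA, cB_cB, cA_cB, flip_inner (cA_cB m _ _)]
      linear_combination 2 * rr_sq
    rw [real_inner_self_eq_norm_sq] at h1
    have h2 := norm_nonneg (cliN m u)
    nlinarith
  inner_x_ν := by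
    intro u _
    unfold cliX cliN
    simp only [inner_add_left, inner_sub_right, real_inner_smul_left, real_inner_smul_right,
      cA_cA, cB_cB, cA_cB, flip_inner (cA_cB m _ _), flip_inner (cA_J m _ _),
      flip_inner (cB_J m _ _)]
    ring
  inner_dx_ν := by
    intro u _ w
    rw [fderiv_cliX]
    unfold cliN
    simp only [inner_add_left, inner_sub_right, real_inner_smul_left, real_inner_smul_right,
      cA_cA, cB_cB, cA_cB, flip_inner (cA_cB m _ _), flip_inner (cA_J m _ _),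
      flip_inner (cB_J m _ _), flip_inner (cA_cA' m _),
      flip_inner (cB_cB' m _), flip_inner (cA_cB' m _ _), cA'_cB]
    ring

theorem cli_curv_zero (u : Dom (2 + m)) : (cliM m).curvSpace u 0
    = LinearMap.ker (P₁ (2 + m) 2 : Dom (2 + m) →ₗ[ℝ] Dom (2 + m)) := by
  ext w
  rw [Hypersurface.mem_curvSpace, LinearMap.mem_ker, zero_smul, neg_zero]
  show fderiv ℝ (cliN m) u w = 0 ↔ P₁ (2 + m) 2 w = 0
  rw [fderiv_cliN]
  constructor
  · intro h
    have h2 := (smul_eq_zero.mp h).resolve_left rr_pos.ne'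
    have a1 := congrArg (fun z => ⟪z, cA' m (u (i₀ m))⟫_ℝ) h2
    have a2 := congrArg (fun z => ⟪z, cB' m (u (i₁ m))⟫_ℝ) h2
    simp only [inner_sub_left, real_inner_smul_left, cA'_cA', cA'_cB', cB'_cB',
      flip_inner (cA'_cB' m _ _), inner_zero_left, mul_zero, sub_zero, zero_sub, mul_one,
      neg_eq_zero] at a1 a2
    funext i
    rw [P₁_apply]
    by_cases hi : (i : ℕ) < 2
    · rw [if_pos hi]
      have : i = i₀ m ∨ i = i₁ m := by
        have h3 : (i : ℕ) = 0 ∨ (i : ℕ) = 1 := by omega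
        rcases h3 with h3 | h3
        · left; apply Fin.ext; rw [h3]; rfl
        · right; apply Fin.ext; rw [h3]; rfl
      rcases this with rfl | rfl
      · exact a1
      · exact a2
    · rw [if_neg hi]; rfl
  · intro h
    have a1 := congrFun h (i₀ m)
    have a2 := congrFun h (i₁ m)
    rw [P₁_apply] at a1 a2
    have b1 : w (i₀ m) = 0 := by simpa [i₀] using a1
    have b2 : w (i₁ m) = 0 := by simpa [i₁] using a2
    rw [b1, b2]; simp

theorem cli_curv_neg (u : Dom (2 + m)) :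
    (cliM m).curvSpace u (-(coneLam 2 m 1 1 u)) = Submodule.span ℝ {Pi.single (i₀ m) 1} := by
  have hn := nrm_pos (P₂ (2 + m) 2 u)
  have hl : coneLam 2 m 1 1 u = (nrm (P₂ (2 + m) 2 u))⁻¹ := by unfold coneLam; ring
  ext w
  rw [Hypersurface.mem_curvSpace, Submodule.mem_span_singleton]
  show fderiv ℝ (cliN m) u w = -(-(coneLam 2 m 1 1 u) • fderiv ℝ (cliX m) u w) ↔ _
  rw [neg_smul, neg_neg, hl]
  constructor
  · intro h
    have h1 := congrArg (fun z => ⟪z, rr • (cA m (u (i₀ m)) + cB m (u (i₁ m)))⟫_ℝ) h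
    simp only [real_inner_smul_left] at h1
    rw [cliX_component, fderiv_cliN] at h1
    simp only [inner_sub_left, inner_add_right, real_inner_smul_left, real_inner_smul_right,
      flip_inner (cA_cA' m _), flip_inner (cB_cB' m _), flip_inner (cA_cB' m _ _), cA'_cB,
      mul_zero, add_zero, sub_zero] at h1
    have h2 : fderiv ℝ nrm (P₂ (2 + m) 2 u) (P₂ (2 + m) 2 w) = 0 :=
      (mul_eq_zero.mp h1.symm).resolve_left (inv_ne_zero hn.ne')
    rw [fderiv_cliN, fderiv_cliX, h2, zero_smul, zero_add, smul_smul, inv_mul_cancel₀ hn.ne',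
      one_smul] at h
    have a2 := congrArg (fun z => ⟪z, cB' m (u (i₁ m))⟫_ℝ) h
    simp only [inner_sub_left, inner_add_left, real_inner_smul_left, cA'_cA', cA'_cB', cB'_cB',
      flip_inner (cA'_cB' m _ _), flip_inner (cB'_J m _ _), mul_zero, sub_zero, zero_sub, mul_one,
      add_zero, zero_add] at a2
    have b2 : w (i₁ m) = 0 := by
      have h3 : rr * w (i₁ m) = 0 := by linarith
      exact (mul_eq_zero.mp h3).resolve_left rr_pos.ne'
    rw [b2, zero_smul, sub_zero, add_zero] at h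
    have h4 : Jm (2 + m) (P₂ (2 + m) 2 w) = 0 := by
      have := left_eq_add.mp h
      exact this
    have h5 := P₂_of_Jm h4
    refine ⟨w (i₀ m), ?_⟩
    rw [← sub_eq_zero]
    apply dom_ext
    · simp
    · simp [i₀_ne_i₁ m, (i₀_ne_i₁ m).symm, b2]
    · rw [map_sub, h5, sub_zero]
      funext i
      rw [P₂_apply]
      by_cases hi : (i : ℕ) < 2
      · rw [if_pos hi]; rfl
      · rw [if_neg hi]
        have : i ≠ i₀ m := by
          rintro rfl
          exact hi (by simp [i₀])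
        simp [this]
  · rintro ⟨a, rfl⟩
    have e1 : P₂ (2 + m) 2 (a • Pi.single (i₀ m) (1 : ℝ)) = 0 := by
      funext i
      rw [P₂_apply]
      by_cases hi : (i : ℕ) < 2
      · rw [if_pos hi]; rfl
      · rw [if_neg hi]
        have : i ≠ i₀ m := by
          rintro rfl
          exact hi (by simp [i₀])
        simp [this]
    rw [fderiv_cliN, fderiv_cliX, e1, map_zero, zero_smul, zero_add, map_zero, add_zero, smul_smul,
      inv_mul_cancel₀ hn.ne', one_smul]
    simp [(i₀_ne_i₁ m).symm]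

theorem cli_curv_pos (u : Dom (2 + m)) :
    (cliM m).curvSpace u (coneLam 2 m 1 1 u) = Submodule.span ℝ {Pi.single (i₁ m) 1} := by
  have hn := nrm_pos (P₂ (2 + m) 2 u)
  have hl : coneLam 2 m 1 1 u = (nrm (P₂ (2 + m) 2 u))⁻¹ := by unfold coneLam; ring
  ext w
  rw [Hypersurface.mem_curvSpace, Submodule.mem_span_singleton]
  show fderiv ℝ (cliN m) u w = -(coneLam 2 m 1 1 u • fderiv ℝ (cliX m) u w) ↔ _
  rw [hl]
  constructor
  · intro h
    have h1 := congrArg (fun z => ⟪z, rr • (cA m (u (i₀ m)) + cB m (u (i₁ m)))⟫_ℝ) h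
    simp only [real_inner_smul_left, inner_neg_left] at h1
    rw [cliX_component, fderiv_cliN] at h1
    simp only [inner_sub_left, inner_add_right, real_inner_smul_left, real_inner_smul_right,
      flip_inner (cA_cA' m _), flip_inner (cB_cB' m _), flip_inner (cA_cB' m _ _), cA'_cB,
      mul_zero, add_zero, sub_zero] at h1
    have h2 : fderiv ℝ nrm (P₂ (2 + m) 2 u) (P₂ (2 + m) 2 w) = 0 := by
      have h3 : (nrm (P₂ (2 + m) 2 u))⁻¹ * fderiv ℝ nrm (P₂ (2 + m) 2 u) (P₂ (2 + m) 2 w) = 0 := by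
        linarith
      exact (mul_eq_zero.mp h3).resolve_left (inv_ne_zero hn.ne')
    rw [fderiv_cliN, fderiv_cliX, h2, zero_smul, zero_add, smul_smul, inv_mul_cancel₀ hn.ne',
      one_smul] at h
    have a2 := congrArg (fun z => ⟪z, cA' m (u (i₀ m))⟫_ℝ) h
    simp only [inner_sub_left, inner_add_left, inner_neg_left, real_inner_smul_left, cA'_cA',
      cA'_cB', cB'_cB',
      flip_inner (cA'_cB' m _ _), flip_inner (cA'_J m _ _), mul_zero, sub_zero, zero_sub, mul_one,
      add_zero, zero_add] at a2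
    have b2 : w (i₀ m) = 0 := by
      have h3 : rr * w (i₀ m) = 0 := by linarith
      exact (mul_eq_zero.mp h3).resolve_left rr_pos.ne'
    rw [b2, zero_smul, zero_sub, zero_add, smul_neg, neg_add] at h
    have h4 : Jm (2 + m) (P₂ (2 + m) 2 w) = 0 := by
      have := left_eq_add.mp h
      exact neg_eq_zero.mp this
    have h5 := P₂_of_Jm h4
    refine ⟨w (i₁ m), ?_⟩
    rw [← sub_eq_zero]
    apply dom_ext
    · simp [i₀_ne_i₁ m, (i₀_ne_i₁ m).symm, b2]
    · simp
    · rw [map_sub, h5, sub_zero]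
      funext i
      rw [P₂_apply]
      by_cases hi : (i : ℕ) < 2
      · rw [if_pos hi]; rfl
      · rw [if_neg hi]
        have : i ≠ i₁ m := by
          rintro rfl
          exact hi (by simp [i₁])
        simp [this]
  · rintro ⟨a, rfl⟩
    have e1 : P₂ (2 + m) 2 (a • Pi.single (i₁ m) (1 : ℝ)) = 0 := by
      funext i
      rw [P₂_apply]
      by_cases hi : (i : ℕ) < 2
      · rw [if_pos hi]; rfl
      · rw [if_neg hi]
        have : i ≠ i₁ m := by
          rintro rfl
          exact hi (by simp [i₁])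
        simp [this]
    rw [fderiv_cliN, fderiv_cliX, e1, map_zero, zero_smul, zero_add, map_zero, add_zero, smul_smul,
      inv_mul_cancel₀ hn.ne', one_smul]
    simp [i₀_ne_i₁ m]

/-- The cone over the Clifford torus is Dupin with three principal curvatures. -/
theorem cli_dupin (hm : 0 < m) : (cliM m).IsDupinWith 3
    ![fun u => -(coneLam 2 m 1 1 u), coneLam 2 m 1 1, fun _ => 0] ![1, 1, m] := by
  have hpos : ∀ u, 0 < coneLam 2 m 1 1 u := by
    intro u
    unfold coneLam
    have := nrm_pos (P₂ (2 + m) 2 u)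
    positivity
  refine ⟨?_, ?_, ?_, ?_, ?_, ?_⟩
  · intro a; fin_cases a
    · exact contDiff_coneLam.neg.contDiffOn
    · exact contDiff_coneLam.contDiffOn
    · exact contDiffOn_const
  · intro u _ a b hab
    have h0 := hpos u
    fin_cases a <;> fin_cases b <;> simp at hab ⊢ <;> linarith
  · intro a; fin_cases a <;> simp [hm]
  · simp [Fin.sum_univ_three]
  · intro u _ a; fin_cases a
    · show Module.finrank ℝ ((cliM m).curvSpace u (-(coneLam 2 m 1 1 u))) = 1
      rw [cli_curv_neg]; exact finrank_span_singleton (by simp)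
    · show Module.finrank ℝ ((cliM m).curvSpace u (coneLam 2 m 1 1 u)) = 1
      rw [cli_curv_pos]; exact finrank_span_singleton (by simp)
    · show Module.finrank ℝ ((cliM m).curvSpace u 0) = m
      rw [cli_curv_zero]; exact finrank_ker_P₁ 2 m
  · have hP : ∀ i : Fin (2 + m), (i : ℕ) < 2 → ∀ a : ℝ, P₂ (2 + m) 2 (a • Pi.single i (1 : ℝ)) = 0 := by
      intro i hi a
      funext j
      rw [P₂_apply]
      by_cases hj : (j : ℕ) < 2
      · rw [if_pos hj]; rfl
      · rw [if_neg hj]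
        have : j ≠ i := by rintro rfl; exact hj hi
        simp [this]
    intro u _ a v hv; fin_cases a
    · change v ∈ (cliM m).curvSpace u (-(coneLam 2 m 1 1 u)) at hv
      rw [cli_curv_neg, Submodule.mem_span_singleton] at hv
      obtain ⟨a, rfl⟩ := hv
      show fderiv ℝ (fun u => -(coneLam 2 m 1 1 u)) u _ = 0
      rw [fderiv_fun_neg]
      have := fderiv_coneLam (p := 2) (q := m) (c := 1) (s := 1) (u := u)
        (hP (i₀ m) (by simp [i₀]) a)
      simp only [ContinuousLinearMap.neg_apply, this, neg_zero]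
    · change v ∈ (cliM m).curvSpace u (coneLam 2 m 1 1 u) at hv
      rw [cli_curv_pos, Submodule.mem_span_singleton] at hv
      obtain ⟨a, rfl⟩ := hv
      exact fderiv_coneLam (hP (i₁ m) (by simp [i₁]) a)
    · show fderiv ℝ (fun _ => (0 : ℝ)) u v = 0
      simp

end Clifford

end Pool.Agent.Helper21.Dupin
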