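import Pool.Agent.Helper21.Dupin.ConeFwd

/-!
Open parts of the cones satisfy the differential identities.
-/

namespace Pool.Agent.Helper21.Dupin

open scoped ContDiff InnerProductSpace Polynomial

namespace Hypersurface

variable {n : ℕ} {M : Hypersurface n} {lam mu : Dom n → ℝ} {p q : ℕ}

/-- The gradient of the inverse of a coordinate function. -/
theorem grad_of_inv (hlam : ContDiffOn ℝ ∞ lam M.U) {ζ : Amb n} (hζ : ⟪ζ, ζ⟫_ℝ = 1) {c₀ r : ℝ}
    (hr : r ≠ 0) (hν : ∀ u ∈ M.U, ⟪ζ, M.ν u⟫_ℝ = c₀) (hx : ∀ u ∈ M.U, lam u * ⟪ζ, M.x u⟫_ℝ = r)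
    {u : Dom n} (hu : u ∈ M.U) :
    M.gradInner lam lam u = lam u ^ 2 * ((1 - c₀ ^ 2) / r ^ 2 * lam u ^ 2 - 1) := by
  set lamS := M.fn lam hlam with hlamS
  have hνS : M.νS ζ = algebraMap ℝ M.Sm c₀ := by
    apply Subtype.ext
    funext v
    exact hν v v.2
  set Y := r⁻¹ • M.xS ζ with hY
  have hinv : lamS * Y = 1 := by
    apply Subtype.ext
    funext v
    have h1 : (lamS * Y).1 v = lam v * (r⁻¹ * ⟪ζ, M.x v⟫_ℝ) := rfl
    have h2 : (1 : M.Sm).1 v = 1 := rfl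
    rw [h1, h2]
    have h3 : lam v * (r⁻¹ * ⟪ζ, M.x v⟫_ℝ) = r⁻¹ * (lam v * ⟪ζ, M.x v⟫_ℝ) := by ring
    rw [h3, hx v v.2, inv_mul_cancel₀ hr]
  have h1 : M.diff.Γ Y Y = algebraMap ℝ M.Sm ((1 - c₀ ^ 2) / r ^ 2) - Y * Y := by
    have h2 := M.car_xS ζ ζ
    rw [hνS, hζ] at h2
    have h3 : M.diff.Γ Y Y = ((r⁻¹) ^ 2) • M.car (M.xS ζ) (M.xS ζ) := by
      rw [hY, map_smul]
      show r⁻¹ • M.diff.Γ (r⁻¹ • M.xS ζ) (M.xS ζ) = _
      rw [map_smul]
      show r⁻¹ • r⁻¹ • M.car (M.xS ζ) (M.xS ζ) = _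
      rw [smul_smul]; congr 1; ring
    rw [h3, h2, hY]
    simp only [Algebra.smul_def, ← map_mul]
    have h4 : algebraMap ℝ M.Sm ((1 - c₀ ^ 2) / r ^ 2) = algebraMap ℝ M.Sm ((r⁻¹) ^ 2)
        * (1 - algebraMap ℝ M.Sm (c₀ * c₀)) := by
      rw [← map_one (algebraMap ℝ M.Sm), ← map_sub, ← map_mul]
      congr 1
      field_simp
    rw [h4, map_one, map_pow]
    ring
  have h2 : M.diff.Γ lamS lamS = lamS ^ 4 * M.diff.Γ Y Y := by
    rw [M.diff.Γ_inv hinv, M.diff.symm, M.diff.Γ_inv hinv]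
    ring
  have h3 : M.diff.Γ lamS lamS
      = lamS ^ 2 * (algebraMap ℝ M.Sm ((1 - c₀ ^ 2) / r ^ 2) * lamS ^ 2 - 1) := by
    rw [h2, h1]
    linear_combination (-lamS ^ 2 * (lamS * Y + 1)) * hinv
  have h4 : (M.diff.Γ lamS lamS).1 ⟨u, hu⟩ = M.gradInner lam lam u := by
    have := M.car_fn lam lam hlam hlam
    have h5 := congrArg (fun g : M.Sm => g.1 ⟨u, hu⟩) this
    exact h5
  rw [← h4, h3]
  rfl

/-- A continuous function on `U` with constant non-zero square is constant up to sign. -/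
theorem const_of_sq {b : Dom n → ℝ} (hb : ContinuousOn b M.U) {B : ℝ} (hB : 0 < B)
    (h : ∀ u ∈ M.U, b u ^ 2 = B ^ 2) : ∃ σ : ℝ, σ ^ 2 = 1 ∧ ∀ u ∈ M.U, b u = σ * B := by
  obtain ⟨u₀, hu₀⟩ := M.isConnected.nonempty
  have hoc := (M.isConnected.isPreconnected.image b hb).ordConnected
  have hb0 : ∀ u ∈ M.U, b u ≠ 0 := by
    intro u hu h0
    have := h u hu
    rw [h0] at this
    have : 0 < B ^ 2 := by positivity
    simp_all
  have hpm : ∀ u ∈ M.U, b u = B ∨ b u = -B := fun u hu => sq_eq_sq_iff_eq_or_eq_neg.mp (h u hu)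
  rcases hpm u₀ hu₀ with h0 | h0
  · refine ⟨1, by norm_num, fun u hu => ?_⟩
    rcases hpm u hu with h1 | h1
    · rw [h1, one_mul]
    · exfalso
      obtain ⟨v, hv, hv0⟩ := hoc.out ⟨u, hu, rfl⟩ ⟨u₀, hu₀, rfl⟩
        (⟨by rw [h1]; linarith, by rw [h0]; linarith⟩ : (0 : ℝ) ∈ Set.Icc (b u) (b u₀))
      exact hb0 v hv hv0
  · refine ⟨-1, by norm_num, fun u hu => ?_⟩
    rcases hpm u hu with h1 | h1
    · exfalso
      obtain ⟨v, hv, hv0⟩ := hoc.out ⟨u₀, hu₀, rfl⟩ ⟨u, hu, rfl⟩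
        (⟨by rw [h0]; linarith, by rw [h1]; linarith⟩ : (0 : ℝ) ∈ Set.Icc (b u₀) (b u))
      exact hb0 v hv hv0
    · rw [h1]; ring

/-- The unit normal of an open part of a cone. -/
theorem cone_normal {t : ℝ} (ht : 0 < t) {W : Submodule ℝ (Amb n)} {ζ : Amb n} (hζ : ‖ζ‖ = 1)
    (hζW : ζ ∈ Wᗮ) (hx : ∀ u ∈ M.U, 0 < ⟪M.x u, ζ⟫_ℝ ∧
      ⟪M.x u, ζ⟫_ℝ = t * ‖W.starProjection (M.x u)‖) :
    ∃ σ : ℝ, σ ^ 2 = 1 ∧ (∀ u ∈ M.U, ζ - (t ^ 2 / ⟪M.x u, ζ⟫_ℝ) • W.starProjection (M.x u)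
      = (σ * Real.sqrt (1 + t ^ 2)) • M.ν u) ∧
      ∀ u ∈ M.U, ∀ v, ⟪W.starProjection (M.x u), fderiv ℝ M.x u v⟫_ℝ
        = ⟪M.x u, ζ⟫_ℝ / t ^ 2 * ⟪fderiv ℝ M.x u v, ζ⟫_ℝ := by
  set P := W.starProjection with hP
  have hPP : ∀ y z : Amb n, ⟪P y, P z⟫_ℝ = ⟪P y, z⟫_ℝ := by
    intro y z
    have h1 := Submodule.starProjection_inner_eq_zero (K := W) z (P y)
      (Submodule.starProjection_apply_mem W y)
    rw [inner_sub_left, real_inner_comm, real_inner_comm (P y) (W.starProjection z)] at h1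
    linarith
  have hPζ : ∀ y : Amb n, ⟪P y, ζ⟫_ℝ = 0 := fun y =>
    (Submodule.mem_orthogonal W ζ).mp hζW _ (Submodule.starProjection_apply_mem W y)
  have hζζ : ⟪ζ, ζ⟫_ℝ = 1 := by rw [real_inner_self_eq_norm_sq, hζ]; norm_num
  -- the norm of the projection
  have hn : ∀ u ∈ M.U, ⟪P (M.x u), M.x u⟫_ℝ = ⟪M.x u, ζ⟫_ℝ ^ 2 / t ^ 2 := by
    intro u hu
    rw [← hPP, real_inner_self_eq_norm_sq]
    rw [(hx u hu).2, mul_pow]
    field_simp
  have hd : ∀ u ∈ M.U, ∀ v, ⟪P (M.x u), fderiv ℝ M.x u v⟫_ℝ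
        = ⟪M.x u, ζ⟫_ℝ / t ^ 2 * ⟪fderiv ℝ M.x u v, ζ⟫_ℝ := by
    intro u hu v
    have hdx := (diffAt M.isOpen M.smooth_x hu).hasFDerivAt
    have hdP : HasFDerivAt (fun w => P (M.x w)) (P.comp (fderiv ℝ M.x u)) u :=
      P.hasFDerivAt.comp u hdx
    have h1 : fderiv ℝ (fun w => ⟪P (M.x w), M.x w⟫_ℝ) u v
        = ⟪P (M.x u), fderiv ℝ M.x u v⟫_ℝ + ⟪P (fderiv ℝ M.x u v), M.x u⟫_ℝ := by
      rw [fderiv_inner_apply ℝ hdP.differentiableAt hdx.differentiableAt, hdP.fderiv]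
      rfl
    have h2 : fderiv ℝ (fun w => ⟪M.x w, ζ⟫_ℝ) u v = ⟪fderiv ℝ M.x u v, ζ⟫_ℝ := by
      rw [fderiv_inner_apply ℝ hdx.differentiableAt (differentiableAt_const ζ)]
      simp
    have h3 : fderiv ℝ (fun w => ⟪M.x w, ζ⟫_ℝ ^ 2 / t ^ 2) u v
        = 2 * ⟪M.x u, ζ⟫_ℝ * ⟪fderiv ℝ M.x u v, ζ⟫_ℝ / t ^ 2 := by
      have h4 : HasFDerivAt (fun w => ⟪M.x w, ζ⟫_ℝ) (fderiv ℝ (fun w => ⟪M.x w, ζ⟫_ℝ) u) u :=
        (hdx.differentiableAt.inner ℝ (differentiableAt_const ζ)).hasFDerivAt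
      have h5 : HasFDerivAt (fun w => ⟪M.x w, ζ⟫_ℝ ^ 2 / t ^ 2) _ u :=
        ((h4.pow 2).mul_const ((t ^ 2)⁻¹))
      rw [h5.fderiv]
      simp [h2]
      ring
    have h6 : fderiv ℝ (fun w => ⟪P (M.x w), M.x w⟫_ℝ) u
        = fderiv ℝ (fun w => ⟪M.x w, ζ⟫_ℝ ^ 2 / t ^ 2) u :=
      Filter.EventuallyEq.fderiv_eq (Filter.eventuallyEq_of_mem (M.isOpen.mem_nhds hu) hn)
    rw [h6, h3] at h1
    have h7 : ⟪P (fderiv ℝ M.x u v), M.x u⟫_ℝ = ⟪P (M.x u), fderiv ℝ M.x u v⟫_ℝ := by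
      rw [← hPP, real_inner_comm, hPP]
    rw [h7] at h1
    have : ⟪P (M.x u), fderiv ℝ M.x u v⟫_ℝ
      = (2 * ⟪M.x u, ζ⟫_ℝ * ⟪fderiv ℝ M.x u v, ζ⟫_ℝ / t ^ 2) / 2 := by linarith
    rw [this]; ring
  set N : Dom n → Amb n := fun u => ζ - (t ^ 2 / ⟪M.x u, ζ⟫_ℝ) • P (M.x u) with hN
  have hNν : ∀ u ∈ M.U, N u = ⟪N u, M.ν u⟫_ℝ • M.ν u := by
    intro u hu
    have ha := (hx u hu).1
    rw [← sub_eq_zero]
    apply M.eq_zero_of_orth hu
    · intro i
      rw [inner_sub_left, real_inner_smul_left, real_inner_comm (pd i M.x u) (M.ν u)]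
      have h1 : ⟪pd i M.x u, M.ν u⟫_ℝ = 0 := M.inner_dx_ν u hu _
      have h2 := hd u hu (Pi.single i 1)
      simp only [hN, inner_sub_left, real_inner_smul_left]
      change ⟪P (M.x u), pd i M.x u⟫_ℝ = ⟪M.x u, ζ⟫_ℝ / t ^ 2 * ⟪pd i M.x u, ζ⟫_ℝ at h2
      rw [h1, h2, real_inner_comm (pd i M.x u) ζ]
      field_simp
      ring
    · rw [inner_sub_left, real_inner_smul_left, real_inner_comm (M.x u) (M.ν u),
        M.inner_x_ν u hu]
      simp only [hN, inner_sub_left, real_inner_smul_left]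
      rw [hn u hu, real_inner_comm (M.x u) ζ]
      field_simp
      ring
    · rw [inner_sub_left, real_inner_smul_left, M.inner_νν hu, mul_one, sub_self]
  have hNN : ∀ u ∈ M.U, ⟪N u, N u⟫_ℝ = 1 + t ^ 2 := by
    intro u hu
    have ha := (hx u hu).1
    simp only [hN, inner_sub_left, inner_sub_right, real_inner_smul_left, real_inner_smul_right]
    rw [hPP, hn u hu, hζζ, hPζ, real_inner_comm (P (M.x u)) ζ, hPζ]
    field_simp
    ring
  obtain ⟨σ, hσ, hσb⟩ := const_of_sq (M := M) (b := fun u => ⟪N u, M.ν u⟫_ℝ)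
    (B := Real.sqrt (1 + t ^ 2)) (by
      have hNc : ContinuousOn N M.U := by
        have k1 : ContinuousOn (fun u => ⟪M.x u, ζ⟫_ℝ) M.U :=
          ContinuousOn.inner M.smooth_x.continuousOn continuousOn_const
        have k2 : ContinuousOn (fun u => t ^ 2 / ⟪M.x u, ζ⟫_ℝ) M.U :=
          continuousOn_const.div k1 fun u hu => ((hx u hu).1).ne'
        have k3 : ContinuousOn (fun u => P (M.x u)) M.U :=
          P.continuous.comp_continuousOn M.smooth_x.continuousOn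
        exact continuousOn_const.sub (k2.smul k3)
      exact ContinuousOn.inner hNc M.smooth_ν.continuousOn) (Real.sqrt_pos.mpr (by positivity)) (by
      intro u hu
      rw [Real.sq_sqrt (by positivity), ← hNN u hu]
      conv_rhs => rw [hNν u hu]
      rw [real_inner_smul_left, real_inner_smul_right, M.inner_νν hu]
      ring)
  refine ⟨σ, hσ, fun u hu => ?_, hd⟩
  have h1 := hNν u hu
  rw [show ⟪N u, M.ν u⟫_ℝ = σ * Real.sqrt (1 + t ^ 2) from hσb u hu] at h1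
  exact h1

/-- Conversely an open part of a cone which is a Dupin hypersurface with two principal curvatures
satisfies the identities. -/
theorem TwoPC.of_isConePart {p' : ℕ} (h : M.TwoPC lam mu p q) {t : ℝ} (ht : 0 < t)
    (hc : M.IsConePart p' t) :
    ((∀ u ∈ M.U, mu u = 0) ∧ p = p' ∧
      ∀ u ∈ M.U, M.gradInner lam lam u = lam u ^ 2 * (1 / t ^ 2 * lam u ^ 2 - 1)) ∨
    ((∀ u ∈ M.U, lam u = 0) ∧ q = p' ∧
      ∀ u ∈ M.U, M.gradInner mu mu u = mu u ^ 2 * (1 / t ^ 2 * mu u ^ 2 - 1)) := by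
  obtain ⟨W, ζ, hW, hζ, hζW, hx⟩ := hc
  obtain ⟨σ, hσ, hN, hd⟩ := cone_normal ht hζ hζW hx
  set P := W.starProjection with hP
  set B := Real.sqrt (1 + t ^ 2) with hB
  have hBpos : 0 < B := Real.sqrt_pos.mpr (by positivity)
  have hB2 : B ^ 2 = 1 + t ^ 2 := Real.sq_sqrt (by positivity)
  have hσ0 : σ ≠ 0 := by rintro rfl; norm_num at hσ
  have hPζ : ∀ y : Amb n, ⟪P y, ζ⟫_ℝ = 0 := fun y =>
    (Submodule.mem_orthogonal W ζ).mp hζW _ (Submodule.starProjection_apply_mem W y)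
  have hζζ : ⟪ζ, ζ⟫_ℝ = 1 := by rw [real_inner_self_eq_norm_sq, hζ]; norm_num
  -- derivative of the normal
  have hdν : ∀ u ∈ M.U, ∀ v, ⟪fderiv ℝ M.x u v, ζ⟫_ℝ • ζ - (t ^ 2) • P (fderiv ℝ M.x u v)
      = (σ * B) • (⟪fderiv ℝ M.x u v, ζ⟫_ℝ • M.ν u + ⟪M.x u, ζ⟫_ℝ • fderiv ℝ M.ν u v) := by
    intro u hu v
    have hdx := (diffAt M.isOpen M.smooth_x hu).hasFDerivAt
    have hdn := (diffAt M.isOpen M.smooth_ν hu).hasFDerivAt
    have hdP : HasFDerivAt (fun w => P (M.x w)) (P.comp (fderiv ℝ M.x u)) u :=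
      P.hasFDerivAt.comp u hdx
    have hda : HasFDerivAt (fun w => ⟪M.x w, ζ⟫_ℝ) ((innerSL ℝ ζ).comp (fderiv ℝ M.x u)) u := by
      have h1 : HasFDerivAt (fun w => ⟪ζ, M.x w⟫_ℝ) ((innerSL ℝ ζ).comp (fderiv ℝ M.x u)) u :=
        (innerSL ℝ ζ).hasFDerivAt.comp u hdx
      have h2 : (fun w => ⟪M.x w, ζ⟫_ℝ) = fun w => ⟪ζ, M.x w⟫_ℝ := by
        funext w; rw [real_inner_comm]
      rw [h2]; exact h1
    have h3 : HasFDerivAt (fun w => ⟪M.x w, ζ⟫_ℝ • ζ - (t ^ 2) • P (M.x w)) _ u :=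
      (hda.smul_const ζ).sub (hdP.const_smul (t ^ 2))
    have h4 : HasFDerivAt (fun w => (σ * B) • (⟪M.x w, ζ⟫_ℝ • M.ν w)) _ u :=
      (hda.smul hdn).const_smul (σ * B)
    have h5 : fderiv ℝ (fun w => ⟪M.x w, ζ⟫_ℝ • ζ - (t ^ 2) • P (M.x w)) u
        = fderiv ℝ (fun w => (σ * B) • (⟪M.x w, ζ⟫_ℝ • M.ν w)) u := by
      apply Filter.EventuallyEq.fderiv_eq
      refine Filter.eventuallyEq_of_mem (M.isOpen.mem_nhds hu) fun w hw => ?_
      have h6 := congrArg (fun z => ⟪M.x w, ζ⟫_ℝ • z) (hN w hw)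
      simp only [smul_sub, smul_smul] at h6
      have h7 : ⟪M.x w, ζ⟫_ℝ * (t ^ 2 / ⟪M.x w, ζ⟫_ℝ) = t ^ 2 := by
        have := ((hx w hw).1).ne'
        field_simp
      rw [h7] at h6
      show ⟪M.x w, ζ⟫_ℝ • ζ - (t ^ 2) • P (M.x w) = (σ * B) • (⟪M.x w, ζ⟫_ℝ • M.ν w)
      rw [h6, smul_smul, mul_comm]
    rw [h3.fderiv, h4.fderiv] at h5
    have h6 := congrArg (fun T : Dom n →L[ℝ] Amb n => T v) h5
    have h7 : ⟪ζ, fderiv ℝ M.x u v⟫_ℝ = ⟪fderiv ℝ M.x u v, ζ⟫_ℝ := real_inner_comm _ _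
    simp only [sub_apply, ContinuousLinearMap.smulRight_apply,
      ContinuousLinearMap.comp_apply, smul_apply,
      add_apply, innerSL_apply_apply, h7] at h6
    rw [h6]
    congr 1
    rw [add_comm]
  -- the curvature equation
  have hkey : ∀ u ∈ M.U, ∀ v r, v ∈ M.curvSpace u r →
      (σ * B * ⟪M.x u, ζ⟫_ℝ * r) • fderiv ℝ M.x u v = (t ^ 2) • P (fderiv ℝ M.x u v)
        - (⟪fderiv ℝ M.x u v, ζ⟫_ℝ * (t ^ 2 / ⟪M.x u, ζ⟫_ℝ)) • P (M.x u) := by
    intro u hu v r hv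
    rw [M.mem_curvSpace] at hv
    have h1 := hdν u hu v
    rw [hv, smul_add, smul_comm (σ * B) (⟪fderiv ℝ M.x u v, ζ⟫_ℝ), ← hN u hu, smul_sub] at h1
    have h2 : (σ * B * ⟪M.x u, ζ⟫_ℝ * r) • fderiv ℝ M.x u v
        = -((σ * B) • ⟪M.x u, ζ⟫_ℝ • -(r • fderiv ℝ M.x u v)) := by
      simp only [smul_neg, smul_smul, neg_neg, mul_assoc]
    rw [h2]
    linear_combination (norm := module) h1
  have hΛ : ∀ u ∈ M.U, ∀ r, M.IsPrincipalCurvature u r → r ≠ 0 →
      r = t ^ 2 / (σ * B * ⟪M.x u, ζ⟫_ℝ) := by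
    intro u hu r hr hr0
    have ha := (hx u hu).1
    obtain ⟨v, hv, hv0⟩ := (Submodule.ne_bot_iff _).mp hr
    have h1 := hkey u hu v r hv
    have hne : σ * B * ⟪M.x u, ζ⟫_ℝ * r ≠ 0 := by positivity
    have hmem : fderiv ℝ M.x u v ∈ W := by
      have h2 : (σ * B * ⟪M.x u, ζ⟫_ℝ * r) • fderiv ℝ M.x u v ∈ W := by
        rw [h1]
        exact Submodule.sub_mem _ (Submodule.smul_mem _ _ (Submodule.starProjection_apply_mem W _))
          (Submodule.smul_mem _ _ (Submodule.starProjection_apply_mem W _))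
      exact (Submodule.smul_mem_iff _ hne).mp h2
    have hPv : P (fderiv ℝ M.x u v) = fderiv ℝ M.x u v := Submodule.starProjection_eq_self_iff.mpr hmem
    have hζv : ⟪fderiv ℝ M.x u v, ζ⟫_ℝ = 0 := (Submodule.mem_orthogonal W ζ).mp hζW _ hmem
    rw [hPv, hζv, zero_mul, zero_smul, sub_zero, ← sub_eq_zero, ← sub_smul] at h1
    have hdx0 : fderiv ℝ M.x u v ≠ 0 := fun h0 => hv0 (M.immersion u hu (by rw [h0, map_zero]))
    have h2 := (smul_eq_zero.mp h1).resolve_right hdx0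
    rw [eq_div_iff (by positivity)]
    linarith
  -- one principal curvature vanishes
  have hprl : ∀ u ∈ M.U, M.IsPrincipalCurvature u (lam u) := by
    intro u hu h0
    have h1 := h.fr_lam u hu
    rw [h0, finrank_bot] at h1
    have := h.hp
    omega
  have hprm : ∀ u ∈ M.U, M.IsPrincipalCurvature u (mu u) := by
    intro u hu h0
    have h1 := h.fr_mu u hu
    rw [h0, finrank_bot] at h1
    have := h.hq
    omega
  have hor : ∀ u ∈ M.U, lam u = 0 ∨ mu u = 0 := by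
    intro u hu
    by_contra hcon
    push Not at hcon
    exact h.ne u hu ((hΛ u hu _ (hprl u hu) hcon.1).trans (hΛ u hu _ (hprm u hu) hcon.2).symm)
  -- the case where `mu` vanishes
  have main : ∀ (lam mu : Dom n → ℝ) (p q : ℕ), M.TwoPC lam mu p q → (∀ u ∈ M.U, mu u = 0) →
      p = p' ∧ ∀ u ∈ M.U, M.gradInner lam lam u = lam u ^ 2 * (1 / t ^ 2 * lam u ^ 2 - 1) := by
    intro lam mu p q h hmu
    have hlam0 : ∀ u ∈ M.U, lam u ≠ 0 := by
      intro u hu h0
      exact h.ne u hu (by rw [h0, hmu u hu])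
    have hpr : ∀ u ∈ M.U, M.IsPrincipalCurvature u (lam u) := by
      intro u hu h0
      have h1 := h.fr_lam u hu
      rw [h0, finrank_bot] at h1
      have := h.hp
      omega
    have hl : ∀ u ∈ M.U, lam u = t ^ 2 / (σ * B * ⟪M.x u, ζ⟫_ℝ) := fun u hu =>
      hΛ u hu _ (hpr u hu) (hlam0 u hu)
    constructor
    · obtain ⟨u, hu⟩ := M.isConnected.nonempty
      have ha := (hx u hu).1
      rw [← h.fr_lam u hu]
      have hPx : P (M.x u) ≠ 0 := by
        intro h0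
        have h1 := (hx u hu).2
        rw [h0, norm_zero, mul_zero] at h1
        linarith
      have hmap : (M.curvSpace u (lam u)).map (fderiv ℝ M.x u : Dom n →ₗ[ℝ] Amb n)
          = (Submodule.span ℝ {P (M.x u)})ᗮ ⊓ W := by
        ext w
        rw [Submodule.mem_inf, Submodule.mem_orthogonal_singleton_iff_inner_right]
        constructor
        · rintro ⟨v, hv, rfl⟩
          show ⟪P (M.x u), fderiv ℝ M.x u v⟫_ℝ = 0 ∧ fderiv ℝ M.x u v ∈ W
          have h1 := hkey u hu v _ hv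
          have hne : σ * B * ⟪M.x u, ζ⟫_ℝ * lam u ≠ 0 := by
            have := hlam0 u hu
            positivity
          have hmem : fderiv ℝ M.x u v ∈ W := by
            have h2 : (σ * B * ⟪M.x u, ζ⟫_ℝ * lam u) • fderiv ℝ M.x u v ∈ W := by
              rw [h1]
              exact Submodule.sub_mem _
                (Submodule.smul_mem _ _ (Submodule.starProjection_apply_mem W _))
                (Submodule.smul_mem _ _ (Submodule.starProjection_apply_mem W _))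
            exact (Submodule.smul_mem_iff _ hne).mp h2
          refine ⟨?_, hmem⟩
          rw [hd u hu v, (Submodule.mem_orthogonal W ζ).mp hζW _ hmem, mul_zero]
        · rintro ⟨h1, h2⟩
          have hζw : ⟪w, ζ⟫_ℝ = 0 := (Submodule.mem_orthogonal W ζ).mp hζW _ h2
          have hwx : ⟪w, M.x u⟫_ℝ = 0 := by
            have h3 := Submodule.starProjection_inner_eq_zero (K := W) (M.x u) w h2
            rw [inner_sub_left, real_inner_comm] at h3
            change ⟪w, M.x u⟫_ℝ - ⟪P (M.x u), w⟫_ℝ = 0 at h3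
            rw [h1, sub_zero] at h3
            exact h3
          have hwν : ⟪w, M.ν u⟫_ℝ = 0 := by
            have h3 := congrArg (fun z => ⟪w, z⟫_ℝ) (hN u hu)
            simp only [inner_sub_right, real_inner_smul_right] at h3
            rw [hζw, real_inner_comm (P (M.x u)) w, h1, mul_zero, sub_zero] at h3
            exact (mul_eq_zero.mp h3.symm).resolve_left (by positivity)
          obtain ⟨v, hv⟩ := exists_decomp hu w
          rw [hwx, hwν, zero_smul, zero_smul, add_zero, add_zero] at hv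
          refine ⟨v, ?_, hv.symm⟩
          show v ∈ M.curvSpace u (lam u)
          rw [M.mem_curvSpace]
          have h3 := hdν u hu v
          rw [← hv, hζw, zero_smul, zero_smul, zero_sub, zero_add,
            show P w = w from Submodule.starProjection_eq_self_iff.mpr h2, smul_smul] at h3
          rw [← hv, hl u hu]
          have h4 : fderiv ℝ M.ν u v = (σ * B * ⟪M.x u, ζ⟫_ℝ)⁻¹ • -(t ^ 2 • w) := by
            rw [h3, smul_smul, inv_mul_cancel₀ (by positivity), one_smul]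
          rw [h4, smul_neg, smul_smul, div_eq_inv_mul]
      have hinj : Function.Injective (fderiv ℝ M.x u : Dom n →ₗ[ℝ] Amb n) := M.immersion u hu
      have h1 := (Submodule.equivMapOfInjective _ hinj (M.curvSpace u (lam u))).finrank_eq
      rw [h1, hmap]
      apply Submodule.finrank_add_inf_finrank_orthogonal'
      · rw [Submodule.span_singleton_le_iff_mem]
        exact Submodule.starProjection_apply_mem W _
      · rw [finrank_span_singleton hPx, hW]; ring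
    · intro u hu
      have hσ2 : σ ^ 2 = 1 := hσ
      have h1 := grad_of_inv (M := M) h.smooth_lam (ζ := ζ) hζζ (c₀ := 1 / (σ * B))
        (r := t ^ 2 / (σ * B)) (by positivity) (by
          intro v hv
          have h2 := congrArg (fun z => ⟪z, ζ⟫_ℝ) (hN v hv)
          simp only [inner_sub_left, real_inner_smul_left] at h2
          rw [hζζ, hPζ, mul_zero, sub_zero, real_inner_comm] at h2
          rw [eq_div_iff (by positivity)]
          linarith) (by
          intro v hv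
          have ha := ((hx v hv).1).ne'
          rw [real_inner_comm] at ha
          rw [hl v hv, real_inner_comm]
          field_simp) hu
      rw [h1]
      have h2 : (1 - (1 / (σ * B)) ^ 2) / (t ^ 2 / (σ * B)) ^ 2 = 1 / t ^ 2 := by
        rw [div_pow, div_pow, mul_pow, hσ2, one_mul, hB2]
        field_simp
        ring
      rw [h2]
  -- conclusion
  have hcov := exists_of_cover (M := M) (fun b : Bool => if b then {u | u ∈ M.U ∧ lam u ≠ 0}
      else {u | u ∈ M.U ∧ mu u ≠ 0}) (by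
    intro b
    cases b
    · simp only [Bool.false_eq_true, if_false]
      exact h.smooth_mu.continuousOn.isOpen_inter_preimage M.isOpen isOpen_compl_singleton
    · simp only [if_true]
      exact h.smooth_lam.continuousOn.isOpen_inter_preimage M.isOpen isOpen_compl_singleton)
    (by
      intro u hu
      by_cases h0 : lam u = 0
      · refine ⟨false, ?_⟩
        simp only [Bool.false_eq_true, if_false]
        exact ⟨hu, fun h1 => h.ne u hu (by rw [h0, h1])⟩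
      · exact ⟨true, by simp only [if_true]; exact ⟨hu, h0⟩⟩)
    (by
      intro a b u hu ha hb
      have : ∀ u ∈ M.U, ¬ (lam u ≠ 0 ∧ mu u ≠ 0) := by
        intro u hu hcon
        rcases hor u hu with h0 | h0
        · exact hcon.1 h0
        · exact hcon.2 h0
      cases a <;> cases b
      · rfl
      · simp only [Bool.false_eq_true, if_false, if_true] at ha hb
        exact absurd ⟨hb.2, ha.2⟩ (this u hu)
      · simp only [Bool.false_eq_true, if_false, if_true] at ha hb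
        exact absurd ⟨ha.2, hb.2⟩ (this u hu)
      · rfl)
  obtain ⟨b, hb⟩ := hcov
  cases b
  · right
    simp only [Bool.false_eq_true, if_false] at hb
    have hz : ∀ u ∈ M.U, lam u = 0 := fun u hu => (hor u hu).resolve_right (hb hu).2
    exact ⟨hz, main mu lam q p h.symm hz⟩
  · left
    simp only [if_true] at hb
    have hz : ∀ u ∈ M.U, mu u = 0 := fun u hu => (hor u hu).resolve_left (hb hu).2
    exact ⟨hz, main lam mu p q h hz⟩

end Hypersurface

end Pool.Agent.Helper21.Dupin
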