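import Pool.Agent.Helper21.Dupin.Converse

/-!
The explicit hypersurfaces: cones over small spheres.
-/

namespace Pool.Agent.Helper21.Dupin

open scoped ContDiff InnerProductSpace

/-- the embedding of the parameter space in the last `n` coordinates of the ambient space -/
noncomputable def Jm (n : ℕ) : Dom n →L[ℝ] Amb n :=
  LinearMap.toContinuousLinearMap
    { toFun := fun u => WithLp.toLp 2 (Fin.cons 0 (Fin.cons 0 u) : Fin (n + 2) → ℝ)
      map_add' := by
        intro u v
        ext i
        refine Fin.cases ?_ (fun i => ?_) i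
        · simp
        · refine Fin.cases ?_ (fun i => ?_) i
          · simp
          · simp
      map_smul' := by
        intro c u
        ext i
        refine Fin.cases ?_ (fun i => ?_) i
        · simp
        · refine Fin.cases ?_ (fun i => ?_) i
          · simp
          · simp }

theorem Jm_zero' (n : ℕ) (u : Dom n) : Jm n u 0 = 0 := rfl

theorem Jm_one' (n : ℕ) (u : Dom n) : Jm n u (Fin.succ 0) = 0 := rfl

theorem Jm_succ (n : ℕ) (u : Dom n) (i : Fin n) : Jm n u i.succ.succ = u i := rfl

/-- first unit vector -/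
noncomputable def eA (n : ℕ) : Amb n := EuclideanSpace.single 0 1

/-- second unit vector -/
noncomputable def eB (n : ℕ) : Amb n := EuclideanSpace.single (Fin.succ 0) 1

theorem inner_Jm (n : ℕ) (u v : Dom n) : ⟪Jm n u, Jm n v⟫_ℝ = ∑ i, u i * v i := by
  rw [PiLp.inner_apply, Fin.sum_univ_succ, Fin.sum_univ_succ]
  simp only [Jm_zero', Jm_one', Jm_succ]
  simp [mul_comm]

theorem inner_eA_Jm (n : ℕ) (u : Dom n) : ⟪eA n, Jm n u⟫_ℝ = 0 := by
  unfold eA
  rw [EuclideanSpace.inner_single_left, Jm_zero']; simp

theorem inner_eB_Jm (n : ℕ) (u : Dom n) : ⟪eB n, Jm n u⟫_ℝ = 0 := by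
  unfold eB
  rw [EuclideanSpace.inner_single_left, Jm_one']; simp

theorem inner_eA_eB (n : ℕ) : ⟪eA n, eB n⟫_ℝ = 0 := by
  unfold eA eB
  rw [EuclideanSpace.inner_single_left]
  simp [PiLp.single_apply]

theorem inner_eA_eA (n : ℕ) : ⟪eA n, eA n⟫_ℝ = 1 := by
  unfold eA
  rw [EuclideanSpace.inner_single_left]; simp

theorem inner_eB_eB (n : ℕ) : ⟪eB n, eB n⟫_ℝ = 1 := by
  unfold eB
  rw [EuclideanSpace.inner_single_left]; simp

/-- the sum of the squares -/
noncomputable def ssq {n : ℕ} (u : Dom n) : ℝ := ∑ i, u i * u i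

theorem ssq_nonneg {n : ℕ} (u : Dom n) : 0 ≤ ssq u :=
  Finset.sum_nonneg fun i _ => mul_self_nonneg _

theorem ssq_eq_zero {n : ℕ} {u : Dom n} (h : ssq u = 0) : u = 0 := by
  unfold ssq at h
  rw [Finset.sum_eq_zero_iff_of_nonneg fun i _ => mul_self_nonneg _] at h
  funext i
  exact mul_self_eq_zero.mp (h i (Finset.mem_univ _))

theorem contDiff_ssq {n : ℕ} : ContDiff ℝ ∞ (ssq : Dom n → ℝ) := by
  unfold ssq
  exact ContDiff.sum fun i _ => (contDiff_apply ℝ ℝ i).mul (contDiff_apply ℝ ℝ i)

/-- `1 / √(1 + |u|²)` -/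
noncomputable def nrm {n : ℕ} (u : Dom n) : ℝ := (Real.sqrt (1 + ssq u))⁻¹

theorem contDiff_nrm {n : ℕ} : ContDiff ℝ ∞ (nrm : Dom n → ℝ) := by
  unfold nrm
  refine ContDiff.inv ?_ ?_
  · refine ContDiff.sqrt (contDiff_const.add contDiff_ssq) ?_
    intro u
    have := ssq_nonneg u
    positivity
  · intro u
    have := ssq_nonneg u
    positivity

theorem nrm_pos {n : ℕ} (u : Dom n) : 0 < nrm u := by
  unfold nrm
  have := ssq_nonneg u
  positivity

theorem nrm_sq {n : ℕ} (u : Dom n) : nrm u ^ 2 * (1 + ssq u) = 1 := by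
  unfold nrm
  have h := ssq_nonneg u
  rw [inv_pow, Real.sq_sqrt (by positivity), inv_mul_cancel₀ (by positivity)]

/-- the unit vector `(e_A + J u) / √(1 + |u|²)` -/
noncomputable def yv {n : ℕ} (u : Dom n) : Amb n := nrm u • (eA n + Jm n u)

theorem contDiff_yv {n : ℕ} : ContDiff ℝ ∞ (yv : Dom n → Amb n) := by
  unfold yv
  exact contDiff_nrm.smul (contDiff_const.add (Jm n).contDiff)

theorem inner_yv {n : ℕ} (u : Dom n) : ⟪yv u, yv u⟫_ℝ = 1 := by
  unfold yv
  rw [real_inner_smul_left, real_inner_smul_right, inner_add_left, inner_add_right,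
    inner_add_right, inner_eA_eA, inner_eA_Jm, real_inner_comm, inner_eA_Jm, inner_Jm]
  have := nrm_sq u
  unfold ssq at this
  linarith

theorem inner_yv_eB {n : ℕ} (u : Dom n) : ⟪yv u, eB n⟫_ℝ = 0 := by
  unfold yv
  rw [real_inner_smul_left, inner_add_left, inner_eA_eB, real_inner_comm, inner_eB_Jm]
  ring

/-- projections on the first `p` coordinates -/
noncomputable def P₁ (n p : ℕ) : Dom n →L[ℝ] Dom n :=
  LinearMap.toContinuousLinearMap
    { toFun := fun u i => if (i : ℕ) < p then u i else 0
      map_add' := by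
        intro u v; funext i; simp only [Pi.add_apply]; split_ifs <;> simp
      map_smul' := by
        intro c u; funext i; simp only [Pi.smul_apply, RingHom.id_apply]; split_ifs <;> simp }

/-- projections on the other coordinates -/
noncomputable def P₂ (n p : ℕ) : Dom n →L[ℝ] Dom n :=
  LinearMap.toContinuousLinearMap
    { toFun := fun u i => if (i : ℕ) < p then 0 else u i
      map_add' := by
        intro u v; funext i; simp only [Pi.add_apply]; split_ifs <;> simp
      map_smul' := by
        intro c u; funext i; simp only [Pi.smul_apply, RingHom.id_apply]; split_ifs <;> simp }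

theorem P₁_apply (n p : ℕ) (u : Dom n) (i : Fin n) :
    P₁ n p u i = if (i : ℕ) < p then u i else 0 := rfl

theorem P₂_apply (n p : ℕ) (u : Dom n) (i : Fin n) :
    P₂ n p u i = if (i : ℕ) < p then 0 else u i := rfl

theorem P_add (n p : ℕ) (u : Dom n) : P₁ n p u + P₂ n p u = u := by
  funext i
  rw [Pi.add_apply, P₁_apply, P₂_apply]
  split_ifs <;> simp

theorem inner_P₁_P₂ (n p : ℕ) (u v : Dom n) : ∑ i, P₁ n p u i * P₂ n p v i = 0 := by
  apply Finset.sum_eq_zero
  intro i _
  rw [P₁_apply, P₂_apply]
  split_ifs <;> simp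

theorem P₁_P₁ (n p : ℕ) (u : Dom n) : P₁ n p (P₁ n p u) = P₁ n p u := by
  funext i; rw [P₁_apply, P₁_apply]; split_ifs <;> rfl

theorem finrank_ker_P₂ (p q : ℕ) :
    Module.finrank ℝ (LinearMap.ker (P₂ (p + q) p : Dom (p + q) →ₗ[ℝ] Dom (p + q))) = p := by
  have e : LinearMap.ker (P₂ (p + q) p : Dom (p + q) →ₗ[ℝ] Dom (p + q)) ≃ₗ[ℝ] (Fin p → ℝ) :=
    { toFun := fun u i => u.1 (Fin.castAdd q i)
      map_add' := fun u v => rfl
      map_smul' := fun c u => rfl
      invFun := fun v => ⟨Fin.append v 0, by
        rw [LinearMap.mem_ker]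
        funext i
        show P₂ (p + q) p (Fin.append v 0) i = 0
        rw [P₂_apply]
        refine Fin.addCases (fun i => ?_) (fun i => ?_) i
        · simp
        · simp⟩
      left_inv := by
        intro u
        apply Subtype.ext
        funext i
        refine Fin.addCases (fun i => ?_) (fun i => ?_) i
        · simp
        · have h := u.2
          rw [LinearMap.mem_ker] at h
          have h2 := congrFun h (Fin.natAdd p i)
          have h3 : P₂ (p + q) p u.1 (Fin.natAdd p i) = 0 := h2
          rw [P₂_apply] at h3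
          simp at h3
          simp [h3]
      right_inv := by
        intro v
        funext i
        simp }
  rw [e.finrank_eq]; simp

theorem finrank_ker_P₁ (p q : ℕ) :
    Module.finrank ℝ (LinearMap.ker (P₁ (p + q) p : Dom (p + q) →ₗ[ℝ] Dom (p + q))) = q := by
  have e : LinearMap.ker (P₁ (p + q) p : Dom (p + q) →ₗ[ℝ] Dom (p + q)) ≃ₗ[ℝ] (Fin q → ℝ) :=
    { toFun := fun u i => u.1 (Fin.natAdd p i)
      map_add' := fun u v => rfl
      map_smul' := fun c u => rfl
      invFun := fun v => ⟨Fin.append 0 v, by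
        rw [LinearMap.mem_ker]
        funext i
        show P₁ (p + q) p (Fin.append 0 v) i = 0
        rw [P₁_apply]
        refine Fin.addCases (fun i => ?_) (fun i => ?_) i
        · simp
        · simp⟩
      left_inv := by
        intro u
        apply Subtype.ext
        funext i
        refine Fin.addCases (fun i => ?_) (fun i => ?_) i
        · have h := u.2
          rw [LinearMap.mem_ker] at h
          have h2 := congrFun h (Fin.castAdd q i)
          have h3 : P₁ (p + q) p u.1 (Fin.castAdd q i) = 0 := h2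
          rw [P₁_apply] at h3
          simp at h3
          simp [h3]
        · simp
      right_inv := by
        intro v
        funext i
        simp }
  rw [e.finrank_eq]; simp

end Pool.Agent.Helper21.Dupin
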