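import Pool.Agent.Helper21.Dupin.ConeEx

/-!
The explicit hypersurfaces: cones over small spheres (continued).
-/

namespace Pool.Agent.Helper21.Dupin

open scoped ContDiff InnerProductSpace

theorem fderiv_yv {n : ℕ} (s t : Dom n) :
    fderiv ℝ yv s t = fderiv ℝ nrm s t • (eA n + Jm n s) + nrm s • Jm n t := by
  have h1 : HasFDerivAt (nrm : Dom n → ℝ) (fderiv ℝ nrm s) s :=
    (contDiff_nrm.differentiable (by simp) s).hasFDerivAt
  have h2 : HasFDerivAt (fun u : Dom n => eA n + Jm n u) (Jm n) s :=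
    (Jm n).hasFDerivAt.const_add _
  have h3 := (h1.smul h2).fderiv
  have h4 : fderiv ℝ yv s = _ := h3
  rw [h4]
  simp [add_comm]

theorem fderiv_yv_eq_zero {n : ℕ} {s t : Dom n} (h : fderiv ℝ yv s t = 0) : t = 0 := by
  rw [fderiv_yv] at h
  have h1 := congrArg (fun z => ⟪eA n, z⟫_ℝ) h
  simp only [inner_add_right, real_inner_smul_right, inner_eA_eA, inner_eA_Jm, inner_zero_right]
    at h1
  have h2 : fderiv ℝ nrm s t = 0 := by linarith
  rw [h2, zero_smul, zero_add] at h
  have h3 : Jm n t = 0 := (smul_eq_zero.mp h).resolve_left (nrm_pos s).ne'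
  funext i
  rw [← Jm_succ n t i, h3]; rfl

theorem inner_fderiv_yv_self {n : ℕ} (s t : Dom n) : ⟪fderiv ℝ yv s t, yv s⟫_ℝ = 0 := by
  have hd : DifferentiableAt ℝ (yv : Dom n → Amb n) s :=
    contDiff_yv.differentiable (by simp) s
  have h1 : fderiv ℝ (fun u : Dom n => ⟪yv u, yv u⟫_ℝ) s t = 0 := by
    have : (fun u : Dom n => ⟪yv u, yv u⟫_ℝ) = fun _ => 1 := by
      funext u; exact inner_yv u
    rw [this]; simp
  rw [fderiv_inner_apply ℝ hd hd, real_inner_comm] at h1
  linarith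

theorem inner_fderiv_yv_eB {n : ℕ} (s t : Dom n) : ⟪fderiv ℝ yv s t, eB n⟫_ℝ = 0 := by
  rw [fderiv_yv, inner_add_left, real_inner_smul_left, real_inner_smul_left, inner_add_left,
    inner_eA_eB, real_inner_comm, inner_eB_Jm, real_inner_comm, inner_eB_Jm]
  ring

theorem inner_yv_Jm {n p : ℕ} (u v : Dom n) : ⟪yv (P₁ n p u), Jm n (P₂ n p v)⟫_ℝ = 0 := by
  unfold yv
  rw [real_inner_smul_left, inner_add_left, inner_eA_Jm, inner_Jm, inner_P₁_P₂]
  ring

theorem inner_fderiv_yv_Jm {n p : ℕ} (u t v : Dom n) :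
    ⟪fderiv ℝ yv (P₁ n p u) (P₁ n p t), Jm n (P₂ n p v)⟫_ℝ = 0 := by
  rw [fderiv_yv, inner_add_left, real_inner_smul_left, real_inner_smul_left, inner_add_left,
    inner_eA_Jm, inner_Jm, inner_Jm, inner_P₁_P₂, inner_P₁_P₂]
  ring

section Cone

variable (p q : ℕ) (c s : ℝ)

/-- the position vector -/
noncomputable def coneX (u : Dom (p + q)) : Amb (p + q) :=
  nrm (P₂ (p + q) p u) • (c • yv (P₁ (p + q) p u) + s • eB (p + q)
    + Jm (p + q) (P₂ (p + q) p u))

/-- the normal -/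
noncomputable def coneN (u : Dom (p + q)) : Amb (p + q) :=
  -s • yv (P₁ (p + q) p u) + c • eB (p + q)

theorem contDiff_coneX : ContDiff ℝ ∞ (coneX p q c s) := by
  unfold coneX
  refine (contDiff_nrm.comp (P₂ (p + q) p).contDiff).smul ?_
  refine ContDiff.add (ContDiff.add ?_ contDiff_const) ?_
  · exact (contDiff_yv.comp (P₁ (p + q) p).contDiff).const_smul c
  · exact (Jm (p + q)).contDiff.comp (P₂ (p + q) p).contDiff

theorem contDiff_coneN : ContDiff ℝ ∞ (coneN p q c s) := by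
  unfold coneN
  exact ((contDiff_yv.comp (P₁ (p + q) p).contDiff).const_smul (-s)).add contDiff_const

theorem hasFDerivAt_yP (u : Dom (p + q)) : HasFDerivAt (fun u => yv (P₁ (p + q) p u))
    ((fderiv ℝ yv (P₁ (p + q) p u)).comp (P₁ (p + q) p)) u :=
  (contDiff_yv.differentiable (by simp) _).hasFDerivAt.comp u (P₁ (p + q) p).hasFDerivAt

theorem hasFDerivAt_nP (u : Dom (p + q)) : HasFDerivAt (fun u => nrm (P₂ (p + q) p u))
    ((fderiv ℝ nrm (P₂ (p + q) p u)).comp (P₂ (p + q) p)) u :=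
  (contDiff_nrm.differentiable (by simp) _).hasFDerivAt.comp u (P₂ (p + q) p).hasFDerivAt

theorem fderiv_coneX (u w : Dom (p + q)) : fderiv ℝ (coneX p q c s) u w =
    fderiv ℝ nrm (P₂ (p + q) p u) (P₂ (p + q) p w) •
      (c • yv (P₁ (p + q) p u) + s • eB (p + q) + Jm (p + q) (P₂ (p + q) p u))
    + nrm (P₂ (p + q) p u) • (c • fderiv ℝ yv (P₁ (p + q) p u) (P₁ (p + q) p w)
      + Jm (p + q) (P₂ (p + q) p w)) := by
  have h1 := hasFDerivAt_nP p q u
  have h2 := (((hasFDerivAt_yP p q u).const_smul c).add_const (s • eB (p + q))).add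
    ((Jm (p + q)).hasFDerivAt.comp u (P₂ (p + q) p).hasFDerivAt)
  have h3 := (h1.smul h2).fderiv
  have h4 : fderiv ℝ (coneX p q c s) u = _ := h3
  rw [h4]
  simp [add_comm]

theorem fderiv_coneN (u w : Dom (p + q)) : fderiv ℝ (coneN p q c s) u w =
    -s • fderiv ℝ yv (P₁ (p + q) p u) (P₁ (p + q) p w) := by
  have h2 := ((hasFDerivAt_yP p q u).const_smul (-s)).add_const (c • eB (p + q))
  have h4 : fderiv ℝ (coneN p q c s) u = _ := h2.fderiv
  rw [h4]
  simp

variable {p q c s}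

theorem coneX_component (hcs : c ^ 2 + s ^ 2 = 1) (u w : Dom (p + q)) :
    ⟪fderiv ℝ (coneX p q c s) u w, c • yv (P₁ (p + q) p u) + s • eB (p + q)⟫_ℝ
      = fderiv ℝ nrm (P₂ (p + q) p u) (P₂ (p + q) p w) := by
  have e1 : ⟪Jm (p + q) (P₂ (p + q) p u), yv (P₁ (p + q) p u)⟫_ℝ = 0 := by
    rw [real_inner_comm]; exact inner_yv_Jm _ _
  have e2 : ⟪Jm (p + q) (P₂ (p + q) p u), eB (p + q)⟫_ℝ = 0 := by
    rw [real_inner_comm]; exact inner_eB_Jm _ _
  have e3 : ⟪Jm (p + q) (P₂ (p + q) p w), yv (P₁ (p + q) p u)⟫_ℝ = 0 := by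
    rw [real_inner_comm]; exact inner_yv_Jm _ _
  have e4 : ⟪Jm (p + q) (P₂ (p + q) p w), eB (p + q)⟫_ℝ = 0 := by
    rw [real_inner_comm]; exact inner_eB_Jm _ _
  have e5 : ⟪eB (p + q), yv (P₁ (p + q) p u)⟫_ℝ = 0 := by
    rw [real_inner_comm]; exact inner_yv_eB _
  rw [fderiv_coneX]
  simp only [inner_add_left, inner_add_right, real_inner_smul_left, real_inner_smul_right,
    inner_yv, inner_yv_eB, inner_eB_eB, inner_fderiv_yv_self, inner_fderiv_yv_eB, e1, e2, e3, e4,
    e5]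
  linear_combination (fderiv ℝ nrm (P₂ (p + q) p u) (P₂ (p + q) p w)) * hcs

theorem coneX_injective (hc : 0 < c) (hcs : c ^ 2 + s ^ 2 = 1) (u : Dom (p + q)) :
    Function.Injective (fderiv ℝ (coneX p q c s) u) := by
  rw [injective_iff_map_eq_zero]
  intro w hw
  have h1 := coneX_component hcs u w
  rw [hw, inner_zero_left] at h1
  rw [fderiv_coneX, ← h1, zero_smul, zero_add] at hw
  have h2 := (smul_eq_zero.mp hw).resolve_left (nrm_pos _).ne'
  have h3 : Jm (p + q) (P₂ (p + q) p w) = 0 := by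
    have := congrArg (fun z => ⟪z, Jm (p + q) (P₂ (p + q) p w)⟫_ℝ) h2
    simp only [inner_add_left, real_inner_smul_left, inner_fderiv_yv_Jm, mul_zero, zero_add,
      inner_zero_left] at this
    exact inner_self_eq_zero.mp this
  rw [h3, add_zero] at h2
  have h4 := (smul_eq_zero.mp h2).resolve_left hc.ne'
  have h5 := fderiv_yv_eq_zero h4
  have h6 : P₂ (p + q) p w = 0 := by
    funext i
    rw [← Jm_succ (p + q) (P₂ (p + q) p w) i, h3]; rfl
  rw [← P_add (p + q) p w, h5, h6, add_zero]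

/-- The cone as a hypersurface. -/
noncomputable def coneM (hc : 0 < c) (hcs : c ^ 2 + s ^ 2 = 1) : Hypersurface (p + q) where
  U := Set.univ
  x := coneX p q c s
  ν := coneN p q c s
  isOpen := isOpen_univ
  isConnected := isConnected_univ
  smooth_x := (contDiff_coneX p q c s).contDiffOn
  smooth_ν := (contDiff_coneN p q c s).contDiffOn
  immersion := fun u _ => coneX_injective hc hcs u
  norm_x := by
    intro u _
    have e1 : ⟪Jm (p + q) (P₂ (p + q) p u), yv (P₁ (p + q) p u)⟫_ℝ = 0 := by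
      rw [real_inner_comm]; exact inner_yv_Jm _ _
    have e2 : ⟪Jm (p + q) (P₂ (p + q) p u), eB (p + q)⟫_ℝ = 0 := by
      rw [real_inner_comm]; exact inner_eB_Jm _ _
    have e5 : ⟪eB (p + q), yv (P₁ (p + q) p u)⟫_ℝ = 0 := by
      rw [real_inner_comm]; exact inner_yv_eB _
    have h1 : ⟪coneX p q c s u, coneX p q c s u⟫_ℝ = 1 := by
      unfold coneX
      simp only [inner_add_left, inner_add_right, real_inner_smul_left, real_inner_smul_right,
        inner_yv, inner_yv_eB, inner_eB_eB, inner_yv_Jm, inner_eB_Jm, e1, e2, e5, inner_Jm]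
      have := nrm_sq (P₂ (p + q) p u)
      unfold ssq at this
      linear_combination this + (nrm (P₂ (p + q) p u)) ^ 2 * hcs
    rw [real_inner_self_eq_norm_sq] at h1
    have h2 := norm_nonneg (coneX p q c s u)
    nlinarith
  norm_ν := by
    intro u _
    have e5 : ⟪eB (p + q), yv (P₁ (p + q) p u)⟫_ℝ = 0 := by
      rw [real_inner_comm]; exact inner_yv_eB _
    have h1 : ⟪coneN p q c s u, coneN p q c s u⟫_ℝ = 1 := by
      unfold coneN
      simp only [inner_add_left, inner_add_right, real_inner_smul_left, real_inner_smul_right,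
        inner_yv, inner_yv_eB, inner_eB_eB, e5]
      linear_combination hcs
    rw [real_inner_self_eq_norm_sq] at h1
    have h2 := norm_nonneg (coneN p q c s u)
    nlinarith
  inner_x_ν := by
    intro u _
    have e1 : ⟪Jm (p + q) (P₂ (p + q) p u), yv (P₁ (p + q) p u)⟫_ℝ = 0 := by
      rw [real_inner_comm]; exact inner_yv_Jm _ _
    have e2 : ⟪Jm (p + q) (P₂ (p + q) p u), eB (p + q)⟫_ℝ = 0 := by
      rw [real_inner_comm]; exact inner_eB_Jm _ _
    have e5 : ⟪eB (p + q), yv (P₁ (p + q) p u)⟫_ℝ = 0 := by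
      rw [real_inner_comm]; exact inner_yv_eB _
    unfold coneX coneN
    simp only [inner_add_left, inner_add_right, real_inner_smul_left, real_inner_smul_right,
      inner_yv, inner_yv_eB, inner_eB_eB, e1, e2, e5]
    ring
  inner_dx_ν := by
    intro u _ w
    have e1 : ⟪Jm (p + q) (P₂ (p + q) p u), yv (P₁ (p + q) p u)⟫_ℝ = 0 := by
      rw [real_inner_comm]; exact inner_yv_Jm _ _
    have e2 : ⟪Jm (p + q) (P₂ (p + q) p u), eB (p + q)⟫_ℝ = 0 := by
      rw [real_inner_comm]; exact inner_eB_Jm _ _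
    have e3 : ⟪Jm (p + q) (P₂ (p + q) p w), yv (P₁ (p + q) p u)⟫_ℝ = 0 := by
      rw [real_inner_comm]; exact inner_yv_Jm _ _
    have e4 : ⟪Jm (p + q) (P₂ (p + q) p w), eB (p + q)⟫_ℝ = 0 := by
      rw [real_inner_comm]; exact inner_eB_Jm _ _
    have e5 : ⟪eB (p + q), yv (P₁ (p + q) p u)⟫_ℝ = 0 := by
      rw [real_inner_comm]; exact inner_yv_eB _
    rw [fderiv_coneX]
    unfold coneN
    simp only [inner_add_left, inner_add_right, real_inner_smul_left, real_inner_smul_right,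
      inner_yv, inner_yv_eB, inner_eB_eB, inner_fderiv_yv_self, inner_fderiv_yv_eB, e1, e2, e3,
      e4, e5]
    ring

/-- the non-zero principal curvature -/
noncomputable def coneLam (p q : ℕ) (c s : ℝ) (u : Dom (p + q)) : ℝ :=
  s / c * (nrm (P₂ (p + q) p u))⁻¹

theorem contDiff_coneLam : ContDiff ℝ ∞ (coneLam p q c s) := by
  unfold coneLam
  exact contDiff_const.mul ((contDiff_nrm.comp (P₂ (p + q) p).contDiff).inv
    fun u => (nrm_pos _).ne')

theorem fderiv_coneLam {u w : Dom (p + q)} (hw : P₂ (p + q) p w = 0) :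
    fderiv ℝ (coneLam p q c s) u w = 0 := by
  have h1 : coneLam p q c s = (fun v => s / c * (nrm v)⁻¹) ∘ (P₂ (p + q) p) := rfl
  have hd : DifferentiableAt ℝ (fun v : Dom (p + q) => s / c * (nrm v)⁻¹) (P₂ (p + q) p u) := by
    have : ContDiff ℝ ∞ (fun v : Dom (p + q) => s / c * (nrm v)⁻¹) :=
      contDiff_const.mul (contDiff_nrm.inv fun u => (nrm_pos _).ne')
    exact this.differentiable (by simp) _
  have h2 := (hd.hasFDerivAt.comp u (P₂ (p + q) p).hasFDerivAt).fderiv
  rw [h1, h2]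
  simp [hw]

theorem coneM_curv_lam (hc : 0 < c) (hs : 0 < s) (hcs : c ^ 2 + s ^ 2 = 1) (u : Dom (p + q)) :
    (coneM hc hcs).curvSpace u (coneLam p q c s u)
      = LinearMap.ker (P₂ (p + q) p : Dom (p + q) →ₗ[ℝ] Dom (p + q)) := by
  ext w
  rw [Hypersurface.mem_curvSpace, LinearMap.mem_ker]
  show fderiv ℝ (coneN p q c s) u w = -(coneLam p q c s u • fderiv ℝ (coneX p q c s) u w) ↔
    P₂ (p + q) p w = 0
  have hn := (nrm_pos (P₂ (p + q) p u)).ne'
  constructor
  · intro h
    have h1 := congrArg (fun z => ⟪z, c • yv (P₁ (p + q) p u) + s • eB (p + q)⟫_ℝ) h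
    simp only [inner_neg_left, real_inner_smul_left] at h1
    rw [coneX_component hcs, fderiv_coneN] at h1
    simp only [inner_add_right, real_inner_smul_left, real_inner_smul_right,
      inner_fderiv_yv_self, inner_fderiv_yv_eB, mul_zero, add_zero] at h1
    have hl : coneLam p q c s u ≠ 0 := by
      unfold coneLam
      have := nrm_pos (P₂ (p + q) p u)
      positivity
    have h2 : fderiv ℝ nrm (P₂ (p + q) p u) (P₂ (p + q) p w) = 0 := by
      have h3 : coneLam p q c s u * fderiv ℝ nrm (P₂ (p + q) p u) (P₂ (p + q) p w) = 0 := by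
        linarith
      exact (mul_eq_zero.mp h3).resolve_left hl
    rw [fderiv_coneN, fderiv_coneX, h2, zero_smul, zero_add, smul_smul] at h
    have h4 : coneLam p q c s u * nrm (P₂ (p + q) p u) = s / c := by
      unfold coneLam; field_simp
    rw [h4] at h
    have h5 := congrArg (fun z => ⟪z, Jm (p + q) (P₂ (p + q) p w)⟫_ℝ) h
    simp only [inner_neg_left, real_inner_smul_left, inner_add_left, inner_fderiv_yv_Jm, mul_zero,
      zero_add] at h5
    have h6 : ⟪Jm (p + q) (P₂ (p + q) p w), Jm (p + q) (P₂ (p + q) p w)⟫_ℝ = 0 := by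
      have h7 : s / c ≠ 0 := by positivity
      have h8 : s / c * ⟪Jm (p + q) (P₂ (p + q) p w), Jm (p + q) (P₂ (p + q) p w)⟫_ℝ = 0 := by
        linarith
      exact (mul_eq_zero.mp h8).resolve_left h7
    have h3 := inner_self_eq_zero.mp h6
    funext i
    rw [← Jm_succ (p + q) (P₂ (p + q) p w) i, h3]; rfl
  · intro h
    rw [fderiv_coneN, fderiv_coneX, h, map_zero, zero_smul, zero_add, map_zero, add_zero,
      smul_smul, smul_smul]
    have h4 : coneLam p q c s u * (nrm (P₂ (p + q) p u) * c) = s := by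
      unfold coneLam; field_simp
    rw [← mul_assoc] at h4
    rw [h4, neg_smul]

theorem coneM_curv_zero (hc : 0 < c) (hs : 0 < s) (hcs : c ^ 2 + s ^ 2 = 1) (u : Dom (p + q)) :
    (coneM hc hcs).curvSpace u 0
      = LinearMap.ker (P₁ (p + q) p : Dom (p + q) →ₗ[ℝ] Dom (p + q)) := by
  ext w
  rw [Hypersurface.mem_curvSpace, LinearMap.mem_ker, zero_smul, neg_zero]
  show fderiv ℝ (coneN p q c s) u w = 0 ↔ P₁ (p + q) p w = 0
  rw [fderiv_coneN]
  constructor
  · intro h
    exact fderiv_yv_eq_zero ((smul_eq_zero.mp h).resolve_left (neg_ne_zero.mpr hs.ne'))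
  · intro h
    rw [h, map_zero, smul_zero]

theorem coneM_twoPC (hp : 0 < p) (hq : 0 < q) (hc : 0 < c) (hs : 0 < s)
    (hcs : c ^ 2 + s ^ 2 = 1) :
    (coneM hc hcs : Hypersurface (p + q)).TwoPC (coneLam p q c s) (fun _ => 0) p q where
  smooth_lam := contDiff_coneLam.contDiffOn
  smooth_mu := contDiffOn_const
  ne := by
    intro u _
    unfold coneLam
    have := nrm_pos (P₂ (p + q) p u)
    positivity
  hp := hp
  hq := hq
  hpq := rfl
  fr_lam := by
    intro u _
    rw [coneM_curv_lam hc hs hcs u]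
    exact finrank_ker_P₂ p q
  fr_mu := by
    intro u _
    rw [coneM_curv_zero hc hs hcs u]
    exact finrank_ker_P₁ p q
  d_lam := by
    intro u _ v hv
    rw [coneM_curv_lam hc hs hcs u] at hv
    exact fderiv_coneLam hv
  d_mu := by
    intro u _ v hv
    simp

theorem coneM_grad (hc : 0 < c) (hs : 0 < s) (hcs : c ^ 2 + s ^ 2 = 1) (u : Dom (p + q)) :
    (coneM hc hcs).gradInner (coneLam p q c s) (coneLam p q c s) u
      = coneLam p q c s u ^ 2 * (c ^ 2 / s ^ 2 * coneLam p q c s u ^ 2 - 1) := by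
  set M : Hypersurface (p + q) := coneM hc hcs with hM
  set lamS := M.fn (coneLam p q c s) contDiff_coneLam.contDiffOn with hlamS
  have hx : ∀ v : M.U, (M.xS (eB (p + q))).1 v = nrm (P₂ (p + q) p v) * s := by
    intro v
    have h1 : (M.xS (eB (p + q))).1 v = ⟪eB (p + q), coneX p q c s v⟫_ℝ := rfl
    have e5 : ⟪eB (p + q), yv (P₁ (p + q) p v)⟫_ℝ = 0 := by
      rw [real_inner_comm]; exact inner_yv_eB _
    rw [h1]
    unfold coneX
    simp only [inner_add_right, real_inner_smul_right, e5, inner_eB_eB, inner_eB_Jm]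
    ring
  have hν : M.νS (eB (p + q)) = algebraMap ℝ M.Sm c := by
    apply Subtype.ext
    funext v
    have h1 : (M.νS (eB (p + q))).1 v = ⟪eB (p + q), coneN p q c s v⟫_ℝ := rfl
    have e5 : ⟪eB (p + q), yv (P₁ (p + q) p v)⟫_ℝ = 0 := by
      rw [real_inner_comm]; exact inner_yv_eB _
    rw [h1]
    unfold coneN
    simp only [inner_add_right, real_inner_smul_right, e5, inner_eB_eB]
    have h2 : (algebraMap ℝ M.Sm c).1 v = c := rfl
    rw [h2]; ring
  set Y := (c / s ^ 2) • M.xS (eB (p + q)) with hY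
  have hinv : lamS * Y = 1 := by
    apply Subtype.ext
    funext v
    have h1 : (lamS * Y).1 v = (s / c * (nrm (P₂ (p + q) p v))⁻¹)
      * (c / s ^ 2 * (M.xS (eB (p + q))).1 v) := rfl
    rw [h1, hx v]
    have h2 : (1 : M.Sm).1 v = 1 := rfl
    rw [h2]
    have := (nrm_pos (P₂ (p + q) p v)).ne'
    field_simp
  have h1 : M.diff.Γ Y Y = algebraMap ℝ M.Sm (c ^ 2 / s ^ 2) - Y * Y := by
    have h2 := M.car_xS (eB (p + q)) (eB (p + q))
    rw [hν, inner_eB_eB] at h2
    have h3 : M.diff.Γ Y Y = ((c / s ^ 2) ^ 2) • M.car (M.xS (eB (p + q))) (M.xS (eB (p + q))) := by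
      rw [hY, map_smul]
      show (c / s ^ 2) • M.diff.Γ ((c / s ^ 2) • M.xS (eB (p + q))) (M.xS (eB (p + q))) = _
      rw [map_smul]
      show (c / s ^ 2) • (c / s ^ 2) • M.car (M.xS (eB (p + q))) (M.xS (eB (p + q))) = _
      rw [smul_smul]; congr 1; ring
    rw [h3, h2, hY]
    simp only [Algebra.smul_def, ← map_mul]
    have h4 : algebraMap ℝ M.Sm (c ^ 2 / s ^ 2) = algebraMap ℝ M.Sm ((c / s ^ 2) ^ 2)
        * (1 - algebraMap ℝ M.Sm (c * c)) := by
      rw [← map_one (algebraMap ℝ M.Sm), ← map_sub, ← map_mul]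
      congr 1
      have h5 : 1 - c * c = s ^ 2 := by linarith
      rw [h5]
      field_simp
    rw [h4, map_one, map_pow]
    ring
  have h2 : M.diff.Γ lamS lamS = lamS ^ 4 * M.diff.Γ Y Y := by
    rw [M.diff.Γ_inv hinv, M.diff.symm, M.diff.Γ_inv hinv]
    ring
  have h3 : M.diff.Γ lamS lamS = lamS ^ 2 * (algebraMap ℝ M.Sm (c ^ 2 / s ^ 2) * lamS ^ 2 - 1) := by
    rw [h2, h1]
    linear_combination (-lamS ^ 2 * (lamS * Y + 1)) * hinv
  have h4 : (M.diff.Γ lamS lamS).1 ⟨u, trivial⟩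
      = M.gradInner (coneLam p q c s) (coneLam p q c s) u := by
    have := M.car_fn (coneLam p q c s) (coneLam p q c s) contDiff_coneLam.contDiffOn
      contDiff_coneLam.contDiffOn
    have h5 := congrArg (fun g : M.Sm => g.1 ⟨u, trivial⟩) this
    exact h5
  rw [← h4, h3]
  rfl

end Cone

end Pool.Agent.Helper21.Dupin
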