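import Pool.Agent.Helper21.Dupin.Global

/-!
The geometric form of the non-isoparametric alternative: the hypersurface is an open part of an
explicit cone.
-/

namespace Pool.Agent.Helper21.Dupin

open scoped ContDiff InnerProductSpace Polynomial

namespace Hypersurface

variable {n : ℕ} {M : Hypersurface n} {lam mu : Dom n → ℝ} {p q : ℕ}

/-- If the domain is covered by disjoint open sets, it is contained in one of them. -/
theorem exists_of_cover {ι : Type*} (A : ι → Set (Dom n)) (ho : ∀ i, IsOpen (A i))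
    (hc : ∀ u ∈ M.U, ∃ i, u ∈ A i) (hd : ∀ i j, ∀ u ∈ M.U, u ∈ A i → u ∈ A j → i = j) :
    ∃ i, M.U ⊆ A i := by
  obtain ⟨u₀, hu₀⟩ := M.isConnected.nonempty
  obtain ⟨i, hi⟩ := hc u₀ hu₀
  refine ⟨i, ?_⟩
  have h : M.U ⊆ M.U ∩ A i := by
    apply IsPreconnected.subset_left_of_subset_union (M.isOpen.inter (ho i))
      (isOpen_iUnion fun j => isOpen_iUnion fun (_ : j ≠ i) => M.isOpen.inter (ho j)) _ _
      ⟨u₀, hu₀, hu₀, hi⟩ M.isConnected.isPreconnected
    · rw [Set.disjoint_left]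
      rintro u ⟨hu, hui⟩ hu2
      simp only [Set.mem_iUnion] at hu2
      obtain ⟨j, hj, hu3, huj⟩ := hu2
      exact hj (hd j i u hu huj hui)
    · intro u hu
      obtain ⟨j, hj⟩ := hc u hu
      by_cases hji : j = i
      · subst hji; exact Or.inl ⟨hu, hj⟩
      · right
        simp only [Set.mem_iUnion]
        exact ⟨j, hji, hu, hj⟩
  exact h.trans Set.inter_subset_right

/-- symmetry of the second fundamental form -/
theorem inner_dx_dν {u : Dom n} (hu : u ∈ M.U) (v w : Dom n) :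
    ⟪fderiv ℝ M.x u v, fderiv ℝ M.ν u w⟫_ℝ = ⟪fderiv ℝ M.x u w, fderiv ℝ M.ν u v⟫_ℝ := by
  have key : ∀ i j, ⟪pd j M.x u, pd i M.ν u⟫_ℝ = ⟪pd i M.x u, pd j M.ν u⟫_ℝ := by
    have h5 : ∀ i j, ⟪pd i (pd j M.x) u, M.ν u⟫_ℝ = - ⟪pd j M.x u, pd i M.ν u⟫_ℝ := by
      intro i j
      have h4 : pd i (fun v => ⟪pd j M.x v, M.ν v⟫_ℝ) u = 0 := by
        have h7 : ∀ v ∈ M.U, ⟪pd j M.x v, M.ν v⟫_ℝ = 0 := fun v hv => M.inner_dx_ν v hv _
        rw [pd_congr M.isOpen (g := fun _ => (0 : ℝ)) h7 hu, pd_const]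
      rw [pd_inner M.isOpen (pd_smooth M.isOpen M.smooth_x j) M.smooth_ν hu] at h4
      linarith
    intro i j
    have e1 := h5 i j
    have e2 := h5 j i
    rw [pd_comm M.isOpen M.smooth_x hu] at e1
    linarith
  rw [fderiv_eq_sum M.x u v, fderiv_eq_sum M.ν u w, fderiv_eq_sum M.x u w, fderiv_eq_sum M.ν u v]
  simp only [sum_inner, inner_sum, real_inner_smul_left, real_inner_smul_right]
  rw [Finset.sum_comm]
  refine Finset.sum_congr rfl fun i _ => Finset.sum_congr rfl fun j _ => ?_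
  rw [key i j]; ring

/-- every vector is the sum of a tangent vector and multiples of `x` and `ν` -/
theorem exists_decomp {u : Dom n} (hu : u ∈ M.U) (η : Amb n) :
    ∃ v : Dom n, η = fderiv ℝ M.x u v + ⟪η, M.x u⟫_ℝ • M.x u + ⟪η, M.ν u⟫_ℝ • M.ν u := by
  refine ⟨fun j => ∑ i, (M.G u)⁻¹ i j * ⟪η, pd i M.x u⟫_ℝ, ?_⟩
  conv_lhs => rw [M.decomp hu η]
  rw [fderiv_eq_sum]
  congr 2
  rw [Finset.sum_comm]
  exact Finset.sum_congr rfl fun j _ => by rw [Finset.sum_smul]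

/-- a vector orthogonal to `x` and `ν` on an open piece vanishes -/
theorem eq_zero_of_inner {N : Set (Dom n)} (hN : IsOpen N) (hNU : N ⊆ M.U) {u : Dom n} (hu : u ∈ N)
    {δ : Amb n} (h1 : ∀ v ∈ N, ⟪δ, M.x v⟫_ℝ = 0) (h2 : ∀ v ∈ N, ⟪δ, M.ν v⟫_ℝ = 0) : δ = 0 := by
  apply M.eq_zero_of_orth (hNU hu) _ (h1 u hu) (h2 u hu)
  intro i
  have e1 : fderiv ℝ (fun w => ⟪δ, M.x w⟫_ℝ) u (Pi.single i 1) = 0 := by
    have : (fun w => ⟪δ, M.x w⟫_ℝ) =ᶠ[nhds u] fun _ => 0 :=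
      Filter.eventuallyEq_of_mem (hN.mem_nhds hu) h1
    rw [this.fderiv_eq]; simp
  rw [fderiv_inner_apply ℝ (differentiableAt_const δ) (diffAt M.isOpen M.smooth_x (hNU hu))] at e1
  simpa [pd] using e1

/-- the span of `ν - η` and of the image of `dν` -/
noncomputable def TW (M : Hypersurface n) (η : Amb n) (u : Dom n) : Submodule ℝ (Amb n) :=
  Submodule.span ℝ {M.ν u - η} ⊔ LinearMap.range (fderiv ℝ M.ν u : Dom n →ₗ[ℝ] Amb n)

/-- derivative of a scalar product with a constant vector -/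
theorem fderiv_inner_const {f : Dom n → Amb n} {u : Dom n} (hf : DifferentiableAt ℝ f u)
    (δ : Amb n) (v : Dom n) : fderiv ℝ (fun w => ⟪δ, f w⟫_ℝ) u v = ⟪δ, fderiv ℝ f u v⟫_ℝ := by
  rw [fderiv_inner_apply ℝ (differentiableAt_const δ) hf]
  simp

theorem finrank_TW (h : M.TwoPC lam mu p q) (hmu : ∀ u ∈ M.U, mu u = 0) {η : Amb n} {a : ℝ}
    (ha : a ≠ 1) {u : Dom n} (hu : u ∈ M.U)
    (h1 : ∀ v ∈ M.U, ⟪η, M.ν v⟫_ℝ = a) : Module.finrank ℝ (M.TW η u) = p + 1 := by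
  set T : Dom n →ₗ[ℝ] Amb n := (fderiv ℝ M.ν u : Dom n →ₗ[ℝ] Amb n) with hT
  have hker : LinearMap.ker T = M.curvSpace u (mu u) := by
    ext v
    rw [M.mem_curvSpace, hmu u hu, zero_smul, neg_zero]
    rfl
  have hrank := T.finrank_range_add_finrank_ker
  rw [hker, h.fr_mu u hu, Module.finrank_fin_fun] at hrank
  have hp : Module.finrank ℝ (LinearMap.range T) = p := by
    have := h.hpq
    omega
  have hdη : ∀ v, ⟪η, fderiv ℝ M.ν u v⟫_ℝ = 0 := by
    intro v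
    rw [← fderiv_inner_const (diffAt M.isOpen M.smooth_ν hu)]
    have : (fun w => ⟪η, M.ν w⟫_ℝ) =ᶠ[nhds u] fun _ => a :=
      Filter.eventuallyEq_of_mem (M.isOpen.mem_nhds hu) h1
    rw [this.fderiv_eq]; simp
  have hne : M.ν u - η ≠ 0 := by
    intro h0
    have h2 : ⟪M.ν u - η, M.ν u⟫_ℝ = 0 := by rw [h0, inner_zero_left]
    rw [inner_sub_left, M.inner_νν hu, h1 u hu] at h2
    exact ha (by linarith)
  have hdisj : Disjoint (Submodule.span ℝ {M.ν u - η}) (LinearMap.range T) := by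
    rw [Submodule.disjoint_def]
    intro z hz1 hz2
    obtain ⟨c, rfl⟩ := Submodule.mem_span_singleton.mp hz1
    obtain ⟨v, hv⟩ := hz2
    have h2 : ⟪M.ν u, fderiv ℝ M.ν u v⟫_ℝ = 0 := by
      rw [real_inner_comm]; exact M.inner_dν_ν hu v
    have h3 : ⟪M.ν u - η, c • (M.ν u - η)⟫_ℝ = 0 := by
      rw [← hv]
      show ⟪M.ν u - η, fderiv ℝ M.ν u v⟫_ℝ = 0
      rw [inner_sub_left, h2, hdη, sub_zero]
    rw [real_inner_smul_right] at h3
    rcases mul_eq_zero.mp h3 with h4 | h4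
    · rw [h4, zero_smul]
    · exact absurd (inner_self_eq_zero.mp h4) hne
  have h5 := Submodule.finrank_sup_add_finrank_inf_eq (Submodule.span ℝ {M.ν u - η})
    (LinearMap.range T)
  rw [hdisj.eq_bot, finrank_bot, add_zero, finrank_span_singleton hne, hp] at h5
  unfold TW
  rw [← hT, h5]; ring

/-- The local data of the cone. -/
theorem Local.cone_data (hl : M.Local lam mu p q M.U) (hmu : ∀ u ∈ M.U, mu u = 0) {κ : ℝ}
    (hκ : 0 < κ)
    (hgr : ∀ u ∈ M.U, M.gradInner lam lam u = lam u ^ 2 * (κ * lam u ^ 2 - 1)) :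
    ∃ (η : Amb n) (W : Submodule ℝ (Amb n)), ∀ u ∈ M.U, ⟪η, η⟫_ℝ = κ / (1 + κ) ∧
      ⟪η, M.ν u⟫_ℝ = κ / (1 + κ) ∧ lam u * ⟪η, M.x u⟫_ℝ = 1 / (1 + κ) ∧ M.TW η u = W ∧
      ∀ w ∈ W, ⟪w, η⟫_ℝ = 0 ∧ lam u * ⟪w, M.x u⟫_ℝ + ⟪w, M.ν u⟫_ℝ = 0 := by
  obtain ⟨f, f', hf, hf', hf2, hf2'⟩ := hl.exists_split
  have hw := hl.wrel hmu hf hf' hf2 hf2'
  obtain ⟨c1, c2⟩ := hl.const_rel hmu hf hf' hf2 hf2'
  obtain ⟨d1, d2⟩ := hl.f_scalars hf hf2 hf2'
  have hlam0 : ∀ u ∈ M.U, lam u ≠ 0 := by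
    intro u hu h0
    exact hl.two.ne u hu (by rw [h0, hmu u hu])
  -- identify the constant
  have hκf : form n f f = κ := by
    obtain ⟨u, hu⟩ := M.isConnected.nonempty
    have e1 := congrArg (fun g : M.Sm => g.1 ⟨u, hu⟩) hw.Γww
    have e2 : (M.diff.Γ (M.fn lam hl.two.smooth_lam - algebraMap ℝ M.Sm 0)
        (M.fn lam hl.two.smooth_lam - algebraMap ℝ M.Sm 0)).1 ⟨u, hu⟩
        = (lam u - 0) ^ 2 * (-(1 + 0 ^ 2)
      - 2 * 0 * (lam u - 0) + form n f f * (lam u - 0) ^ 2) := e1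
    rw [map_zero, sub_zero] at e2
    have e4 : (M.diff.Γ (M.fn lam hl.two.smooth_lam) (M.fn lam hl.two.smooth_lam)).1 ⟨u, hu⟩
        = M.gradInner lam lam u := by
      have := M.car_fn lam lam hl.two.smooth_lam hl.two.smooth_lam
      have h5 := congrArg (fun g : M.Sm => g.1 ⟨u, hu⟩) this
      exact h5
    rw [e4, hgr u hu] at e2
    have h3 : lam u ^ 4 * (form n f f - κ) = 0 := by linarith
    have := (mul_eq_zero.mp h3).resolve_left (pow_ne_zero 4 (hlam0 u hu))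
    linarith
  rw [hκf] at c1 d2
  rw [mul_zero] at c1
  rw [c1, neg_zero] at d1
  have h1κ : (1 : ℝ) + κ ≠ 0 := by linarith
  set F : Amb n := f.2.1 with hF
  have hfe : f = (0, F, -κ) := Prod.ext d1 (Prod.ext rfl d2)
  have hFF : ⟪F, F⟫_ℝ = κ * (1 + κ) := by
    have := hκf
    rw [hfe, form_apply] at this
    simp only at this
    linarith
  set η : Amb n := -((1 + κ)⁻¹ • F) with hη
  have hFη : F = -((1 + κ) • η) := by
    rw [hη, smul_neg, neg_neg, smul_smul, mul_inv_cancel₀ h1κ, one_smul]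
  -- the scalar products
  have hηη : ⟪η, η⟫_ℝ = κ / (1 + κ) := by
    rw [hη, inner_neg_left, inner_neg_right, real_inner_smul_left, real_inner_smul_right, hFF]
    field_simp
  have hην : ∀ u ∈ M.U, ⟪η, M.ν u⟫_ℝ = κ / (1 + κ) := by
    intro u hu
    obtain ⟨-, h2⟩ := hl.form_f hf hf2 hu
    rw [hfe, form_apply] at h2
    simp only [K, hmu u hu, zero_smul, zero_add] at h2
    rw [hη, inner_neg_left, real_inner_smul_left]
    have h3 : ⟪F, M.ν u⟫_ℝ = -κ := by linarith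
    rw [h3]; field_simp
  have hηx : ∀ u ∈ M.U, lam u * ⟪η, M.x u⟫_ℝ = 1 / (1 + κ) := by
    intro u hu
    obtain ⟨h2, -⟩ := hl.form_f hf hf2 hu
    rw [hfe, form_apply] at h2
    simp only [K, inner_add_right, real_inner_smul_right] at h2
    have h3 := hην u hu
    rw [hη, inner_neg_left, real_inner_smul_left] at h3 ⊢
    have h4 : ⟪F, M.ν u⟫_ℝ = -κ := by
      field_simp at h3
      linarith
    rw [h4] at h2
    have h5 : lam u * ⟪F, M.x u⟫_ℝ = -1 := by linarith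
    have h6 : lam u * -((1 + κ)⁻¹ * ⟪F, M.x u⟫_ℝ) = -((1 + κ)⁻¹ * (lam u * ⟪F, M.x u⟫_ℝ)) := by ring
    rw [h6, h5]; field_simp
  -- the subspace
  let ι : Amb n →ₗ[ℝ] LV n := LinearMap.inr ℝ ℝ (Amb n × ℝ) ∘ₗ LinearMap.inl ℝ (Amb n) ℝ
  have hι : ∀ w, ι w = (0, w, 0) := fun w => rfl
  set W : Submodule ℝ (Amb n) := (M.spanK mu M.U).comap ι with hWd
  have hWη : ∀ w ∈ W, ⟪w, η⟫_ℝ = 0 := by
    intro w hw
    have h2 : form n f (ι w) = 0 := hl.orth hf hw
    rw [hfe, hι, form_apply] at h2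
    simp only [mul_zero, sub_zero] at h2
    rw [hη, inner_neg_right, real_inner_smul_right, real_inner_comm, h2]; simp
  have hWK : ∀ u ∈ M.U, ∀ w ∈ W, lam u * ⟪w, M.x u⟫_ℝ + ⟪w, M.ν u⟫_ℝ = 0 := by
    intro u hu w hw
    have h2 : form n (M.K lam u) (ι w) = 0 := hl.orth (K_mem_spanK hu) hw
    rw [hι, form_apply] at h2
    simp only [K, inner_add_left, real_inner_smul_left, mul_zero, sub_zero] at h2
    rw [real_inner_comm (M.x u) w, real_inner_comm (M.ν u) w]; exact h2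
  -- membership
  have hmemν : ∀ u ∈ M.U, M.ν u - η ∈ W := by
    intro u hu
    show ι (M.ν u - η) ∈ M.spanK mu M.U
    have h2 : ι (M.ν u - η) = M.K mu u - (1 + κ)⁻¹ • (e₁ n - f) := by
      rw [hι, hfe, hη]
      simp only [K, e₁, hmu u hu, zero_smul, zero_add]
      refine Prod.ext ?_ (Prod.ext ?_ ?_)
      · simp
      · simp
      · simp only [Prod.snd_sub, Prod.smul_snd, smul_eq_mul]
        field_simp
        ring
    rw [h2]
    exact Submodule.sub_mem _ (K_mem_spanK hu) (Submodule.smul_mem _ _ hf2)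
  have hmemd : ∀ u ∈ M.U, ∀ v, fderiv ℝ M.ν u v ∈ W := by
    intro u hu v
    -- a functional vanishing on `W` is constant along `ν`
    have h2 : ∀ δ ∈ Wᗮ, ⟪δ, fderiv ℝ M.ν u v⟫_ℝ = 0 := by
      intro δ hδ
      rw [← fderiv_inner_const (diffAt M.isOpen M.smooth_ν hu)]
      have : (fun w => ⟪δ, M.ν w⟫_ℝ) =ᶠ[nhds u] fun _ => ⟪δ, η⟫_ℝ := by
        refine Filter.eventuallyEq_of_mem (M.isOpen.mem_nhds hu) fun w hw => ?_
        have h3 := (Submodule.mem_orthogonal' W δ).mp hδ _ (hmemν w hw)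
        rw [inner_sub_right] at h3
        show ⟪δ, M.ν w⟫_ℝ = ⟪δ, η⟫_ℝ
        linarith
      rw [this.fderiv_eq]; simp
    have h3 : fderiv ℝ M.ν u v ∈ Wᗮᗮ := by
      rw [Submodule.mem_orthogonal]
      exact h2
    rwa [Submodule.orthogonal_orthogonal] at h3
  have hTW : ∀ u ∈ M.U, M.TW η u = W := by
    intro u hu
    apply le_antisymm
    · apply sup_le
      · rw [Submodule.span_singleton_le_iff_mem]; exact hmemν u hu
      · rintro _ ⟨v, rfl⟩
        exact hmemd u hu v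
    · rw [← Submodule.orthogonal_orthogonal (M.TW η u), ← Submodule.orthogonal_orthogonal W]
      apply Submodule.orthogonal_le
      intro δ hδ
      rw [Submodule.mem_orthogonal] at hδ
      -- the two properties of `δ`
      have a1 : ⟪δ, M.ν u⟫_ℝ = ⟪δ, η⟫_ℝ := by
        have h3 := hδ (M.ν u - η) (Submodule.mem_sup_left (Submodule.mem_span_singleton_self _))
        rw [real_inner_comm, inner_sub_right] at h3
        linarith
      have a2 : ∀ v, ⟪δ, fderiv ℝ M.ν u v⟫_ℝ = 0 := by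
        intro v
        rw [real_inner_comm]
        exact hδ _ (Submodule.mem_sup_right ⟨v, rfl⟩)
      obtain ⟨v, hv⟩ := exists_decomp hu δ
      have a3 : fderiv ℝ M.ν u v = 0 := by
        have h3 : ∀ w, ⟪fderiv ℝ M.x u w, fderiv ℝ M.ν u v⟫_ℝ = 0 := by
          intro w
          rw [← inner_dx_dν hu]
          have h4 := a2 w
          rw [hv, inner_add_left, inner_add_left, real_inner_smul_left, real_inner_smul_left,
            real_inner_comm (fderiv ℝ M.ν u w) (M.x u), M.inner_x_dν hu,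
            real_inner_comm (fderiv ℝ M.ν u w) (M.ν u), M.inner_dν_ν hu] at h4
          linarith
        apply M.eq_zero_of_orth hu
        · intro i
          rw [real_inner_comm]; exact h3 _
        · exact M.inner_x_dν hu v
        · exact M.inner_dν_ν hu v
      set a := ⟪δ, M.x u⟫_ℝ with had
      set b := ⟪δ, M.ν u⟫_ℝ with hbd
      -- derivative of the relations along `v`
      have hdl : ∀ w : Amb n, (∀ u' ∈ M.U, ∀ c, c = lam u' * ⟪w, M.x u'⟫_ℝ + ⟪w, M.ν u'⟫_ℝ →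
          c = lam u * ⟪w, M.x u⟫_ℝ + ⟪w, M.ν u⟫_ℝ) →
          fderiv ℝ lam u v * ⟪w, M.x u⟫_ℝ + lam u * ⟪w, fderiv ℝ M.x u v⟫_ℝ = 0 := by
        intro w hw
        have h3 : fderiv ℝ (fun u' => lam u' * ⟪w, M.x u'⟫_ℝ + ⟪w, M.ν u'⟫_ℝ) u v = 0 := by
          have : (fun u' => lam u' * ⟪w, M.x u'⟫_ℝ + ⟪w, M.ν u'⟫_ℝ) =ᶠ[nhds u]
              fun _ => lam u * ⟪w, M.x u⟫_ℝ + ⟪w, M.ν u⟫_ℝ :=
            Filter.eventuallyEq_of_mem (M.isOpen.mem_nhds hu) fun u' hu' => hw u' hu' _ rfl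
          rw [this.fderiv_eq]; simp
        have hd1 := (diffAt M.isOpen hl.two.smooth_lam hu).hasFDerivAt
        have hd2 : HasFDerivAt (fun u' => ⟪w, M.x u'⟫_ℝ) ((innerSL ℝ w).comp (fderiv ℝ M.x u)) u :=
          (innerSL ℝ w).hasFDerivAt.comp u (diffAt M.isOpen M.smooth_x hu).hasFDerivAt
        have hd3 : HasFDerivAt (fun u' => ⟪w, M.ν u'⟫_ℝ) ((innerSL ℝ w).comp (fderiv ℝ M.ν u)) u :=
          (innerSL ℝ w).hasFDerivAt.comp u (diffAt M.isOpen M.smooth_ν hu).hasFDerivAt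
        have h4 : fderiv ℝ (fun u' => lam u' * ⟪w, M.x u'⟫_ℝ + ⟪w, M.ν u'⟫_ℝ) u = _ :=
          ((hd1.mul hd2).add hd3).fderiv
        rw [h4] at h3
        simp [a3] at h3
        linarith
      have b1 := hdl η (by
        rintro u' hu' c rfl
        rw [hηx u' hu', hην u' hu', hηx u hu, hην u hu])
      rw [Submodule.mem_orthogonal]
      intro w hw
      have b2 := hdl w (by
        rintro u' hu' c rfl
        rw [hWK u' hu' w hw, hWK u hu w hw])
      have b3 := hWK u hu w hw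
      have b4 := hηx u hu
      have b5 := hην u hu
      have b6 : ⟪δ, η⟫_ℝ = ⟪η, fderiv ℝ M.x u v⟫_ℝ + a * ⟪η, M.x u⟫_ℝ + b * ⟪η, M.ν u⟫_ℝ := by
        conv_lhs => rw [hv]
        rw [inner_add_left, inner_add_left, real_inner_smul_left, real_inner_smul_left,
          real_inner_comm η (fderiv ℝ M.x u v), real_inner_comm η (M.x u),
          real_inner_comm η (M.ν u)]
      have b7 : ⟪w, δ⟫_ℝ = ⟪w, fderiv ℝ M.x u v⟫_ℝ + a * ⟪w, M.x u⟫_ℝ + b * ⟪w, M.ν u⟫_ℝ := by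
        conv_lhs => rw [hv]
        rw [inner_add_right, inner_add_right, real_inner_smul_right, real_inner_smul_right]
      rw [← a1] at b6
      have hl0 := hlam0 u hu
      -- eliminate
      have b8 : b * (1 / (1 + κ)) = ⟪η, fderiv ℝ M.x u v⟫_ℝ + a * ⟪η, M.x u⟫_ℝ := by
        rw [b5] at b6
        have : b = b * (1 / (1 + κ)) + b * (κ / (1 + κ)) := by field_simp
        linarith
      have b9 : lam u ^ 2 * b = lam u * a - fderiv ℝ lam u v := by
        have e1 : lam u ^ 2 * (b * (1 / (1 + κ))) = (lam u * a - fderiv ℝ lam u v) * (1 / (1 + κ)) := by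
          rw [b8, ← b4]
          linear_combination lam u * b1
        have h2 : (1 / (1 + κ)) ≠ 0 := one_div_ne_zero h1κ
        apply mul_right_cancel₀ h2
        linarith
      have b10 : lam u ^ 2 * ⟪w, δ⟫_ℝ = 0 := by
        rw [b7]
        linear_combination lam u * b2 + (lam u ^ 2 * b) * b3 + (-lam u * ⟪w, M.x u⟫_ℝ) * b9
      exact (mul_eq_zero.mp b10).resolve_left (pow_ne_zero 2 hl0)
  exact ⟨η, W, fun u hu => ⟨hηη, hην u hu, hηx u hu, hTW u hu, fun w hw =>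
    ⟨hWη w hw, hWK u hu w hw⟩⟩⟩

/-- The global data of the cone. -/
theorem TwoPC.cone_data (h : M.TwoPC lam mu p q) (hmu : ∀ u ∈ M.U, mu u = 0) {κ : ℝ}
    (hκ : 0 < κ)
    (hgr : ∀ u ∈ M.U, M.gradInner lam lam u = lam u ^ 2 * (κ * lam u ^ 2 - 1)) :
    ∃ (η : Amb n) (W : Submodule ℝ (Amb n)), Module.finrank ℝ W = p + 1 ∧
      (∀ w ∈ W, ⟪w, η⟫_ℝ = 0) ∧ ⟪η, η⟫_ℝ = κ / (1 + κ) ∧ ∀ u ∈ M.U,
      ⟪η, M.ν u⟫_ℝ = κ / (1 + κ) ∧ lam u * ⟪η, M.x u⟫_ℝ = 1 / (1 + κ) ∧ M.ν u - η ∈ W ∧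
      ∀ w ∈ W, lam u * ⟪w, M.x u⟫_ℝ + ⟪w, M.ν u⟫_ℝ = 0 := by
  let P : Amb n × Submodule ℝ (Amb n) → Dom n → Prop := fun z u =>
    ⟪z.1, z.1⟫_ℝ = κ / (1 + κ) ∧
      ⟪z.1, M.ν u⟫_ℝ = κ / (1 + κ) ∧ lam u * ⟪z.1, M.x u⟫_ℝ = 1 / (1 + κ) ∧ M.TW z.1 u = z.2 ∧
      ∀ w ∈ z.2, ⟪w, z.1⟫_ℝ = 0 ∧ lam u * ⟪w, M.x u⟫_ℝ + ⟪w, M.ν u⟫_ℝ = 0
  let A : Amb n × Submodule ℝ (Amb n) → Set (Dom n) := fun z =>
    {u | ∃ N, IsOpen N ∧ N ⊆ M.U ∧ u ∈ N ∧ ∀ v ∈ N, P z v}
  have hlam0 : ∀ u ∈ M.U, lam u ≠ 0 := by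
    intro u hu h0
    exact h.ne u hu (by rw [h0, hmu u hu])
  obtain ⟨⟨η, W⟩, hA⟩ : ∃ z, M.U ⊆ A z := by
    apply exists_of_cover A
    · intro z
      rw [isOpen_iff_mem_nhds]
      rintro w ⟨N, hN, hNU, hw, h1⟩
      exact Filter.mem_of_superset (hN.mem_nhds hw) fun w' hw' => ⟨N, hN, hNU, hw', h1⟩
    · intro u hu
      obtain ⟨N, huN, hloc⟩ := h.exists_local hu
      set M' := M.restr N hloc.isOpen ⟨hloc.nonempty, hloc.preconn⟩ hloc.subset with hM'
      have hl : M'.Local lam mu p q M'.U := hloc.restr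
      obtain ⟨η, W, hd⟩ := hl.cone_data (fun v hv => hmu v (hloc.subset hv)) hκ
        (fun v hv => hgr v (hloc.subset hv))
      exact ⟨(η, W), N, hloc.isOpen, hloc.subset, huN, hd⟩
    · rintro ⟨η, W⟩ ⟨η', W'⟩ u hu ⟨N, hN, hNU, huN, hP⟩ ⟨N', hN', hNU', huN', hP'⟩
      have hη : η - η' = 0 := by
        apply eq_zero_of_inner (M := M) (hN.inter hN') (Set.inter_subset_left.trans hNU) ⟨huN, huN'⟩
        · rintro v ⟨hv, hv'⟩
          obtain ⟨-, -, h1, -⟩ := hP v hv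
          obtain ⟨-, -, h1', -⟩ := hP' v hv'
          simp only at h1 h1'
          have h2 : lam v * ⟪η - η', M.x v⟫_ℝ = 0 := by
            rw [inner_sub_left, mul_sub, h1, h1', sub_self]
          exact (mul_eq_zero.mp h2).resolve_left (hlam0 v (hNU hv))
        · rintro v ⟨hv, hv'⟩
          obtain ⟨-, h1, -⟩ := hP v hv
          obtain ⟨-, h1', -⟩ := hP' v hv'
          simp only at h1 h1'
          rw [inner_sub_left, h1, h1', sub_self]
      have hη' := sub_eq_zero.mp hη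
      subst hη'
      obtain ⟨-, -, -, h1, -⟩ := hP u huN
      obtain ⟨-, -, -, h1', -⟩ := hP' u huN'
      simp only at h1 h1'
      rw [← h1, ← h1']
  have hP : ∀ u ∈ M.U, P (η, W) u := by
    intro u hu
    obtain ⟨N, -, -, huN, h1⟩ := hA hu
    exact h1 u huN
  obtain ⟨u₀, hu₀⟩ := M.isConnected.nonempty
  refine ⟨η, W, ?_, fun w hw => ((hP u₀ hu₀).2.2.2.2 w hw).1, (hP u₀ hu₀).1, fun u hu => ?_⟩
  · have hTW : M.TW η u₀ = W := (hP u₀ hu₀).2.2.2.1
    rw [← hTW]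
    apply finrank_TW h hmu (a := κ / (1 + κ)) _ hu₀ fun v hv => (hP v hv).2.1
    intro h0
    rw [div_eq_one_iff_eq (by linarith)] at h0
    linarith
  · obtain ⟨-, h1, h2, h3, h4⟩ := hP u hu
    refine ⟨h1, h2, ?_, fun w hw => (h4 w hw).2⟩
    simp only at h3
    rw [← h3]
    exact Submodule.mem_sup_left (Submodule.mem_span_singleton_self _)

/-- The hypersurface is an open part of the cone. -/
theorem TwoPC.isConePart (h : M.TwoPC lam mu p q) (hmu : ∀ u ∈ M.U, mu u = 0) {κ t : ℝ}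
    (ht : 0 < t) (hκt : κ * t ^ 2 = 1)
    (hgr : ∀ u ∈ M.U, M.gradInner lam lam u = lam u ^ 2 * (κ * lam u ^ 2 - 1)) :
    M.IsConePart p t := by
  have hκ : 0 < κ := by
    have h1 : 0 < κ * t ^ 2 := by rw [hκt]; norm_num
    exact (pos_iff_pos_of_mul_pos h1).mpr (by positivity)
  have h1κ : (1 : ℝ) + κ ≠ 0 := by linarith
  obtain ⟨η, W, hW, hWη, hηη, hd⟩ := h.cone_data hmu hκ hgr
  have hlam0 : ∀ u ∈ M.U, lam u ≠ 0 := by
    intro u hu h0
    exact h.ne u hu (by rw [h0, hmu u hu])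
  -- the sign of `lam`
  have hsign : ∃ σ : ℝ, σ ^ 2 = 1 ∧ ∀ u ∈ M.U, 0 < σ * lam u := by
    obtain ⟨u₀, hu₀⟩ := M.isConnected.nonempty
    have hpre : IsPreconnected (lam '' M.U) :=
      M.isConnected.isPreconnected.image lam h.smooth_lam.continuousOn
    have hoc := hpre.ordConnected
    rcases lt_or_gt_of_ne (hlam0 u₀ hu₀) with h0 | h0
    · refine ⟨-1, by norm_num, fun u hu => ?_⟩
      by_contra hcon
      have h1 : 0 ≤ lam u := by linarith
      obtain ⟨v, hv, hv0⟩ := hoc.out ⟨u₀, hu₀, rfl⟩ ⟨u, hu, rfl⟩ ⟨h0.le, h1⟩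
      exact hlam0 v hv hv0
    · refine ⟨1, by norm_num, fun u hu => ?_⟩
      by_contra hcon
      have h1 : lam u ≤ 0 := by linarith
      obtain ⟨v, hv, hv0⟩ := hoc.out ⟨u, hu, rfl⟩ ⟨u₀, hu₀, rfl⟩ ⟨h1, h0.le⟩
      exact hlam0 v hv hv0
  obtain ⟨σ, hσ, hσl⟩ := hsign
  have hη0 : 0 < ‖η‖ := by
    rw [norm_pos_iff]
    rintro rfl
    rw [inner_zero_left] at hηη
    have : 0 < κ / (1 + κ) := by positivity
    linarith
  have hη2 : ‖η‖ ^ 2 = κ / (1 + κ) := by rw [← real_inner_self_eq_norm_sq, hηη]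
  have hσ1 : |σ| = 1 := by
    rw [← sq_eq_sq₀ (abs_nonneg σ) zero_le_one, sq_abs, hσ]; norm_num
  refine ⟨W, (σ / ‖η‖) • η, hW, ?_, ?_, fun u hu => ?_⟩
  · rw [norm_smul, norm_div, Real.norm_eq_abs, hσ1, norm_norm]
    field_simp
  · rw [Submodule.mem_orthogonal]
    intro w hw
    rw [real_inner_smul_right, hWη w hw, mul_zero]
  · obtain ⟨h1, h2, h3, h4⟩ := hd u hu
    have hl0 := hlam0 u hu
    -- the projection of `x`
    have hproj : W.starProjection (M.x u) = -((lam u)⁻¹ • (M.ν u - η)) := by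
      apply Submodule.eq_starProjection_of_mem_of_inner_eq_zero
      · exact Submodule.neg_mem _ (Submodule.smul_mem _ _ h3)
      · intro w hw
        have h5 := h4 w hw
        have h6 := hWη w hw
        rw [sub_neg_eq_add, inner_add_left, real_inner_smul_left, inner_sub_left,
          real_inner_comm w (M.x u), real_inner_comm w (M.ν u), real_inner_comm w η, h6, sub_zero]
        field_simp
        linarith
    have hnorm : ‖W.starProjection (M.x u)‖ ^ 2 = (lam u ^ 2)⁻¹ * (1 / (1 + κ)) := by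
      rw [hproj, norm_neg, norm_smul, mul_pow, ← real_inner_self_eq_norm_sq (M.ν u - η),
        inner_sub_left, inner_sub_right, inner_sub_right, M.inner_νν hu, hηη, h1,
        real_inner_comm η (M.ν u), h1, Real.norm_eq_abs, sq_abs, inv_pow]
      field_simp
      ring
    have hx : ⟪M.x u, (σ / ‖η‖) • η⟫_ℝ = (σ * lam u)⁻¹ * (1 / (1 + κ)) / ‖η‖ := by
      rw [real_inner_smul_right, real_inner_comm η (M.x u)]
      have h5 : ⟪η, M.x u⟫_ℝ = (lam u)⁻¹ * (1 / (1 + κ)) := by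
        rw [← h2]; field_simp
      have h6 : σ = σ⁻¹ := by
        have : σ * σ = 1 := by rw [← pow_two]; exact hσ
        exact eq_inv_of_mul_eq_one_left this
      rw [h5, mul_inv, ← h6]
      ring
    have hpos : 0 < ⟪M.x u, (σ / ‖η‖) • η⟫_ℝ := by
      rw [hx]
      have := hσl u hu
      positivity
    refine ⟨hpos, ?_⟩
    rw [← sq_eq_sq₀ hpos.le (by positivity), mul_pow, hnorm, hx, div_pow, mul_pow, inv_pow, mul_pow,
      hσ, one_mul, hη2]
    have h7 : t ^ 2 = κ⁻¹ := eq_inv_of_mul_eq_one_right hκt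
    rw [h7]
    field_simp

end Hypersurface

end Pool.Agent.Helper21.Dupin
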