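import Pool.Agent.Helper21.Dupin.Global

/-!
The converse: the explicit alternative gives hypersurfaces of `k`-type, `k = (l+3)/2`.
-/

namespace Pool.Agent.Helper21.Dupin

open scoped ContDiff InnerProductSpace Polynomial

theorem sum_coord {n : ℕ} {ι : Type*} (s : Finset ι) (f : ι → Amb n) (b : Fin (n + 2)) :
    (∑ i ∈ s, f i) b = ∑ i ∈ s, (f i) b :=
  map_sum (EuclideanSpace.proj b : Amb n →L[ℝ] ℝ) f s

/-- the product of the first factors of the chain -/
theorem chain_prod {α γ : ℕ → ℝ} (m : ℕ) :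
    Polynomial.aeval (tri α (fun _ => 0) γ)
      (∏ i ∈ Finset.range m, (Polynomial.X - Polynomial.C (α (2 * i)))) (1 : ℝ[X])
      = (∏ i ∈ Finset.range m, γ (2 * i)) • (Polynomial.X ^ (2 * m) : ℝ[X]) := by
  induction m with
  | zero => simp
  | succ m ih =>
    rw [Finset.prod_range_succ, mul_comm, map_mul, Module.End.mul_apply, ih, map_smul, map_sub,
      LinearMap.sub_apply, Polynomial.aeval_X, Polynomial.aeval_C, Module.algebraMap_end_apply,
      tri_X_pow, Finset.prod_range_succ]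
    have e1 : 2 * (m + 1) = 2 * m + 2 := by ring
    rw [e1]
    simp only [map_zero, zero_mul, add_zero, Polynomial.smul_eq_C_mul, map_mul]
    ring

namespace Hypersurface

variable {n : ℕ} {M : Hypersurface n} {lam mu : Dom n → ℝ} {p q : ℕ}

/-- restriction of functions -/
noncomputable def res (M : Hypersurface n) {N : Set (Dom n)} (hN : IsOpen N) (hc : IsConnected N)
    (hNU : N ⊆ M.U) : M.Sm →ₐ[ℝ] (M.restr N hN hc hNU).Sm where
  toFun f := ⟨fun u => f.1 ⟨u, hNU u.2⟩, by
    obtain ⟨F, hF, hf⟩ := f.2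
    exact ⟨F, hF.mono hNU, fun u => hf ⟨u, hNU u.2⟩⟩⟩
  map_one' := rfl
  map_mul' _ _ := rfl
  map_zero' := rfl
  map_add' _ _ := rfl
  commutes' _ := rfl

theorem res_lap {N : Set (Dom n)} (hN : IsOpen N) (hc : IsConnected N)
    (hNU : N ⊆ M.U) (f : M.Sm) :
    (M.restr N hN hc hNU).lap (M.res hN hc hNU f) = M.res hN hc hNU (M.lap f) := by
  apply Subtype.ext
  funext u
  rw [lap_apply]
  show laplace M.x ((M.restr N hN hc hNU).ext (M.res hN hc hNU f).1) u = laplace M.x (M.ext f.1) u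
  have h1 : ∀ v ∈ N, (M.restr N hN hc hNU).ext (M.res hN hc hNU f).1 v = M.ext f.1 v := by
    intro v hv
    rw [ext_apply _ _ (show v ∈ (M.restr N hN hc hNU).U from hv), ext_apply _ _ (hNU hv)]
    rfl
  exact (M.restr N hN hc hNU).laplace_congr h1 u.2

theorem res_aeval {N : Set (Dom n)} (hN : IsOpen N) (hc : IsConnected N)
    (hNU : N ⊆ M.U) (P : ℝ[X]) (f : M.Sm) :
    Polynomial.aeval (M.restr N hN hc hNU).lap P (M.res hN hc hNU f)
      = M.res hN hc hNU (Polynomial.aeval M.lap P f) :=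
  aeval_intertwine _ M.lap (M.res hN hc hNU).toLinearMap (fun x => M.res_lap hN hc hNU x) P f

theorem res_xS {N : Set (Dom n)} (hN : IsOpen N) (hc : IsConnected N)
    (hNU : N ⊆ M.U) (G : Amb n) : M.res hN hc hNU (M.xS G) = (M.restr N hN hc hNU).xS G := rfl

theorem res_apply {N : Set (Dom n)} (hN : IsOpen N) (hc : IsConnected N)
    (hNU : N ⊆ M.U) (f : M.Sm) (u : N) : (M.res hN hc hNU f).1 u = f.1 ⟨u, hNU u.2⟩ := rfl

/-- for `μ₀ = 0`, the vector `f'` is `e₀` -/
theorem Local.f'_eq (hl : M.Local lam mu p q M.U) (hmu : ∀ u ∈ M.U, mu u = 0)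
    {f' : LV n} (hf' : f' ∈ M.spanK lam M.U)
    (hf2' : e₀ n - f' ∈ M.spanK mu M.U) : f' = e₀ n := by
  have h0 : e₀ n - f' = 0 := by
    apply hl.two.orth_eq_zero M.isOpen subset_rfl M.isConnected.nonempty
    · intro u hu
      rw [form_symm]
      exact hl.orth (K_mem_spanK hu) hf2'
    · intro u hu
      rw [map_sub, LinearMap.sub_apply, hl.orth hf' (K_mem_spanK hu), sub_zero, form_symm, form_e₀]
      show -(mu u) = 0
      rw [hmu u hu, neg_zero]
  exact (sub_eq_zero.mp h0).symm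

/-- all coordinate functions are annihilated by the polynomial -/
theorem Local.nodal_xS (hl : M.Local lam mu p q M.U) (hmu : ∀ u ∈ M.U, mu u = 0)
    {f f' : LV n} (hf : f ∈ M.spanK lam M.U)
    (hf' : f' ∈ M.spanK lam M.U) (hf2 : e₁ n - f ∈ M.spanK mu M.U)
    (hf2' : e₀ n - f' ∈ M.spanK mu M.U) (hκ : 0 < form n f f) {p' r : ℕ} (hp' : p = 2 * p')
    (hp'r : p' ≤ r) (hr : γφ (form n f f) p (2 * r) = 0) (G : Amb n) :
    Polynomial.aeval M.lap (∏ i ∈ Finset.range (r + 1),
      (Polynomial.X - Polynomial.C (αc 0 p q (2 * i)))) (M.xS G) = 0 := by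
  set P : ℝ[X] := ∏ i ∈ Finset.range (r + 1),
      (Polynomial.X - Polynomial.C (αc 0 p q (2 * i))) with hP
  have hfe : f' = e₀ n := hl.f'_eq hmu hf' hf2'
  have hwrel := hl.wrel hmu hf hf' hf2 hf2'
  obtain ⟨c1, c2⟩ := hl.const_rel hmu hf hf' hf2 hf2'
  obtain ⟨g1, g2, g3⟩ := hl.complement hf hf' hf2 hf2'
  obtain ⟨d1, d2⟩ := hl.f_scalars hf hf2 hf2'
  set κ := form n f f with hκd
  rw [mul_zero] at c1
  set w := M.fn lam hl.two.smooth_lam - algebraMap ℝ M.Sm 0 with hw
  set y := M.fn _ hl.two.smooth_inv with hyd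
  have hy : y * w = 1 := hl.y_mul_w hmu
  have haf : M.aS f = -y := hl.aS_f hf hf2
  -- P annihilates y
  have hPy : Polynomial.aeval M.diff.L P y = 0 := by
    have h3 := M.diff.aeval_L_Θ (hwrel.chain_y hy) P 1
    have h4 : Diffusion.Θ w y 1 = y := by rw [Diffusion.Θ_apply, map_one, mul_one]
    rw [h4] at h3
    rw [h3, βc_zero, hP, chain_prod]
    have h5 : ∏ i ∈ Finset.range (r + 1), γy κ p (2 * i) = 0 := by
      apply Finset.prod_eq_zero (Finset.mem_range.mpr (by omega : p' < r + 1))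
      unfold γy
      rw [hp']; push_cast; ring
    rw [h5, zero_smul, map_zero]
  -- P annihilates the functions φ
  have hPφ : ∀ z ∈ M.spanK mu M.U, z.1 = 0 → z.2.2 = 0 →
      Polynomial.aeval M.diff.L P (M.aS z) = 0 := by
    intro z hz hz1 hz2
    obtain ⟨r1, r2⟩ := hl.φ_rel hmu hf hf' hf2 hf2' hz hz1 hz2
    have h3 := M.diff.aeval_L_Θ (hwrel.chain_φ r1 r2) P 1
    have h4 : Diffusion.Θ w (M.aS z) 1 = M.aS z := by rw [Diffusion.Θ_apply, map_one, mul_one]
    rw [h4] at h3
    rw [h3, βc_zero, hP, chain_prod]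
    have h5 : ∏ i ∈ Finset.range (r + 1), γφ κ p (2 * i) = 0 :=
      Finset.prod_eq_zero (Finset.mem_range.mpr (by omega : r < r + 1)) hr
    rw [h5, zero_smul, map_zero]
  -- P annihilates the other functions
  have hPo : ∀ z ∈ M.spanK lam M.U, form n z f = 0 → form n z (e₀ n) = 0 →
      Polynomial.aeval M.diff.L P (M.aS z) = 0 := by
    intro z hz hzf hz0
    have hz1 : z.1 = 0 := by rw [form_e₀] at hz0; linarith
    have hz2 : z.2.2 = 0 := by
      have h1 : form n z (e₁ n) = 0 := by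
        have h2 := hl.orth hz hf2
        rw [map_sub, hzf, sub_zero] at h2
        exact h2
      rw [form_e₁] at h1; linarith
    have hbz : M.bS z = 0 := by
      rw [hl.bS_of_mem_lam hz]
      have : M.fn mu hl.two.smooth_mu = 0 := by
        apply Subtype.ext
        funext u
        exact hmu u u.2
      rw [this, zero_mul, neg_zero]
    set HS : M.Sm := (p : M.Sm) * M.fn lam hl.two.smooth_lam + (q : M.Sm) * M.fn mu hl.two.smooth_mu
      with hHS
    have hH : ∀ u : M.U, HS.1 u = M.H u := by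
      intro u
      rw [hl.two.H_eq u.2]
      rfl
    have h1 := M.lap_aS z HS hH
    rw [hz1, hz2, hbz, map_zero, add_zero, add_zero, mul_zero, add_zero] at h1
    have h2 : M.diff.L (M.aS z) = (-(n : ℝ)) • M.aS z := h1
    rw [aeval_eigen M.diff.L P h2]
    have h3 : P.eval (-(n : ℝ)) = 0 := by
      rw [hP, Polynomial.eval_prod]
      apply Finset.prod_eq_zero (Finset.mem_range.mpr (by omega : 0 < r + 1))
      simp only [Polynomial.eval_sub, Polynomial.eval_X, Polynomial.eval_C]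
      unfold αc
      rw [← hl.two.hpq]
      push_cast; ring
    rw [h3, zero_smul]
  -- decompose
  have haS_add : ∀ z z' : LV n, M.aS (z + z') = M.aS z + M.aS z' := by
    intro z z'
    apply Subtype.ext
    funext u
    have : (M.aS z + M.aS z').1 u = (M.aS z).1 u + (M.aS z').1 u := rfl
    rw [this, M.aS_apply, M.aS_apply, M.aS_apply, map_add]; rfl
  have haS_smul : ∀ (a : ℝ) (z : LV n), M.aS (a • z) = a • M.aS z := by
    intro a z
    apply Subtype.ext
    funext u
    have : (a • M.aS z).1 u = a * (M.aS z).1 u := rfl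
    rw [this, M.aS_apply, M.aS_apply, map_smul]; rfl
  have hxz : M.xS G = M.aS (0, G, 0) := by
    unfold aS; simp
  have hz : ((0, G, 0) : LV n) ∈ M.spanK lam M.U ⊔ M.spanK mu M.U := by
    rw [hl.sup_eq_top]; trivial
  obtain ⟨z₁, hz₁, z₂, hz₂, hzz⟩ := Submodule.mem_sup.mp hz
  have h20 : form n z₂ (e₀ n) = 0 := by
    rw [← hfe, form_symm]; exact hl.orth hf' hz₂
  have h10 : form n z₁ (e₀ n) = 0 := by
    have h1 : form n ((0, G, 0) : LV n) (e₀ n) = 0 := by rw [form_e₀]; simp
    rw [← hzz, map_add, LinearMap.add_apply, h20, add_zero] at h1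
    exact h1
  have hfe0 : form n f (e₀ n) = 0 := by rw [← hfe, c1]
  -- first part
  set a := form n z₁ f / κ with ha
  have hz₁' : z₁ - a • f ∈ M.spanK lam M.U :=
    Submodule.sub_mem _ hz₁ (Submodule.smul_mem _ _ hf)
  have e1 : Polynomial.aeval M.diff.L P (M.aS (z₁ - a • f)) = 0 := by
    apply hPo _ hz₁'
    · rw [map_sub, LinearMap.sub_apply, map_smul, LinearMap.smul_apply, smul_eq_mul, ← hκd, ha]
      field_simp
      ring
    · rw [map_sub, LinearMap.sub_apply, map_smul, LinearMap.smul_apply, smul_eq_mul, h10, hfe0]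
      ring
  -- second part
  set b := form n z₂ (e₁ n - f) / (-1 - κ) with hb
  have hz₂' : z₂ - b • (e₁ n - f) ∈ M.spanK mu M.U :=
    Submodule.sub_mem _ hz₂ (Submodule.smul_mem _ _ hf2)
  have e2 : Polynomial.aeval M.diff.L P (M.aS (z₂ - b • (e₁ n - f))) = 0 := by
    apply hPφ _ hz₂'
    · have h1 : form n (z₂ - b • (e₁ n - f)) (e₀ n) = 0 := by
        have h2 : form n (e₁ n) (e₀ n) = 0 := by rw [form_e₀]; simp [e₁]
        simp only [map_sub, LinearMap.sub_apply, map_smul, LinearMap.smul_apply, smul_eq_mul, h20,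
          hfe0, h2]
        ring
      rw [form_e₀] at h1
      linarith
    · have h1 : form n (z₂ - b • (e₁ n - f)) (e₁ n) = 0 := by
        have h3 : form n (z₂ - b • (e₁ n - f)) f = 0 := by
          rw [form_symm]; exact hl.orth hf hz₂'
        have h4 : form n (z₂ - b • (e₁ n - f)) (e₁ n - f) = 0 := by
          have hne : (-1 - κ) ≠ 0 := by linarith
          rw [map_sub (form n), LinearMap.sub_apply, map_smul, LinearMap.smul_apply, smul_eq_mul, g2,
            hb, div_mul_cancel₀ _ hne, sub_self]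
        rw [map_sub, h3, sub_zero] at h4
        exact h4
      rw [form_e₁] at h1
      linarith
  have e3 : M.aS (e₁ n - f) = y := by
    have h1 : M.aS (e₁ n) = 0 := by
      apply Subtype.ext
      funext u
      rw [M.aS_apply, form_symm, form_e₁]
      simp [Y₁]
    have h2 : e₁ n - f = e₁ n + (-1 : ℝ) • f := by rw [neg_one_smul, sub_eq_add_neg]
    rw [h2, haS_add, haS_smul, h1, haf]; simp
  have hdec : ((0, G, 0) : LV n) = ((z₁ - a • f) + a • f) + ((z₂ - b • (e₁ n - f))
      + b • (e₁ n - f)) := by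
    rw [sub_add_cancel, sub_add_cancel, hzz]
  show Polynomial.aeval M.diff.L P (M.xS G) = 0
  rw [hxz, hdec, haS_add, haS_add, haS_add, haS_smul, haS_smul, e3, haf, map_add, map_add, map_add,
    e1, e2, map_smul, map_smul, map_neg, hPy]
  simp

/-- The recursion coefficient vanishes for the first time at `r`. -/
theorem γφ_kap_ne {p r i : ℕ} (hp : 0 < p) (hr : p < 2 * r - 1) (hi : i < r) :
    γφ (kap p (2 * r - 1)) p (2 * i) ≠ 0 := by
  have hppos : (0 : ℝ) < p := by exact_mod_cast hp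
  have hcast : (((2 * r - 1 : ℕ)) : ℝ) = 2 * r - 1 := by
    rw [Nat.cast_sub (by omega)]; push_cast; ring
  have hrp : (p : ℝ) < 2 * r - 1 := by
    rw [← hcast]; exact_mod_cast hr
  have hir : (i : ℝ) + 1 ≤ r := by exact_mod_cast hi
  have hi0 : (0 : ℝ) ≤ i := Nat.cast_nonneg _
  have hD : 0 < (2 * (r : ℝ)) * (2 * r - 1 - p) := mul_pos (by linarith) (by linarith)
  have hk : kap p (2 * r - 1) = p / ((2 * (r : ℝ)) * (2 * r - 1 - p)) := by
    unfold kap; rw [hcast]; congr 1; ring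
  rw [hk]
  unfold γφ
  push_cast
  intro h
  have h1 : (p : ℝ) * ((2 * (i : ℝ)) * (2 * i - 1 - p)) = p * ((2 * (r : ℝ)) * (2 * r - 1 - p)) := by
    have h2 : p / ((2 * (r : ℝ)) * (2 * r - 1 - p)) * (2 * (i : ℝ)) * (2 * i - 1 - p) = p := by
      linarith
    calc (p : ℝ) * ((2 * (i : ℝ)) * (2 * i - 1 - p))
        = (p / ((2 * (r : ℝ)) * (2 * r - 1 - p)) * (2 * (i : ℝ)) * (2 * i - 1 - p))
          * ((2 * (r : ℝ)) * (2 * r - 1 - p)) := by
          have h5 := div_mul_cancel₀ (p : ℝ) hD.ne'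
          linear_combination (-((2 * (i : ℝ)) * (2 * i - 1 - p))) * h5
      _ = p * ((2 * (r : ℝ)) * (2 * r - 1 - p)) := by rw [h2]
  have h3 : (2 * (i : ℝ)) * (2 * i - 1 - p) = (2 * (r : ℝ)) * (2 * r - 1 - p) :=
    mul_left_cancel₀ hppos.ne' h1
  have h4 : ((r : ℝ) - i) * (2 * (r + i) - 1 - p) = 0 := by linarith
  rcases mul_eq_zero.mp h4 with h5 | h5
  · linarith
  · -- 2 (r + i) = 1 + p < 2 r
    linarith

theorem γφ_kap_zero {p r : ℕ} (hr : p < 2 * r - 1) :
    γφ (kap p (2 * r - 1)) p (2 * r) = 0 := by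
  have hcast : (((2 * r - 1 : ℕ)) : ℝ) = 2 * r - 1 := by
    rw [Nat.cast_sub (by omega)]; push_cast; ring
  have hrp : (p : ℝ) < 2 * r - 1 := by
    rw [← hcast]; exact_mod_cast hr
  have hr0 : (0 : ℝ) < r := by
    have : 0 < r := by omega
    exact_mod_cast this
  have h2 : (2 * (r : ℝ) - 1 - p) ≠ 0 := by
    have : 0 < 2 * (r : ℝ) - 1 - p := by linarith
    exact this.ne'
  unfold γφ kap
  rw [hcast]
  push_cast
  field_simp
  ring

/-- The converse: such hypersurfaces are of `k`-type with `k = (l + 3) / 2`. -/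
theorem TwoPC.kType (h : M.TwoPC lam mu p q) (hmu : ∀ u ∈ M.U, mu u = 0) {l : ℕ} (hp : Even p)
    (hl : Odd l) (hpl : p < l) (hcond : Even (p + q) ∨ 2 * l < p + q)
    (hgr : ∀ u ∈ M.U, M.gradInner lam lam u = lam u ^ 2 * (kap p l * lam u ^ 2 - 1)) :
    M.IsKType ((l + 3) / 2) := by
  obtain ⟨r', hr'⟩ := hl
  obtain ⟨p', hp'⟩ := hp
  -- l = 2 r - 1 with r = r' + 1
  obtain ⟨r, rfl⟩ : ∃ r, r' + 1 = r := ⟨_, rfl⟩
  set r := r' + 1 with hr
  have hlr : l = 2 * r - 1 := by omega
  have hk : (l + 3) / 2 = r + 1 := by omega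
  rw [hk]
  set α : ℕ → ℝ := fun i => αc 0 p q (2 * i) with hα
  have hinj : Set.InjOn α (Finset.range (r + 1)) := by
    rw [hα, αc_injOn_iff (by omega)]
    rcases hcond with h1 | h1
    · exact Or.inl h1
    · right; omega
  set P : ℝ[X] := ∏ i ∈ Finset.range (r + 1), (Polynomial.X - Polynomial.C (α i)) with hP
  have hPnodal : P = Lagrange.nodal (Finset.range (r + 1)) α := (Lagrange.nodal_eq _ _).symm
  -- local facts
  have hlocal : ∀ u₀ ∈ M.U, ∃ N, ∃ hN : M.Local lam mu p q N, u₀ ∈ N ∧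
      ∃ f f' : LV n, f ∈ (M.restr N hN.isOpen ⟨hN.nonempty, hN.preconn⟩ hN.subset).spanK lam N ∧
        f' ∈ (M.restr N hN.isOpen ⟨hN.nonempty, hN.preconn⟩ hN.subset).spanK lam N ∧
        e₁ n - f ∈ (M.restr N hN.isOpen ⟨hN.nonempty, hN.preconn⟩ hN.subset).spanK mu N ∧
        e₀ n - f' ∈ (M.restr N hN.isOpen ⟨hN.nonempty, hN.preconn⟩ hN.subset).spanK mu N ∧
        form n f f = kap p l := by
    intro u₀ hu₀
    obtain ⟨N, hu₀N, hN⟩ := h.exists_local hu₀
    refine ⟨N, hN, hu₀N, ?_⟩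
    set M' := M.restr N hN.isOpen ⟨hN.nonempty, hN.preconn⟩ hN.subset with hM'
    have hl' : M'.Local lam mu p q M'.U := hN.restr
    obtain ⟨f, f', hf, hf', hf2, hf2'⟩ := hl'.exists_split
    refine ⟨f, f', hf, hf', hf2, hf2', ?_⟩
    have hmu' : ∀ u ∈ M'.U, mu u = 0 := fun u hu => hmu u (hN.subset hu)
    have hw := hl'.wrel hmu' hf hf' hf2 hf2'
    have e1 := congrArg (fun g : M'.Sm => g.1 ⟨u₀, hu₀N⟩) hw.Γww
    have e2 : (M'.diff.Γ (M'.fn lam hl'.two.smooth_lam - algebraMap ℝ M'.Sm 0)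
        (M'.fn lam hl'.two.smooth_lam - algebraMap ℝ M'.Sm 0)).1 ⟨u₀, hu₀N⟩
        = (lam u₀ - 0) ^ 2 * (-(1 + 0 ^ 2)
      - 2 * 0 * (lam u₀ - 0) + form n f f * (lam u₀ - 0) ^ 2) := e1
    have e3 : M'.diff.Γ (M'.fn lam hl'.two.smooth_lam - algebraMap ℝ M'.Sm 0)
        (M'.fn lam hl'.two.smooth_lam - algebraMap ℝ M'.Sm 0)
        = M'.diff.Γ (M'.fn lam hl'.two.smooth_lam) (M'.fn lam hl'.two.smooth_lam) := by
      rw [map_zero, sub_zero]
    rw [e3] at e2
    have e4 : (M'.diff.Γ (M'.fn lam hl'.two.smooth_lam) (M'.fn lam hl'.two.smooth_lam)).1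
        ⟨u₀, hu₀N⟩ = M.gradInner lam lam u₀ := by
      have := M'.car_fn lam lam hl'.two.smooth_lam hl'.two.smooth_lam
      have h5 := congrArg (fun g : M'.Sm => g.1 ⟨u₀, hu₀N⟩) this
      exact h5
    rw [e4, hgr u₀ hu₀] at e2
    have hne : lam u₀ ≠ 0 := by
      have := h.ne u₀ hu₀
      rwa [hmu u₀ hu₀] at this
    have h6 : lam u₀ ^ 4 * (form n f f - kap p l) = 0 := by linarith
    have h7 := (mul_eq_zero.mp h6).resolve_left (pow_ne_zero 4 hne)
    linarith
  have hkpos : 0 < kap p l := by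
    unfold kap
    have hppos : (0 : ℝ) < p := by exact_mod_cast h.hp
    have hplr : (p : ℝ) < l := by exact_mod_cast hpl
    exact div_pos hppos (mul_pos (by linarith) (by linarith))
  have hγr : γφ (kap p l) p (2 * r) = 0 := by rw [hlr]; exact γφ_kap_zero (by omega)
  -- P annihilates the coordinates
  have hann : ∀ G : Amb n, Polynomial.aeval M.lap P (M.xS G) = 0 := by
    intro G
    apply Subtype.ext
    funext u
    obtain ⟨N, hN, huN, f, f', hf, hf', hf2, hf2', hff⟩ := hlocal u u.2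
    set M' := M.restr N hN.isOpen ⟨hN.nonempty, hN.preconn⟩ hN.subset with hM'
    have hl' : M'.Local lam mu p q M'.U := hN.restr
    have hmu' : ∀ u ∈ M'.U, mu u = 0 := fun u hu => hmu u (hN.subset hu)
    have h1 := hl'.nodal_xS hmu' hf hf' hf2 hf2' (by rw [hff]; exact hkpos) (p' := p') (r := r)
      (by omega) (by omega) (by rw [hff]; exact hγr) G
    have h2 := M.res_aeval hN.isOpen ⟨hN.nonempty, hN.preconn⟩ hN.subset P (M.xS G)
    rw [M.res_xS, h1] at h2
    have h3 := congrArg (fun g : M'.Sm => g.1 ⟨u, huN⟩) h2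
    exact h3.symm
  -- the components
  let B := Lagrange.basis (Finset.range (r + 1)) α
  have hBmul : ∀ i ∈ Finset.range (r + 1), (Polynomial.X - Polynomial.C (α i)) * B i
      = Polynomial.C (Lagrange.nodalWeight (Finset.range (r + 1)) α i) * P := by
    intro i hi
    simp only [B]
    rw [Lagrange.basis_eq_prod_sub_inv_mul_nodal_div hi, hPnodal]
    have h1 := EuclideanDomain.mul_div_cancel' (Polynomial.X_sub_C_ne_zero (α i))
      (Lagrange.X_sub_C_dvd_nodal α hi)
    calc (Polynomial.X - Polynomial.C (α i))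
        * (Polynomial.C (Lagrange.nodalWeight (Finset.range (r + 1)) α i)
          * (Lagrange.nodal (Finset.range (r + 1)) α / (Polynomial.X - Polynomial.C (α i))))
        = Polynomial.C (Lagrange.nodalWeight (Finset.range (r + 1)) α i)
          * ((Polynomial.X - Polynomial.C (α i))
          * (Lagrange.nodal (Finset.range (r + 1)) α / (Polynomial.X - Polynomial.C (α i)))) := by
          ring
      _ = _ := by rw [h1]
  have hBeig : ∀ i ∈ Finset.range (r + 1), ∀ G : Amb n,
      M.lap (Polynomial.aeval M.lap (B i) (M.xS G)) = α i • Polynomial.aeval M.lap (B i) (M.xS G) := by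
    intro i hi G
    have h1 := congrArg (fun Q : ℝ[X] => Polynomial.aeval M.lap Q (M.xS G)) (hBmul i hi)
    simp only [map_mul, Module.End.mul_apply, map_sub, LinearMap.sub_apply, Polynomial.aeval_X,
      Polynomial.aeval_C, Module.algebraMap_end_apply] at h1
    rw [hann G, smul_zero] at h1
    exact sub_eq_zero.mp h1
  have hsum : ∑ i ∈ Finset.range (r + 1), B i = 1 :=
    Lagrange.sum_basis hinj (by simp)
  -- vector valued components
  let φ : ℕ → Fin (n + 2) → M.Sm := fun i b =>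
    Polynomial.aeval M.lap (B i) (M.xS (EuclideanSpace.single b 1))
  let Xc : ℕ → Dom n → Amb n := fun i u => ∑ b, M.ext (φ i b).1 u • EuclideanSpace.single b (1 : ℝ)
  have hXs : ∀ i, ContDiffOn ℝ ∞ (Xc i) M.U := by
    intro i
    exact ContDiffOn.sum fun b _ => (M.smooth_ext (φ i b)).smul contDiffOn_const
  have hcomp : ∀ i, ∀ u ∈ M.U, ∀ b, (Xc i u) b = M.ext (φ i b).1 u := by
    intro i u hu b
    simp only [Xc]
    rw [sum_coord]
    simp
  have hXlap : ∀ i ∈ Finset.range (r + 1), ∀ u ∈ M.U, laplace M.x (Xc i) u = α i • Xc i u := by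
    intro i hi u hu
    ext b
    have h1 := M.laplace_clm (EuclideanSpace.proj b : Amb n →L[ℝ] ℝ) (hXs i) hu
    have h2 : laplace M.x (fun v => (EuclideanSpace.proj b : Amb n →L[ℝ] ℝ) (Xc i v)) u
        = laplace M.x (M.ext (φ i b).1) u := by
      apply M.laplace_congr _ hu
      intro v hv
      exact hcomp i v hv b
    rw [h2] at h1
    have h3 := congrArg (fun g : M.Sm => g.1 ⟨u, hu⟩) (hBeig i hi (EuclideanSpace.single b 1))
    have h4 : laplace M.x (M.ext (φ i b).1) u = α i * (φ i b).1 ⟨u, hu⟩ := h3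
    rw [h4] at h1
    have h5 : (EuclideanSpace.proj b : Amb n →L[ℝ] ℝ) (laplace M.x (Xc i) u)
        = laplace M.x (Xc i) u b := rfl
    rw [h5] at h1
    rw [← h1, PiLp.smul_apply, hcomp i u hu b, M.ext_apply _ hu, smul_eq_mul]
  refine ⟨0, fun i => Xc i, fun i => α i, ?_, fun i => hXs i, ?_, ?_, ?_⟩
  · intro i j hij
    exact Fin.ext (hinj (by simp; omega) (by simp; omega) hij)
  · -- non-constancy
    rintro i ⟨d, hd⟩
    have hi : (i : ℕ) ∈ Finset.range (r + 1) := Finset.mem_range.mpr i.2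
    obtain ⟨u₀, hu₀⟩ := M.isConnected.nonempty
    obtain ⟨N, hN, huN, f, f', hf, hf', hf2, hf2', hff⟩ := hlocal u₀ hu₀
    set M' := M.restr N hN.isOpen ⟨hN.nonempty, hN.preconn⟩ hN.subset with hM'
    have hl' : M'.Local lam mu p q M'.U := hN.restr
    have hmu' : ∀ u ∈ M'.U, mu u = 0 := fun u hu => hmu u (hN.subset hu)
    have hw := hl'.wrel hmu' hf hf' hf2 hf2'
    -- lam is not constant on N
    have hne : ∃ u₁ ∈ M'.U, ∃ u₂ ∈ M'.U, lam u₁ ≠ lam u₂ := by
      by_contra hcon
      push Not at hcon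
      have hc : M'.fn lam hl'.two.smooth_lam - algebraMap ℝ M'.Sm 0
          = algebraMap ℝ M'.Sm (lam u₀) := by
        rw [map_zero, sub_zero]
        apply Subtype.ext
        funext v
        exact hcon v v.2 u₀ huN
      have e1 := hw.Γww
      have e2 := hw.Lw
      rw [hc, M'.diff.Γ_algebraMap] at e1
      rw [hc, M'.diff.L_algebraMap] at e2
      have e3 : (0 : ℝ) = (lam u₀) ^ 2 * (-(1 + 0 ^ 2) - 2 * 0 * lam u₀
          + form n f f * (lam u₀) ^ 2) :=
        congrArg (fun g : M'.Sm => g.1 ⟨u₀, huN⟩) e1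
      have e4 : (0 : ℝ) = (lam u₀) * ((q : ℝ) * lam u₀ * (form n f f * lam u₀ - 0)
          - (((p + q : ℕ) : ℝ) - 2) * (-(1 + 0 ^ 2) - 2 * 0 * lam u₀
          + form n f f * (lam u₀) ^ 2)) :=
        congrArg (fun g : M'.Sm => g.1 ⟨u₀, huN⟩) e2
      have hlam0 : lam u₀ ≠ 0 := by
        have := h.ne u₀ hu₀
        rwa [hmu u₀ hu₀] at this
      have e5 := (mul_eq_zero.mp e3.symm).resolve_left (pow_ne_zero 2 hlam0)
      have e6 := (mul_eq_zero.mp e4.symm).resolve_left hlam0
      rw [e5, mul_zero, sub_zero, sub_zero] at e6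
      have e7 : form n f f * lam u₀ ^ 2 = 1 := by linarith
      have e8 : (q : ℝ) = 0 := by
        have : (q : ℝ) * (form n f f * lam u₀ ^ 2) = 0 := by linarith
        rw [e7, mul_one] at this
        exact this
      have := h.hq
      have e9 : q = 0 := by exact_mod_cast e8
      omega
    obtain ⟨u₁, h₁, u₂, h₂, hz⟩ := hl'.exists_z hmu'
    set z := M'.K mu u₁ - M'.K mu u₂ with hzd
    have hzm : z ∈ M'.spanK mu M'.U := Submodule.sub_mem _ (K_mem_spanK h₁) (K_mem_spanK h₂)
    have hz1 : z.1 = 0 := by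
      show mu u₁ - mu u₂ = 0
      rw [hmu' u₁ h₁, hmu' u₂ h₂, sub_self]
    have hz2 : z.2.2 = 0 := by
      show (1 : ℝ) - 1 = 0
      ring
    have haz : M'.aS z = M'.xS z.2.1 := by
      unfold aS; rw [hz1, map_zero, sub_zero]
    obtain ⟨r1, r2⟩ := hl'.φ_rel hmu' hf hf' hf2 hf2' hzm hz1 hz2
    have hchain := M'.diff.aeval_L_Θ (hw.chain_φ r1 r2) (B i) 1
    have h4 : Diffusion.Θ (M'.fn lam hl'.two.smooth_lam - algebraMap ℝ M'.Sm 0) (M'.aS z) 1
        = M'.aS z := by rw [Diffusion.Θ_apply, map_one, mul_one]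
    rw [h4, Diffusion.Θ_apply] at hchain
    -- the component is constant
    have hconst : Polynomial.aeval M'.lap (B i) (M'.xS z.2.1)
        = algebraMap ℝ M'.Sm ⟪z.2.1, d⟫_ℝ := by
      have h5 := M.res_aeval hN.isOpen ⟨hN.nonempty, hN.preconn⟩ hN.subset (B i) (M.xS z.2.1)
      rw [M.res_xS] at h5
      rw [h5]
      apply Subtype.ext
      funext v
      rw [M.res_apply]
      -- expand z.2.1 in the basis
      have h6 : M.xS z.2.1 = ∑ b, (z.2.1 b) • M.xS (EuclideanSpace.single b 1) := by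
        apply Subtype.ext
        funext w
        have h7 : (∑ b, (z.2.1 b) • M.xS (EuclideanSpace.single b 1)).1 w
            = ∑ b, (z.2.1 b) * (M.xS (EuclideanSpace.single b 1)).1 w := by
          have h8 : (∑ b, (z.2.1 b) • M.xS (EuclideanSpace.single b 1)).1
              = ∑ b, ((z.2.1 b) • M.xS (EuclideanSpace.single b 1)).1 :=
            map_sum M.Sm.val _ Finset.univ
          rw [h8, Finset.sum_apply]
          rfl
        rw [h7]
        have h9 : (M.xS z.2.1).1 w = ⟪z.2.1, M.x w⟫_ℝ := rfl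
        rw [h9, PiLp.inner_apply]
        refine Finset.sum_congr rfl fun b _ => ?_
        have h10 : (M.xS (EuclideanSpace.single b 1)).1 w
            = ⟪(EuclideanSpace.single b 1 : Amb n), M.x w⟫_ℝ := rfl
        rw [h10, EuclideanSpace.inner_single_left]
        simp [mul_comm]
      rw [h6, map_sum]
      have h7 : (∑ b, Polynomial.aeval M.lap (B i) (z.2.1 b • M.xS (EuclideanSpace.single b 1))).1
          ⟨v, hN.subset v.2⟩ = ∑ b, (z.2.1 b) * (φ i b).1 ⟨v, hN.subset v.2⟩ := by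
        have h8 : (∑ b, Polynomial.aeval M.lap (B i) (z.2.1 b • M.xS (EuclideanSpace.single b 1))).1
            = ∑ b, (Polynomial.aeval M.lap (B i) (z.2.1 b • M.xS (EuclideanSpace.single b 1))).1 :=
          map_sum M.Sm.val _ Finset.univ
        rw [h8, Finset.sum_apply]
        refine Finset.sum_congr rfl fun b _ => ?_
        rw [map_smul]
        rfl
      rw [h7]
      have h8 := hd v (hN.subset v.2)
      have h9 : (algebraMap ℝ M'.Sm ⟪z.2.1, d⟫_ℝ).1 v = ⟪z.2.1, d⟫_ℝ := rfl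
      rw [h9, PiLp.inner_apply]
      refine Finset.sum_congr rfl fun b _ => ?_
      have h10 : d b = (φ i b).1 ⟨v, hN.subset v.2⟩ := by
        rw [← h8, hcomp i v (hN.subset v.2) b, M.ext_apply _ (hN.subset v.2)]
      rw [h10]
      simp [mul_comm]
    rw [← haz] at hconst
    have h11 : Polynomial.aeval M'.diff.L (B i) (M'.aS z) = algebraMap ℝ M'.Sm ⟪z.2.1, d⟫_ℝ :=
      hconst
    rw [h11] at hchain
    have h12 := hl'.φ_const hmu' hne h₁ h₂ hz hchain.symm
    rw [βc_zero, hff] at h12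
    have h13 := chain_stop h12 r (fun i hi => by rw [hlr]; exact γφ_kap_ne h.hp (by omega) hi) hγr
    have h14 : B i ≠ 0 := Lagrange.basis_ne_zero hinj hi
    have h15 := Polynomial.natDegree_le_of_dvd h13 h14
    rw [Polynomial.natDegree_prod_of_monic _ _ fun i _ => Polynomial.monic_X_sub_C _] at h15
    simp only [Polynomial.natDegree_X_sub_C, Finset.sum_const, Finset.card_range, smul_eq_mul,
      mul_one] at h15
    have h16 : (B i).natDegree = (Finset.range (r + 1)).card - 1 := Lagrange.natDegree_basis hinj hi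
    rw [h16, Finset.card_range] at h15
    omega
  · intro i u hu
    exact hXlap i (Finset.mem_range.mpr i.2) u hu
  · intro u hu
    rw [zero_add]
    rw [Fin.sum_univ_eq_sum_range (fun i => Xc i u) (r + 1)]
    ext b
    rw [sum_coord]
    have h1 : ∑ i ∈ Finset.range (r + 1), (Xc i u) b
        = ∑ i ∈ Finset.range (r + 1), (φ i b).1 ⟨u, hu⟩ := by
      refine Finset.sum_congr rfl fun i _ => ?_
      rw [hcomp i u hu b, M.ext_apply _ hu]
    rw [h1]
    have h2 : ∑ i ∈ Finset.range (r + 1), φ i b = M.xS (EuclideanSpace.single b 1) := by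
      simp only [φ]
      rw [← LinearMap.sum_apply, ← map_sum, hsum, map_one, Module.End.one_apply]
    have h3 : (∑ i ∈ Finset.range (r + 1), φ i b).1 = ∑ i ∈ Finset.range (r + 1), (φ i b).1 :=
      map_sum M.Sm.val _ _
    rw [h2] at h3
    have h4 := congrFun h3 ⟨u, hu⟩
    rw [Finset.sum_apply] at h4
    rw [← h4]
    have h5 : (M.xS (EuclideanSpace.single b 1)).1 ⟨u, hu⟩
        = ⟪(EuclideanSpace.single b 1 : Amb n), M.x u⟫_ℝ := rfl
    rw [h5, EuclideanSpace.inner_single_left]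
    simp

end Hypersurface

end Pool.Agent.Helper21.Dupin
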