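import Mathlib

/-!
# MP_03b233_gt : definitions

Hypersurfaces of the unit sphere `S^{n+1} ⊂ 𝔼^{n+2}` given as smooth immersions of connected open
subsets of `ℝ^n`, their induced metric, Laplace operator, principal curvatures, and the notions
Dupin, isoparametric, finite type of the problem.
-/

namespace Pool.Agent.Helper21.Dupin

open scoped ContDiff InnerProductSpace

/-- the parameter space `ℝ^n` -/
abbrev Dom (n : ℕ) : Type := Fin n → ℝ

/-- the ambient Euclidean space `𝔼^{n+2}` -/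
abbrev Amb (n : ℕ) : Type := EuclideanSpace ℝ (Fin (n + 2))

/-- the `i`-th partial derivative of a function on `ℝ^n` -/
noncomputable def pd {n : ℕ} {V : Type*} [NormedAddCommGroup V] [NormedSpace ℝ V]
    (i : Fin n) (f : Dom n → V) (u : Dom n) : V :=
  fderiv ℝ f u (Pi.single i 1)

/-- the first fundamental form `g_{ij} = ⟨∂_i x, ∂_j x⟩` of `x` -/
noncomputable def metric {n : ℕ} (x : Dom n → Amb n) (u : Dom n) : Matrix (Fin n) (Fin n) ℝ :=
  Matrix.of fun i j => ⟪pd i x u, pd j x u⟫_ℝ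

/-- the Christoffel symbols `Γ^k_{ij} = 1/2 ∑_l g^{kl} (∂_i g_{jl} + ∂_j g_{il} - ∂_l g_{ij})` of the
first fundamental form of `x` -/
noncomputable def christoffel {n : ℕ} (x : Dom n → Amb n) (k i j : Fin n) (u : Dom n) : ℝ :=
  1 / 2 * ∑ l, (metric x u)⁻¹ k l *
    (pd i (fun v => metric x v j l) u + pd j (fun v => metric x v i l) u
      - pd l (fun v => metric x v i j) u)

/-- the Laplace operator of the induced metric, applied to a (vector valued) function `f`: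
`Δ f = ∑_{i,j} g^{ij} (∂_i ∂_j f - ∑_k Γ^k_{ij} ∂_k f)` -/
noncomputable def laplace {n : ℕ} (x : Dom n → Amb n) {V : Type*} [NormedAddCommGroup V]
    [NormedSpace ℝ V] (f : Dom n → V) (u : Dom n) : V :=
  ∑ i, ∑ j, (metric x u)⁻¹ i j • (pd i (pd j f) u - ∑ k, christoffel x k i j u • pd k f u)

/-- A hypersurface of the unit sphere `S^{n+1} ⊂ 𝔼^{n+2}`: a smooth immersion `x` of a connected
open set `U ⊆ ℝ^n` into `S^{n+1}`, together with a smooth unit normal field `ν`. -/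
structure Hypersurface (n : ℕ) where
  /-- the parameter domain -/
  U : Set (Dom n)
  /-- the position vector -/
  x : Dom n → Amb n
  /-- the unit normal field -/
  ν : Dom n → Amb n
  isOpen : IsOpen U
  isConnected : IsConnected U
  smooth_x : ContDiffOn ℝ ∞ x U
  smooth_ν : ContDiffOn ℝ ∞ ν U
  immersion : ∀ u ∈ U, Function.Injective (fderiv ℝ x u)
  norm_x : ∀ u ∈ U, ‖x u‖ = 1
  norm_ν : ∀ u ∈ U, ‖ν u‖ = 1
  inner_x_ν : ∀ u ∈ U, ⟪x u, ν u⟫_ℝ = 0
  inner_dx_ν : ∀ u ∈ U, ∀ v, ⟪fderiv ℝ x u v, ν u⟫_ℝ = 0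

namespace Hypersurface

variable {n : ℕ} (M : Hypersurface n)

/-- The space of (parameter) vectors `v` with `A v = c v`, `A` the shape operator at `u`
(`dν = -dx ∘ A`). -/
noncomputable def curvSpace (u : Dom n) (c : ℝ) : Submodule ℝ (Dom n) :=
  LinearMap.ker ((fderiv ℝ M.ν u + c • fderiv ℝ M.x u : Dom n →L[ℝ] Amb n) : Dom n →ₗ[ℝ] Amb n)

/-- `c` is a principal curvature at the point with parameter `u`. -/
def IsPrincipalCurvature (u : Dom n) (c : ℝ) : Prop := M.curvSpace u c ≠ ⊥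

/-- The hypersurface is isoparametric: all its principal curvatures are constant. -/
def IsIsoparametric : Prop :=
  ∀ u ∈ M.U, ∀ u' ∈ M.U, ∀ c, M.IsPrincipalCurvature u c → M.IsPrincipalCurvature u' c

/-- The hypersurface is Dupin with `g` distinct principal curvatures `κ_1, …, κ_g`: these are
smooth functions on `M`, pairwise distinct at every point, with constant multiplicities
`m_1, …, m_g` which add up to `n`, and each `κ_a` is constant along its principal directions. -/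
def IsDupinWith (g : ℕ) (κ : Fin g → Dom n → ℝ) (m : Fin g → ℕ) : Prop :=
  (∀ a, ContDiffOn ℝ ∞ (κ a) M.U) ∧
  (∀ u ∈ M.U, ∀ a b, κ a u = κ b u → a = b) ∧
  (∀ a, 0 < m a) ∧ ∑ a, m a = n ∧
  (∀ u ∈ M.U, ∀ a, Module.finrank ℝ (M.curvSpace u (κ a u)) = m a) ∧
  (∀ u ∈ M.U, ∀ a, ∀ v ∈ M.curvSpace u (κ a u), fderiv ℝ (κ a) u v = 0)

/-- The hypersurface is Dupin. -/
def IsDupin : Prop := ∃ g κ m, M.IsDupinWith g κ m

/-- The hypersurface is of `k`-type: `x = c + x_1 + … + x_k` with `c` constant and non-constant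
smooth maps `x_i` with `Δ x_i = λ_i x_i`, the `λ_i` pairwise distinct. -/
def IsKType (k : ℕ) : Prop :=
  ∃ (c : Amb n) (X : Fin k → Dom n → Amb n) (L : Fin k → ℝ),
    Function.Injective L ∧
    (∀ i, ContDiffOn ℝ ∞ (X i) M.U) ∧
    (∀ i, ¬ ∃ d : Amb n, ∀ u ∈ M.U, X i u = d) ∧
    (∀ i, ∀ u ∈ M.U, laplace M.x (X i) u = L i • X i u) ∧
    ∀ u ∈ M.U, M.x u = c + ∑ i, X i u

/-- The hypersurface is of finite type. -/
def IsFiniteType : Prop :=
  ∃ (k : ℕ) (c : Amb n) (X : Fin k → Dom n → Amb n) (L : Fin k → ℝ),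
    (∀ i, ContDiffOn ℝ ∞ (X i) M.U) ∧
    (∀ i, ¬ ∃ d : Amb n, ∀ u ∈ M.U, X i u = d) ∧
    (∀ i, ∀ u ∈ M.U, laplace M.x (X i) u = L i • X i u) ∧
    ∀ u ∈ M.U, M.x u = c + ∑ i, X i u

/-- `M` is an open part of the cone `⟨x, ζ⟩ = t |P_W x| > 0` of the unit sphere, `P_W` the
orthogonal projection onto a linear subspace `W` of dimension `p + 1` and `ζ` a unit vector
orthogonal to `W`. -/
def IsConePart (p : ℕ) (t : ℝ) : Prop :=
  ∃ (W : Submodule ℝ (Amb n)) (ζ : Amb n), Module.finrank ℝ W = p + 1 ∧ ‖ζ‖ = 1 ∧ ζ ∈ Wᗮ ∧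
    ∀ u ∈ M.U, 0 < ⟪M.x u, ζ⟫_ℝ ∧ ⟪M.x u, ζ⟫_ℝ = t * ‖W.starProjection (M.x u)‖

end Hypersurface

end Pool.Agent.Helper21.Dupin
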