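import Pool.Agent.Helper21.Dupin.Shape

/-!
The algebra of smooth functions on the parameter domain with the Laplace operator and its
carré du champ, and abstract computations in such algebras.
-/

namespace Pool.Agent.Helper21.Dupin

open scoped ContDiff InnerProductSpace Polynomial

/-- An abstract second order operator on a commutative algebra. -/
structure Diffusion (A : Type*) [CommRing A] [Algebra ℝ A] where
  /-- the operator -/
  L : A →ₗ[ℝ] A
  /-- the carré du champ -/
  Γ : A →ₗ[ℝ] A →ₗ[ℝ] A
  symm : ∀ f g, Γ f g = Γ g f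
  L_mul : ∀ f g, L (f * g) = f * L g + g * L f + 2 * Γ f g
  Γ_mul : ∀ f g h, Γ (f * g) h = f * Γ g h + g * Γ f h

namespace Diffusion

variable {A : Type*} [CommRing A] [Algebra ℝ A] (D : Diffusion A)

theorem Γ_one (h : A) : D.Γ 1 h = 0 := by
  have := D.Γ_mul 1 1 h
  simp only [one_mul] at this
  exact (left_eq_add.mp this)

theorem L_one : D.L 1 = 0 := by
  have := D.L_mul 1 1
  simp only [one_mul, Γ_one, mul_zero, add_zero] at this
  exact (left_eq_add.mp this)

theorem Γ_algebraMap (c : ℝ) (h : A) : D.Γ (algebraMap ℝ A c) h = 0 := by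
  rw [Algebra.algebraMap_eq_smul_one, map_smul, LinearMap.smul_apply, Γ_one, smul_zero]

theorem L_algebraMap (c : ℝ) : D.L (algebraMap ℝ A c) = 0 := by
  rw [Algebra.algebraMap_eq_smul_one, map_smul, L_one, smul_zero]

theorem Γ_mul_right (f g h : A) : D.Γ h (f * g) = f * D.Γ h g + g * D.Γ h f := by
  rw [D.symm, D.Γ_mul, D.symm g h, D.symm f h]

theorem Γ_inv {w y : A} (hy : y * w = 1) (h : A) : D.Γ y h = -(y ^ 2 * D.Γ w h) := by
  have h1 : D.Γ (y * w) h = 0 := by rw [hy, Γ_one]
  rw [D.Γ_mul] at h1
  have h2 : y * (y * D.Γ w h + w * D.Γ y h) = 0 := by rw [h1, mul_zero]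
  have h3 : y * (y * D.Γ w h + w * D.Γ y h) = y ^ 2 * D.Γ w h + (y * w) * D.Γ y h := by ring
  rw [h3, hy, one_mul] at h2
  exact eq_neg_of_add_eq_zero_right h2

theorem L_inv {w y : A} (hy : y * w = 1) :
    D.L y = -(y ^ 2 * D.L w) + 2 * y ^ 3 * D.Γ w w := by
  have h1 : D.L (y * w) = 0 := by rw [hy, L_one]
  rw [D.L_mul, D.Γ_inv hy] at h1
  have h2 : y * (y * D.L w + w * D.L y + 2 * -(y ^ 2 * D.Γ w w)) = 0 := by rw [h1, mul_zero]
  have h3 : y * (y * D.L w + w * D.L y + 2 * -(y ^ 2 * D.Γ w w))
      = y ^ 2 * D.L w + (y * w) * D.L y - 2 * y ^ 3 * D.Γ w w := by ring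
  rw [h3, hy, one_mul] at h2
  have h4 : D.L y = -(y ^ 2 * D.L w) + 2 * y ^ 3 * D.Γ w w + (y ^ 2 * D.L w + D.L y
      - 2 * y ^ 3 * D.Γ w w) := by ring
  rw [h4, h2, add_zero]

theorem Γ_aeval (P : ℝ[X]) (w h : A) :
    D.Γ (Polynomial.aeval w P) h = Polynomial.aeval w (Polynomial.derivative P) * D.Γ w h := by
  induction P using Polynomial.induction_on' with
  | add p q hp hq => simp only [map_add, LinearMap.add_apply, hp, hq, add_mul]
  | monomial k a =>
    rw [← Polynomial.C_mul_X_pow_eq_monomial]
    simp only [map_mul, Polynomial.aeval_C, map_pow, Polynomial.aeval_X,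
      Polynomial.derivative_C_mul, Polynomial.derivative_X_pow, Polynomial.aeval_C, map_natCast]
    rw [D.Γ_mul, Γ_algebraMap, mul_zero, add_zero]
    have : ∀ k : ℕ, D.Γ (w ^ k) h = (k : A) * w ^ (k - 1) * D.Γ w h := by
      intro k
      induction k with
      | zero => simp [Γ_one]
      | succ k ih =>
        rw [pow_succ, D.Γ_mul, ih]
        rcases Nat.eq_zero_or_pos k with rfl | hk
        · simp
        · obtain ⟨j, rfl⟩ : ∃ j, k = j + 1 := ⟨k - 1, by omega⟩
          simp only [Nat.add_sub_cancel]
          push_cast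
          ring
    rw [this]
    ring

theorem L_aeval (P : ℝ[X]) (w : A) :
    D.L (Polynomial.aeval w P) = Polynomial.aeval w (Polynomial.derivative P) * D.L w
      + Polynomial.aeval w (Polynomial.derivative (Polynomial.derivative P)) * D.Γ w w := by
  induction P using Polynomial.induction_on' with
  | add p q hp hq => simp only [map_add, hp, hq]; ring
  | monomial k a =>
    have h1 : ∀ k : ℕ, D.L (w ^ k) = (k : A) * w ^ (k - 1) * D.L w
        + (k : A) * ((k - 1 : ℕ) : A) * w ^ (k - 1 - 1) * D.Γ w w := by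
      intro k
      induction k with
      | zero => simp [L_one]
      | succ k ih =>
        rw [pow_succ, D.L_mul, ih]
        have hg := D.Γ_aeval (Polynomial.X ^ k) w w
        simp only [map_pow, Polynomial.aeval_X, Polynomial.derivative_X_pow, map_mul,
          Polynomial.aeval_C, map_natCast] at hg
        rw [hg]
        rcases Nat.lt_or_ge k 2 with hk | hk
        · interval_cases k
          · simp
          · simp; ring
        · obtain ⟨j, rfl⟩ : ∃ j, k = j + 2 := ⟨k - 2, by omega⟩
          have e1 : j + 2 - 1 = j + 1 := by omega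
          have e2 : j + 1 - 1 = j := by omega
          have e3 : j + 2 + 1 - 1 = j + 2 := by omega
          rw [e3, e1, e2]
          push_cast
          ring
    rw [← Polynomial.C_mul_X_pow_eq_monomial]
    simp only [map_mul, Polynomial.aeval_C, map_pow, Polynomial.aeval_X,
      Polynomial.derivative_C_mul, Polynomial.derivative_X_pow, Polynomial.aeval_C, map_natCast,
      Polynomial.derivative_mul, Polynomial.derivative_C, zero_mul, zero_add]
    rw [D.L_mul, h1, Γ_algebraMap, L_algebraMap]
    simp only [Polynomial.derivative_natCast, zero_mul, zero_add, map_mul, map_natCast, map_pow,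
      Polynomial.aeval_X]
    ring

end Diffusion

end Pool.Agent.Helper21.Dupin
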