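import Pool.Agent.Helper21.Dupin.ConeBwd
import Pool.Agent.Helper21.Dupin.Converse
import Pool.Agent.Helper21.Dupin.Clifford

/-!
The classification of the finite type Dupin hypersurfaces with at most two principal curvatures.
-/

namespace Pool.Agent.Helper21.Dupin

open scoped ContDiff InnerProductSpace Polynomial

namespace Hypersurface

variable {n : ℕ} {M : Hypersurface n} {lam mu : Dom n → ℝ} {p q : ℕ}

theorem IsDupinWith.twoPC {κ : Fin 2 → Dom n → ℝ} {m : Fin 2 → ℕ} (h : M.IsDupinWith 2 κ m) :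
    M.TwoPC (κ 0) (κ 1) (m 0) (m 1) := by
  obtain ⟨h1, h2, h3, h4, h5, h6⟩ := h
  exact
    { smooth_lam := h1 0
      smooth_mu := h1 1
      ne := fun u hu h => absurd (h2 u hu 0 1 h) (by decide)
      hp := h3 0
      hq := h3 1
      hpq := by rw [← h4, Fin.sum_univ_two]
      fr_lam := fun u hu => h5 u hu 0
      fr_mu := fun u hu => h5 u hu 1
      d_lam := fun u hu => h6 u hu 0
      d_mu := fun u hu => h6 u hu 1 }

theorem TwoPC.isDupinWith (h : M.TwoPC lam mu p q) : M.IsDupinWith 2 ![lam, mu] ![p, q] := by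
  refine ⟨?_, ?_, ?_, ?_, ?_, ?_⟩
  · intro a; fin_cases a
    · exact h.smooth_lam
    · exact h.smooth_mu
  · intro u hu a b hab
    fin_cases a <;> fin_cases b
    · rfl
    · exact absurd hab (h.ne u hu)
    · exact absurd hab.symm (h.ne u hu)
    · rfl
  · intro a; fin_cases a
    · exact h.hp
    · exact h.hq
  · simp [Fin.sum_univ_two, h.hpq]
  · intro u hu a; fin_cases a
    · exact h.fr_lam u hu
    · exact h.fr_mu u hu
  · intro u hu a; fin_cases a
    · exact h.d_lam u hu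
    · exact h.d_mu u hu

theorem IsDupinWith.isoparametric_of_const {g : ℕ} {κ : Fin g → Dom n → ℝ} {m : Fin g → ℕ}
    (h : M.IsDupinWith g κ m) (hc : ∀ a, ∀ u ∈ M.U, ∀ v ∈ M.U, κ a u = κ a v) :
    M.IsIsoparametric := by
  intro u hu u' hu' c hcu
  obtain ⟨a, rfl⟩ := h.exists_eq hu hcu
  rw [hc a u hu u' hu']
  exact h.isPrincipal hu' a

/-- A Dupin hypersurface with at most one principal curvature is isoparametric. -/
theorem IsDupinWith.isoparametric_of_le_one {g : ℕ} {κ : Fin g → Dom n → ℝ} {m : Fin g → ℕ}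
    (h : M.IsDupinWith g κ m) (hg : g ≤ 1) : M.IsIsoparametric := by
  apply h.isoparametric_of_const
  intro a u hu v hv
  obtain ⟨h1, h2, h3, h4, h5, h6⟩ := h
  have hg1 : g = 1 := by have := a.pos; omega
  subst hg1
  have ha : a = 0 := Subsingleton.elim _ _
  subst ha
  have htop : ∀ w ∈ M.U, M.curvSpace w (κ 0 w) = ⊤ := by
    intro w hw
    apply Submodule.eq_top_of_finrank_eq
    rw [h5 w hw 0, Module.finrank_fin_fun]
    simpa using h4
  have hd : ∀ w ∈ M.U, fderiv ℝ (κ 0) w = 0 := by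
    intro w hw
    ext z
    rw [h6 w hw 0 z (by rw [htop w hw]; trivial)]
    rfl
  exact M.isOpen.is_const_of_fderiv_eq_zero M.isConnected.isPreconnected
    (fun w hw => (diffAt M.isOpen (h1 0) hw).differentiableWithinAt) hd hu hv

theorem IsKType.decomp {k : ℕ} (h : M.IsKType k) : ∃ c X L, M.Decomp k c X L := by
  obtain ⟨c, X, L, h1, h2, h3, h4, h5⟩ := h
  exact ⟨c, X, L, h2, h4, h5⟩

theorem IsFiniteType.decomp (h : M.IsFiniteType) : ∃ k c X L, M.Decomp k c X L := by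
  obtain ⟨k, c, X, L, h2, h3, h4, h5⟩ := h
  exact ⟨k, c, X, L, h2, h4, h5⟩

theorem IsKType.isFiniteType {k : ℕ} (h : M.IsKType k) : M.IsFiniteType := by
  obtain ⟨c, X, L, h1, h2, h3, h4, h5⟩ := h
  exact ⟨k, c, X, L, h2, h3, h4, h5⟩

/-- The spectrum of one decomposition is contained in the spectrum of any other one. -/
theorem spectrum_subset {k k' : ℕ} {c c' : Amb n} {X : Fin k → Dom n → Amb n}
    {X' : Fin k' → Dom n → Amb n} {L : Fin k → ℝ} {L' : Fin k' → ℝ} (hL : Function.Injective L)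
    (hd : M.Decomp k c X L) (hd' : M.Decomp k' c' X' L')
    (hnc : ∀ i, ¬ ∃ d : Amb n, ∀ u ∈ M.U, X i u = d) (i : Fin k) : ∃ j, L' j = L i := by
  by_contra hcon
  push Not at hcon
  -- a component which is not constant
  obtain ⟨G, hG⟩ : ∃ G : Amb n, ¬ ∃ d : ℝ, ∀ u ∈ M.U, ⟪G, X i u⟫_ℝ = d := by
    by_contra hall
    push Not at hall
    apply hnc i
    obtain ⟨u₀, hu₀⟩ := M.isConnected.nonempty
    refine ⟨X i u₀, fun u hu => ?_⟩
    obtain ⟨d, hd⟩ := hall (X i u - X i u₀)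
    have h1 : ⟪X i u - X i u₀, X i u - X i u₀⟫_ℝ = 0 := by
      rw [inner_sub_right, hd u hu, hd u₀ hu₀, sub_self]
    exact sub_eq_zero.mp (inner_self_eq_zero.mp h1)
  classical
  set S : Finset ℝ := ((Finset.univ.image L ∪ Finset.univ.image L') ∪ {0}).erase (L i) with hS
  set P : ℝ[X] := ∏ s ∈ S, (Polynomial.X - Polynomial.C s) with hP
  have hP0 : P.eval (L i) ≠ 0 := by
    rw [hP, Polynomial.eval_prod]
    apply Finset.prod_ne_zero_iff.mpr
    intro s hs
    have : s ≠ L i := (Finset.mem_erase.mp hs).1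
    simp only [Polynomial.eval_sub, Polynomial.eval_X, Polynomial.eval_C]
    exact sub_ne_zero.mpr this.symm
  have hPz : ∀ s ∈ S, P.eval s = 0 := by
    intro s hs
    rw [hP, Polynomial.eval_prod]
    exact Finset.prod_eq_zero hs (by simp)
  -- the images under `P(Δ)`
  have key : ∀ {k : ℕ} {c : Amb n} {X : Fin k → Dom n → Amb n} {L : Fin k → ℝ}
      (hd : M.Decomp k c X L), Polynomial.aeval M.lap P (M.xS G)
        = algebraMap ℝ M.Sm (P.eval 0 * ⟪G, c⟫_ℝ) + ∑ j, P.eval (L j) •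
          M.fn (fun u => innerSL ℝ G (X j u)) ((innerSL ℝ G).contDiff.comp_contDiffOn (hd.1 j)) := by
    intro k c X L hd
    have h1 := hd.1
    obtain ⟨-, h2, h3⟩ := hd
    let φ : Fin k → M.Sm := fun i =>
      M.fn (fun u => innerSL ℝ G (X i u)) ((innerSL ℝ G).contDiff.comp_contDiffOn (h1 i))
    have hφ : ∀ i, M.lap (φ i) = L i • φ i := by
      intro i
      simp only [φ]
      rw [M.lap_fn]
      apply Subtype.ext
      funext u
      rw [M.fn_apply, M.laplace_clm (innerSL ℝ G) (h1 i) u.2, h2 i u u.2, map_smul]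
      rfl
    have hsum : M.xS G = algebraMap ℝ M.Sm ⟪G, c⟫_ℝ + ∑ i, φ i := by
      apply Subtype.ext
      funext u
      have e1 : (algebraMap ℝ M.Sm ⟪G, c⟫_ℝ + ∑ i, φ i).1 u = ⟪G, c⟫_ℝ + ∑ i, (φ i).1 u := by
        have : (algebraMap ℝ M.Sm ⟪G, c⟫_ℝ + ∑ i, φ i).1 u
          = ⟪G, c⟫_ℝ + (∑ i, φ i).1 u := rfl
        rw [this]
        congr 1
        have h4 : (∑ i, φ i).1 = ∑ i, (φ i).1 := by
          exact map_sum M.Sm.val φ Finset.univ
        rw [h4, Finset.sum_apply]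
      rw [e1]
      have e2 : (M.xS G).1 u = ⟪G, M.x u⟫_ℝ := rfl
      rw [e2, h3 u u.2, inner_add_right, inner_sum]
      rfl
    rw [hsum, map_add, map_sum]
    congr 1
    · exact M.diff.aeval_L_algebraMap P ⟪G, c⟫_ℝ
    · exact Finset.sum_congr rfl fun j _ => aeval_eigen M.lap P (hφ j)
  have e1 := key hd
  have e2 := key hd'
  have hmem : ∀ s, s ≠ L i → (s ∈ Finset.univ.image L ∨ s ∈ Finset.univ.image L') → s ∈ S := by
    intro s hs h
    rw [hS, Finset.mem_erase]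
    refine ⟨hs, ?_⟩
    rw [Finset.mem_union, Finset.mem_union]
    exact Or.inl h
  rw [Finset.sum_eq_zero (fun j _ => by
    rw [hPz (L' j) (hmem _ (hcon j) (Or.inr (Finset.mem_image_of_mem L' (Finset.mem_univ j)))),
      zero_smul]), add_zero] at e2
  rw [Finset.sum_eq_single i (fun j _ hj => by
    rw [hPz (L j) (hmem _ (fun h => hj (hL h))
      (Or.inl (Finset.mem_image_of_mem L (Finset.mem_univ j)))), zero_smul])
    (fun h => absurd (Finset.mem_univ i) h), e2] at e1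
  apply hG
  refine ⟨(P.eval (L i))⁻¹ * (P.eval 0 * ⟪G, c'⟫_ℝ - P.eval 0 * ⟪G, c⟫_ℝ), fun u hu => ?_⟩
  have e3 := congrArg (fun f : M.Sm => f.1 ⟨u, hu⟩) e1
  have e4 : P.eval 0 * ⟪G, c'⟫_ℝ = P.eval 0 * ⟪G, c⟫_ℝ + P.eval (L i) * ⟪G, X i u⟫_ℝ := e3
  rw [e4]
  field_simp
  ring

/-- The number `k` in the definition of `k`-type is unique. -/
theorem IsKType.unique {k k' : ℕ} (h : M.IsKType k) (h' : M.IsKType k') : k = k' := by
  have key : ∀ {k k' : ℕ}, M.IsKType k → M.IsKType k' → k ≤ k' := by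
    intro k k' h h'
    obtain ⟨c, X, L, h1, h2, h3, h4, h5⟩ := h
    obtain ⟨c', X', L', h1', h2', h3', h4', h5'⟩ := h'
    have hs : ∀ i, ∃ j, L' j = L i :=
      spectrum_subset (M := M) h1 ⟨h2, h4, h5⟩ ⟨h2', h4', h5'⟩ h3
    choose f hf using hs
    have hinj : Function.Injective f := by
      intro i j hij
      apply h1
      rw [← hf i, ← hf j, hij]
    simpa using Fintype.card_le_of_injective f hinj
  exact le_antisymm (key h h') (key h' h)

/-- the geometric conditions -/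
def ConeType (M : Hypersurface n) (k p : ℕ) : Prop :=
  Even p ∧ 0 < p ∧ p + 3 < 2 * k ∧ p < n ∧ (Even n ∨ 4 * k < n + 6) ∧
    M.IsConePart p (Real.sqrt ((2 * k - 2) * (2 * k - 3 - p) / p))

theorem kap_mul {p k l : ℕ} (hl : l + 3 = 2 * k) (hp : 0 < p) (hpl : p < l) :
    kap p l * (((2 : ℝ) * k - 2) * (2 * k - 3 - p) / p) = 1 ∧
      0 < (((2 : ℝ) * k - 2) * (2 * k - 3 - p) / p) := by
  have hlr : (l : ℝ) = 2 * k - 3 := by
    have : ((l + 3 : ℕ) : ℝ) = ((2 * k : ℕ) : ℝ) := by rw [hl]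
    push_cast at this
    linarith
  have hpr : (0 : ℝ) < p := by exact_mod_cast hp
  have hlp : (p : ℝ) < l := by exact_mod_cast hpl
  have e1 : ((2 : ℝ) * k - 2) = l + 1 := by rw [hlr]; ring
  have e2 : ((2 : ℝ) * k - 3 - p) = l - p := by rw [hlr]
  rw [e1, e2]
  have h1 : (0 : ℝ) < l - p := by linarith
  have h2 : (0 : ℝ) < l + 1 := by linarith
  refine ⟨?_, by positivity⟩
  unfold kap
  field_simp

theorem ConeType.isKType {k p' : ℕ} (h : M.TwoPC lam mu p q) (hc : M.ConeType k p') :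
    M.IsKType k := by
  obtain ⟨heven, hpos, hpk, hpn, hn, hcone⟩ := hc
  obtain ⟨l, hl⟩ : ∃ l, l + 3 = 2 * k := ⟨2 * k - 3, by omega⟩
  have hpl : p' < l := by omega
  have hodd : Odd l := ⟨k - 2, by omega⟩
  have hk : (l + 3) / 2 = k := by omega
  obtain ⟨hk1, hk2⟩ := kap_mul hl hpos hpl
  have hsq : (Real.sqrt (((2 : ℝ) * k - 2) * (2 * k - 3 - p') / p')) ^ 2
      = (((2 : ℝ) * k - 2) * (2 * k - 3 - p') / p') := Real.sq_sqrt hk2.le
  have hkap : 1 / (Real.sqrt (((2 : ℝ) * k - 2) * (2 * k - 3 - p') / p')) ^ 2 = kap p' l := by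
    rw [hsq, div_eq_iff hk2.ne']; exact hk1.symm
  have hcond : Even n ∨ 2 * l < n := by
    rcases hn with h1 | h1
    · exact Or.inl h1
    · right; omega
  rcases h.of_isConePart (Real.sqrt_pos.mpr hk2) hcone with ⟨hmu, rfl, hgr⟩ | ⟨hlam, rfl, hgr⟩
  · rw [hkap] at hgr
    rw [← hk]
    exact h.kType hmu heven hodd hpl (by rw [h.hpq]; exact hcond) hgr
  · rw [hkap] at hgr
    rw [← hk]
    exact h.symm.kType hlam heven hodd hpl (by rw [h.symm.hpq]; exact hcond) hgr

theorem TwoPC.exists_coneType {l : ℕ} (h : M.TwoPC lam mu p q)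
    (hg : ∀ u ∈ M.U, M.GoodAt lam mu p q l u) :
    M.ConeType ((l + 3) / 2) p ∧ M.IsKType ((l + 3) / 2) := by
  obtain ⟨u₀, hu₀⟩ := M.isConnected.nonempty
  obtain ⟨heven, hodd, hpl, hcond, -⟩ := hg u₀ hu₀
  have hmu : ∀ u ∈ M.U, mu u = 0 := fun u hu => (hg u hu).2.2.2.2.1
  have hgr : ∀ u ∈ M.U, M.gradInner lam lam u = lam u ^ 2 * (kap p l * lam u ^ 2 - 1) :=
    fun u hu => (hg u hu).2.2.2.2.2.1
  refine ⟨?_, h.kType hmu heven hodd hpl hcond hgr⟩
  obtain ⟨k, hk⟩ : ∃ k, (l + 3) / 2 = k := ⟨_, rfl⟩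
  rw [hk]
  have hl : l + 3 = 2 * k := by
    obtain ⟨m, hm⟩ := hodd
    omega
  obtain ⟨hk1, hk2⟩ := kap_mul hl h.hp hpl
  refine ⟨heven, h.hp, by omega, ?_, ?_, ?_⟩
  · have := h.hpq
    have := h.hq
    omega
  · have := h.hpq
    rcases hcond with h1 | h1
    · left; rw [← this]; exact h1
    · right; omega
  · apply h.isConePart hmu (Real.sqrt_pos.mpr hk2) (κ := kap p l) _ hgr
    rw [Real.sq_sqrt hk2.le]; exact hk1

/-- The classification. -/
theorem TwoPC.classification (h : M.TwoPC lam mu p q) (hiso : ¬ M.IsIsoparametric) :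
    (∀ k, M.IsKType k ↔ ∃ p', M.ConeType k p') ∧ (M.IsFiniteType ↔ ∃ k, M.IsKType k) := by
  have key : ∀ {k₀ : ℕ} {c : Amb n} {X : Fin k₀ → Dom n → Amb n} {L : Fin k₀ → ℝ},
      M.Decomp k₀ c X L → ∃ k p', M.ConeType k p' ∧ M.IsKType k := by
    intro k₀ c X L hd
    rcases h.alternative hd with ⟨h1, h2⟩ | ⟨l, hg⟩ | ⟨l, hg⟩
    · exfalso
      apply hiso
      apply h.isDupinWith.isoparametric_of_const
      intro a
      fin_cases a
      · exact h1
      · exact h2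
    · exact ⟨_, _, h.exists_coneType hg⟩
    · exact ⟨_, _, h.symm.exists_coneType hg⟩
  constructor
  · intro k
    constructor
    · intro hk
      obtain ⟨c, X, L, hd⟩ := hk.decomp
      obtain ⟨k', p', h1, h2⟩ := key hd
      rw [hk.unique h2]
      exact ⟨p', h1⟩
    · rintro ⟨p', hc⟩
      exact ConeType.isKType h hc
  · constructor
    · intro hf
      obtain ⟨k₀, c, X, L, hd⟩ := hf.decomp
      obtain ⟨k', p', h1, h2⟩ := key hd
      exact ⟨k', h2⟩
    · rintro ⟨k, hk⟩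
      exact hk.isFiniteType

end Hypersurface

end Pool.Agent.Helper21.Dupin
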