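import Pool.Agent.Helper21.Dupin.Lap

/-!
The projection formula and `Δ x = -n x + H ν`.
-/

namespace Pool.Agent.Helper21.Dupin

open scoped ContDiff InnerProductSpace

namespace Hypersurface

variable {n : ℕ} (M : Hypersurface n)

theorem inner_xx {u : Dom n} (hu : u ∈ M.U) : ⟪M.x u, M.x u⟫_ℝ = 1 := by
  rw [real_inner_self_eq_norm_sq, M.norm_x u hu]; norm_num

theorem inner_νν {u : Dom n} (hu : u ∈ M.U) : ⟪M.ν u, M.ν u⟫_ℝ = 1 := by
  rw [real_inner_self_eq_norm_sq, M.norm_ν u hu]; norm_num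

theorem inner_dx_x {u : Dom n} (hu : u ∈ M.U) (v : Dom n) :
    ⟪fderiv ℝ M.x u v, M.x u⟫_ℝ = 0 := by
  have hc : fderiv ℝ (fun w => ⟪M.x w, M.x w⟫_ℝ) u v = 0 := by
    have : (fun w => ⟪M.x w, M.x w⟫_ℝ) =ᶠ[nhds u] fun _ => (1 : ℝ) :=
      Filter.eventuallyEq_of_mem (M.isOpen.mem_nhds hu) fun w hw => M.inner_xx hw
    rw [this.fderiv_eq]; simp
  rw [fderiv_inner_apply ℝ (diffAt M.isOpen M.smooth_x hu) (diffAt M.isOpen M.smooth_x hu)] at hc
  rw [real_inner_comm] at hc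
  linarith

theorem inner_dν_ν {u : Dom n} (hu : u ∈ M.U) (v : Dom n) :
    ⟪fderiv ℝ M.ν u v, M.ν u⟫_ℝ = 0 := by
  have hc : fderiv ℝ (fun w => ⟪M.ν w, M.ν w⟫_ℝ) u v = 0 := by
    have : (fun w => ⟪M.ν w, M.ν w⟫_ℝ) =ᶠ[nhds u] fun _ => (1 : ℝ) :=
      Filter.eventuallyEq_of_mem (M.isOpen.mem_nhds hu) fun w hw => M.inner_νν hw
    rw [this.fderiv_eq]; simp
  rw [fderiv_inner_apply ℝ (diffAt M.isOpen M.smooth_ν hu) (diffAt M.isOpen M.smooth_ν hu)] at hc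
  rw [real_inner_comm] at hc
  linarith

theorem inner_x_dν {u : Dom n} (hu : u ∈ M.U) (v : Dom n) :
    ⟪fderiv ℝ M.ν u v, M.x u⟫_ℝ = 0 := by
  have hc : fderiv ℝ (fun w => ⟪M.x w, M.ν w⟫_ℝ) u v = 0 := by
    have : (fun w => ⟪M.x w, M.ν w⟫_ℝ) =ᶠ[nhds u] fun _ => (0 : ℝ) :=
      Filter.eventuallyEq_of_mem (M.isOpen.mem_nhds hu) fun w hw => M.inner_x_ν w hw
    rw [this.fderiv_eq]; simp
  rw [fderiv_inner_apply ℝ (diffAt M.isOpen M.smooth_x hu) (diffAt M.isOpen M.smooth_ν hu),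
    M.inner_dx_ν u hu] at hc
  rw [real_inner_comm]
  linarith

/-- Every ambient vector is the sum of its tangential part, and of its components along `x`
and `ν`. -/
theorem decomp {u : Dom n} (hu : u ∈ M.U) (η : Amb n) :
    η = (∑ i, ∑ j, ((M.G u)⁻¹ i j * ⟪η, pd i M.x u⟫_ℝ) • pd j M.x u)
      + ⟪η, M.x u⟫_ℝ • M.x u + ⟪η, M.ν u⟫_ℝ • M.ν u := by
  rw [← sub_eq_zero]
  apply M.eq_zero_of_orth hu
  · intro k
    simp only [inner_sub_left, inner_add_left, sum_inner, real_inner_smul_left]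
    have h1 : ⟪M.x u, pd k M.x u⟫_ℝ = 0 := by
      rw [real_inner_comm]; exact M.inner_dx_x hu _
    have h2 : ⟪M.ν u, pd k M.x u⟫_ℝ = 0 := by
      rw [real_inner_comm]; exact M.inner_dx_ν u hu _
    rw [h1, h2]
    have h3 : ∀ i, ∑ j, (M.G u)⁻¹ i j * ⟪η, pd i M.x u⟫_ℝ * ⟪pd j M.x u, pd k M.x u⟫_ℝ
        = if i = k then ⟪η, pd i M.x u⟫_ℝ else 0 := by
      intro i
      have := M.Ginv_mul hu i k
      simp only [G, metric, Matrix.of_apply] at this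
      have h4 : ∑ j, (M.G u)⁻¹ i j * ⟪η, pd i M.x u⟫_ℝ * ⟪pd j M.x u, pd k M.x u⟫_ℝ
        = ⟪η, pd i M.x u⟫_ℝ * ∑ j, (M.G u)⁻¹ i j * ⟪pd j M.x u, pd k M.x u⟫_ℝ := by
        rw [Finset.mul_sum]
        exact Finset.sum_congr rfl fun j _ => by ring
      rw [h4]
      simp only [G, metric]
      rw [this]
      simp
    simp only [h3]
    simp
  · simp only [inner_sub_left, inner_add_left, sum_inner, real_inner_smul_left]
    have h1 : ∀ j, ⟪pd j M.x u, M.x u⟫_ℝ = 0 := fun j => M.inner_dx_x hu _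
    have h2 : ⟪M.ν u, M.x u⟫_ℝ = 0 := by
      rw [real_inner_comm]; exact M.inner_x_ν u hu
    simp [h1, h2, M.norm_x u hu]
  · simp only [inner_sub_left, inner_add_left, sum_inner, real_inner_smul_left]
    have h1 : ∀ j, ⟪pd j M.x u, M.ν u⟫_ℝ = 0 := fun j => M.inner_dx_ν u hu _
    simp [h1, M.inner_x_ν u hu, M.norm_ν u hu]

/-- The projection formula. -/
theorem projection {u : Dom n} (hu : u ∈ M.U) (η ζ : Amb n) :
    ∑ i, ∑ j, (M.G u)⁻¹ i j * (⟪η, pd i M.x u⟫_ℝ * ⟪ζ, pd j M.x u⟫_ℝ)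
      = ⟪η, ζ⟫_ℝ - ⟪η, M.x u⟫_ℝ * ⟪ζ, M.x u⟫_ℝ - ⟪η, M.ν u⟫_ℝ * ⟪ζ, M.ν u⟫_ℝ := by
  have h := congrArg (fun z => ⟪z, ζ⟫_ℝ) (M.decomp hu η)
  simp only [inner_add_left, sum_inner, real_inner_smul_left] at h
  rw [h, real_inner_comm ζ (M.x u), real_inner_comm ζ (M.ν u)]
  have h2 : ∑ i, ∑ j, (M.G u)⁻¹ i j * ⟪η, pd i M.x u⟫_ℝ * ⟪pd j M.x u, ζ⟫_ℝ
      = ∑ i, ∑ j, (M.G u)⁻¹ i j * (⟪η, pd i M.x u⟫_ℝ * ⟪ζ, pd j M.x u⟫_ℝ) := by
    refine Finset.sum_congr rfl fun i _ => Finset.sum_congr rfl fun j _ => ?_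
    rw [real_inner_comm ζ (pd j M.x u)]; ring
  rw [h2]; ring

/-- `n` times the mean curvature -/
noncomputable def H (u : Dom n) : ℝ := ∑ i, ∑ j, (M.G u)⁻¹ i j * ⟪pd i (pd j M.x) u, M.ν u⟫_ℝ

theorem christoffel_lower {u : Dom n} (hu : u ∈ M.U) (i j l : Fin n) :
    ∑ k, christoffel M.x k i j u * M.G u k l = ⟪pd i (pd j M.x) u, pd l M.x u⟫_ℝ := by
  have hG : ∀ a b c, pd a (fun v => metric M.x v b c) u
      = ⟪pd b M.x u, pd a (pd c M.x) u⟫_ℝ + ⟪pd a (pd b M.x) u, pd c M.x u⟫_ℝ := by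
    intro a b c
    have : (fun v => metric M.x v b c) = fun v => ⟪pd b M.x v, pd c M.x v⟫_ℝ := by
      funext v; simp [metric]
    rw [this, pd_inner M.isOpen (pd_smooth M.isOpen M.smooth_x b)
      (pd_smooth M.isOpen M.smooth_x c) hu]
  have hS : ∀ m, pd i (fun v => metric M.x v j m) u + pd j (fun v => metric M.x v i m) u
      - pd m (fun v => metric M.x v i j) u = 2 * ⟪pd i (pd j M.x) u, pd m M.x u⟫_ℝ := by
    intro m
    rw [hG, hG, hG, pd_comm M.isOpen M.smooth_x hu j i, pd_comm M.isOpen M.smooth_x hu m i,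
      pd_comm M.isOpen M.smooth_x hu m j,
      real_inner_comm (pd j M.x u) (pd i (pd m M.x) u)]
    ring
  unfold christoffel
  simp only [hS]
  have h1 : ∀ k, (1 / 2 * ∑ m, (metric M.x u)⁻¹ k m * (2 * ⟪pd i (pd j M.x) u, pd m M.x u⟫_ℝ))
      * M.G u k l = ∑ m, ((M.G u)⁻¹ m k * M.G u k l) * ⟪pd i (pd j M.x) u, pd m M.x u⟫_ℝ := by
    intro k
    rw [Finset.mul_sum, Finset.sum_mul]
    refine Finset.sum_congr rfl fun m _ => ?_
    rw [M.Ginv_symm u m k]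
    simp only [G]
    ring
  simp only [h1]
  rw [Finset.sum_comm]
  simp_rw [← Finset.sum_mul, M.Ginv_mul hu]
  simp

/-- `Δ x = -n x + H ν` -/
theorem laplace_x {u : Dom n} (hu : u ∈ M.U) :
    laplace M.x M.x u = (-(n : ℝ)) • M.x u + M.H u • M.ν u := by
  rw [← sub_eq_zero]
  apply M.eq_zero_of_orth hu
  · intro l
    have h1 : ⟪M.x u, pd l M.x u⟫_ℝ = 0 := by
      rw [real_inner_comm]; exact M.inner_dx_x hu _
    have h2 : ⟪M.ν u, pd l M.x u⟫_ℝ = 0 := by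
      rw [real_inner_comm]; exact M.inner_dx_ν u hu _
    unfold laplace
    simp only [inner_sub_left, inner_add_left, sum_inner, real_inner_smul_left, h1, h2]
    have : ∀ i j, ∑ k, christoffel M.x k i j u * ⟪pd k M.x u, pd l M.x u⟫_ℝ
        = ⟪pd i (pd j M.x) u, pd l M.x u⟫_ℝ := fun i j => M.christoffel_lower hu i j l
    simp [this]
  · have h1 : ∀ k, ⟪pd k M.x u, M.x u⟫_ℝ = 0 := fun k => M.inner_dx_x hu _
    have h2 : ⟪M.ν u, M.x u⟫_ℝ = 0 := by rw [real_inner_comm]; exact M.inner_x_ν u hu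
    have h3 : ∀ i j, ⟪pd i (pd j M.x) u, M.x u⟫_ℝ = - M.G u j i := by
      intro i j
      have h4 : pd i (fun v => ⟪pd j M.x v, M.x v⟫_ℝ) u = 0 := by
        have h7 : ∀ v ∈ M.U, ⟪pd j M.x v, M.x v⟫_ℝ = 0 := fun v hv => M.inner_dx_x hv _
        rw [pd_congr M.isOpen (g := fun _ => (0 : ℝ)) h7 hu, pd_const]
      rw [pd_inner M.isOpen (pd_smooth M.isOpen M.smooth_x j) M.smooth_x hu] at h4
      simp only [G, metric, Matrix.of_apply]
      linarith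
    unfold laplace
    simp only [inner_sub_left, inner_add_left, sum_inner, real_inner_smul_left, h1, h2, h3,
      M.inner_xx hu]
    have h5 : ∑ i, ∑ j, (metric M.x u)⁻¹ i j * (-M.G u j i - ∑ k, christoffel M.x k i j u * 0)
        = - (n : ℝ) := by
      have : ∀ i, ∑ j, (metric M.x u)⁻¹ i j * (-M.G u j i - ∑ k, christoffel M.x k i j u * 0)
          = -1 := by
        intro i
        have h6 := M.Ginv_mul hu i i
        simp only [if_true] at h6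
        rw [← h6, ← Finset.sum_neg_distrib]
        refine Finset.sum_congr rfl fun j _ => ?_
        simp [G]
      rw [Finset.sum_congr rfl fun i _ => this i]
      simp
    rw [h5]; ring
  · have h1 : ∀ k, ⟪pd k M.x u, M.ν u⟫_ℝ = 0 := fun k => M.inner_dx_ν u hu _
    unfold laplace
    simp only [inner_sub_left, inner_add_left, sum_inner, real_inner_smul_left, h1,
      M.inner_x_ν u hu, M.inner_νν hu]
    unfold H
    simp [G]

end Hypersurface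

end Pool.Agent.Helper21.Dupin
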