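import Pool.Agent.Helper21.Dupin.TwoNon

/-!
The global alternative for finite type Dupin hypersurfaces with two principal curvatures.
-/

namespace Pool.Agent.Helper21.Dupin

open scoped ContDiff InnerProductSpace Polynomial

namespace Hypersurface

variable {n : ℕ} {M : Hypersurface n} {lam mu : Dom n → ℝ} {p q : ℕ}

/-- the constant `κ` belonging to an odd number `l > p` -/
noncomputable def kap (p l : ℕ) : ℝ := p / (((l : ℝ) + 1) * ((l : ℝ) - p))

/-- The non-isoparametric alternative: `mu` vanishes and `lam` satisfies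
`|∇ lam|² = lam² (κ lam² - 1)` with `κ = p / ((l+1)(l-p))`. -/
def GoodAt (M : Hypersurface n) (lam mu : Dom n → ℝ) (p q l : ℕ) (u : Dom n) : Prop :=
  Even p ∧ Odd l ∧ p < l ∧ (Even (p + q) ∨ 2 * l < p + q) ∧ mu u = 0 ∧
    M.gradInner lam lam u = lam u ^ 2 * (kap p l * lam u ^ 2 - 1) ∧
    laplace M.x lam u = lam u * (q * kap p l * lam u ^ 2 - ((p + q : ℕ) - 2)
      * (kap p l * lam u ^ 2 - 1))

theorem kap_inj {p l l' : ℕ} (hp : 0 < p) (h : p < l) (h' : p < l') (heq : kap p l = kap p l') :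
    l = l' := by
  unfold kap at heq
  have hpr : (0 : ℝ) < p := by exact_mod_cast hp
  have hl : (p : ℝ) < l := by exact_mod_cast h
  have hl' : (p : ℝ) < l' := by exact_mod_cast h'
  have h1 : ((l : ℝ) + 1) * (l - p) = ((l' : ℝ) + 1) * (l' - p) := by
    have p1 : 0 < ((l : ℝ) + 1) * (l - p) := mul_pos (by linarith) (by linarith)
    have p2 : 0 < ((l' : ℝ) + 1) * (l' - p) := mul_pos (by linarith) (by linarith)
    rw [div_eq_div_iff p1.ne' p2.ne'] at heq
    exact (mul_left_cancel₀ hpr.ne' heq).symm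
  have h2 : ((l : ℝ) - l') * (l + l' + 1 - p) = 0 := by linarith
  rcases mul_eq_zero.mp h2 with h3 | h3
  · have : (l : ℝ) = l' := by linarith
    exact_mod_cast this
  · exfalso
    have : (0 : ℝ) ≤ l' := Nat.cast_nonneg _
    linarith

/-- restriction of `TwoPC` and `Local` -/
theorem TwoPC.restr (h : M.TwoPC lam mu p q) (N : Set (Dom n)) (hN : IsOpen N)
    (hc : IsConnected N) (hNU : N ⊆ M.U) : (M.restr N hN hc hNU).TwoPC lam mu p q where
  smooth_lam := h.smooth_lam.mono hNU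
  smooth_mu := h.smooth_mu.mono hNU
  ne := fun u hu => h.ne u (hNU hu)
  hp := h.hp
  hq := h.hq
  hpq := h.hpq
  fr_lam := fun u hu => h.fr_lam u (hNU hu)
  fr_mu := fun u hu => h.fr_mu u (hNU hu)
  d_lam := fun u hu => h.d_lam u (hNU hu)
  d_mu := fun u hu => h.d_mu u (hNU hu)

theorem Local.restr {N : Set (Dom n)} (h : M.Local lam mu p q N) :
    (M.restr N h.isOpen ⟨h.nonempty, h.preconn⟩ h.subset).Local lam mu p q N where
  two := h.two.restr _ _ _ _
  isOpen := h.isOpen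
  subset := subset_rfl
  preconn := h.preconn
  nonempty := h.nonempty
  pairs := h.pairs

/-- the alternative on a small piece -/
theorem Local.alternative {N : Set (Dom n)} (h : M.Local lam mu p q N) {k : ℕ} {c : Amb n}
    {X : Fin k → Dom n → Amb n} {L : Fin k → ℝ} (hd : M.Decomp k c X L) :
    ((∃ a b : ℝ, ∀ u ∈ N, lam u = a ∧ mu u = b)) ∨
    (∃ l, ∀ u ∈ N, M.GoodAt lam mu p q l u) ∨ (∃ l, ∀ u ∈ N, M.GoodAt mu lam q p l u) := by
  set M' := M.restr N h.isOpen ⟨h.nonempty, h.preconn⟩ h.subset with hM'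
  have hl : M'.Local lam mu p q M'.U := h.restr
  have hd' : M'.Decomp k c X L := hd.restr _ _ _ _
  classical
  have hPT : M'.PolyType (∏ s ∈ Finset.univ.image L, (Polynomial.X - Polynomial.C s)) :=
    hd'.polyType fun i => Finset.mem_image_of_mem L (Finset.mem_univ i)
  have hP0 : (∏ s ∈ Finset.univ.image L, (Polynomial.X - Polynomial.C s) : ℝ[X]) ≠ 0 :=
    Finset.prod_ne_zero_iff.mpr fun i _ => Polynomial.X_sub_C_ne_zero _
  -- general case with `mu` constant
  have one : ∀ (lam mu : Dom n → ℝ) (p q : ℕ), M'.Local lam mu p q M'.U →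
      (∃ b : ℝ, ∀ u ∈ N, mu u = b) → (∃ u₁ ∈ M'.U, ∃ u₂ ∈ M'.U, lam u₁ ≠ lam u₂) →
      ∃ l, ∀ u ∈ N, M.GoodAt lam mu p q l u := by
    intro lam mu p q hl hmu hne
    obtain ⟨b, hb⟩ := hmu
    obtain ⟨f, f', hf, hf', hf2, hf2'⟩ := hl.exists_split
    obtain ⟨h0, heven, hκ, r, hr1, hγ, hcond⟩ := hl.one_const hb hne hPT hf hf' hf2 hf2'
    have hw := hl.wrel hb hf hf' hf2 hf2'
    set κ := form n f f with hκd
    have hppos : (0 : ℝ) < p := by exact_mod_cast hl.two.hp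
    have hrr : (1 : ℝ) ≤ r := by exact_mod_cast hr1
    unfold γφ at hγ
    push_cast at hγ
    have hrp : (p : ℝ) < 2 * r - 1 := by
      have h1 : κ * (2 * r) * (2 * r - 1 - p) = p := by linarith
      have h2 : 0 < κ * (2 * r) := by positivity
      have h3 : 0 < κ * (2 * r) * (2 * r - 1 - p) := by rw [h1]; exact hppos
      have h4 : 0 < (2 * (r : ℝ) - 1 - p) := (pos_iff_pos_of_mul_pos h3).mp h2
      linarith
    have hrp' : p < 2 * r - 1 := by
      have h1 : ((p + 1 : ℕ) : ℝ) < ((2 * r : ℕ) : ℝ) := by push_cast; linarith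
      have h2 : p + 1 < 2 * r := by exact_mod_cast h1
      omega
    have hcast : (((2 * r - 1 : ℕ)) : ℝ) = 2 * r - 1 := by
      rw [Nat.cast_sub (by omega)]; push_cast; ring
    have hkap : κ = kap p (2 * r - 1) := by
      unfold kap
      rw [hcast]
      have h1 : κ * (2 * r) * (2 * r - 1 - p) = p := by linarith
      have h2 : (2 * (r : ℝ) - 1 + 1) * (2 * r - 1 - p) ≠ 0 := by
        have h3 : 0 < 2 * (r : ℝ) - 1 + 1 := by linarith
        have h4 : 0 < (2 * (r : ℝ) - 1 - p) := by linarith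
        positivity
      rw [eq_div_iff h2]
      linarith
    refine ⟨2 * r - 1, fun u hu => ⟨heven, ⟨r - 1, by omega⟩, hrp', ?_, ?_, ?_, ?_⟩⟩
    · rcases hcond with h | h
      · exact Or.inl h
      · right; omega
    · rw [hb u hu, h0]
    · have e1 := congrArg (fun g : M'.Sm => g.1 ⟨u, hu⟩) hw.Γww
      have e2 : (M'.diff.Γ (M'.fn lam hl.two.smooth_lam - algebraMap ℝ M'.Sm b)
          (M'.fn lam hl.two.smooth_lam - algebraMap ℝ M'.Sm b)).1 ⟨u, hu⟩
          = (lam u - b) ^ 2 * (-(1 + b ^ 2)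
        - 2 * b * (lam u - b) + κ * (lam u - b) ^ 2) := e1
      have e3 : M'.diff.Γ (M'.fn lam hl.two.smooth_lam - algebraMap ℝ M'.Sm b)
          (M'.fn lam hl.two.smooth_lam - algebraMap ℝ M'.Sm b)
          = M'.diff.Γ (M'.fn lam hl.two.smooth_lam) (M'.fn lam hl.two.smooth_lam) := by
        rw [h0, map_zero, sub_zero]
      rw [e3] at e2
      have e4 : (M'.diff.Γ (M'.fn lam hl.two.smooth_lam) (M'.fn lam hl.two.smooth_lam)).1 ⟨u, hu⟩
          = M.gradInner lam lam u := by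
        have := M'.car_fn lam lam hl.two.smooth_lam hl.two.smooth_lam
        have h5 := congrArg (fun g : M'.Sm => g.1 ⟨u, hu⟩) this
        exact h5
      rw [e4, h0, hkap] at e2
      rw [e2]; ring
    · have e1 := congrArg (fun g : M'.Sm => g.1 ⟨u, hu⟩) hw.Lw
      have e3 : M'.diff.L (M'.fn lam hl.two.smooth_lam - algebraMap ℝ M'.Sm b)
          = M'.diff.L (M'.fn lam hl.two.smooth_lam) := by
        rw [h0, map_zero, sub_zero]
      rw [e3] at e1
      have e4 : (M'.diff.L (M'.fn lam hl.two.smooth_lam)).1 ⟨u, hu⟩ = laplace M.x lam u := by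
        have := M'.lap_fn lam hl.two.smooth_lam
        have h5 := congrArg (fun g : M'.Sm => g.1 ⟨u, hu⟩) this
        exact h5
      have e5 : laplace M.x lam u = (lam u - b) * ((q : ℝ) * (lam u - b) * (κ * (lam u - b) - b)
        - (((p + q : ℕ) : ℝ) - 2) * (-(1 + b ^ 2) - 2 * b * (lam u - b)
          + κ * (lam u - b) ^ 2)) := by
        rw [← e4]; exact e1
      rw [h0, hkap] at e5
      rw [e5]; ring
  by_cases hlam : ∃ u₁ ∈ M'.U, ∃ u₂ ∈ M'.U, lam u₁ ≠ lam u₂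
  · by_cases hmu : ∃ u₁ ∈ M'.U, ∃ u₂ ∈ M'.U, mu u₁ ≠ mu u₂
    · exact (hl.two_nonconst hlam hmu hP0 hPT).elim
    · right; left
      push Not at hmu
      obtain ⟨u, hu⟩ := h.nonempty
      exact one lam mu p q hl ⟨mu u, fun v hv => hmu v hv u hu⟩ hlam
  · push Not at hlam
    by_cases hmu : ∃ u₁ ∈ M'.U, ∃ u₂ ∈ M'.U, mu u₁ ≠ mu u₂
    · right; right
      obtain ⟨u, hu⟩ := h.nonempty
      exact one mu lam q p hl.symm ⟨lam u, fun v hv => hlam v hv u hu⟩ hmu
    · left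
      push Not at hmu
      obtain ⟨u, hu⟩ := h.nonempty
      exact ⟨lam u, mu u, fun v hv => ⟨hlam v hv u hu, hmu v hv u hu⟩⟩

/-- A locally constant function on the (connected) domain is constant. -/
theorem const_of_local {g : Dom n → ℝ}
    (h : ∀ u ∈ M.U, ∃ N : Set (Dom n), IsOpen N ∧ u ∈ N ∧ ∃ a, ∀ v ∈ N, g v = a) :
    ∀ u ∈ M.U, ∀ v ∈ M.U, g u = g v := by
  intro u hu v hv
  have hO : ∀ S : Set ℝ, IsOpen {w | ∃ N : Set (Dom n), IsOpen N ∧ w ∈ N ∧ ∃ a ∈ S, ∀ v ∈ N, g v = a} := by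
    intro S
    rw [isOpen_iff_mem_nhds]
    rintro w ⟨N, hN, hw, a, haS, ha⟩
    exact Filter.mem_of_superset (hN.mem_nhds hw) fun w' hw' => ⟨N, hN, hw', a, haS, ha⟩
  have hsub : M.U ⊆ {w | ∃ N : Set (Dom n), IsOpen N ∧ w ∈ N ∧ ∃ a ∈ ({g u} : Set ℝ), ∀ v ∈ N, g v = a} := by
    apply IsPreconnected.subset_left_of_subset_union (hO {g u}) (hO {g u}ᶜ) _ _ _
      M.isConnected.isPreconnected
    · rw [Set.disjoint_left]
      rintro w ⟨N, hN, hw, a, haS, ha⟩ ⟨N', hN', hw', a', haS', ha'⟩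
      apply haS'
      rw [← ha' w hw', ha w hw]; exact haS
    · intro w hw
      obtain ⟨N, hN, hwN, a, ha⟩ := h w hw
      by_cases hau : a = g u
      · left; exact ⟨N, hN, hwN, a, hau, ha⟩
      · right; exact ⟨N, hN, hwN, a, hau, ha⟩
    · refine ⟨u, hu, ?_⟩
      obtain ⟨N, hN, huN, a, ha⟩ := h u hu
      exact ⟨N, hN, huN, a, (ha u huN).symm, ha⟩
  obtain ⟨N, hN, hvN, a, haS, ha⟩ := hsub hv
  rw [ha v hvN]; exact haS.symm

/-- The global alternative. -/
theorem TwoPC.alternative (h : M.TwoPC lam mu p q) {k : ℕ} {c : Amb n}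
    {X : Fin k → Dom n → Amb n} {L : Fin k → ℝ} (hd : M.Decomp k c X L) :
    ((∀ u ∈ M.U, ∀ v ∈ M.U, lam u = lam v) ∧ (∀ u ∈ M.U, ∀ v ∈ M.U, mu u = mu v)) ∨
    (∃ l, ∀ u ∈ M.U, M.GoodAt lam mu p q l u) ∨ (∃ l, ∀ u ∈ M.U, M.GoodAt mu lam q p l u) := by
  -- the three open sets
  let Oa : Set (Dom n) := {u | ∃ N, u ∈ N ∧ IsOpen N ∧ N ⊆ M.U ∧ ∃ a b : ℝ, ∀ v ∈ N, lam v = a ∧ mu v = b}
  let Ob : Set ℕ → Set (Dom n) := fun S =>
    {u | ∃ N, u ∈ N ∧ IsOpen N ∧ N ⊆ M.U ∧ ∃ l ∈ S, ∀ v ∈ N, M.GoodAt lam mu p q l v}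
  let Oc : Set ℕ → Set (Dom n) := fun S =>
    {u | ∃ N, u ∈ N ∧ IsOpen N ∧ N ⊆ M.U ∧ ∃ l ∈ S, ∀ v ∈ N, M.GoodAt mu lam q p l v}
  have hOa : IsOpen Oa := by
    rw [isOpen_iff_mem_nhds]
    rintro w ⟨N, hw, hN, h1⟩
    exact Filter.mem_of_superset (hN.mem_nhds hw) fun w' hw' => ⟨N, hw', hN, h1⟩
  have hOb : ∀ S, IsOpen (Ob S) := by
    intro S
    rw [isOpen_iff_mem_nhds]
    rintro w ⟨N, hw, hN, h1⟩
    exact Filter.mem_of_superset (hN.mem_nhds hw) fun w' hw' => ⟨N, hw', hN, h1⟩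
  have hOc : ∀ S, IsOpen (Oc S) := by
    intro S
    rw [isOpen_iff_mem_nhds]
    rintro w ⟨N, hw, hN, h1⟩
    exact Filter.mem_of_superset (hN.mem_nhds hw) fun w' hw' => ⟨N, hw', hN, h1⟩
  have hcover : ∀ u ∈ M.U, u ∈ Oa ∨ (∃ l, u ∈ Ob {l}) ∨ (∃ l, u ∈ Oc {l}) := by
    intro u hu
    obtain ⟨N, huN, hloc⟩ := h.exists_local hu
    rcases hloc.alternative hd with h1 | ⟨l, h1⟩ | ⟨l, h1⟩
    · left; exact ⟨N, huN, hloc.isOpen, hloc.subset, h1⟩
    · right; left; exact ⟨l, N, huN, hloc.isOpen, hloc.subset, l, rfl, h1⟩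
    · right; right; exact ⟨l, N, huN, hloc.isOpen, hloc.subset, l, rfl, h1⟩
  -- disjointness
  have not_const : ∀ (lam mu : Dom n → ℝ) (p q l : ℕ), M.TwoPC lam mu p q →
      ∀ (N : Set (Dom n)), IsOpen N → N ⊆ M.U → ∀ u ∈ N, (∃ a, ∀ v ∈ N, lam v = a) →
      M.GoodAt lam mu p q l u → False := by
    intro lam mu p q l h N hN hNU u hu hconst hg
    obtain ⟨a, ha⟩ := hconst
    obtain ⟨heven, hodd, hpl, hcond, hmu0, hgr, hlap⟩ := hg
    have hpd : ∀ i, ∀ v ∈ N, pd i lam v = 0 := by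
      intro i v hv
      rw [pd_congr hN (g := fun _ => a) ha hv, pd_const]
    have h1 : M.gradInner lam lam u = 0 := by
      unfold gradInner
      apply Finset.sum_eq_zero; intro i _
      apply Finset.sum_eq_zero; intro j _
      rw [hpd i u hu]; ring
    have h2 : laplace M.x lam u = 0 := by
      unfold laplace
      apply Finset.sum_eq_zero; intro i _
      apply Finset.sum_eq_zero; intro j _
      rw [pd_congr hN (g := fun _ => 0) (hpd j) hu, pd_const]
      simp only [hpd _ u hu, smul_zero, Finset.sum_const_zero, sub_zero]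
    have hlam0 : lam u ≠ 0 := by
      have := h.ne u (hNU hu)
      rwa [hmu0] at this
    rw [h1] at hgr
    rw [h2] at hlap
    have h3 : kap p l * lam u ^ 2 - 1 = 0 := by
      rcases mul_eq_zero.mp hgr.symm with h4 | h4
      · exact absurd (pow_eq_zero_iff (two_ne_zero)|>.mp h4) hlam0
      · exact h4
    rw [h3, mul_zero, sub_zero] at hlap
    have h5 : (q : ℝ) * kap p l * lam u ^ 2 = q := by
      have : kap p l * lam u ^ 2 = 1 := by linarith
      rw [mul_assoc, this, mul_one]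
    rw [h5] at hlap
    have h6 : (q : ℝ) ≠ 0 := by
      have := h.hq
      positivity
    exact (mul_ne_zero hlam0 h6) hlap.symm
  have dab : ∀ S, Disjoint Oa (Ob S) := by
    intro S
    rw [Set.disjoint_left]
    rintro u ⟨N, huN, hN, hNU, a, b, hab⟩ ⟨N', huN', hN', hNU', l, hl, hg⟩
    exact not_const lam mu p q l h N hN hNU u huN ⟨a, fun v hv => (hab v hv).1⟩ (hg u huN')
  have dac : ∀ S, Disjoint Oa (Oc S) := by
    intro S
    rw [Set.disjoint_left]
    rintro u ⟨N, huN, hN, hNU, a, b, hab⟩ ⟨N', huN', hN', hNU', l, hl, hg⟩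
    exact not_const mu lam q p l h.symm N hN hNU u huN ⟨b, fun v hv => (hab v hv).2⟩ (hg u huN')
  have dbc : ∀ S T, Disjoint (Ob S) (Oc T) := by
    intro S T
    rw [Set.disjoint_left]
    rintro u ⟨N, huN, hN, hNU, l, hl, hg⟩ ⟨N', huN', hN', hNU', l', hl', hg'⟩
    obtain ⟨-, -, -, -, h1, -⟩ := hg u huN
    obtain ⟨-, -, -, -, h2, -⟩ := hg' u huN'
    exact h.ne u (hNU huN) (by rw [h1, h2])
  have dbb : ∀ l, Disjoint (Ob {l}) (Ob {l}ᶜ) := by
    intro l
    rw [Set.disjoint_left]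
    rintro u ⟨N, huN, hN, hNU, l₁, hl₁, hg⟩ ⟨N', huN', hN', hNU', l₂, hl₂, hg'⟩
    rw [Set.mem_singleton_iff] at hl₁
    subst hl₁
    obtain ⟨-, -, k1, -, h1, g1, -⟩ := hg u huN
    obtain ⟨-, -, k2, -, h2, g2, -⟩ := hg' u huN'
    apply hl₂
    rw [Set.mem_singleton_iff]
    apply kap_inj h.hp k2 k1
    have hlam0 : lam u ≠ 0 := by
      have := h.ne u (hNU huN)
      rwa [h1] at this
    rw [g1] at g2
    have h3 : lam u ^ 4 * (kap p l₁ - kap p l₂) = 0 := by linarith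
    have h4 : lam u ^ 4 ≠ 0 := pow_ne_zero 4 hlam0
    have := (mul_eq_zero.mp h3).resolve_left h4
    linarith
  have dcc : ∀ l, Disjoint (Oc {l}) (Oc {l}ᶜ) := by
    intro l
    rw [Set.disjoint_left]
    rintro u ⟨N, huN, hN, hNU, l₁, hl₁, hg⟩ ⟨N', huN', hN', hNU', l₂, hl₂, hg'⟩
    rw [Set.mem_singleton_iff] at hl₁
    subst hl₁
    obtain ⟨-, -, k1, -, h1, g1, -⟩ := hg u huN
    obtain ⟨-, -, k2, -, h2, g2, -⟩ := hg' u huN'
    apply hl₂
    rw [Set.mem_singleton_iff]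
    apply kap_inj h.hq k2 k1
    have hmu0 : mu u ≠ 0 := by
      have := (h.ne u (hNU huN)).symm
      rwa [h1] at this
    rw [g1] at g2
    have h3 : mu u ^ 4 * (kap q l₁ - kap q l₂) = 0 := by linarith
    have h4 : mu u ^ 4 ≠ 0 := pow_ne_zero 4 hmu0
    have := (mul_eq_zero.mp h3).resolve_left h4
    linarith
  obtain ⟨u₀, hu₀⟩ := M.isConnected.nonempty
  rcases hcover u₀ hu₀ with h0 | ⟨l, h0⟩ | ⟨l, h0⟩
  · -- everything in Oa
    left
    have hsub : M.U ⊆ Oa := by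
      apply IsPreconnected.subset_left_of_subset_union hOa
        ((hOb Set.univ).union (hOc Set.univ)) _ _ ⟨u₀, hu₀, h0⟩ M.isConnected.isPreconnected
      · exact Disjoint.union_right (dab _) (dac _)
      · intro u hu
        rcases hcover u hu with h1 | ⟨l, N, a1, a2, a3, l', -, a5⟩ | ⟨l, N, a1, a2, a3, l', -, a5⟩
        · exact Or.inl h1
        · exact Or.inr (Or.inl ⟨N, a1, a2, a3, l', trivial, a5⟩)
        · exact Or.inr (Or.inr ⟨N, a1, a2, a3, l', trivial, a5⟩)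
    constructor
    · apply const_of_local
      intro u hu
      obtain ⟨N, huN, hN, hNU, a, b, hab⟩ := hsub hu
      exact ⟨N, hN, huN, a, fun v hv => (hab v hv).1⟩
    · apply const_of_local
      intro u hu
      obtain ⟨N, huN, hN, hNU, a, b, hab⟩ := hsub hu
      exact ⟨N, hN, huN, b, fun v hv => (hab v hv).2⟩
  · right; left
    refine ⟨l, ?_⟩
    have hsub : M.U ⊆ Ob {l} := by
      apply IsPreconnected.subset_left_of_subset_union (hOb {l})
        ((hOa.union (hOb {l}ᶜ)).union (hOc Set.univ)) _ _ ⟨u₀, hu₀, h0⟩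
        M.isConnected.isPreconnected
      · exact Disjoint.union_right (Disjoint.union_right (dab _).symm (dbb l)) (dbc _ _)
      · intro u hu
        rcases hcover u hu with h1 | ⟨l₁, N, a1, a2, a3, l', h4, a5⟩ | ⟨l₁, N, a1, a2, a3, l', -, a5⟩
        · exact Or.inr (Or.inl (Or.inl h1))
        · by_cases hl : l' = l
          · subst hl
            exact Or.inl ⟨N, a1, a2, a3, l', rfl, a5⟩
          · exact Or.inr (Or.inl (Or.inr ⟨N, a1, a2, a3, l', hl, a5⟩))
        · exact Or.inr (Or.inr ⟨N, a1, a2, a3, l', trivial, a5⟩)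
    intro u hu
    obtain ⟨N, huN, hN, hNU, l', hl', hg⟩ := hsub hu
    rw [Set.mem_singleton_iff] at hl'
    subst hl'
    exact hg u huN
  · right; right
    refine ⟨l, ?_⟩
    have hsub : M.U ⊆ Oc {l} := by
      apply IsPreconnected.subset_left_of_subset_union (hOc {l})
        ((hOa.union (hOb Set.univ)).union (hOc {l}ᶜ)) _ _ ⟨u₀, hu₀, h0⟩
        M.isConnected.isPreconnected
      · exact Disjoint.union_right (Disjoint.union_right (dac _).symm (dbc _ _).symm) (dcc l)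
      · intro u hu
        rcases hcover u hu with h1 | ⟨l₁, N, a1, a2, a3, l', -, a5⟩ | ⟨l₁, N, a1, a2, a3, l', h4, a5⟩
        · exact Or.inr (Or.inl (Or.inl h1))
        · exact Or.inr (Or.inl (Or.inr ⟨N, a1, a2, a3, l', trivial, a5⟩))
        · by_cases hl : l' = l
          · subst hl
            exact Or.inl ⟨N, a1, a2, a3, l', rfl, a5⟩
          · exact Or.inr (Or.inr ⟨N, a1, a2, a3, l', hl, a5⟩)
    intro u hu
    obtain ⟨N, huN, hN, hNU, l', hl', hg⟩ := hsub hu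
    rw [Set.mem_singleton_iff] at hl'
    subst hl'
    exact hg u huN

end Hypersurface

end Pool.Agent.Helper21.Dupin
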