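import Pool.Agent.Helper21.Dupin.Model

/-!
The differential identities for the principal curvatures, derived from the local splitting.
-/

namespace Pool.Agent.Helper21.Dupin

open scoped ContDiff InnerProductSpace

/-- The identities satisfied by the two principal curvatures `lam`, `mu` of a Dupin hypersurface
with exactly two principal curvatures, `w = lam - mu`, `y = 1 / w`. -/
structure Diffusion.Ids {A : Type*} [CommRing A] [Algebra ℝ A] (D : Diffusion A)
    (lam mu w y : A) (p q : ℕ) (s k ε : ℝ) : Prop where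
  w_eq : w = lam - mu
  hy : y * w = 1
  Γyl : D.Γ y lam = -(algebraMap ℝ A ε - 2 * algebraMap ℝ A s * lam - algebraMap ℝ A k * lam ^ 2)
  Γll : D.Γ lam lam =
    w ^ 2 * (algebraMap ℝ A ε - 2 * algebraMap ℝ A s * lam - algebraMap ℝ A k * lam ^ 2)
  Ll : D.L lam = -((q : A) * w ^ 2 * (algebraMap ℝ A s + algebraMap ℝ A k * lam))
    - (((p + q : ℕ) : A) - 2) * w *
      (algebraMap ℝ A ε - 2 * algebraMap ℝ A s * lam - algebraMap ℝ A k * lam ^ 2)

namespace Hypersurface

variable {n : ℕ} {M : Hypersurface n} {lam mu : Dom n → ℝ} {p q : ℕ}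

/-- the difference of the principal curvatures is invertible -/
theorem TwoPC.smooth_inv (h : M.TwoPC lam mu p q) :
    ContDiffOn ℝ ∞ (fun u => (lam u - mu u)⁻¹) M.U :=
  (h.smooth_lam.sub h.smooth_mu).inv fun u hu => sub_ne_zero.mpr (h.ne u hu)

/-- the trace of the shape operator -/
theorem TwoPC.H_eq (h : M.TwoPC lam mu p q) {u : Dom n} (hu : u ∈ M.U) :
    M.H u = p * lam u + q * mu u := by
  have hD : M.IsDupinWith 2 ![lam, mu] ![p, q] := by
    refine ⟨?_, ?_, ?_, ?_, ?_, ?_⟩
    · intro a; fin_cases a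
      · exact h.smooth_lam
      · exact h.smooth_mu
    · intro u hu a b hab
      fin_cases a <;> fin_cases b
      · rfl
      · exact absurd hab (h.ne u hu)
      · exact absurd hab.symm (h.ne u hu)
      · rfl
    · intro a; fin_cases a
      · exact h.hp
      · exact h.hq
    · simp [Fin.sum_univ_two, h.hpq]
    · intro u hu a; fin_cases a
      · exact h.fr_lam u hu
      · exact h.fr_mu u hu
    · intro u hu a; fin_cases a
      · exact h.d_lam u hu
      · exact h.d_mu u hu
  rw [M.H_eq hD hu]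
  simp [Fin.sum_univ_two]

theorem Local.form_f (hl : M.Local lam mu p q M.U) {f : LV n} (hf : f ∈ M.spanK lam M.U)
    (hf2 : e₁ n - f ∈ M.spanK mu M.U) {u : Dom n} (hu : u ∈ M.U) :
    form n f (M.K lam u) = -1 ∧ form n f (M.K mu u) = 0 := by
  refine ⟨?_, hl.orth hf (K_mem_spanK hu)⟩
  have h1 := hl.orth (K_mem_spanK hu) hf2
  rw [map_sub, form_e₁, form_symm (M.K lam u) f] at h1
  simp only [K] at h1 ⊢
  linarith

theorem Local.form_f' (hl : M.Local lam mu p q M.U) {f' : LV n} (hf : f' ∈ M.spanK lam M.U)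
    (hf2 : e₀ n - f' ∈ M.spanK mu M.U) {u : Dom n} (hu : u ∈ M.U) :
    form n f' (M.K lam u) = -lam u ∧ form n f' (M.K mu u) = 0 := by
  refine ⟨?_, hl.orth hf (K_mem_spanK hu)⟩
  have h1 := hl.orth (K_mem_spanK hu) hf2
  rw [map_sub, form_e₀, form_symm (M.K lam u) f'] at h1
  simp only [K] at h1 ⊢
  linarith

theorem Local.ids (hl : M.Local lam mu p q M.U) {f f' : LV n} (hf : f ∈ M.spanK lam M.U)
    (hf' : f' ∈ M.spanK lam M.U) (hf2 : e₁ n - f ∈ M.spanK mu M.U)
    (hf2' : e₀ n - f' ∈ M.spanK mu M.U) :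
    M.diff.Ids (M.fn lam hl.two.smooth_lam) (M.fn mu hl.two.smooth_mu)
      (M.fn lam hl.two.smooth_lam - M.fn mu hl.two.smooth_mu) (M.fn _ hl.two.smooth_inv) p q
      (form n f f') (-(form n f f)) (form n f' f') := by
  set s := form n f f' with hs
  set k := -(form n f f) with hk
  set ε := form n f' f' with hε
  set lamS := M.fn lam hl.two.smooth_lam with hlamS
  set muS := M.fn mu hl.two.smooth_mu with hmuS
  set y := M.fn _ hl.two.smooth_inv with hyd
  have hy : y * (lamS - muS) = 1 := by
    apply Subtype.ext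
    funext u
    have h1 : (y * (lamS - muS)).1 u = (lam u - mu u)⁻¹ * (lam u - mu u) := rfl
    rw [h1, inv_mul_cancel₀ (sub_ne_zero.mpr (hl.two.ne u u.2))]
    rfl
  -- scalars
  have hf1 : f.1 = -s := by
    have h1 := hl.orth hf hf2'
    rw [map_sub, form_e₀] at h1
    linarith
  have hfl : f.2.2 = k := by
    have h1 := hl.orth hf hf2
    rw [map_sub, form_e₁] at h1
    rw [hk]; linarith
  have hf1' : f'.1 = -ε := by
    have h1 := hl.orth hf' hf2'
    rw [map_sub, form_e₀] at h1
    linarith
  have hfl' : f'.2.2 = -s := by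
    have h1 := hl.orth hf' hf2
    rw [map_sub, form_e₁, form_symm f' f] at h1
    linarith
  -- functions
  have haf : M.aS f = -y := by
    apply Subtype.ext
    funext u
    rw [M.aS_apply]
    obtain ⟨h1, h2⟩ := hl.form_f hf hf2 u.2
    rw [K_eq, map_add, map_smul, smul_eq_mul] at h1 h2
    have hne := sub_ne_zero.mpr (hl.two.ne u u.2)
    have h3 : (lam u - mu u) * form n f (M.Y₁ u) = -1 := by linarith
    have h4 : (-y).1 u = -(lam u - mu u)⁻¹ := rfl
    rw [h4, ← mul_right_inj' hne, h3, mul_neg, mul_inv_cancel₀ hne]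
  have hbf : M.bS f = muS * y := by
    apply Subtype.ext
    funext u
    rw [M.bS_apply]
    obtain ⟨h1, h2⟩ := hl.form_f hf hf2 u.2
    rw [K_eq, map_add, map_smul, smul_eq_mul] at h1 h2
    have h5 : form n f (M.Y₁ u) = -(lam u - mu u)⁻¹ := by
      rw [← M.aS_apply, haf]; rfl
    have h4 : (muS * y).1 u = mu u * (lam u - mu u)⁻¹ := rfl
    rw [h4]
    rw [h5] at h2
    linarith
  have haf' : M.aS f' = -(lamS * y) := by
    apply Subtype.ext
    funext u
    rw [M.aS_apply]
    obtain ⟨h1, h2⟩ := hl.form_f' hf' hf2' u.2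
    rw [K_eq, map_add, map_smul, smul_eq_mul] at h1 h2
    have hne := sub_ne_zero.mpr (hl.two.ne u u.2)
    have h3 : (lam u - mu u) * form n f' (M.Y₁ u) = -lam u := by linarith
    have h4 : (-(lamS * y)).1 u = -(lam u * (lam u - mu u)⁻¹) := rfl
    rw [h4, ← mul_right_inj' hne, h3]
    field_simp
  have hbf' : M.bS f' = lamS * muS * y := by
    apply Subtype.ext
    funext u
    rw [M.bS_apply]
    obtain ⟨h1, h2⟩ := hl.form_f' hf' hf2' u.2
    rw [K_eq, map_add, map_smul, smul_eq_mul] at h1 h2
    have h5 : form n f' (M.Y₁ u) = -(lam u * (lam u - mu u)⁻¹) := by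
      rw [← M.aS_apply, haf']; rfl
    have h4 : (lamS * muS * y).1 u = lam u * mu u * (lam u - mu u)⁻¹ := rfl
    rw [h4]
    rw [h5] at h2
    linarith
  set HS : M.Sm := (p : M.Sm) * lamS + (q : M.Sm) * muS with hHS
  have hH : ∀ u : M.U, HS.1 u = M.H u := by
    intro u
    rw [hl.two.H_eq u.2]
    rfl
  have hyaf : y = -M.aS f := by rw [haf, neg_neg]
  have hyaf' : lamS * y = -M.aS f' := by rw [haf', neg_neg]
  have hnsmul : ∀ z : M.Sm, -(n : ℝ) • z = -(((p + q : ℕ) : M.Sm) * z) := by
    intro z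
    rw [hl.two.hpq, neg_smul, Algebra.smul_def, map_natCast]
  have id := Diffusion.identities M.diff (lam := lamS) (mu := muS) (w := lamS - muS) (y := y)
    (nn := ((p + q : ℕ) : M.Sm)) (pp := (p : M.Sm)) (qq := (q : M.Sm))
    (s := algebraMap ℝ M.Sm s) (k := algebraMap ℝ M.Sm k) (ep := algebraMap ℝ M.Sm ε)
    (by ring) hy (by push_cast; ring)
    (by
      have h1 := M.car_aS f f
      have h2 : M.diff.Γ y y = M.car (M.aS f) (M.aS f) := by
        rw [hyaf, map_neg]
        show -(M.car (-M.aS f)) (M.aS f) = _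
        rw [map_neg]
        show - -(M.car (M.aS f)) (M.aS f) = _
        rw [neg_neg]
      rw [h2, h1, haf, hbf, hf1, hfl]
      have h3 : form n f f = -k := by rw [hk]; ring
      rw [h3]
      simp only [map_add, map_neg, map_mul]
      ring)
    (by
      have h1 := M.car_aS f f'
      have h2 : M.diff.Γ y (lamS * y) = M.car (M.aS f) (M.aS f') := by
        rw [hyaf', hyaf, map_neg]
        show -(M.car (-M.aS f)) (M.aS f') = _
        rw [map_neg]
        show - -(M.car (M.aS f)) (M.aS f') = _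
        rw [neg_neg]
      rw [h2, h1, haf, hbf, haf', hbf', hf1, hfl, hf1', hfl', ← hs]
      simp only [map_add, map_neg, map_mul]
      ring)
    (by
      have h1 := M.car_aS f' f'
      have h2 : M.diff.Γ (lamS * y) (lamS * y) = M.car (M.aS f') (M.aS f') := by
        rw [hyaf', map_neg]
        show -(M.car (-M.aS f')) (M.aS f') = _
        rw [map_neg]
        show - -(M.car (M.aS f')) (M.aS f') = _
        rw [neg_neg]
      rw [h2, h1, haf', hbf', hf1', hfl', ← hε]
      simp only [map_add, map_neg, map_mul]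
      ring)
    (by
      have h1 := M.lap_aS f HS hH
      have h2 : M.diff.L y = -M.lap (M.aS f) := by
        rw [hyaf]
        exact map_neg _ _
      rw [h2, h1, haf, hbf, hf1, hfl, hnsmul, hHS]
      simp only [map_neg]
      ring)
    (by
      have h1 := M.lap_aS f' HS hH
      have h2 : M.diff.L (lamS * y) = -M.lap (M.aS f') := by
        rw [hyaf']
        exact map_neg _ _
      rw [h2, h1, haf', hbf', hf1', hfl', hnsmul, hHS]
      simp only [map_neg]
      ring)
  exact ⟨rfl, hy, id.1, id.2.1, id.2.2⟩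

end Hypersurface

end Pool.Agent.Helper21.Dupin
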