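import Pool.Agent.Helper21.Dupin.Metric

/-!
Smoothness of the inverse metric, the Laplace operator: product rule, and `Δ x = -n x + H ν`.
-/

namespace Pool.Agent.Helper21.Dupin

open scoped ContDiff InnerProductSpace

namespace Hypersurface

variable {n : ℕ} (M : Hypersurface n)

theorem smooth_G (i j : Fin n) : ContDiffOn ℝ ∞ (fun u => M.G u i j) M.U := by
  have h : (fun u => M.G u i j) = fun u => ⟪pd i M.x u, pd j M.x u⟫_ℝ := by
    funext u; simp [G, metric]
  rw [h]
  exact (pd_smooth M.isOpen M.smooth_x i).inner ℝ (pd_smooth M.isOpen M.smooth_x j)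

theorem smooth_det {m : ℕ} {A : Dom n → Matrix (Fin m) (Fin m) ℝ}
    (hA : ∀ i j, ContDiffOn ℝ ∞ (fun u => A u i j) M.U) :
    ContDiffOn ℝ ∞ (fun u => (A u).det) M.U := by
  simp only [Matrix.det_apply]
  refine ContDiffOn.sum fun σ _ => ?_
  refine ContDiffOn.const_smul _ ?_
  exact contDiffOn_prod fun i _ => hA _ _

theorem smooth_Ginv (i j : Fin n) : ContDiffOn ℝ ∞ (fun u => (M.G u)⁻¹ i j) M.U := by
  have h : ∀ u ∈ M.U, (M.G u)⁻¹ i j = ((M.G u).det)⁻¹ * ((M.G u).updateRow j (Pi.single i 1)).det := by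
    intro u hu
    rw [Matrix.inv_def, Matrix.smul_apply, Matrix.adjugate_apply, Ring.inverse_eq_inv', smul_eq_mul]
  refine ContDiffOn.congr ?_ h
  refine ContDiffOn.mul ?_ ?_
  · exact (M.smooth_det fun a b => M.smooth_G a b).inv fun u hu => M.det_ne hu
  · refine M.smooth_det fun a b => ?_
    simp only [Matrix.updateRow_apply]
    by_cases hab : a = j
    · simp only [hab, if_true]
      exact contDiffOn_const
    · simp only [hab, if_false]
      exact M.smooth_G a b

theorem smooth_christoffel (k i j : Fin n) :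
    ContDiffOn ℝ ∞ (fun u => christoffel M.x k i j u) M.U := by
  unfold christoffel
  refine contDiffOn_const.mul (ContDiffOn.sum fun l _ => (M.smooth_Ginv k l).mul ?_)
  exact ((pd_smooth M.isOpen (M.smooth_G j l) i).add
    (pd_smooth M.isOpen (M.smooth_G i l) j)).sub (pd_smooth M.isOpen (M.smooth_G i j) l)

variable {V W : Type*} [NormedAddCommGroup V] [NormedSpace ℝ V]
  [NormedAddCommGroup W] [NormedSpace ℝ W]

theorem smooth_laplace {f : Dom n → V} (hf : ContDiffOn ℝ ∞ f M.U) :
    ContDiffOn ℝ ∞ (laplace M.x f) M.U := by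
  unfold laplace
  refine ContDiffOn.sum fun i _ => ContDiffOn.sum fun j _ => (M.smooth_Ginv i j).smul ?_
  refine (pd_smooth M.isOpen (pd_smooth M.isOpen hf j) i).sub ?_
  exact ContDiffOn.sum fun k _ => (M.smooth_christoffel k i j).smul (pd_smooth M.isOpen hf k)

theorem laplace_congr {f g : Dom n → V} (h : ∀ u ∈ M.U, f u = g u) {u : Dom n} (hu : u ∈ M.U) :
    laplace M.x f u = laplace M.x g u := by
  unfold laplace
  refine Finset.sum_congr rfl fun i _ => Finset.sum_congr rfl fun j _ => ?_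
  rw [pd_congr M.isOpen (fun v hv => pd_congr M.isOpen h hv j) hu i]
  congr 2
  refine Finset.sum_congr rfl fun k _ => ?_
  rw [pd_congr M.isOpen h hu k]

theorem laplace_add {f g : Dom n → V} (hf : ContDiffOn ℝ ∞ f M.U) (hg : ContDiffOn ℝ ∞ g M.U)
    {u : Dom n} (hu : u ∈ M.U) :
    laplace M.x (fun v => f v + g v) u = laplace M.x f u + laplace M.x g u := by
  unfold laplace
  rw [← Finset.sum_add_distrib]
  refine Finset.sum_congr rfl fun i _ => ?_
  rw [← Finset.sum_add_distrib]
  refine Finset.sum_congr rfl fun j _ => ?_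
  rw [← smul_add]
  congr 1
  rw [pd_congr M.isOpen (fun v hv => pd_add M.isOpen hf hg hv j) hu i,
    pd_add M.isOpen (pd_smooth M.isOpen hf j) (pd_smooth M.isOpen hg j) hu]
  have : ∀ k, christoffel M.x k i j u • pd k (fun v => f v + g v) u
      = christoffel M.x k i j u • pd k f u + christoffel M.x k i j u • pd k g u := by
    intro k
    rw [pd_add M.isOpen hf hg hu, smul_add]
  simp only [this, Finset.sum_add_distrib]
  abel

theorem laplace_clm (T : V →L[ℝ] W) {f : Dom n → V} (hf : ContDiffOn ℝ ∞ f M.U)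
    {u : Dom n} (hu : u ∈ M.U) :
    laplace M.x (fun v => T (f v)) u = T (laplace M.x f u) := by
  unfold laplace
  simp only [map_sum, map_smul, map_sub]
  refine Finset.sum_congr rfl fun i _ => Finset.sum_congr rfl fun j _ => ?_
  rw [pd_congr M.isOpen (fun v hv => pd_clm M.isOpen T hf hv j) hu i,
    pd_clm M.isOpen T (pd_smooth M.isOpen hf j) hu]
  congr 2
  refine Finset.sum_congr rfl fun k _ => ?_
  rw [pd_clm M.isOpen T hf hu]

/-- the inner product of the gradients of two functions -/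
noncomputable def gradInner (f g : Dom n → ℝ) (u : Dom n) : ℝ :=
  ∑ i, ∑ j, (M.G u)⁻¹ i j * (pd i f u * pd j g u)

theorem gradInner_symm (f g : Dom n → ℝ) (u : Dom n) : M.gradInner f g u = M.gradInner g f u := by
  unfold gradInner
  rw [Finset.sum_comm]
  refine Finset.sum_congr rfl fun i _ => Finset.sum_congr rfl fun j _ => ?_
  rw [M.Ginv_symm u j i]; ring

theorem smooth_gradInner {f g : Dom n → ℝ} (hf : ContDiffOn ℝ ∞ f M.U)
    (hg : ContDiffOn ℝ ∞ g M.U) : ContDiffOn ℝ ∞ (M.gradInner f g) M.U := by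
  unfold gradInner
  exact ContDiffOn.sum fun i _ => ContDiffOn.sum fun j _ => (M.smooth_Ginv i j).mul
    ((pd_smooth M.isOpen hf i).mul (pd_smooth M.isOpen hg j))

theorem laplace_mul {f g : Dom n → ℝ} (hf : ContDiffOn ℝ ∞ f M.U) (hg : ContDiffOn ℝ ∞ g M.U)
    {u : Dom n} (hu : u ∈ M.U) :
    laplace M.x (fun v => f v * g v) u
      = f u * laplace M.x g u + g u * laplace M.x f u + 2 * M.gradInner f g u := by
  have hpd2 : ∀ i j, pd i (pd j (fun v => f v * g v)) u
      = f u * pd i (pd j g) u + g u * pd i (pd j f) u + pd i f u * pd j g u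
        + pd i g u * pd j f u := by
    intro i j
    rw [pd_congr M.isOpen (fun v hv => pd_mul M.isOpen hf hg hv j) hu i,
      pd_add M.isOpen (hf.mul (pd_smooth M.isOpen hg j)) (hg.mul (pd_smooth M.isOpen hf j)) hu,
      pd_mul M.isOpen hf (pd_smooth M.isOpen hg j) hu,
      pd_mul M.isOpen hg (pd_smooth M.isOpen hf j) hu]
    ring
  have hsym : M.gradInner f g u = ∑ i, ∑ j, (M.G u)⁻¹ i j * (pd i g u * pd j f u) :=
    M.gradInner_symm f g u
  have h2 : 2 * M.gradInner f g u = ∑ i, ∑ j, (M.G u)⁻¹ i j * (pd i f u * pd j g u)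
      + ∑ i, ∑ j, (M.G u)⁻¹ i j * (pd i g u * pd j f u) := by
    rw [← hsym]; unfold gradInner; ring
  rw [h2]
  unfold laplace
  simp only [smul_eq_mul]
  simp only [Finset.mul_sum, ← Finset.sum_add_distrib]
  refine Finset.sum_congr rfl fun i _ => Finset.sum_congr rfl fun j _ => ?_
  rw [hpd2]
  have hpd1 : ∑ k, christoffel M.x k i j u * pd k (fun v => f v * g v) u
      = f u * ∑ k, christoffel M.x k i j u * pd k g u
        + g u * ∑ k, christoffel M.x k i j u * pd k f u := by
    rw [Finset.mul_sum, Finset.mul_sum, ← Finset.sum_add_distrib]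
    refine Finset.sum_congr rfl fun k _ => ?_
    rw [pd_mul M.isOpen hf hg hu]; ring
  rw [hpd1]
  ring

end Hypersurface

end Pool.Agent.Helper21.Dupin
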