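import Mathlib

/-!
A local product lemma: two smooth maps whose differentials have complementary kernels are
locally functions of separate variables.
-/

namespace Pool.Agent.Helper21.Dupin

open scoped ContDiff

variable {E V₁ V₂ : Type*} [NormedAddCommGroup E] [NormedSpace ℝ E] [FiniteDimensional ℝ E]
  [NormedAddCommGroup V₁] [NormedSpace ℝ V₁] [FiniteDimensional ℝ V₁]
  [NormedAddCommGroup V₂] [NormedSpace ℝ V₂] [FiniteDimensional ℝ V₂]

theorem exists_partial_inverse (A : E →L[ℝ] V₁) {D₁ D₂ : Submodule ℝ E} (hA : LinearMap.ker (A : E →ₗ[ℝ] V₁) = D₁)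
    (hc : IsCompl D₁ D₂) :
    ∃ T : V₁ →L[ℝ] E, (∀ w, T w ∈ D₂) ∧ (∀ v ∈ D₂, T (A v) = v) ∧ (∀ v ∈ D₁, T (A v) = 0) := by
  let f : D₂ →ₗ[ℝ] V₁ := (A : E →ₗ[ℝ] V₁).domRestrict D₂
  have hf : Function.Injective f := by
    rw [← LinearMap.ker_eq_bot, LinearMap.ker_eq_bot']
    intro v hv
    have h1 : (v : E) ∈ D₁ := by
      rw [← hA, LinearMap.mem_ker]; exact hv
    have h2 : (v : E) ∈ D₁ ⊓ D₂ := ⟨h1, v.2⟩
    rw [hc.inf_eq_bot, Submodule.mem_bot] at h2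
    exact Subtype.ext h2
  obtain ⟨g, hg⟩ := f.exists_leftInverse_of_injective (LinearMap.ker_eq_bot.mpr hf)
  refine ⟨LinearMap.toContinuousLinearMap (D₂.subtype ∘ₗ g), ?_, ?_, ?_⟩
  · intro w
    exact (g w).2
  · intro v hv
    have := LinearMap.congr_fun hg ⟨v, hv⟩
    have h3 : g (A v) = ⟨v, hv⟩ := this
    show ((g (A v) : D₂) : E) = v
    rw [h3]
  · intro v hv
    have : A v = 0 := by
      rw [← hA] at hv
      exact hv
    rw [this, map_zero]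

theorem local_product {U : Set E} (hU : IsOpen U) {K₁ : E → V₁} {K₂ : E → V₂}
    (h₁ : ContDiffOn ℝ ∞ K₁ U) (h₂ : ContDiffOn ℝ ∞ K₂ U)
    (hc : ∀ u ∈ U, IsCompl (LinearMap.ker (fderiv ℝ K₁ u : E →ₗ[ℝ] V₁))
      (LinearMap.ker (fderiv ℝ K₂ u : E →ₗ[ℝ] V₂)))
    {u₀ : E} (hu₀ : u₀ ∈ U) :
    ∃ N : Set E, IsOpen N ∧ u₀ ∈ N ∧ N ⊆ U ∧ IsPreconnected N ∧
      ∀ u₁ ∈ N, ∀ u₂ ∈ N, ∃ u₃ ∈ N, K₁ u₃ = K₁ u₁ ∧ K₂ u₃ = K₂ u₂ := by
  obtain ⟨T₁, hT₁m, hT₁, hT₁'⟩ := exists_partial_inverse (fderiv ℝ K₁ u₀) rfl (hc u₀ hu₀)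
  obtain ⟨T₂, hT₂m, hT₂, hT₂'⟩ := exists_partial_inverse (fderiv ℝ K₂ u₀) rfl (hc u₀ hu₀).symm
  set D₁ := LinearMap.ker (fderiv ℝ K₁ u₀ : E →ₗ[ℝ] V₁) with hD₁
  set D₂ := LinearMap.ker (fderiv ℝ K₂ u₀ : E →ₗ[ℝ] V₂) with hD₂
  have hc0 : IsCompl D₁ D₂ := hc u₀ hu₀
  -- the chart
  let Φ : E → E := fun u => T₁ (K₁ u) + T₂ (K₂ u)
  have hΦs : ContDiffOn ℝ ∞ Φ U :=
    (T₁.contDiff.comp_contDiffOn h₁).add (T₂.contDiff.comp_contDiffOn h₂)
  have hd₁ : ∀ u ∈ U, DifferentiableAt ℝ K₁ u := fun u hu =>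
    (h₁.contDiffAt (hU.mem_nhds hu)).differentiableAt (by simp)
  have hd₂ : ∀ u ∈ U, DifferentiableAt ℝ K₂ u := fun u hu =>
    (h₂.contDiffAt (hU.mem_nhds hu)).differentiableAt (by simp)
  have hΦd : ∀ u ∈ U, HasFDerivAt Φ (T₁.comp (fderiv ℝ K₁ u) + T₂.comp (fderiv ℝ K₂ u)) u := by
    intro u hu
    exact (T₁.hasFDerivAt.comp u (hd₁ u hu).hasFDerivAt).add
      (T₂.hasFDerivAt.comp u (hd₂ u hu).hasFDerivAt)
  have hΦf : ∀ u ∈ U, ∀ v, fderiv ℝ Φ u v = T₁ (fderiv ℝ K₁ u v) + T₂ (fderiv ℝ K₂ u v) := by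
    intro u hu v
    rw [(hΦd u hu).fderiv]; rfl
  have hdec : ∀ z : E, ∃ a ∈ D₁, ∃ b ∈ D₂, a + b = z := by
    intro z
    have : z ∈ D₁ ⊔ D₂ := by rw [hc0.sup_eq_top]; trivial
    exact Submodule.mem_sup.mp this
  have hid : fderiv ℝ Φ u₀ = (ContinuousLinearEquiv.refl ℝ E : E →L[ℝ] E) := by
    ext v
    rw [hΦf u₀ hu₀]
    obtain ⟨a, ha, b, hb, rfl⟩ := hdec v
    rw [map_add, map_add, map_add, map_add, hT₁ b hb, hT₁' a ha, hT₂ a ha, hT₂' b hb]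
    simp [add_comm]
  -- the set of points where the differential of `Φ` is invertible
  have hfc : ContinuousOn (fderiv ℝ Φ) U := hΦs.continuousOn_fderiv_of_isOpen hU (by simp)
  let N₀ : Set E := U ∩ (fderiv ℝ Φ) ⁻¹' (Set.range ((↑) : (E ≃L[ℝ] E) → (E →L[ℝ] E)))
  have hN₀ : IsOpen N₀ := hfc.isOpen_inter_preimage hU ContinuousLinearEquiv.isOpen
  have hu₀N₀ : u₀ ∈ N₀ := ⟨hu₀, ⟨ContinuousLinearEquiv.refl ℝ E, hid.symm⟩⟩
  have hstrict : HasStrictFDerivAt Φ ((ContinuousLinearEquiv.refl ℝ E : E ≃L[ℝ] E) : E →L[ℝ] E) u₀ := by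
    have := (hΦs.contDiffAt (hU.mem_nhds hu₀)).hasStrictFDerivAt (by simp)
    rwa [hid] at this
  let e₀ := hstrict.toOpenPartialHomeomorph Φ
  let e := e₀.restrOpen N₀ hN₀
  have heΦ : ∀ u, e u = Φ u := fun u => rfl
  have hu₀e : u₀ ∈ e.source := by
    rw [OpenPartialHomeomorph.restrOpen_source]
    exact ⟨hstrict.mem_toOpenPartialHomeomorph_source, hu₀N₀⟩
  have hsrc : e.source ⊆ N₀ := by
    rw [OpenPartialHomeomorph.restrOpen_source]
    exact Set.inter_subset_right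
  -- the projections
  let P : E →L[ℝ] E := T₂.comp (fderiv ℝ K₂ u₀)
  let Q : E →L[ℝ] E := T₁.comp (fderiv ℝ K₁ u₀)
  have hPm : ∀ z, P z ∈ D₁ := fun z => hT₂m _
  have hQm : ∀ z, Q z ∈ D₂ := fun z => hT₁m _
  have hPQ : ∀ z, P z + Q z = z := by
    intro z
    have h0 : fderiv ℝ Φ u₀ z = z := by rw [hid]; rfl
    rw [hΦf u₀ hu₀] at h0
    rw [add_comm]
    exact h0
  have hPD₁ : ∀ z ∈ D₁, P z = z := fun z hz => hT₂ z hz
  have hPD₂ : ∀ z ∈ D₂, P z = 0 := fun z hz => hT₂' z hz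
  have hQD₂ : ∀ z ∈ D₂, Q z = z := fun z hz => hT₁ z hz
  have hQD₁ : ∀ z ∈ D₁, Q z = 0 := fun z hz => hT₁' z hz
  -- the box
  set z₀ := Φ u₀ with hz₀
  have hz₀t : z₀ ∈ e.target := by
    have := e.map_source hu₀e
    rwa [heΦ] at this
  obtain ⟨r, hr, hball⟩ := Metric.isOpen_iff.mp e.open_target z₀ hz₀t
  let Box : Set E := {z | ‖P (z - z₀)‖ < r / 2 ∧ ‖Q (z - z₀)‖ < r / 2}
  have hBoxo : IsOpen Box := by
    have o1 : IsOpen {z : E | ‖P (z - z₀)‖ < r / 2} :=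
      isOpen_lt (P.continuous.comp (continuous_id.sub continuous_const)).norm continuous_const
    have o2 : IsOpen {z : E | ‖Q (z - z₀)‖ < r / 2} :=
      isOpen_lt (Q.continuous.comp (continuous_id.sub continuous_const)).norm continuous_const
    exact o1.inter o2
  have hBoxc : Convex ℝ Box := by
    have c1 : Convex ℝ {z : E | ‖P (z - z₀)‖ < r / 2} := by
      have h3 : Convex ℝ (Metric.ball (P z₀) (r / 2)) := convex_ball _ _
      have h4 : {z : E | ‖P (z - z₀)‖ < r / 2} = P ⁻¹' Metric.ball (P z₀) (r / 2) := by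
        ext z; simp [dist_eq_norm]
      rw [h4]
      exact h3.linear_preimage (P : E →ₗ[ℝ] E)
    have c2 : Convex ℝ {z : E | ‖Q (z - z₀)‖ < r / 2} := by
      have h3 : Convex ℝ (Metric.ball (Q z₀) (r / 2)) := convex_ball _ _
      have h4 : {z : E | ‖Q (z - z₀)‖ < r / 2} = Q ⁻¹' Metric.ball (Q z₀) (r / 2) := by
        ext z; simp [dist_eq_norm]
      rw [h4]
      exact h3.linear_preimage (Q : E →ₗ[ℝ] E)
    exact c1.inter c2
  have hBoxt : Box ⊆ e.target := by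
    intro z hz
    apply hball
    rw [Metric.mem_ball, dist_eq_norm]
    calc ‖z - z₀‖ = ‖P (z - z₀) + Q (z - z₀)‖ := by rw [hPQ]
      _ ≤ ‖P (z - z₀)‖ + ‖Q (z - z₀)‖ := norm_add_le _ _
      _ < r := by have := hz.1; have := hz.2; linarith
  have hz₀B : z₀ ∈ Box := by
    constructor <;> simp [hr]
  -- derivative of the inverse
  have hinv : ∀ z ∈ Box, ∃ A : E ≃L[ℝ] E, (A : E →L[ℝ] E) = fderiv ℝ Φ (e.symm z) ∧
      HasFDerivAt e.symm (A.symm : E →L[ℝ] E) z := by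
    intro z hz
    have hzt := hBoxt hz
    have hs : e.symm z ∈ e.source := e.map_target hzt
    obtain ⟨hsU, A, hA⟩ := hsrc hs
    refine ⟨A, hA, ?_⟩
    apply e.hasFDerivAt_symm hzt
    rw [hA]
    exact ((hΦs.contDiffAt (hU.mem_nhds hsU)).differentiableAt (by simp)).hasFDerivAt
  have hsymU : ∀ z ∈ Box, e.symm z ∈ U := fun z hz => (hsrc (e.map_target (hBoxt hz))).1
  -- key: directions in D₁ are mapped into the kernel of K₁'
  have key₁ : ∀ u ∈ N₀, ∀ v, fderiv ℝ Φ u v ∈ D₁ → fderiv ℝ K₁ u v = 0 := by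
    intro u hu v hv
    obtain ⟨hu', A, hA⟩ := hu
    have hinj : ∀ w, fderiv ℝ Φ u w = 0 → w = 0 := by
      intro w hw
      rw [← hA] at hw
      exact A.map_eq_zero_iff.mp hw
    have h1 : T₁ (fderiv ℝ K₁ u v) = 0 := by
      have h2 : T₁ (fderiv ℝ K₁ u v) ∈ D₁ ⊓ D₂ := by
        refine ⟨?_, hT₁m _⟩
        have h3 : T₁ (fderiv ℝ K₁ u v) = fderiv ℝ Φ u v - T₂ (fderiv ℝ K₂ u v) := by
          rw [hΦf u hu']; abel
        rw [h3]
        exact Submodule.sub_mem _ hv (hT₂m _)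
      rwa [hc0.inf_eq_bot, Submodule.mem_bot] at h2
    obtain ⟨a, ha, b, hb, hab⟩ := Submodule.mem_sup.mp
      (show v ∈ LinearMap.ker (fderiv ℝ K₁ u : E →ₗ[ℝ] V₁) ⊔ LinearMap.ker (fderiv ℝ K₂ u : E →ₗ[ℝ] V₂)
        by rw [(hc u hu').sup_eq_top]; trivial)
    have ha' : fderiv ℝ K₁ u a = 0 := ha
    have hb' : fderiv ℝ K₂ u b = 0 := hb
    have h4 : b = 0 := by
      apply hinj
      rw [hΦf u hu', hb', map_zero, add_zero]
      rw [← hab, map_add, ha', zero_add] at h1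
      exact h1
    rw [← hab, h4, add_zero, ha']
  have key₂ : ∀ u ∈ N₀, ∀ v, fderiv ℝ Φ u v ∈ D₂ → fderiv ℝ K₂ u v = 0 := by
    intro u hu v hv
    obtain ⟨hu', A, hA⟩ := hu
    have hinj : ∀ w, fderiv ℝ Φ u w = 0 → w = 0 := by
      intro w hw
      rw [← hA] at hw
      exact A.map_eq_zero_iff.mp hw
    have h1 : T₂ (fderiv ℝ K₂ u v) = 0 := by
      have h2 : T₂ (fderiv ℝ K₂ u v) ∈ D₁ ⊓ D₂ := by
        refine ⟨hT₂m _, ?_⟩
        have h3 : T₂ (fderiv ℝ K₂ u v) = fderiv ℝ Φ u v - T₁ (fderiv ℝ K₁ u v) := by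
          rw [hΦf u hu']; abel
        rw [h3]
        exact Submodule.sub_mem _ hv (hT₁m _)
      rwa [hc0.inf_eq_bot, Submodule.mem_bot] at h2
    obtain ⟨a, ha, b, hb, hab⟩ := Submodule.mem_sup.mp
      (show v ∈ LinearMap.ker (fderiv ℝ K₁ u : E →ₗ[ℝ] V₁) ⊔ LinearMap.ker (fderiv ℝ K₂ u : E →ₗ[ℝ] V₂)
        by rw [(hc u hu').sup_eq_top]; trivial)
    have ha' : fderiv ℝ K₁ u a = 0 := ha
    have hb' : fderiv ℝ K₂ u b = 0 := hb
    have h4 : a = 0 := by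
      apply hinj
      rw [hΦf u hu', ha', map_zero, zero_add]
      rw [← hab, map_add, hb', add_zero] at h1
      exact h1
    rw [← hab, h4, zero_add, hb']
  -- constancy along segments
  have const₁ : ∀ z ∈ Box, ∀ d ∈ D₁, z + d ∈ Box → K₁ (e.symm (z + d)) = K₁ (e.symm z) := by
    intro z hz d hd hzd
    have hseg : ∀ t ∈ Set.Icc (0 : ℝ) 1, z + t • d ∈ Box := by
      intro t ht
      have := hBoxc.add_smul_mem hz hzd ht
      exact this
    have hder : ∀ t ∈ Set.Icc (0 : ℝ) 1, HasDerivAt (fun t : ℝ => K₁ (e.symm (z + t • d))) 0 t := by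
      intro t ht
      obtain ⟨A, hA, hAd⟩ := hinv _ (hseg t ht)
      have h1 : HasDerivAt (fun t : ℝ => z + t • d) d t := by
        have := ((hasDerivAt_id t).smul_const d).const_add z
        simpa using this
      have h2 : HasFDerivAt K₁ (fderiv ℝ K₁ (e.symm (z + t • d))) (e.symm (z + t • d)) :=
        (hd₁ _ (hsymU _ (hseg t ht))).hasFDerivAt
      have h3 := (h2.comp _ hAd).comp_hasDerivAt t h1
      have h4 : fderiv ℝ K₁ (e.symm (z + t • d)) (A.symm d) = 0 := by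
        apply key₁ _ (hsrc (e.map_target (hBoxt (hseg t ht))))
        rw [← hA]
        simpa using hd
      have h5 : ((fderiv ℝ K₁ (e.symm (z + t • d))).comp (A.symm : E →L[ℝ] E)) d = 0 := h4
      rw [h5] at h3
      exact h3
    have h6 := constant_of_has_deriv_right_zero (f := fun t : ℝ => K₁ (e.symm (z + t • d)))
      (a := 0) (b := 1) (fun t ht => (hder t ht).continuousAt.continuousWithinAt)
      (fun t ht => (hder t ⟨ht.1, ht.2.le⟩).hasDerivWithinAt) 1 (by simp)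
    simpa using h6
  have const₂ : ∀ z ∈ Box, ∀ d ∈ D₂, z + d ∈ Box → K₂ (e.symm (z + d)) = K₂ (e.symm z) := by
    intro z hz d hd hzd
    have hseg : ∀ t ∈ Set.Icc (0 : ℝ) 1, z + t • d ∈ Box := by
      intro t ht
      have := hBoxc.add_smul_mem hz hzd ht
      exact this
    have hder : ∀ t ∈ Set.Icc (0 : ℝ) 1, HasDerivAt (fun t : ℝ => K₂ (e.symm (z + t • d))) 0 t := by
      intro t ht
      obtain ⟨A, hA, hAd⟩ := hinv _ (hseg t ht)
      have h1 : HasDerivAt (fun t : ℝ => z + t • d) d t := by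
        have := ((hasDerivAt_id t).smul_const d).const_add z
        simpa using this
      have h2 : HasFDerivAt K₂ (fderiv ℝ K₂ (e.symm (z + t • d))) (e.symm (z + t • d)) :=
        (hd₂ _ (hsymU _ (hseg t ht))).hasFDerivAt
      have h3 := (h2.comp _ hAd).comp_hasDerivAt t h1
      have h4 : fderiv ℝ K₂ (e.symm (z + t • d)) (A.symm d) = 0 := by
        apply key₂ _ (hsrc (e.map_target (hBoxt (hseg t ht))))
        rw [← hA]
        simpa using hd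
      have h5 : ((fderiv ℝ K₂ (e.symm (z + t • d))).comp (A.symm : E →L[ℝ] E)) d = 0 := h4
      rw [h5] at h3
      exact h3
    have h6 := constant_of_has_deriv_right_zero (f := fun t : ℝ => K₂ (e.symm (z + t • d)))
      (a := 0) (b := 1) (fun t ht => (hder t ht).continuousAt.continuousWithinAt)
      (fun t ht => (hder t ⟨ht.1, ht.2.le⟩).hasDerivWithinAt) 1 (by simp)
    simpa using h6
  refine ⟨e.symm '' Box, ?_, ?_, ?_, ?_, ?_⟩
  · exact e.symm.isOpen_image_of_subset_source hBoxo hBoxt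
  · refine ⟨z₀, hz₀B, ?_⟩
    have := e.left_inv hu₀e
    rwa [heΦ] at this
  · rintro u ⟨z, hz, rfl⟩
    exact hsymU z hz
  · refine hBoxc.isPreconnected.image _ ?_
    exact e.continuousOn_symm.mono hBoxt
  · rintro u₁ ⟨z₁, hz₁, rfl⟩ u₂ ⟨z₂, hz₂, rfl⟩
    have e1 : P (P (z₂ - z₁)) = P (z₂ - z₁) := hPD₁ _ (hPm _)
    have e2 : Q (P (z₂ - z₁)) = 0 := hQD₁ _ (hPm _)
    have hz₃ : z₁ + P (z₂ - z₁) ∈ Box := by
      constructor
      · have : P (z₁ + P (z₂ - z₁) - z₀) = P (z₂ - z₀) := by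
          have e3 : z₁ + P (z₂ - z₁) - z₀ = (z₁ - z₀) + P (z₂ - z₁) := by abel
          rw [e3, map_add, e1, ← map_add]
          congr 1; abel
        rw [this]; exact hz₂.1
      · have : Q (z₁ + P (z₂ - z₁) - z₀) = Q (z₁ - z₀) := by
          have e3 : z₁ + P (z₂ - z₁) - z₀ = (z₁ - z₀) + P (z₂ - z₁) := by abel
          rw [e3, map_add, e2, add_zero]
        rw [this]; exact hz₁.2
    have hz₃' : z₁ + P (z₂ - z₁) = z₂ + Q (z₁ - z₂) := by
      have h7 := hPQ (z₂ - z₁)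
      have h8 : Q (z₁ - z₂) = - Q (z₂ - z₁) := by rw [← map_neg]; congr 1; abel
      rw [h8]
      have h9 : P (z₂ - z₁) = (z₂ - z₁) - Q (z₂ - z₁) := by
        rw [eq_sub_iff_add_eq]; exact h7
      rw [h9]; abel
    refine ⟨e.symm (z₁ + P (z₂ - z₁)), ⟨_, hz₃, rfl⟩, ?_, ?_⟩
    · exact const₁ z₁ hz₁ _ (hPm _) hz₃
    · rw [hz₃'] at hz₃ ⊢
      exact const₂ z₂ hz₂ _ (hQm _) hz₃

end Pool.Agent.Helper21.Dupin
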