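import Pool.Agent.Helper21.Dupin.Sm
import Pool.Agent.Helper21.Dupin.Product

/-!
Curvature sphere maps of a Dupin hypersurface with two principal curvatures and the local
orthogonal splitting of `ℝ^{n+4}_2`.
-/

namespace Pool.Agent.Helper21.Dupin

open scoped ContDiff InnerProductSpace

/-- the space `ℝ × 𝔼^{n+2} × ℝ` -/
abbrev LV (n : ℕ) : Type := ℝ × Amb n × ℝ

/-- the quadratic form of signature `(n+2, 2)` on `ℝ × 𝔼^{n+2} × ℝ` -/
noncomputable def form (n : ℕ) : LV n →ₗ[ℝ] LV n →ₗ[ℝ] ℝ :=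
  LinearMap.mk₂ ℝ (fun z w => ⟪z.2.1, w.2.1⟫_ℝ - z.1 * w.1 - z.2.2 * w.2.2)
    (by intro z z' w; simp only [Prod.fst_add, Prod.snd_add, inner_add_left]; ring)
    (by intro c z w; simp only [Prod.smul_fst, Prod.smul_snd, real_inner_smul_left, smul_eq_mul]; ring)
    (by intro z w w'; simp only [Prod.fst_add, Prod.snd_add, inner_add_right]; ring)
    (by intro c z w; simp only [Prod.smul_fst, Prod.smul_snd, real_inner_smul_right, smul_eq_mul]; ring)

theorem form_apply {n : ℕ} (z w : LV n) :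
    form n z w = ⟪z.2.1, w.2.1⟫_ℝ - z.1 * w.1 - z.2.2 * w.2.2 := rfl

theorem form_symm {n : ℕ} (z w : LV n) : form n z w = form n w z := by
  rw [form_apply, form_apply, real_inner_comm]; ring

theorem form_nondeg {n : ℕ} {z : LV n} (h : ∀ w, form n z w = 0) : z = 0 := by
  obtain ⟨a, X, c⟩ := z
  have h1 := h (1, 0, 0)
  have h2 := h (0, 0, 1)
  have h3 := h (0, X, 0)
  rw [form_apply] at h1 h2 h3
  simp at h1 h2 h3
  simp [h1, h2, h3]

namespace Hypersurface

variable {n : ℕ} (M : Hypersurface n)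

/-- `M` is a Dupin hypersurface with exactly two principal curvatures `lam` (of multiplicity `p`)
and `mu` (of multiplicity `q`). -/
structure TwoPC (lam mu : Dom n → ℝ) (p q : ℕ) : Prop where
  smooth_lam : ContDiffOn ℝ ∞ lam M.U
  smooth_mu : ContDiffOn ℝ ∞ mu M.U
  ne : ∀ u ∈ M.U, lam u ≠ mu u
  hp : 0 < p
  hq : 0 < q
  hpq : p + q = n
  fr_lam : ∀ u ∈ M.U, Module.finrank ℝ (M.curvSpace u (lam u)) = p
  fr_mu : ∀ u ∈ M.U, Module.finrank ℝ (M.curvSpace u (mu u)) = q
  d_lam : ∀ u ∈ M.U, ∀ v ∈ M.curvSpace u (lam u), fderiv ℝ lam u v = 0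
  d_mu : ∀ u ∈ M.U, ∀ v ∈ M.curvSpace u (mu u), fderiv ℝ mu u v = 0

variable {M}

theorem TwoPC.symm {lam mu : Dom n → ℝ} {p q : ℕ} (h : M.TwoPC lam mu p q) :
    M.TwoPC mu lam q p where
  smooth_lam := h.smooth_mu
  smooth_mu := h.smooth_lam
  ne := fun u hu => (h.ne u hu).symm
  hp := h.hq
  hq := h.hp
  hpq := by have := h.hpq; omega
  fr_lam := h.fr_mu
  fr_mu := h.fr_lam
  d_lam := h.d_mu
  d_mu := h.d_lam

theorem TwoPC.isCompl {lam mu : Dom n → ℝ} {p q : ℕ} (h : M.TwoPC lam mu p q) {u : Dom n}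
    (hu : u ∈ M.U) : IsCompl (M.curvSpace u (lam u)) (M.curvSpace u (mu u)) := by
  have hdisj : Disjoint (M.curvSpace u (lam u)) (M.curvSpace u (mu u)) := by
    rw [Submodule.disjoint_def]
    intro v h1 h2
    rw [M.mem_curvSpace] at h1 h2
    apply M.immersion u hu
    rw [map_zero]
    have h3 : (lam u - mu u) • fderiv ℝ M.x u v = 0 := by
      rw [sub_smul, sub_eq_zero]
      rw [h1] at h2
      exact neg_injective h2
    exact (smul_eq_zero.mp h3).resolve_left (sub_ne_zero.mpr (h.ne u hu))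
  refine ⟨hdisj, ?_⟩
  rw [codisjoint_iff]
  apply Submodule.eq_top_of_finrank_eq
  have h1 := Submodule.finrank_sup_add_finrank_inf_eq (M.curvSpace u (lam u)) (M.curvSpace u (mu u))
  rw [hdisj.eq_bot, finrank_bot, add_zero, h.fr_lam u hu, h.fr_mu u hu, h.hpq] at h1
  rw [h1]; simp

variable (M)

/-- the curvature sphere map -/
noncomputable def K (l : Dom n → ℝ) (u : Dom n) : LV n := (l u, l u • M.x u + M.ν u, 1)

variable {M}

theorem smooth_K {l : Dom n → ℝ} (hl : ContDiffOn ℝ ∞ l M.U) : ContDiffOn ℝ ∞ (M.K l) M.U :=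
  hl.prodMk (((hl.smul M.smooth_x).add M.smooth_ν).prodMk contDiffOn_const)

theorem fderiv_K {l : Dom n → ℝ} (hl : ContDiffOn ℝ ∞ l M.U) {u : Dom n} (hu : u ∈ M.U)
    (v : Dom n) : fderiv ℝ (M.K l) u v =
      (fderiv ℝ l u v, l u • fderiv ℝ M.x u v + fderiv ℝ l u v • M.x u + fderiv ℝ M.ν u v, 0) := by
  have h1 := (diffAt M.isOpen hl hu).hasFDerivAt
  have h2 := (diffAt M.isOpen M.smooth_x hu).hasFDerivAt
  have h3 := (diffAt M.isOpen M.smooth_ν hu).hasFDerivAt
  have h4 := h1.prodMk (((h1.smul h2).add h3).prodMk (hasFDerivAt_const (1 : ℝ) u))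
  have h5 : fderiv ℝ (M.K l) u = _ := h4.fderiv
  rw [h5]
  simp

theorem TwoPC.ker_K {lam mu : Dom n → ℝ} {p q : ℕ} (h : M.TwoPC lam mu p q) {u : Dom n}
    (hu : u ∈ M.U) :
    LinearMap.ker (fderiv ℝ (M.K lam) u : Dom n →ₗ[ℝ] LV n) = M.curvSpace u (lam u) := by
  ext v
  rw [LinearMap.mem_ker, ContinuousLinearMap.coe_coe, fderiv_K h.smooth_lam hu, M.mem_curvSpace]
  constructor
  · intro hv
    have h1 : fderiv ℝ lam u v = 0 := congrArg Prod.fst hv
    have h2 : lam u • fderiv ℝ M.x u v + fderiv ℝ lam u v • M.x u + fderiv ℝ M.ν u v = 0 :=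
      congrArg (fun z => z.2.1) hv
    rw [h1, zero_smul, add_zero] at h2
    exact eq_neg_of_add_eq_zero_right h2
  · intro hv
    have h1 : fderiv ℝ lam u v = 0 := h.d_lam u hu v (M.mem_curvSpace.mpr hv)
    rw [h1, hv]
    simp

theorem form_K_K {lam mu : Dom n → ℝ} {u : Dom n} (hu : u ∈ M.U) :
    form n (M.K lam u) (M.K mu u) = 0 := by
  rw [form_apply]
  simp only [K, inner_add_left, inner_add_right, real_inner_smul_left, real_inner_smul_right,
    M.inner_xx hu, M.inner_νν hu, M.inner_x_ν u hu]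
  rw [real_inner_comm, M.inner_x_ν u hu]
  ring

/-- the point sphere map, as a vector of `LV n` -/
noncomputable def Y₁ (M : Hypersurface n) (u : Dom n) : LV n := (1, M.x u, 0)

/-- the great sphere map, as a vector of `LV n` -/
noncomputable def Y₂ (M : Hypersurface n) (u : Dom n) : LV n := (0, M.ν u, 1)

theorem K_eq (l : Dom n → ℝ) (u : Dom n) : M.K l u = l u • M.Y₁ u + M.Y₂ u := by
  simp [K, Y₁, Y₂]

theorem smooth_Y₁ : ContDiffOn ℝ ∞ M.Y₁ M.U :=
  contDiffOn_const.prodMk (M.smooth_x.prodMk contDiffOn_const)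

theorem smooth_Y₂ : ContDiffOn ℝ ∞ M.Y₂ M.U :=
  contDiffOn_const.prodMk (M.smooth_ν.prodMk contDiffOn_const)

/-- A constant vector orthogonal to all curvature spheres of an open piece vanishes. -/
theorem TwoPC.orth_eq_zero {lam mu : Dom n → ℝ} {p q : ℕ} (h : M.TwoPC lam mu p q)
    {N : Set (Dom n)} (hN : IsOpen N) (hNU : N ⊆ M.U) (hne : N.Nonempty) {z : LV n}
    (h1 : ∀ u ∈ N, form n z (M.K lam u) = 0) (h2 : ∀ u ∈ N, form n z (M.K mu u) = 0) :
    z = 0 := by
  have hY1 : ∀ u ∈ N, form n z (M.Y₁ u) = 0 := by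
    intro u hu
    have e1 := h1 u hu
    have e2 := h2 u hu
    rw [K_eq, map_add, map_smul, smul_eq_mul] at e1 e2
    have e3 : (lam u - mu u) * form n z (M.Y₁ u) = 0 := by linarith
    exact (mul_eq_zero.mp e3).resolve_left (sub_ne_zero.mpr (h.ne u (hNU hu)))
  have hY2 : ∀ u ∈ N, form n z (M.Y₂ u) = 0 := by
    intro u hu
    have e1 := h1 u hu
    rw [K_eq, map_add, map_smul, smul_eq_mul, hY1 u hu] at e1
    linarith
  obtain ⟨a, X, c⟩ := z
  have hx : ∀ u ∈ N, ⟪X, M.x u⟫_ℝ = a := by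
    intro u hu
    have := hY1 u hu
    rw [form_apply] at this
    simp only [Y₁] at this
    linarith
  have hν : ∀ u ∈ N, ⟪X, M.ν u⟫_ℝ = c := by
    intro u hu
    have := hY2 u hu
    rw [form_apply] at this
    simp only [Y₂] at this
    linarith
  have hdx : ∀ u ∈ N, ∀ v, ⟪X, fderiv ℝ M.x u v⟫_ℝ = 0 := by
    intro u hu v
    have hd := diffAt M.isOpen M.smooth_x (hNU hu)
    have e1 : fderiv ℝ (fun w => ⟪X, M.x w⟫_ℝ) u v = 0 := by
      have : (fun w => ⟪X, M.x w⟫_ℝ) =ᶠ[nhds u] fun _ => a :=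
        Filter.eventuallyEq_of_mem (hN.mem_nhds hu) hx
      rw [this.fderiv_eq]; simp
    rw [fderiv_inner_apply ℝ (differentiableAt_const X) hd] at e1
    simpa using e1
  -- X is a combination of x and ν
  have hX : ∀ u ∈ N, X = a • M.x u + c • M.ν u := by
    intro u hu
    rw [← sub_eq_zero]
    apply M.eq_zero_of_orth (hNU hu)
    · intro i
      have e1 : ⟪M.x u, pd i M.x u⟫_ℝ = 0 := by
        rw [real_inner_comm]; exact M.inner_dx_x (hNU hu) _
      have e2 : ⟪M.ν u, pd i M.x u⟫_ℝ = 0 := by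
        rw [real_inner_comm]; exact M.inner_dx_ν u (hNU hu) _
      have e3 : ⟪X, pd i M.x u⟫_ℝ = 0 := hdx u hu _
      simp only [inner_sub_left, inner_add_left, real_inner_smul_left, e1, e2, e3]
      ring
    · have e2 : ⟪M.ν u, M.x u⟫_ℝ = 0 := by rw [real_inner_comm]; exact M.inner_x_ν u (hNU hu)
      simp only [inner_sub_left, inner_add_left, real_inner_smul_left, hx u hu, M.inner_xx (hNU hu),
        e2]
      ring
    · simp only [inner_sub_left, inner_add_left, real_inner_smul_left, hν u hu, M.inner_νν (hNU hu),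
        M.inner_x_ν u (hNU hu)]
      ring
  obtain ⟨u, hu⟩ := hne
  have huU := hNU hu
  have hdX : ∀ v, a • fderiv ℝ M.x u v + c • fderiv ℝ M.ν u v = 0 := by
    intro v
    have e1 : fderiv ℝ (fun w => a • M.x w + c • M.ν w) u v = 0 := by
      have : (fun w => a • M.x w + c • M.ν w) =ᶠ[nhds u] fun _ => X :=
        Filter.eventuallyEq_of_mem (hN.mem_nhds hu) fun w hw => (hX w hw).symm
      rw [this.fderiv_eq]; simp
    have h2 := (diffAt M.isOpen M.smooth_x huU).hasFDerivAt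
    have h3 := (diffAt M.isOpen M.smooth_ν huU).hasFDerivAt
    have h4 := ((h2.const_smul a).add (h3.const_smul c)).fderiv
    have h5 : fderiv ℝ (fun w => a • M.x w + c • M.ν w) u = _ := h4
    rw [h5] at e1
    simpa using e1
  -- a nonzero vector in each curvature space
  have hnz : ∀ l : ℝ, 0 < Module.finrank ℝ (M.curvSpace u l) → a = c * l := by
    intro l hl
    have : Nontrivial (M.curvSpace u l) := Module.finrank_pos_iff.mp hl
    obtain ⟨⟨v, hv⟩, hv0⟩ := exists_ne (0 : M.curvSpace u l)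
    have hv0' : v ≠ 0 := fun h => hv0 (Subtype.ext h)
    rw [M.mem_curvSpace] at hv
    have e1 := hdX v
    rw [hv, smul_neg, smul_smul, ← sub_eq_add_neg, ← sub_smul] at e1
    have e2 : fderiv ℝ M.x u v ≠ 0 := fun h0 => hv0' (M.immersion u huU (by rw [h0, map_zero]))
    have e3 := (smul_eq_zero.mp e1).resolve_right e2
    linarith
  have e1 := hnz (lam u) (by rw [h.fr_lam u huU]; exact h.hp)
  have e2 := hnz (mu u) (by rw [h.fr_mu u huU]; exact h.hq)
  have e3 : c * (lam u - mu u) = 0 := by linarith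
  have hc0 : c = 0 := (mul_eq_zero.mp e3).resolve_right (sub_ne_zero.mpr (h.ne u huU))
  have ha0 : a = 0 := by rw [e1, hc0, zero_mul]
  have hX0 : X = 0 := by rw [hX u hu, ha0, hc0]; simp
  simp [ha0, hc0, hX0]

/-- the local structure of a Dupin hypersurface with two principal curvatures -/
structure Local (M : Hypersurface n) (lam mu : Dom n → ℝ) (p q : ℕ) (N : Set (Dom n)) : Prop where
  two : M.TwoPC lam mu p q
  isOpen : IsOpen N
  subset : N ⊆ M.U
  preconn : IsPreconnected N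
  nonempty : N.Nonempty
  pairs : ∀ u₁ ∈ N, ∀ u₂ ∈ N, ∃ u₃ ∈ N, M.K lam u₃ = M.K lam u₁ ∧ M.K mu u₃ = M.K mu u₂

theorem TwoPC.exists_local {lam mu : Dom n → ℝ} {p q : ℕ} (h : M.TwoPC lam mu p q)
    {u₀ : Dom n} (hu₀ : u₀ ∈ M.U) : ∃ N, u₀ ∈ N ∧ M.Local lam mu p q N := by
  obtain ⟨N, hN, hu₀N, hNU, hpre, hpairs⟩ := local_product M.isOpen (smooth_K h.smooth_lam)
    (smooth_K h.smooth_mu) (by
      intro u hu
      rw [h.ker_K hu, h.symm.ker_K hu]
      exact h.isCompl hu) hu₀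
  exact ⟨N, hu₀N, h, hN, hNU, hpre, ⟨u₀, hu₀N⟩, hpairs⟩

theorem Local.symm {lam mu : Dom n → ℝ} {p q : ℕ} {N : Set (Dom n)}
    (h : M.Local lam mu p q N) : M.Local mu lam q p N where
  two := h.two.symm
  isOpen := h.isOpen
  subset := h.subset
  preconn := h.preconn
  nonempty := h.nonempty
  pairs := by
    intro u₁ h₁ u₂ h₂
    obtain ⟨u₃, h₃, e1, e2⟩ := h.pairs u₂ h₂ u₁ h₁
    exact ⟨u₃, h₃, e2, e1⟩

/-- the span of the curvature spheres -/
noncomputable def spanK (M : Hypersurface n) (l : Dom n → ℝ) (N : Set (Dom n)) :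
    Submodule ℝ (LV n) := Submodule.span ℝ (M.K l '' N)

theorem Local.orth {lam mu : Dom n → ℝ} {p q : ℕ} {N : Set (Dom n)}
    (h : M.Local lam mu p q N) {z w : LV n} (hz : z ∈ M.spanK lam N) (hw : w ∈ M.spanK mu N) :
    form n z w = 0 := by
  have base : ∀ u₁ ∈ N, ∀ u₂ ∈ N, form n (M.K lam u₁) (M.K mu u₂) = 0 := by
    intro u₁ h₁ u₂ h₂
    obtain ⟨u₃, h₃, e1, e2⟩ := h.pairs u₁ h₁ u₂ h₂
    rw [← e1, ← e2]
    exact form_K_K (h.subset h₃)
  have step : ∀ u₁ ∈ N, form n (M.K lam u₁) w = 0 := by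
    intro u₁ h₁
    unfold spanK at hw
    induction hw using Submodule.span_induction with
    | mem y hy =>
      obtain ⟨u₂, h₂, rfl⟩ := hy
      exact base u₁ h₁ u₂ h₂
    | zero => rw [map_zero]
    | add a b _ _ ha hb => rw [map_add, ha, hb, add_zero]
    | smul c a _ ha => rw [map_smul, ha, smul_zero]
  unfold spanK at hz
  induction hz using Submodule.span_induction with
  | mem y hy =>
    obtain ⟨u₁, h₁, rfl⟩ := hy
    exact step u₁ h₁
  | zero => rw [map_zero]; rfl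
  | add a b _ _ ha hb => rw [map_add, LinearMap.add_apply, ha, hb, add_zero]
  | smul c a _ ha => rw [map_smul, LinearMap.smul_apply, ha, smul_zero]

theorem K_mem_spanK {l : Dom n → ℝ} {N : Set (Dom n)} {u : Dom n} (hu : u ∈ N) :
    M.K l u ∈ M.spanK l N := Submodule.subset_span ⟨u, hu, rfl⟩

theorem Local.sup_eq_top {lam mu : Dom n → ℝ} {p q : ℕ} {N : Set (Dom n)}
    (h : M.Local lam mu p q N) : M.spanK lam N ⊔ M.spanK mu N = ⊤ := by
  by_contra hne
  obtain ⟨φ, hφ0, hφ⟩ := Submodule.exists_le_ker_of_lt_top _ (lt_top_iff_ne_top.mpr hne)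
  have hinj : Function.Injective (form n) := by
    rw [← LinearMap.ker_eq_bot, LinearMap.ker_eq_bot']
    intro z hz
    exact form_nondeg fun w => by rw [hz]; rfl
  have hsurj : Function.Surjective (form n) :=
    (LinearMap.injective_iff_surjective_of_finrank_eq_finrank
      (Subspace.dual_finrank_eq (K := ℝ) (V := LV n)).symm).mp hinj
  obtain ⟨z, hz⟩ := hsurj φ
  apply hφ0
  rw [← hz]
  have : z = 0 := by
    apply h.two.orth_eq_zero h.isOpen h.subset h.nonempty
    · intro u hu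
      rw [hz]
      exact hφ (Submodule.mem_sup_left (K_mem_spanK hu))
    · intro u hu
      rw [hz]
      exact hφ (Submodule.mem_sup_right (K_mem_spanK hu))
  rw [this, map_zero]

/-- the vector `(1, 0, 0)` -/
def e₀ (n : ℕ) : LV n := (1, 0, 0)

/-- the vector `(0, 0, 1)` -/
def e₁ (n : ℕ) : LV n := (0, 0, 1)

theorem form_e₀ (z : LV n) : form n z (e₀ n) = -z.1 := by
  rw [form_apply]; simp [e₀]

theorem form_e₁ (z : LV n) : form n z (e₁ n) = -z.2.2 := by
  rw [form_apply]; simp [e₁]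

/-- The orthogonal splitting of the two distinguished vectors. -/
theorem Local.exists_split {lam mu : Dom n → ℝ} {p q : ℕ} {N : Set (Dom n)}
    (h : M.Local lam mu p q N) :
    ∃ f f' : LV n, f ∈ M.spanK lam N ∧ f' ∈ M.spanK lam N ∧
      e₁ n - f ∈ M.spanK mu N ∧ e₀ n - f' ∈ M.spanK mu N := by
  have h1 : e₁ n ∈ M.spanK lam N ⊔ M.spanK mu N := by rw [h.sup_eq_top]; trivial
  have h2 : e₀ n ∈ M.spanK lam N ⊔ M.spanK mu N := by rw [h.sup_eq_top]; trivial
  obtain ⟨f, hf, g, hg, hfg⟩ := Submodule.mem_sup.mp h1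
  obtain ⟨f', hf', g', hg', hfg'⟩ := Submodule.mem_sup.mp h2
  refine ⟨f, f', hf, hf', ?_, ?_⟩
  · rw [← hfg, add_sub_cancel_left]; exact hg
  · rw [← hfg', add_sub_cancel_left]; exact hg'

end Hypersurface

end Pool.Agent.Helper21.Dupin
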