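import Pool.Agent.Helper21.Dupin.Ids
import Pool.Agent.Helper21.Dupin.Chains

/-!
From finite type to polynomial identities for the Laplace operator, restriction to open pieces,
and the passage from the chain relations to polynomials.
-/

namespace Pool.Agent.Helper21.Dupin

open scoped ContDiff InnerProductSpace Polynomial

theorem aeval_eigen {V : Type*} [AddCommGroup V] [Module ℝ V] (T : V →ₗ[ℝ] V) (P : ℝ[X])
    {v : V} {a : ℝ} (h : T v = a • v) : Polynomial.aeval T P v = P.eval a • v := by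
  have hit : ∀ j, T^[j] v = (a ^ j) • v := by
    intro j
    induction j with
    | zero => simp
    | succ j ih => rw [Function.iterate_succ_apply', ih, map_smul, h, smul_smul, pow_succ]
  rw [aeval_apply_sum, Polynomial.eval_eq_sum_range, Finset.sum_smul]
  exact Finset.sum_congr rfl fun j _ => by rw [hit, smul_smul]

theorem aeval_intertwine {V W : Type*} [AddCommGroup V] [Module ℝ V] [AddCommGroup W] [Module ℝ W]
    (T : V →ₗ[ℝ] V) (S : W →ₗ[ℝ] W) (Θ : W →ₗ[ℝ] V) (h : ∀ x, T (Θ x) = Θ (S x)) (P : ℝ[X])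
    (x : W) : Polynomial.aeval T P (Θ x) = Θ (Polynomial.aeval S P x) := by
  have hit : ∀ j, T^[j] (Θ x) = Θ (S^[j] x) := by
    intro j
    induction j with
    | zero => rfl
    | succ j ih => rw [Function.iterate_succ_apply', ih, h, Function.iterate_succ_apply']
  rw [aeval_apply_sum, aeval_apply_sum, map_sum]
  exact Finset.sum_congr rfl fun j _ => by rw [hit, map_smul]

namespace Diffusion

variable {A : Type*} [CommRing A] [Algebra ℝ A] (D : Diffusion A)

theorem Γ_pow_w {w π : A} (h : D.Γ w w = w ^ 2 * π) (j : ℕ) :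
    D.Γ (w ^ j) w = (j : A) * w ^ (j + 1) * π := by
  induction j with
  | zero => simp [Γ_one]
  | succ j ih =>
    rw [pow_succ, D.Γ_mul, ih, h]; push_cast; ring

theorem Γ_pow_g {w g π : A} (h : D.Γ w g = -(w * π * g)) (j : ℕ) :
    D.Γ (w ^ j) g = -((j : A) * w ^ j * π * g) := by
  induction j with
  | zero => simp [Γ_one]
  | succ j ih =>
    rw [pow_succ, D.Γ_mul, ih, h]; push_cast; ring

theorem L_pow {w π ℓ : A} (h : D.Γ w w = w ^ 2 * π) (h2 : D.L w = w * ℓ) (j : ℕ) :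
    D.L (w ^ j) = w ^ j * ((j : A) * ℓ + (j : A) * ((j : A) - 1) * π) := by
  induction j with
  | zero => simp [L_one]
  | succ j ih =>
    rw [pow_succ, D.L_mul, ih, h2, D.Γ_pow_w h]; push_cast; ring

/-- The chain relation. -/
theorem L_chain {w g π ℓ η : A} (h : D.Γ w w = w ^ 2 * π) (h2 : D.L w = w * ℓ)
    (h3 : D.Γ w g = -(w * π * g)) (h4 : D.L g = g * η) (j : ℕ) :
    D.L (g * w ^ j) = g * w ^ j * ((j : A) * ℓ + (j : A) * ((j : A) - 3) * π + η) := by
  rw [D.L_mul, D.L_pow h h2, h4, D.symm g (w ^ j), D.Γ_pow_g h3]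
  ring

/-- multiplication of polynomials in `w` by `g` -/
noncomputable def Θ (w g : A) : ℝ[X] →ₗ[ℝ] A :=
  (LinearMap.mulLeft ℝ g) ∘ₗ (Polynomial.aeval w : ℝ[X] →ₐ[ℝ] A).toLinearMap

theorem Θ_apply (w g : A) (P : ℝ[X]) : Θ w g P = g * Polynomial.aeval w P := rfl

theorem L_Θ {w g : A} {α β γ : ℕ → ℝ}
    (h : ∀ j, D.L (g * w ^ j) = algebraMap ℝ A (α j) * (g * w ^ j)
      + algebraMap ℝ A (β j) * (g * w ^ (j + 1)) + algebraMap ℝ A (γ j) * (g * w ^ (j + 2)))
    (P : ℝ[X]) : D.L (Θ w g P) = Θ w g (tri α β γ P) := by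
  induction P using Polynomial.induction_on' with
  | add p q hp hq => rw [map_add, map_add, hp, hq, map_add, map_add]
  | monomial j a =>
    have h1 : (Polynomial.monomial j a : ℝ[X]) = a • Polynomial.X ^ j := by
      rw [Polynomial.smul_eq_C_mul, Polynomial.C_mul_X_pow_eq_monomial]
    rw [h1, map_smul, map_smul, map_smul, map_smul]
    congr 1
    rw [tri_X_pow, Θ_apply, Θ_apply]
    simp only [map_pow, Polynomial.aeval_X, map_add, map_mul, Polynomial.aeval_C]
    rw [h j]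
    ring

theorem aeval_L_Θ {w g : A} {α β γ : ℕ → ℝ}
    (h : ∀ j, D.L (g * w ^ j) = algebraMap ℝ A (α j) * (g * w ^ j)
      + algebraMap ℝ A (β j) * (g * w ^ (j + 1)) + algebraMap ℝ A (γ j) * (g * w ^ (j + 2)))
    (P Q : ℝ[X]) : Polynomial.aeval D.L P (Θ w g Q) = Θ w g (Polynomial.aeval (tri α β γ) P Q) :=
  aeval_intertwine D.L (tri α β γ) (Θ w g) (fun x => D.L_Θ h x) P Q

theorem aeval_L_algebraMap (P : ℝ[X]) (c : ℝ) :
    Polynomial.aeval D.L P (algebraMap ℝ A c) = algebraMap ℝ A (P.eval 0 * c) := by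
  rw [aeval_eigen D.L P (a := 0) (by rw [L_algebraMap, zero_smul])]
  rw [Algebra.smul_def, ← map_mul]

end Diffusion

namespace Hypersurface

variable {n : ℕ} (M : Hypersurface n)

/-- restriction to a connected open subset -/
def restr (N : Set (Dom n)) (hN : IsOpen N) (hc : IsConnected N) (hNU : N ⊆ M.U) :
    Hypersurface n where
  U := N
  x := M.x
  ν := M.ν
  isOpen := hN
  isConnected := hc
  smooth_x := M.smooth_x.mono hNU
  smooth_ν := M.smooth_ν.mono hNU
  immersion := fun u hu => M.immersion u (hNU hu)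
  norm_x := fun u hu => M.norm_x u (hNU hu)
  norm_ν := fun u hu => M.norm_ν u (hNU hu)
  inner_x_ν := fun u hu => M.inner_x_ν u (hNU hu)
  inner_dx_ν := fun u hu => M.inner_dx_ν u (hNU hu)

/-- Every coordinate function satisfies `P(Δ) φ = const`. -/
def PolyType (P : ℝ[X]) : Prop :=
  ∃ c : Amb n, ∀ G : Amb n, Polynomial.aeval M.lap P (M.xS G) = algebraMap ℝ M.Sm ⟪G, c⟫_ℝ

/-- the decomposition defining finite type, without the condition of non-constancy -/
def Decomp (k : ℕ) (c : Amb n) (X : Fin k → Dom n → Amb n) (L : Fin k → ℝ) : Prop :=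
  (∀ i, ContDiffOn ℝ ∞ (X i) M.U) ∧
  (∀ i, ∀ u ∈ M.U, laplace M.x (X i) u = L i • X i u) ∧
  ∀ u ∈ M.U, M.x u = c + ∑ i, X i u

theorem Decomp.restr {M : Hypersurface n} {k : ℕ} {c : Amb n} {X : Fin k → Dom n → Amb n}
    {L : Fin k → ℝ} (h : M.Decomp k c X L) (N : Set (Dom n)) (hN : IsOpen N) (hc : IsConnected N)
    (hNU : N ⊆ M.U) : (M.restr N hN hc hNU).Decomp k c X L :=
  ⟨fun i => (h.1 i).mono hNU, fun i u hu => h.2.1 i u (hNU hu), fun u hu => h.2.2 u (hNU hu)⟩

theorem Decomp.polyType {M : Hypersurface n} {k : ℕ} {c : Amb n} {X : Fin k → Dom n → Amb n}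
    {L : Fin k → ℝ} (h : M.Decomp k c X L) {S : Finset ℝ} (hS : ∀ i, L i ∈ S) :
    M.PolyType (∏ s ∈ S, (Polynomial.X - Polynomial.C s)) := by
  set P : ℝ[X] := ∏ s ∈ S, (Polynomial.X - Polynomial.C s) with hP
  obtain ⟨h1, h2, h3⟩ := h
  refine ⟨P.eval 0 • c, fun G => ?_⟩
  let φ : Fin k → M.Sm := fun i =>
    M.fn (fun u => innerSL ℝ G (X i u)) ((innerSL ℝ G).contDiff.comp_contDiffOn (h1 i))
  have hφ : ∀ i, M.lap (φ i) = L i • φ i := by
    intro i
    simp only [φ]
    rw [M.lap_fn]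
    apply Subtype.ext
    funext u
    rw [M.fn_apply, M.laplace_clm (innerSL ℝ G) (h1 i) u.2, h2 i u u.2, map_smul]
    rfl
  have hsum : M.xS G = algebraMap ℝ M.Sm ⟪G, c⟫_ℝ + ∑ i, φ i := by
    apply Subtype.ext
    funext u
    have e1 : (algebraMap ℝ M.Sm ⟪G, c⟫_ℝ + ∑ i, φ i).1 u = ⟪G, c⟫_ℝ + ∑ i, (φ i).1 u := by
      have : (algebraMap ℝ M.Sm ⟪G, c⟫_ℝ + ∑ i, φ i).1 u
        = ⟪G, c⟫_ℝ + (∑ i, φ i).1 u := rfl
      rw [this]
      congr 1
      have h4 : (∑ i, φ i).1 = ∑ i, (φ i).1 := by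
        exact map_sum M.Sm.val φ Finset.univ
      rw [h4, Finset.sum_apply]
    rw [e1]
    have e2 : (M.xS G).1 u = ⟪G, M.x u⟫_ℝ := rfl
    rw [e2, h3 u u.2, inner_add_right, inner_sum]
    rfl
  have hev : ∀ i, Polynomial.aeval M.lap P (φ i) = 0 := by
    intro i
    rw [aeval_eigen M.lap P (hφ i)]
    have : P.eval (L i) = 0 := by
      rw [hP, Polynomial.eval_prod]
      exact Finset.prod_eq_zero (hS i) (by simp)
    rw [this, zero_smul]
  rw [hsum, map_add, map_sum, Finset.sum_eq_zero fun i _ => hev i, add_zero]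
  have := M.diff.aeval_L_algebraMap P ⟪G, c⟫_ℝ
  rw [inner_smul_right]
  exact this

/-- The gradient product is non-negative. -/
theorem gradInner_self_nonneg (f : Dom n → ℝ) {u : Dom n} (hu : u ∈ M.U) :
    0 ≤ M.gradInner f f u := by
  let v : Dom n := fun i => ∑ j, (M.G u)⁻¹ i j * pd j f u
  have h1 : ∀ i, ⟪pd i M.x u, fderiv ℝ M.x u v⟫_ℝ = pd i f u := by
    intro i
    rw [← M.G_mulVec u v i]
    simp only [v, Finset.mul_sum]
    rw [Finset.sum_comm]
    have h2 : ∀ j, ∑ k, M.G u i k * ((M.G u)⁻¹ k j * pd j f u) = if i = j then pd j f u else 0 := by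
      intro j
      have h3 := M.Ginv_mul hu j i
      have h4 : ∑ k, M.G u i k * ((M.G u)⁻¹ k j * pd j f u)
          = (∑ k, (M.G u)⁻¹ j k * M.G u k i) * pd j f u := by
        rw [Finset.sum_mul]
        refine Finset.sum_congr rfl fun k _ => ?_
        rw [M.Ginv_symm u j k, M.G_symm u k i]; ring
      rw [h4, h3]
      by_cases hij : i = j
      · subst hij; simp
      · rw [if_neg hij, if_neg (fun h => hij h.symm), zero_mul]
    simp [h2]
  have h5 : M.gradInner f f u = ⟪fderiv ℝ M.x u v, fderiv ℝ M.x u v⟫_ℝ := by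
    nth_rw 1 [fderiv_eq_sum M.x u v]
    rw [sum_inner]
    simp only [real_inner_smul_left, h1]
    unfold gradInner
    refine Finset.sum_congr rfl fun i _ => ?_
    simp only [v, Finset.sum_mul]
    exact Finset.sum_congr rfl fun j _ => by ring
  rw [h5]
  exact real_inner_self_nonneg

end Hypersurface

end Pool.Agent.Helper21.Dupin
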