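import Pool.Agent.Helper21.Dupin.Calc

/-!
The induced metric: non-degeneracy, smoothness, the projection formula, and the formula
`Δ x = -n x + H ν`.
-/

namespace Pool.Agent.Helper21.Dupin

open scoped ContDiff InnerProductSpace

namespace Hypersurface

variable {n : ℕ} (M : Hypersurface n)

/-- metric -/
noncomputable abbrev G (u : Dom n) : Matrix (Fin n) (Fin n) ℝ := metric M.x u

theorem G_symm (u : Dom n) (i j : Fin n) : M.G u i j = M.G u j i := by
  simp only [G, metric, Matrix.of_apply]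
  exact real_inner_comm _ _

theorem G_isSymm (u : Dom n) : (M.G u).IsSymm := by
  ext i j
  exact M.G_symm u j i

theorem Ginv_symm (u : Dom n) (i j : Fin n) : (M.G u)⁻¹ i j = (M.G u)⁻¹ j i := by
  have h : ((M.G u)⁻¹).IsSymm := by
    unfold Matrix.IsSymm
    rw [Matrix.transpose_nonsing_inv, M.G_isSymm u]
  exact (h.apply i j).symm

theorem G_mulVec (u v : Dom n) (i : Fin n) :
    ∑ j, M.G u i j * v j = ⟪pd i M.x u, fderiv ℝ M.x u v⟫_ℝ := by
  rw [fderiv_eq_sum M.x u v, inner_sum]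
  refine Finset.sum_congr rfl fun j _ => ?_
  rw [real_inner_smul_right]
  simp only [G, metric, Matrix.of_apply]
  ring

theorem det_ne {u : Dom n} (hu : u ∈ M.U) : (M.G u).det ≠ 0 := by
  intro h0
  obtain ⟨v, hv, hv0⟩ := Matrix.exists_mulVec_eq_zero_iff.mpr h0
  apply hv
  have h1 : ⟪fderiv ℝ M.x u v, fderiv ℝ M.x u v⟫_ℝ = 0 := by
    have h2 : ⟪fderiv ℝ M.x u v, fderiv ℝ M.x u v⟫_ℝ
        = ∑ i, v i * ⟪pd i M.x u, fderiv ℝ M.x u v⟫_ℝ := by
      nth_rw 1 [fderiv_eq_sum M.x u v]
      rw [sum_inner]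
      refine Finset.sum_congr rfl fun j _ => ?_
      rw [real_inner_smul_left]
    rw [h2]
    apply Finset.sum_eq_zero
    intro i _
    rw [← M.G_mulVec u v i]
    have := congrFun hv0 i
    simp only [Matrix.mulVec, dotProduct, Pi.zero_apply] at this
    rw [this, mul_zero]
  have h3 : fderiv ℝ M.x u v = 0 := inner_self_eq_zero.mp h1
  exact M.immersion u hu (by rw [h3, map_zero])

theorem Ginv_mul {u : Dom n} (hu : u ∈ M.U) (i k : Fin n) :
    ∑ j, (M.G u)⁻¹ i j * M.G u j k = if i = k then 1 else 0 := by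
  have h := Matrix.nonsing_inv_mul (M.G u) ((M.G u).isUnit_iff_isUnit_det.mp
    ((Matrix.isUnit_iff_isUnit_det _).mpr (isUnit_iff_ne_zero.mpr (M.det_ne hu))))
  have := congrFun (congrFun h i) k
  simpa [Matrix.mul_apply, Matrix.one_apply] using this

/-- raising an index -/
theorem raise {u : Dom n} (hu : u ∈ M.U) (v : Dom n) (i : Fin n) :
    ∑ j, (M.G u)⁻¹ i j * ⟪pd j M.x u, fderiv ℝ M.x u v⟫_ℝ = v i := by
  simp_rw [← M.G_mulVec u v, Finset.mul_sum]
  rw [Finset.sum_comm]
  simp_rw [← mul_assoc, ← Finset.sum_mul, M.Ginv_mul hu i]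
  simp

/-- A vector orthogonal to the tangent space, to `x` and to `ν` vanishes. -/
theorem eq_zero_of_orth {u : Dom n} (hu : u ∈ M.U) {r : Amb n}
    (h1 : ∀ i, ⟪r, pd i M.x u⟫_ℝ = 0) (h2 : ⟪r, M.x u⟫_ℝ = 0) (h3 : ⟪r, M.ν u⟫_ℝ = 0) : r = 0 := by
  let Φ : (Dom n × ℝ × ℝ) →ₗ[ℝ] Amb n :=
    { toFun := fun p => fderiv ℝ M.x u p.1 + p.2.1 • M.x u + p.2.2 • M.ν u
      map_add' := by
        intro p q
        simp only [Prod.fst_add, Prod.snd_add, map_add, add_smul]
        abel
      map_smul' := by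
        intro c p
        simp only [Prod.smul_fst, Prod.smul_snd, map_smul, RingHom.id_apply, smul_add, smul_smul,
          smul_eq_mul] }
  have hxx : ⟪M.x u, M.x u⟫_ℝ = 1 := by rw [real_inner_self_eq_norm_sq, M.norm_x u hu]; norm_num
  have hnn : ⟪M.ν u, M.ν u⟫_ℝ = 1 := by rw [real_inner_self_eq_norm_sq, M.norm_ν u hu]; norm_num
  have hdx : ∀ v, ⟪fderiv ℝ M.x u v, M.x u⟫_ℝ = 0 := by
    intro v
    have hc : fderiv ℝ (fun w => ⟪M.x w, M.x w⟫_ℝ) u v = 0 := by
      have : (fun w => ⟪M.x w, M.x w⟫_ℝ) =ᶠ[nhds u] fun _ => (1 : ℝ) := by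
        apply Filter.eventuallyEq_of_mem (M.isOpen.mem_nhds hu)
        intro w hw
        simp only
        rw [real_inner_self_eq_norm_sq, M.norm_x w hw]; norm_num
      rw [this.fderiv_eq]; simp
    rw [fderiv_inner_apply ℝ (diffAt M.isOpen M.smooth_x hu) (diffAt M.isOpen M.smooth_x hu)] at hc
    rw [real_inner_comm] at hc
    linarith
  have hinj : Function.Injective Φ := by
    rw [← LinearMap.ker_eq_bot, LinearMap.ker_eq_bot']
    rintro ⟨v, a, b⟩ h
    have h' : fderiv ℝ M.x u v + a • M.x u + b • M.ν u = 0 := h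
    have e1 : a = 0 := by
      have := congrArg (fun z => ⟪z, M.x u⟫_ℝ) h'
      simp only [inner_add_left, real_inner_smul_left, hdx, hxx, inner_zero_left] at this
      rw [real_inner_comm, M.inner_x_ν u hu] at this
      linarith
    have e2 : b = 0 := by
      have := congrArg (fun z => ⟪z, M.ν u⟫_ℝ) h'
      simp only [inner_add_left, real_inner_smul_left, M.inner_dx_ν u hu, hnn, M.inner_x_ν u hu,
        inner_zero_left] at this
      linarith
    subst e1; subst e2
    have e3 : v = 0 := by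
      apply M.immersion u hu
      simpa using h'
    simp [e3]
  have hsurj : Function.Surjective Φ := by
    rw [← LinearMap.injective_iff_surjective_of_finrank_eq_finrank]
    · exact hinj
    · simp [Module.finrank_prod]
  obtain ⟨⟨v, a, b⟩, hv⟩ := hsurj r
  have hv' : fderiv ℝ M.x u v + a • M.x u + b • M.ν u = r := hv
  rw [← inner_self_eq_zero (𝕜 := ℝ)]
  nth_rw 2 [← hv']
  rw [inner_add_right, inner_add_right, inner_smul_right, inner_smul_right, h2, h3,
    fderiv_eq_sum M.x u v, inner_sum]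
  simp [inner_smul_right, h1]

end Hypersurface

end Pool.Agent.Helper21.Dupin
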