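import Pool.Agent.Helper21.Dupin.Lie

/-!
The differential identities satisfied by the two principal curvatures of a Dupin hypersurface.
-/

namespace Pool.Agent.Helper21.Dupin

open scoped ContDiff InnerProductSpace

namespace Diffusion

variable {A : Type*} [CommRing A] [Algebra ℝ A] (D : Diffusion A)

theorem identities {lam mu w y nn pp qq s k ep : A} (hmu : mu = lam - w) (hy : y * w = 1)
    (hn : nn = pp + qq)
    (Hyy : D.Γ y y = -k + s * s + k * k - (y + s) ^ 2 - (mu * y + k) ^ 2)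
    (Hyt : D.Γ y (lam * y) = s + s * ep - k * s - (y + s) * (lam * y + ep)
      - (mu * y + k) * (lam * mu * y - s))
    (Htt : D.Γ (lam * y) (lam * y) = ep + ep * ep + s * s - (lam * y + ep) ^ 2
      - (lam * mu * y - s) ^ 2)
    (Ly : D.L y = nn * (-y - s) - (pp * lam + qq * mu) * (mu * y + k))
    (Lt : D.L (lam * y) = nn * (-(lam * y) - ep) - (pp * lam + qq * mu) * (lam * mu * y - s)) :
    D.Γ y lam = -(ep - 2 * s * lam - k * lam ^ 2) ∧
    D.Γ lam lam = w ^ 2 * (ep - 2 * s * lam - k * lam ^ 2) ∧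
    D.L lam = -(qq * w ^ 2 * (s + k * lam)) - (nn - 2) * w * (ep - 2 * s * lam - k * lam ^ 2) := by
  subst hmu
  subst hn
  have e1 : lam * D.Γ y y + y * D.Γ y lam = D.Γ y (lam * y) := by
    rw [D.Γ_mul_right]
  rw [Hyy, Hyt] at e1
  have r1 : D.Γ y lam = -(ep - 2 * s * lam - k * lam ^ 2) := by
    linear_combination (-k * lam * w + k * lam ^ 2 + 2 * lam * s - s * w - ep - D.Γ y lam) * hy
      + w * e1
  have e2 : lam * D.Γ y (lam * y) + y * (lam * D.Γ y lam + y * D.Γ lam lam)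
      = D.Γ (lam * y) (lam * y) := by
    rw [D.Γ_mul lam y (lam * y), D.Γ_mul_right lam y lam, D.symm lam y]
  rw [Hyt, Htt, r1] at e2
  have r2 : D.Γ lam lam = w ^ 2 * (ep - 2 * s * lam - k * lam ^ 2) := by
    linear_combination (-D.Γ lam lam - D.Γ lam lam * w * y - k * lam ^ 2 * w ^ 2
      - lam * s * w ^ 2) * hy + w ^ 2 * e2
  have e3 : lam * D.L y + y * D.L lam + 2 * D.Γ lam y = D.L (lam * y) := by
    rw [D.L_mul]
  rw [D.symm lam y, r1, Ly, Lt] at e3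
  refine ⟨r1, r2, ?_⟩
  linear_combination (-D.L lam) * hy + w * e3

end Diffusion

namespace Hypersurface

variable {n : ℕ} (M : Hypersurface n)

/-- the function `⟨G, x⟩` -/
noncomputable def xS (G : Amb n) : M.Sm :=
  M.fn (fun u => innerSL ℝ G (M.x u)) ((innerSL ℝ G).contDiff.comp_contDiffOn M.smooth_x)

/-- the function `⟨G, ν⟩` -/
noncomputable def νS (G : Amb n) : M.Sm :=
  M.fn (fun u => innerSL ℝ G (M.ν u)) ((innerSL ℝ G).contDiff.comp_contDiffOn M.smooth_ν)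

theorem lap_xS (G : Amb n) (HS : M.Sm) (hH : ∀ u : M.U, HS.1 u = M.H u) :
    M.lap (M.xS G) = -(n : ℝ) • M.xS G + HS * M.νS G := by
  unfold xS
  rw [M.lap_fn]
  apply Subtype.ext
  funext u
  have h1 := M.laplace_clm (innerSL ℝ G) M.smooth_x u.2
  rw [M.laplace_x u.2] at h1
  rw [M.fn_apply, h1]
  have h2 : (-(n : ℝ) • M.fn (fun u => innerSL ℝ G (M.x u))
      ((innerSL ℝ G).contDiff.comp_contDiffOn M.smooth_x) + HS * M.νS G).1 u
      = -(n : ℝ) * innerSL ℝ G (M.x u) + HS.1 u * innerSL ℝ G (M.ν u) := rfl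
  rw [h2, hH, map_add, map_smul, map_smul, smul_eq_mul, smul_eq_mul]

theorem car_xS (G G' : Amb n) :
    M.car (M.xS G) (M.xS G')
      = algebraMap ℝ M.Sm ⟪G, G'⟫_ℝ - M.xS G * M.xS G' - M.νS G * M.νS G' := by
  unfold xS
  rw [M.car_fn]
  apply Subtype.ext
  funext u
  rw [M.fn_apply]
  have h2 : (algebraMap ℝ M.Sm ⟪G, G'⟫_ℝ - M.fn (fun u => innerSL ℝ G (M.x u))
      ((innerSL ℝ G).contDiff.comp_contDiffOn M.smooth_x) * M.fn (fun u => innerSL ℝ G' (M.x u))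
      ((innerSL ℝ G').contDiff.comp_contDiffOn M.smooth_x) - M.νS G * M.νS G').1 u
      = ⟪G, G'⟫_ℝ - ⟪G, M.x u⟫_ℝ * ⟪G', M.x u⟫_ℝ - ⟪G, M.ν u⟫_ℝ * ⟪G', M.ν u⟫_ℝ := rfl
  rw [h2, ← M.projection u.2]
  unfold gradInner
  refine Finset.sum_congr rfl fun i _ => Finset.sum_congr rfl fun j _ => ?_
  have e1 : ∀ (E : Amb n) (a : Fin n), pd a (fun v => innerSL ℝ E (M.x v)) u = ⟪E, pd a M.x u⟫_ℝ := by
    intro E a
    rw [pd_clm M.isOpen (innerSL ℝ E) M.smooth_x u.2]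
    rfl
  rw [e1, e1]

/-- `⟨g, Y₁⟩` -/
noncomputable def aS (g : LV n) : M.Sm := M.xS g.2.1 - algebraMap ℝ M.Sm g.1

/-- `⟨g, Y₂⟩` -/
noncomputable def bS (g : LV n) : M.Sm := M.νS g.2.1 - algebraMap ℝ M.Sm g.2.2

theorem aS_apply (g : LV n) (u : M.U) : (M.aS g).1 u = form n g (M.Y₁ u) := by
  rw [form_apply]
  have : (M.aS g).1 u = ⟪g.2.1, M.x u⟫_ℝ - g.1 := rfl
  rw [this]; simp [Y₁]

theorem bS_apply (g : LV n) (u : M.U) : (M.bS g).1 u = form n g (M.Y₂ u) := by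
  rw [form_apply]
  have : (M.bS g).1 u = ⟪g.2.1, M.ν u⟫_ℝ - g.2.2 := rfl
  rw [this]; simp [Y₂]

theorem lap_aS (g : LV n) (HS : M.Sm) (hH : ∀ u : M.U, HS.1 u = M.H u) :
    M.lap (M.aS g) = -(n : ℝ) • (M.aS g + algebraMap ℝ M.Sm g.1)
      + HS * (M.bS g + algebraMap ℝ M.Sm g.2.2) := by
  have h1 : M.lap (M.aS g) = M.lap (M.xS g.2.1) - M.lap (algebraMap ℝ M.Sm g.1) := by
    unfold aS; rw [map_sub]
  have h2 : M.lap (algebraMap ℝ M.Sm g.1) = 0 := M.diff.L_algebraMap g.1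
  rw [h1, h2, sub_zero, M.lap_xS _ HS hH]
  unfold aS bS
  rw [sub_add_cancel, sub_add_cancel]

theorem car_aS (g h : LV n) :
    M.car (M.aS g) (M.aS h) = algebraMap ℝ M.Sm (form n g h + g.1 * h.1 + g.2.2 * h.2.2)
      - (M.aS g + algebraMap ℝ M.Sm g.1) * (M.aS h + algebraMap ℝ M.Sm h.1)
      - (M.bS g + algebraMap ℝ M.Sm g.2.2) * (M.bS h + algebraMap ℝ M.Sm h.2.2) := by
  have h1 : M.car (M.aS g) (M.aS h) = M.car (M.xS g.2.1) (M.xS h.2.1) := by
    unfold aS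
    have e1 : ∀ (c : ℝ) (z : M.Sm), M.car (algebraMap ℝ M.Sm c) z = 0 := M.diff.Γ_algebraMap
    have e2 : ∀ (c : ℝ) (z : M.Sm), M.car z (algebraMap ℝ M.Sm c) = 0 := by
      intro c z
      have : M.car z (algebraMap ℝ M.Sm c) = M.car (algebraMap ℝ M.Sm c) z := M.diff.symm _ _
      rw [this, e1]
    rw [map_sub, e2, sub_zero, map_sub]
    show M.car (M.xS g.2.1) (M.xS h.2.1) - M.car (algebraMap ℝ M.Sm g.1) (M.xS h.2.1) = _
    rw [e1, sub_zero]
  rw [h1, M.car_xS]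
  have h3 : form n g h + g.1 * h.1 + g.2.2 * h.2.2 = ⟪g.2.1, h.2.1⟫_ℝ := by
    rw [form_apply]; ring
  rw [h3]
  unfold aS bS
  rw [sub_add_cancel, sub_add_cancel, sub_add_cancel, sub_add_cancel]

end Hypersurface

end Pool.Agent.Helper21.Dupin
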