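import Pool.Agent.Helper21.Dupin.Link

/-!
The case where one of the two principal curvatures is constant.
-/

namespace Pool.Agent.Helper21.Dupin

open scoped ContDiff InnerProductSpace Polynomial

namespace Diffusion

variable {A : Type*} [CommRing A] [Algebra ℝ A] (D : Diffusion A)

/-- the relations satisfied by `w = lam - μ₀` -/
structure WRel (w : A) (p q : ℕ) (μ₀ κ : ℝ) : Prop where
  Γww : D.Γ w w = w ^ 2 * (-(1 + algebraMap ℝ A μ₀ ^ 2) - 2 * algebraMap ℝ A μ₀ * w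
    + algebraMap ℝ A κ * w ^ 2)
  Lw : D.L w = w * ((q : A) * w * (algebraMap ℝ A κ * w - algebraMap ℝ A μ₀)
    - (((p + q : ℕ) : A) - 2) * (-(1 + algebraMap ℝ A μ₀ ^ 2) - 2 * algebraMap ℝ A μ₀ * w
    + algebraMap ℝ A κ * w ^ 2))

variable {D}

theorem WRel.chain_y {w y : A} {p q : ℕ} {μ₀ κ : ℝ} (h : D.WRel w p q μ₀ κ) (hy : y * w = 1)
    (j : ℕ) : D.L (y * w ^ j) = algebraMap ℝ A (αc μ₀ p q j) * (y * w ^ j)
      + algebraMap ℝ A (βc μ₀ p q j) * (y * w ^ (j + 1))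
      + algebraMap ℝ A (γy κ p j) * (y * w ^ (j + 2)) := by
  have h3 : D.Γ w y = -(w * (-(1 + algebraMap ℝ A μ₀ ^ 2) - 2 * algebraMap ℝ A μ₀ * w
    + algebraMap ℝ A κ * w ^ 2) * y) := by
    rw [D.symm, D.Γ_inv hy, h.Γww]
    have e1 : y ^ 2 * (w ^ 2 * (-(1 + algebraMap ℝ A μ₀ ^ 2) - 2 * algebraMap ℝ A μ₀ * w
      + algebraMap ℝ A κ * w ^ 2)) = (y * w) * (w * (-(1 + algebraMap ℝ A μ₀ ^ 2)
      - 2 * algebraMap ℝ A μ₀ * w + algebraMap ℝ A κ * w ^ 2) * y) := by ring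
    rw [e1, hy, one_mul]
  have h4 : D.L y = y * (((p + q : ℕ) : A) * (-(1 + algebraMap ℝ A μ₀ ^ 2)
      - 2 * algebraMap ℝ A μ₀ * w + algebraMap ℝ A κ * w ^ 2)
      - (q : A) * w * (algebraMap ℝ A κ * w - algebraMap ℝ A μ₀)) := by
    rw [D.L_inv hy, h.Γww, h.Lw]
    have e1 : y ^ 3 * w ^ 2 = y := by
      calc y ^ 3 * w ^ 2 = (y * w) ^ 2 * y := by ring
        _ = y := by rw [hy]; ring
    have e2 : y ^ 2 * w = y := by
      calc y ^ 2 * w = (y * w) * y := by ring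
        _ = y := by rw [hy, one_mul]
    linear_combination (2 * (-(1 + algebraMap ℝ A μ₀ ^ 2) - 2 * algebraMap ℝ A μ₀ * w
      + algebraMap ℝ A κ * w ^ 2)) * e1 - ((q : A) * w * (algebraMap ℝ A κ * w - algebraMap ℝ A μ₀)
      - (((p + q : ℕ) : A) - 2) * (-(1 + algebraMap ℝ A μ₀ ^ 2) - 2 * algebraMap ℝ A μ₀ * w
      + algebraMap ℝ A κ * w ^ 2)) * e2
  rw [D.L_chain h.Γww h.Lw h3 h4 j]
  simp only [αc, βc, γy, map_mul, map_neg, map_add, map_sub, map_pow, map_one, map_natCast,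
    map_ofNat]
  push_cast
  ring

theorem WRel.chain_φ {w φ : A} {p q : ℕ} {μ₀ κ : ℝ} (h : D.WRel w p q μ₀ κ)
    (h3 : D.Γ w φ = -(w * (-(1 + algebraMap ℝ A μ₀ ^ 2) - 2 * algebraMap ℝ A μ₀ * w
    + algebraMap ℝ A κ * w ^ 2) * φ))
    (h4 : D.L φ = φ * -(((p + q : ℕ) : A) + (w + algebraMap ℝ A μ₀) * ((p : A) * w
      + ((p + q : ℕ) : A) * algebraMap ℝ A μ₀)))
    (j : ℕ) : D.L (φ * w ^ j) = algebraMap ℝ A (αc μ₀ p q j) * (φ * w ^ j)
      + algebraMap ℝ A (βc μ₀ p q j) * (φ * w ^ (j + 1))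
      + algebraMap ℝ A (γφ κ p j) * (φ * w ^ (j + 2)) := by
  rw [D.L_chain h.Γww h.Lw h3 h4 j]
  simp only [αc, βc, γφ, map_mul, map_neg, map_add, map_sub, map_pow, map_one, map_natCast,
    map_ofNat]
  push_cast
  ring

end Diffusion

namespace Hypersurface

variable {n : ℕ} {M : Hypersurface n} {lam mu : Dom n → ℝ} {p q : ℕ}

theorem algebraMap_apply (r : ℝ) (u : M.U) : (algebraMap ℝ M.Sm r).1 u = r := rfl

theorem algebraMap_injective {r s : ℝ} (h : algebraMap ℝ M.Sm r = algebraMap ℝ M.Sm s) : r = s := by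
  obtain ⟨u, hu⟩ := M.isConnected.nonempty
  have := congrArg (fun f : M.Sm => f.1 ⟨u, hu⟩) h
  exact this

/-- scalar products of the complementary parts -/
theorem Local.complement (hl : M.Local lam mu p q M.U) {f f' : LV n} (hf : f ∈ M.spanK lam M.U)
    (hf' : f' ∈ M.spanK lam M.U) (hf2 : e₁ n - f ∈ M.spanK mu M.U)
    (hf2' : e₀ n - f' ∈ M.spanK mu M.U) :
    form n (e₁ n - f) (e₀ n - f') = -form n f f' ∧
    form n (e₁ n - f) (e₁ n - f) = -1 - form n f f ∧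
    form n (e₀ n - f') (e₀ n - f') = -1 - form n f' f' := by
  have a1 := hl.orth hf hf2'
  have a2 := hl.orth hf hf2
  have a3 := hl.orth hf' hf2'
  have a4 := hl.orth hf' hf2
  have b1 : form n (e₁ n) (e₀ n) = 0 := by rw [form_e₀]; simp [e₁]
  have b2 : form n (e₁ n) (e₁ n) = -1 := by rw [form_e₁]; simp [e₁]
  have b3 : form n (e₀ n) (e₀ n) = -1 := by rw [form_e₀]; simp [e₀]
  rw [map_sub] at a1 a2 a3 a4
  have c1 := form_symm f (e₀ n)
  have c2 := form_symm f (e₁ n)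
  have c3 := form_symm f' (e₀ n)
  have c4 := form_symm f' (e₁ n)
  have c5 := form_symm f f'
  simp only [map_sub, LinearMap.sub_apply]
  refine ⟨?_, ?_, ?_⟩ <;> linarith

/-- the constants when `mu = μ₀` is constant -/
theorem Local.const_rel (hl : M.Local lam mu p q M.U) {μ₀ : ℝ} (hmu : ∀ u ∈ M.U, mu u = μ₀)
    {f f' : LV n} (hf : f ∈ M.spanK lam M.U)
    (hf' : f' ∈ M.spanK lam M.U) (hf2 : e₁ n - f ∈ M.spanK mu M.U)
    (hf2' : e₀ n - f' ∈ M.spanK mu M.U) :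
    form n f f' = (1 + form n f f) * μ₀ ∧ form n f' f' = -1 + (1 + form n f f) * μ₀ ^ 2 := by
  obtain ⟨g1, g2, g3⟩ := hl.complement hf hf' hf2 hf2'
  have ids := hl.symm.ids hf2 hf2' (by rw [sub_sub_cancel]; exact hf) (by rw [sub_sub_cancel]; exact hf')
  rw [g1, g2, g3] at ids
  set muS := M.fn mu hl.symm.two.smooth_lam with hmuS
  set lamS := M.fn lam hl.symm.two.smooth_mu with hlamS
  have hmuc : muS = algebraMap ℝ M.Sm μ₀ := by
    apply Subtype.ext
    funext u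
    exact hmu u u.2
  have h0 := ids.Γll
  have h1 := ids.Ll
  have h2 := ids.hy
  have hz : M.diff.Γ muS muS = 0 := by
    rw [hmuc]; exact M.diff.Γ_algebraMap _ _
  have hz2 : M.diff.L muS = 0 := by
    rw [hmuc]; exact M.diff.L_algebraMap _
  rw [hz] at h0
  rw [hz2] at h1
  set yy := M.fn _ hl.symm.two.smooth_inv with hyyd
  -- first relation
  have r1 : algebraMap ℝ M.Sm (-1 - form n f' f')
      - 2 * algebraMap ℝ M.Sm (-form n f f') * muS
      - algebraMap ℝ M.Sm (-(-1 - form n f f)) * muS ^ 2 = 0 := by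
    have e1 := congrArg (fun z => yy ^ 2 * z) h0
    simp only [mul_zero] at e1
    have e2 : yy ^ 2 * ((muS - lamS) ^ 2 * (algebraMap ℝ M.Sm (-1 - form n f' f')
      - 2 * algebraMap ℝ M.Sm (-form n f f') * muS
      - algebraMap ℝ M.Sm (-(-1 - form n f f)) * muS ^ 2))
      = (yy * (muS - lamS)) ^ 2 * (algebraMap ℝ M.Sm (-1 - form n f' f')
      - 2 * algebraMap ℝ M.Sm (-form n f f') * muS
      - algebraMap ℝ M.Sm (-(-1 - form n f f)) * muS ^ 2) := by ring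
    rw [e2, h2, one_pow, one_mul] at e1
    exact e1.symm
  rw [r1] at h1
  have r2 : algebraMap ℝ M.Sm (-form n f f') + algebraMap ℝ M.Sm (-(-1 - form n f f)) * muS = 0 := by
    set R := algebraMap ℝ M.Sm (-form n f f') + algebraMap ℝ M.Sm (-(-1 - form n f f)) * muS
      with hR
    have e1 : (p : M.Sm) * R = 0 := by
      linear_combination (-(yy * (muS - lamS) + 1) * ((p : M.Sm) * R)) * h2 + yy ^ 2 * h1
    have e3 : (p : M.Sm) = algebraMap ℝ M.Sm p := (map_natCast _ _).symm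
    have e4 : algebraMap ℝ M.Sm (p : ℝ)⁻¹ * (p : M.Sm) = 1 := by
      rw [e3, ← map_mul, inv_mul_cancel₀ (by have := hl.two.hp; positivity), map_one]
    have e5 := congrArg (fun z => algebraMap ℝ M.Sm (p : ℝ)⁻¹ * z) e1
    simp only [mul_zero] at e5
    rw [← mul_assoc, e4, one_mul] at e5
    exact e5
  rw [hmuc] at r1 r2
  have s2 : -form n f f' + (-(-1 - form n f f)) * μ₀ = 0 := by
    apply algebraMap_injective (M := M)
    rw [map_add, map_mul, map_zero]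
    exact r2
  have s1 : (-1 - form n f' f') - 2 * (-form n f f') * μ₀ - (-(-1 - form n f f)) * μ₀ ^ 2 = 0 := by
    apply algebraMap_injective (M := M)
    rw [map_sub, map_sub, map_mul, map_mul, map_mul, map_pow, map_zero, map_ofNat]
    exact r1
  refine ⟨by linarith, ?_⟩
  have s3 : form n f f' = (1 + form n f f) * μ₀ := by linarith
  rw [s3] at s1
  linarith

/-- the relations for `w = lam - μ₀` -/
theorem Local.wrel (hl : M.Local lam mu p q M.U) {μ₀ : ℝ} (hmu : ∀ u ∈ M.U, mu u = μ₀)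
    {f f' : LV n} (hf : f ∈ M.spanK lam M.U)
    (hf' : f' ∈ M.spanK lam M.U) (hf2 : e₁ n - f ∈ M.spanK mu M.U)
    (hf2' : e₀ n - f' ∈ M.spanK mu M.U) :
    M.diff.WRel (M.fn lam hl.two.smooth_lam - algebraMap ℝ M.Sm μ₀) p q μ₀ (form n f f) := by
  obtain ⟨c1, c2⟩ := hl.const_rel hmu hf hf' hf2 hf2'
  have ids := hl.ids hf hf' hf2 hf2'
  rw [c1, c2] at ids
  set κ := form n f f with hκ
  set lamS := M.fn lam hl.two.smooth_lam with hlamS
  set muS := M.fn mu hl.two.smooth_mu with hmuS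
  have hmuc : muS = algebraMap ℝ M.Sm μ₀ := by
    apply Subtype.ext
    funext u
    exact hmu u u.2
  rw [hmuc] at ids
  have hG : ∀ z, M.diff.Γ (algebraMap ℝ M.Sm μ₀) z = 0 := M.diff.Γ_algebraMap μ₀
  have hG2 : ∀ z, M.diff.Γ z (algebraMap ℝ M.Sm μ₀) = 0 := fun z => by
    rw [M.diff.symm, hG]
  set w := lamS - algebraMap ℝ M.Sm μ₀ with hw
  have hlam : lamS = w + algebraMap ℝ M.Sm μ₀ := by rw [hw]; ring
  have e1 : M.diff.Γ w w = M.diff.Γ lamS lamS := by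
    rw [hlam]
    simp only [map_add, LinearMap.add_apply, hG, hG2, add_zero]
  have e2 : M.diff.L w = M.diff.L lamS := by
    rw [hlam, map_add, M.diff.L_algebraMap, add_zero]
  have e3 : algebraMap ℝ M.Sm (-1 + (1 + κ) * μ₀ ^ 2)
      - 2 * algebraMap ℝ M.Sm ((1 + κ) * μ₀) * lamS - algebraMap ℝ M.Sm (-κ) * lamS ^ 2
      = -(1 + algebraMap ℝ M.Sm μ₀ ^ 2) - 2 * algebraMap ℝ M.Sm μ₀ * w
        + algebraMap ℝ M.Sm κ * w ^ 2 := by
    rw [hlam]
    simp only [map_add, map_mul, map_neg, map_pow, map_one]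
    ring
  constructor
  · rw [e1, ids.Γll, e3]
  · rw [e2, ids.Ll, e3]
    have e4 : algebraMap ℝ M.Sm ((1 + κ) * μ₀) + algebraMap ℝ M.Sm (-κ) * lamS
        = algebraMap ℝ M.Sm μ₀ - algebraMap ℝ M.Sm κ * w := by
      rw [hlam]
      simp only [map_add, map_mul, map_neg, map_one]
      ring
    rw [e4]
    ring

end Hypersurface

end Pool.Agent.Helper21.Dupin
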