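import Pool.Agent.Helper21.Dupin.OneConst

/-!
The case where one of the two principal curvatures is constant: consequences of finite type.
-/

namespace Pool.Agent.Helper21.Dupin

open scoped ContDiff InnerProductSpace Polynomial

namespace Hypersurface

variable {n : ℕ} {M : Hypersurface n} {lam mu : Dom n → ℝ} {p q : ℕ}

theorem Local.f_scalars (hl : M.Local lam mu p q M.U) {f f' : LV n} (hf : f ∈ M.spanK lam M.U)
    (hf2 : e₁ n - f ∈ M.spanK mu M.U)
    (hf2' : e₀ n - f' ∈ M.spanK mu M.U) : f.1 = -form n f f' ∧ f.2.2 = -form n f f := by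
  constructor
  · have h1 := hl.orth hf hf2'
    rw [map_sub, form_e₀] at h1
    linarith
  · have h1 := hl.orth hf hf2
    rw [map_sub, form_e₁] at h1
    linarith

theorem Local.aS_f (hl : M.Local lam mu p q M.U) {f : LV n} (hf : f ∈ M.spanK lam M.U)
    (hf2 : e₁ n - f ∈ M.spanK mu M.U) : M.aS f = -(M.fn _ hl.two.smooth_inv) := by
  apply Subtype.ext
  funext u
  rw [M.aS_apply]
  obtain ⟨h1, h2⟩ := hl.form_f hf hf2 u.2
  rw [K_eq, map_add, map_smul, smul_eq_mul] at h1 h2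
  have hne := sub_ne_zero.mpr (hl.two.ne u u.2)
  have h3 : (lam u - mu u) * form n f (M.Y₁ u) = -1 := by linarith
  have h4 : (-(M.fn _ hl.two.smooth_inv)).1 u = -(lam u - mu u)⁻¹ := rfl
  rw [h4, ← mul_right_inj' hne, h3, mul_neg, mul_inv_cancel₀ hne]

theorem Local.bS_of_mem_mu (hl : M.Local lam mu p q M.U) {z : LV n} (hz : z ∈ M.spanK mu M.U) :
    M.bS z = -(M.fn lam hl.two.smooth_lam * M.aS z) := by
  apply Subtype.ext
  funext u
  rw [M.bS_apply]
  have h1 : form n z (M.K lam u) = 0 := by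
    rw [form_symm]; exact hl.orth (K_mem_spanK u.2) hz
  rw [K_eq, map_add, map_smul, smul_eq_mul] at h1
  have h4 : (-(M.fn lam hl.two.smooth_lam * M.aS z)).1 u = -(lam u * (M.aS z).1 u) := rfl
  rw [h4, M.aS_apply]
  linarith

theorem Local.bS_of_mem_lam (hl : M.Local lam mu p q M.U) {z : LV n}
    (hz : z ∈ M.spanK lam M.U) :
    M.bS z = -(M.fn mu hl.two.smooth_mu * M.aS z) := hl.symm.bS_of_mem_mu hz

theorem Local.y_mul_w (hl : M.Local lam mu p q M.U) {μ₀ : ℝ} (hmu : ∀ u ∈ M.U, mu u = μ₀) :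
    M.fn _ hl.two.smooth_inv * (M.fn lam hl.two.smooth_lam - algebraMap ℝ M.Sm μ₀) = 1 := by
  apply Subtype.ext
  funext u
  have h1 : (M.fn _ hl.two.smooth_inv * (M.fn lam hl.two.smooth_lam - algebraMap ℝ M.Sm μ₀)).1 u
    = (lam u - mu u)⁻¹ * (lam u - μ₀) := rfl
  rw [h1, ← hmu u u.2, inv_mul_cancel₀ (sub_ne_zero.mpr (hl.two.ne u u.2))]
  rfl

/-- the relations for the functions `φ = ⟨z, Y₁⟩`, `z` a vector in the span of the curvature spheres
of `mu` orthogonal to the two distinguished vectors -/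
theorem Local.φ_rel (hl : M.Local lam mu p q M.U) {μ₀ : ℝ} (hmu : ∀ u ∈ M.U, mu u = μ₀)
    {f f' : LV n} (hf : f ∈ M.spanK lam M.U)
    (hf' : f' ∈ M.spanK lam M.U) (hf2 : e₁ n - f ∈ M.spanK mu M.U)
    (hf2' : e₀ n - f' ∈ M.spanK mu M.U) {z : LV n} (hz : z ∈ M.spanK mu M.U) (hz1 : z.1 = 0)
    (hz2 : z.2.2 = 0) :
    M.diff.Γ (M.fn lam hl.two.smooth_lam - algebraMap ℝ M.Sm μ₀) (M.aS z)
      = -((M.fn lam hl.two.smooth_lam - algebraMap ℝ M.Sm μ₀)
        * (-(1 + algebraMap ℝ M.Sm μ₀ ^ 2)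
          - 2 * algebraMap ℝ M.Sm μ₀ * (M.fn lam hl.two.smooth_lam - algebraMap ℝ M.Sm μ₀)
          + algebraMap ℝ M.Sm (form n f f)
            * (M.fn lam hl.two.smooth_lam - algebraMap ℝ M.Sm μ₀) ^ 2) * M.aS z) ∧
    M.diff.L (M.aS z) = M.aS z * -(((p + q : ℕ) : M.Sm)
      + ((M.fn lam hl.two.smooth_lam - algebraMap ℝ M.Sm μ₀) + algebraMap ℝ M.Sm μ₀)
        * ((p : M.Sm) * (M.fn lam hl.two.smooth_lam - algebraMap ℝ M.Sm μ₀)
      + ((p + q : ℕ) : M.Sm) * algebraMap ℝ M.Sm μ₀)) := by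
  obtain ⟨c1, c2⟩ := hl.const_rel hmu hf hf' hf2 hf2'
  obtain ⟨d1, d2⟩ := hl.f_scalars hf hf2 hf2'
  set κ := form n f f with hκ
  rw [c1] at d1
  set lamS := M.fn lam hl.two.smooth_lam with hlamS
  set w := lamS - algebraMap ℝ M.Sm μ₀ with hw
  set y := M.fn _ hl.two.smooth_inv with hyd
  have hy : y * w = 1 := hl.y_mul_w hmu
  have haf : M.aS f = -y := hl.aS_f hf hf2
  have hmuc : M.fn mu hl.two.smooth_mu = algebraMap ℝ M.Sm μ₀ := by
    apply Subtype.ext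
    funext u
    exact hmu u u.2
  have hbf : M.bS f = algebraMap ℝ M.Sm μ₀ * y := by
    rw [hl.bS_of_mem_lam hf, haf, hmuc]; ring
  have hbz : M.bS z = -(lamS * M.aS z) := hl.bS_of_mem_mu hz
  have hlam : lamS = w + algebraMap ℝ M.Sm μ₀ := by rw [hw]; ring
  set φ := M.aS z with hφ
  have hfz : form n f z = 0 := hl.orth hf hz
  constructor
  · have h1 := M.car_aS f z
    rw [hfz, hz1, hz2, haf, hbf, d1, d2, ← hφ, hbz, hlam] at h1
    have h2 : M.diff.Γ y φ = -M.car (-y) φ := by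
      rw [map_neg]
      show M.car y φ = - -(M.car y φ)
      rw [neg_neg]
    rw [h1] at h2
    have h3 := M.diff.Γ_inv hy φ
    rw [h3] at h2
    simp only [map_add, map_mul, map_neg, map_zero, mul_zero, add_zero, map_one] at h2
    linear_combination (-w ^ 2) * h2
      + (algebraMap ℝ M.Sm μ₀ * w ^ 2 * φ + algebraMap ℝ M.Sm μ₀ ^ 2 * w * φ + w * φ
        + (y * w + 1) * (-M.diff.Γ w φ)) * hy
  · set HS : M.Sm := (p : M.Sm) * lamS + (q : M.Sm) * M.fn mu hl.two.smooth_mu with hHS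
    have hH : ∀ u : M.U, HS.1 u = M.H u := by
      intro u
      rw [hl.two.H_eq u.2]
      rfl
    have h1 := M.lap_aS z HS hH
    rw [hz1, hz2, ← hφ, hbz, hHS, hmuc, hlam] at h1
    have h2 : -(n : ℝ) • (φ + algebraMap ℝ M.Sm 0) = -(((p + q : ℕ) : M.Sm) * φ) := by
      rw [map_zero, add_zero, hl.two.hpq, neg_smul, Algebra.smul_def, map_natCast]
    rw [h2, map_zero, add_zero] at h1
    have h3 : M.diff.L φ = M.lap φ := rfl
    rw [h3, h1]
    push_cast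
    ring

/-- A polynomial in a function taking infinitely many values vanishes only if it is zero. -/
theorem poly_eq_zero {w : M.Sm} (hinf : Set.Infinite (Set.range w.1)) {A : ℝ[X]}
    (h : ∀ u, (Polynomial.aeval w A).1 u = 0) : A = 0 := by
  have h1 : ∀ u, (Polynomial.aeval w A).1 u = A.eval (w.1 u) := by
    intro u
    have h2 : (Polynomial.aeval w A).1 = Polynomial.aeval w.1 A := by
      have := Polynomial.aeval_algHom_apply M.Sm.val w A
      exact this.symm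
    rw [h2]
    have h3 := Polynomial.aeval_algHom_apply (Pi.evalAlgHom ℝ (fun _ : M.U => ℝ) u) w.1 A
    simp only [Pi.evalAlgHom_apply] at h3
    rw [← h3, ← Polynomial.coe_aeval_eq_eval]
  apply Polynomial.eq_zero_of_infinite_isRoot
  apply hinf.mono
  rintro _ ⟨u, rfl⟩
  rw [Set.mem_ofPred_eq, Polynomial.IsRoot.def, ← h1, h u]

theorem infinite_range {g : Dom n → ℝ} (hg : ContDiffOn ℝ ∞ g M.U) (hne : ∃ u₁ ∈ M.U, ∃ u₂ ∈ M.U, g u₁ ≠ g u₂) :
    Set.Infinite (g '' M.U) := by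
  obtain ⟨u₁, h₁, u₂, h₂, hne⟩ := hne
  have hpre : IsPreconnected (g '' M.U) := M.isConnected.isPreconnected.image g hg.continuousOn
  have hoc := hpre.ordConnected
  rcases lt_or_gt_of_ne hne with h | h
  · exact (Set.Icc_infinite h).mono (hoc.out ⟨u₁, h₁, rfl⟩ ⟨u₂, h₂, rfl⟩)
  · exact (Set.Icc_infinite h).mono (hoc.out ⟨u₂, h₂, rfl⟩ ⟨u₁, h₁, rfl⟩)

/-- Existence of a vector `z`. -/
theorem Local.exists_z (hl : M.Local lam mu p q M.U) {μ₀ : ℝ} (hmu : ∀ u ∈ M.U, mu u = μ₀) :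
    ∃ u₁ ∈ M.U, ∃ u₂ ∈ M.U, M.K mu u₁ - M.K mu u₂ ≠ 0 := by
  by_contra hcon
  push Not at hcon
  obtain ⟨u, hu⟩ := M.isConnected.nonempty
  have hconst : ∀ v ∈ M.U, M.K mu v = M.K mu u := fun v hv => sub_eq_zero.mp (hcon v hv u hu)
  have hd : fderiv ℝ (M.K mu) u = 0 := by
    have : M.K mu =ᶠ[nhds u] fun _ => M.K mu u :=
      Filter.eventuallyEq_of_mem (M.isOpen.mem_nhds hu) hconst
    rw [this.fderiv_eq]; simp
  have hker := hl.two.symm.ker_K hu
  rw [hd] at hker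
  have h1 : M.curvSpace u (mu u) = ⊤ := by
    rw [← hker]
    ext v; simp
  have h2 := (hl.two.isCompl hu).inf_eq_bot
  rw [h1, inf_top_eq] at h2
  have h3 := hl.two.fr_lam u hu
  rw [h2, finrank_bot] at h3
  have := hl.two.hp
  omega

/-- Key non-degeneracy: `φ A(w)` is constant only if `A = 0`. -/
theorem Local.φ_const (hl : M.Local lam mu p q M.U) {μ₀ : ℝ} (hmu : ∀ u ∈ M.U, mu u = μ₀)
    (hne : ∃ u₁ ∈ M.U, ∃ u₂ ∈ M.U, lam u₁ ≠ lam u₂)
    {u₁ u₂ : Dom n} (h₁ : u₁ ∈ M.U) (h₂ : u₂ ∈ M.U) (hz : M.K mu u₁ - M.K mu u₂ ≠ 0)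
    {A : ℝ[X]} {c : ℝ}
    (h : M.aS (M.K mu u₁ - M.K mu u₂)
      * Polynomial.aeval (M.fn lam hl.two.smooth_lam - algebraMap ℝ M.Sm μ₀) A
      = algebraMap ℝ M.Sm c) : A = 0 := by
  set z := M.K mu u₁ - M.K mu u₂ with hzd
  set w := M.fn lam hl.two.smooth_lam - algebraMap ℝ M.Sm μ₀ with hw
  have hzm : z ∈ M.spanK mu M.U := Submodule.sub_mem _ (K_mem_spanK h₁) (K_mem_spanK h₂)
  have hz1 : z.1 = 0 := by
    show mu u₁ - mu u₂ = 0
    rw [hmu u₁ h₁, hmu u₂ h₂, sub_self]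
  have hz2 : z.2.2 = 0 := by
    show (1 : ℝ) - 1 = 0
    ring
  have hzz : form n z z ≠ 0 := by
    rw [form_apply, hz1, hz2]
    intro h0
    have h3 : ⟪z.2.1, z.2.1⟫_ℝ = 0 := by linarith
    have h4 : z.2.1 = 0 := inner_self_eq_zero.mp h3
    apply hz
    exact Prod.ext hz1 (Prod.ext h4 hz2)
  -- relation at each point
  have hrel : ∀ u : M.U, (M.aS z).1 u * (lam u - mu u) = -form n z (M.K mu u) := by
    intro u
    have e1 : form n z (M.K lam u) = 0 := by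
      rw [form_symm]; exact hl.orth (K_mem_spanK u.2) hzm
    rw [K_eq, map_add, map_smul, smul_eq_mul] at e1
    rw [M.aS_apply, K_eq, map_add, map_smul, smul_eq_mul]
    linarith
  have hev : ∀ u : M.U, (Polynomial.aeval w A).1 u = A.eval (lam u - μ₀) := by
    intro u
    have h2 : (Polynomial.aeval w A).1 = Polynomial.aeval w.1 A := by
      have := Polynomial.aeval_algHom_apply M.Sm.val w A
      exact this.symm
    rw [h2]
    have h3 := Polynomial.aeval_algHom_apply (Pi.evalAlgHom ℝ (fun _ : M.U => ℝ) u) w.1 A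
    simp only [Pi.evalAlgHom_apply] at h3
    rw [← h3, Polynomial.coe_aeval_eq_eval]
    rfl
  have hc : ∀ u : M.U, -form n z (M.K mu u) * A.eval (lam u - μ₀) = c * (lam u - μ₀) := by
    intro u
    have e1 := congrArg (fun g : M.Sm => g.1 u) h
    have e2 : (M.aS z).1 u * (Polynomial.aeval w A).1 u = c := e1
    rw [hev] at e2
    rw [← hrel u, hmu u u.2, ← e2]; ring
  have hA : ∀ u ∈ M.U, A.eval (lam u - μ₀) = 0 := by
    intro u hu
    obtain ⟨u₃, h₃, a1, a2⟩ := hl.pairs u hu u₁ h₁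
    obtain ⟨u₄, h₄, b1, b2⟩ := hl.pairs u hu u₂ h₂
    have e1 := hc ⟨u₃, h₃⟩
    have e2 := hc ⟨u₄, h₄⟩
    simp only at e1 e2
    have a3 : lam u₃ = lam u := congrArg Prod.fst a1
    have b3 : lam u₄ = lam u := congrArg Prod.fst b1
    rw [a2, a3] at e1
    rw [b2, b3] at e2
    have e3 : form n z z * A.eval (lam u - μ₀) = 0 := by
      have : form n z z = form n z (M.K mu u₁) - form n z (M.K mu u₂) := by
        rw [← map_sub]
      rw [this]
      linarith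
    exact (mul_eq_zero.mp e3).resolve_left hzz
  apply Polynomial.eq_zero_of_infinite_isRoot
  have hinf := infinite_range (M := M) (g := fun u => lam u - μ₀)
    (hl.two.smooth_lam.sub contDiffOn_const) (by
      obtain ⟨v₁, k₁, v₂, k₂, hv⟩ := hne
      exact ⟨v₁, k₁, v₂, k₂, fun h0 => hv (by linarith)⟩)
  apply hinf.mono
  rintro _ ⟨u, hu, rfl⟩
  exact hA u hu

/-- Main result of this file. -/
theorem Local.one_const (hl : M.Local lam mu p q M.U) {μ₀ : ℝ} (hmu : ∀ u ∈ M.U, mu u = μ₀)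
    (hne : ∃ u₁ ∈ M.U, ∃ u₂ ∈ M.U, lam u₁ ≠ lam u₂) {S : Finset ℝ}
    (hP : M.PolyType (∏ s ∈ S, (Polynomial.X - Polynomial.C s)))
    {f f' : LV n} (hf : f ∈ M.spanK lam M.U)
    (hf' : f' ∈ M.spanK lam M.U) (hf2 : e₁ n - f ∈ M.spanK mu M.U)
    (hf2' : e₀ n - f' ∈ M.spanK mu M.U) :
    μ₀ = 0 ∧ Even p ∧ 0 < form n f f ∧ ∃ r : ℕ, 1 ≤ r ∧ γφ (form n f f) p (2 * r) = 0 ∧
      (Even (p + q) ∨ 4 * r < p + q + 2) := by
  set P : ℝ[X] := ∏ s ∈ S, (Polynomial.X - Polynomial.C s) with hPd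
  have hP0 : P ≠ 0 := Finset.prod_ne_zero_iff.mpr fun i _ => Polynomial.X_sub_C_ne_zero _
  obtain ⟨c, hc⟩ := hP
  have hwrel := hl.wrel hmu hf hf' hf2 hf2'
  set κ := form n f f with hκ
  set w := M.fn lam hl.two.smooth_lam - algebraMap ℝ M.Sm μ₀ with hw
  set y := M.fn _ hl.two.smooth_inv with hyd
  have hy : y * w = 1 := hl.y_mul_w hmu
  -- every `aS g` has constant `P(Δ)`
  have haS : ∀ g : LV n, ∃ c' : ℝ, Polynomial.aeval M.diff.L P (M.aS g)
      = algebraMap ℝ M.Sm c' := by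
    intro g
    refine ⟨⟪g.2.1, c⟫_ℝ - P.eval 0 * g.1, ?_⟩
    unfold aS
    rw [map_sub, M.diff.aeval_L_algebraMap, map_sub]
    congr 1
    exact hc _
  -- the chain of `φ`
  obtain ⟨u₁, h₁, u₂, h₂, hz⟩ := hl.exists_z hmu
  set z := M.K mu u₁ - M.K mu u₂ with hzd
  have hzm : z ∈ M.spanK mu M.U := Submodule.sub_mem _ (K_mem_spanK h₁) (K_mem_spanK h₂)
  have hz1 : z.1 = 0 := by
    show mu u₁ - mu u₂ = 0
    rw [hmu u₁ h₁, hmu u₂ h₂, sub_self]
  have hz2 : z.2.2 = 0 := by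
    show (1 : ℝ) - 1 = 0
    ring
  obtain ⟨r1, r2⟩ := hl.φ_rel hmu hf hf' hf2 hf2' hzm hz1 hz2
  have hφchain := hwrel.chain_φ r1 r2
  have hφ0 : Polynomial.aeval (tri (αc μ₀ p q) (βc μ₀ p q) (γφ κ p)) P (1 : ℝ[X]) = 0 := by
    obtain ⟨c', hc'⟩ := haS z
    have h3 := M.diff.aeval_L_Θ hφchain P 1
    have h4 : Diffusion.Θ w (M.aS z) 1 = M.aS z := by
      rw [Diffusion.Θ_apply, map_one, mul_one]
    rw [h4, hc', Diffusion.Θ_apply] at h3
    exact hl.φ_const hmu hne h₁ h₂ hz h3.symm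
  have hκ0 : κ ≠ 0 := by
    intro h0
    rw [h0] at hφ0
    exact φchain_zero hl.two.hp hP0 hφ0
  -- the chain of `y`
  have hychain := hwrel.chain_y hy
  have hy0 : ∃ c', Polynomial.aeval (tri (αc μ₀ p q) (βc μ₀ p q) (γy κ p)) P (1 : ℝ[X])
      = Polynomial.C c' * Polynomial.X := by
    obtain ⟨c', hc'⟩ := haS f
    refine ⟨-c', ?_⟩
    have h3 := M.diff.aeval_L_Θ hychain P 1
    have h4 : Diffusion.Θ w y 1 = -M.aS f := by
      rw [Diffusion.Θ_apply, map_one, mul_one, hl.aS_f hf hf2, neg_neg]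
    rw [h4, map_neg, hc', Diffusion.Θ_apply] at h3
    have h5 : Polynomial.aeval w (Polynomial.aeval (tri (αc μ₀ p q) (βc μ₀ p q) (γy κ p)) P
        (1 : ℝ[X]) - Polynomial.C (-c') * Polynomial.X) = 0 := by
      rw [map_sub, map_mul, Polynomial.aeval_C, Polynomial.aeval_X, map_neg]
      linear_combination (-w) * h3 - (Polynomial.aeval w (Polynomial.aeval
        (tri (αc μ₀ p q) (βc μ₀ p q) (γy κ p)) P (1 : ℝ[X]))) * hy
    rw [← sub_eq_zero]
    apply poly_eq_zero (M := M) (w := w)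
    · have hinf := infinite_range (M := M) (g := fun u => lam u - μ₀)
        (hl.two.smooth_lam.sub contDiffOn_const) (by
          obtain ⟨v₁, k₁, v₂, k₂, hv⟩ := hne
          exact ⟨v₁, k₁, v₂, k₂, fun h0 => hv (by linarith)⟩)
      apply hinf.mono
      rintro _ ⟨u, hu, rfl⟩
      exact ⟨⟨u, hu⟩, rfl⟩
    · intro u
      rw [h5]; rfl
  obtain ⟨c', hy1⟩ := hy0
  obtain ⟨hμ, heven⟩ := ychain hl.two.hp hl.two.hq hκ0 hP0 hy1
  -- positivity of `κ`
  have hpos : 0 < κ := by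
    obtain ⟨u, hu⟩ := M.isConnected.nonempty
    have e1 := congrArg (fun g : M.Sm => g.1 ⟨u, hu⟩) hwrel.Γww
    have e2 : (M.diff.Γ w w).1 ⟨u, hu⟩ = (lam u - μ₀) ^ 2 * (-(1 + μ₀ ^ 2)
      - 2 * μ₀ * (lam u - μ₀) + κ * (lam u - μ₀) ^ 2) := e1
    have e3 : 0 ≤ (M.diff.Γ w w).1 ⟨u, hu⟩ := M.gradInner_self_nonneg _ hu
    rw [e2, hμ] at e3
    have e4 : (lam u - 0) ≠ 0 := by
      have := hl.two.ne u hu
      rw [hmu u hu, hμ] at this
      simpa using this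
    have e5 : 0 < (lam u - 0) ^ 2 := by positivity
    have e6 : 0 ≤ -(1 + (0 : ℝ) ^ 2) - 2 * 0 * (lam u - 0) + κ * (lam u - 0) ^ 2 :=
      nonneg_of_mul_nonneg_right e3 e5
    have e7 : 0 < κ * (lam u - 0) ^ 2 := by linarith
    exact (pos_iff_pos_of_mul_pos e7).mpr e5
  refine ⟨hμ, heven, hpos, ?_⟩
  rw [hμ, βc_zero] at hφ0
  exact φchain hl.two.hp hφ0

end Hypersurface

end Pool.Agent.Helper21.Dupin
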