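import Pool.Agent.Helper21.Dupin.Gauss

/-!
The shape operator; the trace of the shape operator is `H`.
-/

namespace Pool.Agent.Helper21.Dupin

open scoped ContDiff InnerProductSpace

/-- The sum of the eigenspaces: if independent submodules have dimensions adding up to the
dimension of the space, they form an internal direct sum. -/
theorem isInternal_of_indep {g : ℕ} {V : Type*} [AddCommGroup V] [Module ℝ V]
    [FiniteDimensional ℝ V] (A : Fin g → Submodule ℝ V) (hi : iSupIndep A)
    (hd : ∑ a, Module.finrank ℝ (A a) = Module.finrank ℝ V) : DirectSum.IsInternal A := by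
  have hinj := hi.dfinsupp_lsum_injective
  refine ⟨hinj, ?_⟩
  have hfr : Module.finrank ℝ (Π₀ i, A i) = Module.finrank ℝ V := by
    rw [← hd]
    exact Module.finrank_directSum (R := ℝ) (M := fun i => A i)
  let f : (Π₀ i, A i) →ₗ[ℝ] V := DFinsupp.lsum ℝ fun i => (A i).subtype
  have hf : Function.Injective f := hinj
  exact (LinearMap.injective_iff_surjective_of_finrank_eq_finrank hfr).mp hf

namespace Hypersurface

variable {n : ℕ} (M : Hypersurface n)

/-- the shape operator in the parameter domain -/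
noncomputable def shape (u : Dom n) : Dom n →ₗ[ℝ] Dom n :=
  { toFun := fun v i => -∑ j, (M.G u)⁻¹ i j * ⟪pd j M.x u, fderiv ℝ M.ν u v⟫_ℝ
    map_add' := by
      intro v w
      ext i
      simp only [map_add, inner_add_right, mul_add, Finset.sum_add_distrib, Pi.add_apply]
      ring
    map_smul' := by
      intro c v
      ext i
      simp only [map_smul, real_inner_smul_right, RingHom.id_apply, Pi.smul_apply, smul_eq_mul,
        mul_neg, Finset.mul_sum, neg_inj]
      exact Finset.sum_congr rfl fun j _ => by ring }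

theorem shape_apply (u v : Dom n) (i : Fin n) :
    M.shape u v i = -∑ j, (M.G u)⁻¹ i j * ⟪pd j M.x u, fderiv ℝ M.ν u v⟫_ℝ := rfl

theorem dx_shape {u : Dom n} (hu : u ∈ M.U) (v : Dom n) :
    fderiv ℝ M.x u (M.shape u v) = - fderiv ℝ M.ν u v := by
  have h := M.decomp hu (fderiv ℝ M.ν u v)
  rw [M.inner_x_dν hu, M.inner_dν_ν hu, zero_smul, zero_smul, add_zero, add_zero] at h
  rw [fderiv_eq_sum]
  conv_rhs => rw [h]
  simp only [shape_apply, neg_smul, Finset.sum_neg_distrib, Finset.sum_smul]
  rw [Finset.sum_comm]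
  congr 1
  refine Finset.sum_congr rfl fun i _ => Finset.sum_congr rfl fun j _ => ?_
  rw [M.Ginv_symm u j i, real_inner_comm]

theorem mem_curvSpace {u : Dom n} {c : ℝ} {v : Dom n} :
    v ∈ M.curvSpace u c ↔ fderiv ℝ M.ν u v = -(c • fderiv ℝ M.x u v) := by
  unfold curvSpace
  rw [LinearMap.mem_ker]
  simp only [ContinuousLinearMap.coe_coe, ContinuousLinearMap.add_apply,
    ContinuousLinearMap.smul_apply]
  constructor
  · intro h
    exact eq_neg_of_add_eq_zero_left h
  · intro h
    rw [h]; simp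

theorem curvSpace_eq_eigenspace {u : Dom n} (hu : u ∈ M.U) (c : ℝ) :
    M.curvSpace u c = Module.End.eigenspace (M.shape u) c := by
  ext v
  rw [M.mem_curvSpace, Module.End.mem_eigenspace_iff]
  constructor
  · intro h
    apply M.immersion u hu
    rw [M.dx_shape hu, h, map_smul, neg_neg]
  · intro h
    rw [eq_comm, neg_eq_iff_eq_neg, eq_comm, ← M.dx_shape hu, h, map_smul]

theorem H_eq_trace {u : Dom n} (hu : u ∈ M.U) :
    M.H u = LinearMap.trace ℝ (Dom n) (M.shape u) := by
  rw [LinearMap.trace_eq_matrix_trace ℝ (Pi.basisFun ℝ (Fin n))]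
  unfold Matrix.trace H
  refine Finset.sum_congr rfl fun i _ => ?_
  simp only [Matrix.diag_apply, LinearMap.toMatrix_apply, Pi.basisFun_apply, Pi.basisFun_repr,
    shape_apply]
  rw [← Finset.sum_neg_distrib]
  refine Finset.sum_congr rfl fun j _ => ?_
  have h4 : pd i (fun v => ⟪pd j M.x v, M.ν v⟫_ℝ) u = 0 := by
    have h7 : ∀ v ∈ M.U, ⟪pd j M.x v, M.ν v⟫_ℝ = 0 := fun v hv => M.inner_dx_ν v hv _
    rw [pd_congr M.isOpen (g := fun _ => (0 : ℝ)) h7 hu, pd_const]
  rw [pd_inner M.isOpen (pd_smooth M.isOpen M.smooth_x j) M.smooth_ν hu] at h4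
  have h5 : ⟪pd i (pd j M.x) u, M.ν u⟫_ℝ = - ⟪pd j M.x u, pd i M.ν u⟫_ℝ := by linarith
  rw [h5]
  simp [pd]

theorem H_eq {g : ℕ} {κ : Fin g → Dom n → ℝ} {m : Fin g → ℕ} (hD : M.IsDupinWith g κ m)
    {u : Dom n} (hu : u ∈ M.U) : M.H u = ∑ a, (m a : ℝ) * κ a u := by
  obtain ⟨-, hne, -, hsum, hfr, -⟩ := hD
  rw [M.H_eq_trace hu]
  have hinj : Function.Injective fun a => κ a u := fun a b h => hne u hu a b h
  have hind : iSupIndep fun a => Module.End.eigenspace (M.shape u) (κ a u) :=
    (Module.End.eigenspaces_iSupIndep (M.shape u)).comp hinj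
  have hfr' : ∀ a, Module.finrank ℝ (Module.End.eigenspace (M.shape u) (κ a u)) = m a := by
    intro a
    rw [← M.curvSpace_eq_eigenspace hu]
    exact hfr u hu a
  have hint := isInternal_of_indep _ hind (by simp [hfr', hsum])
  have hmaps : ∀ a, Set.MapsTo (M.shape u) (Module.End.eigenspace (M.shape u) (κ a u))
      (Module.End.eigenspace (M.shape u) (κ a u)) := by
    intro a v hv
    have hv' := Module.End.mem_eigenspace_iff.mp hv
    rw [hv']
    exact Submodule.smul_mem _ _ hv
  rw [LinearMap.trace_eq_sum_trace_restrict hint hmaps]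
  refine Finset.sum_congr rfl fun a _ => ?_
  have : (M.shape u).restrict (hmaps a) = (κ a u) • LinearMap.id := by
    ext v
    simp only [LinearMap.restrict_coe_apply, LinearMap.smul_apply, LinearMap.id_apply,
      Submodule.coe_smul]
    rw [Module.End.mem_eigenspace_iff.mp v.2]
  rw [this, map_smul, LinearMap.trace_id, hfr' a, smul_eq_mul]
  ring

end Hypersurface

end Pool.Agent.Helper21.Dupin
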