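import Pool.Agent.Helper21.Dupin.Diff

/-!
The algebra `Sm M` of smooth functions on a hypersurface and its Laplace operator.
-/

namespace Pool.Agent.Helper21.Dupin

open scoped ContDiff InnerProductSpace Polynomial

namespace Hypersurface

variable {n : ℕ} (M : Hypersurface n)

/-- smooth functions on the parameter domain -/
def Sm : Subalgebra ℝ (M.U → ℝ) where
  carrier := {f | ∃ F : Dom n → ℝ, ContDiffOn ℝ ∞ F M.U ∧ ∀ u : M.U, f u = F u}
  mul_mem' := by
    rintro f g ⟨F, hF, hf⟩ ⟨G, hG, hg⟩
    exact ⟨fun u => F u * G u, hF.mul hG, fun u => by simp [hf, hg]⟩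
  add_mem' := by
    rintro f g ⟨F, hF, hf⟩ ⟨G, hG, hg⟩
    exact ⟨fun u => F u + G u, hF.add hG, fun u => by simp [hf, hg]⟩
  algebraMap_mem' := by
    intro r
    exact ⟨fun _ => r, contDiffOn_const, fun u => rfl⟩

/-- extension by zero -/
noncomputable def ext (f : M.U → ℝ) (u : Dom n) : ℝ :=
  open scoped Classical in if h : u ∈ M.U then f ⟨u, h⟩ else 0

theorem ext_apply (f : M.U → ℝ) {u : Dom n} (hu : u ∈ M.U) : M.ext f u = f ⟨u, hu⟩ := by
  unfold ext; rw [dif_pos hu]

theorem smooth_ext (f : M.Sm) : ContDiffOn ℝ ∞ (M.ext f.1) M.U := by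
  obtain ⟨F, hF, hf⟩ := f.2
  refine hF.congr fun u hu => ?_
  rw [M.ext_apply _ hu, hf]

/-- the element of `Sm M` given by a smooth function -/
def fn (F : Dom n → ℝ) (hF : ContDiffOn ℝ ∞ F M.U) : M.Sm := ⟨fun u => F u, F, hF, fun _ => rfl⟩

theorem fn_apply (F : Dom n → ℝ) (hF : ContDiffOn ℝ ∞ F M.U) (u : M.U) : (M.fn F hF).1 u = F u :=
  rfl

theorem ext_fn (F : Dom n → ℝ) (hF : ContDiffOn ℝ ∞ F M.U) {u : Dom n} (hu : u ∈ M.U) :
    M.ext (M.fn F hF).1 u = F u := by
  rw [M.ext_apply _ hu]; rfl

theorem gradInner_congr {f f' g g' : Dom n → ℝ} (hf : ∀ u ∈ M.U, f u = f' u)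
    (hg : ∀ u ∈ M.U, g u = g' u) {u : Dom n} (hu : u ∈ M.U) :
    M.gradInner f g u = M.gradInner f' g' u := by
  unfold gradInner
  refine Finset.sum_congr rfl fun i _ => Finset.sum_congr rfl fun j _ => ?_
  rw [pd_congr M.isOpen hf hu, pd_congr M.isOpen hg hu]

theorem gradInner_add_left {f f' g : Dom n → ℝ} (hf : ContDiffOn ℝ ∞ f M.U)
    (hf' : ContDiffOn ℝ ∞ f' M.U) {u : Dom n} (hu : u ∈ M.U) :
    M.gradInner (fun v => f v + f' v) g u = M.gradInner f g u + M.gradInner f' g u := by
  unfold gradInner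
  rw [← Finset.sum_add_distrib]
  refine Finset.sum_congr rfl fun i _ => ?_
  rw [← Finset.sum_add_distrib]
  refine Finset.sum_congr rfl fun j _ => ?_
  rw [pd_add M.isOpen hf hf' hu]; ring

theorem gradInner_smul_left (c : ℝ) {f g : Dom n → ℝ} (hf : ContDiffOn ℝ ∞ f M.U)
    {u : Dom n} (hu : u ∈ M.U) :
    M.gradInner (fun v => c * f v) g u = c * M.gradInner f g u := by
  unfold gradInner
  simp only [Finset.mul_sum]
  refine Finset.sum_congr rfl fun i _ => Finset.sum_congr rfl fun j _ => ?_
  have := pd_const_smul c M.isOpen hf hu i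
  simp only [smul_eq_mul] at this
  rw [this]; ring

theorem gradInner_mul_left {f f' g : Dom n → ℝ} (hf : ContDiffOn ℝ ∞ f M.U)
    (hf' : ContDiffOn ℝ ∞ f' M.U) {u : Dom n} (hu : u ∈ M.U) :
    M.gradInner (fun v => f v * f' v) g u
      = f u * M.gradInner f' g u + f' u * M.gradInner f g u := by
  unfold gradInner
  simp only [Finset.mul_sum, ← Finset.sum_add_distrib]
  refine Finset.sum_congr rfl fun i _ => Finset.sum_congr rfl fun j _ => ?_
  rw [pd_mul M.isOpen hf hf' hu]; ring

theorem gradInner_add_right {f g g' : Dom n → ℝ} (hg : ContDiffOn ℝ ∞ g M.U)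
    (hg' : ContDiffOn ℝ ∞ g' M.U) {u : Dom n} (hu : u ∈ M.U) :
    M.gradInner f (fun v => g v + g' v) u = M.gradInner f g u + M.gradInner f g' u := by
  rw [M.gradInner_symm, M.gradInner_add_left hg hg' hu, M.gradInner_symm g, M.gradInner_symm g']

theorem gradInner_smul_right (c : ℝ) {f g : Dom n → ℝ} (hg : ContDiffOn ℝ ∞ g M.U)
    {u : Dom n} (hu : u ∈ M.U) :
    M.gradInner f (fun v => c * g v) u = c * M.gradInner f g u := by
  rw [M.gradInner_symm, M.gradInner_smul_left c hg hu, M.gradInner_symm g]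

/-- the Laplace operator on `Sm M` -/
noncomputable def lap : M.Sm →ₗ[ℝ] M.Sm where
  toFun f := M.fn (laplace M.x (M.ext f.1)) (M.smooth_laplace (M.smooth_ext f))
  map_add' := by
    intro f g
    apply Subtype.ext
    funext u
    have h1 : ∀ v ∈ M.U, M.ext (f + g).1 v = (fun v => M.ext f.1 v + M.ext g.1 v) v := by
      intro v hv
      simp only [M.ext_apply _ hv]
      rfl
    have := M.laplace_congr h1 u.2
    rw [M.laplace_add (M.smooth_ext f) (M.smooth_ext g) u.2] at this
    exact this
  map_smul' := by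
    intro c f
    apply Subtype.ext
    funext u
    have h1 : ∀ v ∈ M.U, M.ext (c • f).1 v = (c • ContinuousLinearMap.id ℝ ℝ) (M.ext f.1 v) := by
      intro v hv
      simp only [M.ext_apply _ hv]
      rfl
    have := M.laplace_congr h1 u.2
    rw [M.laplace_clm _ (M.smooth_ext f) u.2] at this
    exact this

/-- the carré du champ on `Sm M` -/
noncomputable def car : M.Sm →ₗ[ℝ] M.Sm →ₗ[ℝ] M.Sm :=
  LinearMap.mk₂ ℝ (fun f g => M.fn (M.gradInner (M.ext f.1) (M.ext g.1))
      (M.smooth_gradInner (M.smooth_ext f) (M.smooth_ext g)))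
    (by
      intro f f' g
      apply Subtype.ext
      funext u
      have h1 : ∀ v ∈ M.U, M.ext (f + f').1 v = (fun v => M.ext f.1 v + M.ext f'.1 v) v := by
        intro v hv
        simp only [M.ext_apply _ hv]
        rfl
      have := M.gradInner_congr (g := M.ext g.1) h1 (fun _ _ => rfl) u.2
      rw [M.gradInner_add_left (M.smooth_ext f) (M.smooth_ext f') u.2] at this
      exact this)
    (by
      intro c f g
      apply Subtype.ext
      funext u
      have h1 : ∀ v ∈ M.U, M.ext (c • f).1 v = (fun v => c * M.ext f.1 v) v := by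
        intro v hv
        simp only [M.ext_apply _ hv]
        rfl
      have := M.gradInner_congr (g := M.ext g.1) h1 (fun _ _ => rfl) u.2
      rw [M.gradInner_smul_left c (M.smooth_ext f) u.2] at this
      exact this)
    (by
      intro f g g'
      apply Subtype.ext
      funext u
      have h1 : ∀ v ∈ M.U, M.ext (g + g').1 v = (fun v => M.ext g.1 v + M.ext g'.1 v) v := by
        intro v hv
        simp only [M.ext_apply _ hv]
        rfl
      have := M.gradInner_congr (f := M.ext f.1) (fun _ _ => rfl) h1 u.2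
      rw [M.gradInner_add_right (M.smooth_ext g) (M.smooth_ext g') u.2] at this
      exact this)
    (by
      intro c f g
      apply Subtype.ext
      funext u
      have h1 : ∀ v ∈ M.U, M.ext (c • g).1 v = (fun v => c * M.ext g.1 v) v := by
        intro v hv
        simp only [M.ext_apply _ hv]
        rfl
      have := M.gradInner_congr (f := M.ext f.1) (fun _ _ => rfl) h1 u.2
      rw [M.gradInner_smul_right c (M.smooth_ext g) u.2] at this
      exact this)

theorem lap_apply (f : M.Sm) (u : M.U) : (M.lap f).1 u = laplace M.x (M.ext f.1) u := rfl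

theorem car_apply (f g : M.Sm) (u : M.U) :
    (M.car f g).1 u = M.gradInner (M.ext f.1) (M.ext g.1) u := rfl

/-- the diffusion structure on `Sm M` -/
noncomputable def diff : Diffusion M.Sm where
  L := M.lap
  Γ := M.car
  symm := by
    intro f g
    apply Subtype.ext
    funext u
    rw [M.car_apply, M.car_apply, M.gradInner_symm]
  L_mul := by
    intro f g
    apply Subtype.ext
    funext u
    have h1 : ∀ v ∈ M.U, M.ext (f * g).1 v = (fun v => M.ext f.1 v * M.ext g.1 v) v := by
      intro v hv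
      simp only [M.ext_apply _ hv]
      rfl
    have := M.laplace_congr h1 u.2
    rw [M.laplace_mul (M.smooth_ext f) (M.smooth_ext g) u.2] at this
    rw [M.ext_apply _ u.2, M.ext_apply _ u.2] at this
    exact this
  Γ_mul := by
    intro f g h
    apply Subtype.ext
    funext u
    have h1 : ∀ v ∈ M.U, M.ext (f * g).1 v = (fun v => M.ext f.1 v * M.ext g.1 v) v := by
      intro v hv
      simp only [M.ext_apply _ hv]
      rfl
    have := M.gradInner_congr (g := M.ext h.1) h1 (fun _ _ => rfl) u.2
    rw [M.gradInner_mul_left (M.smooth_ext f) (M.smooth_ext g) u.2] at this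
    rw [M.ext_apply _ u.2, M.ext_apply _ u.2] at this
    exact this

theorem lap_fn (F : Dom n → ℝ) (hF : ContDiffOn ℝ ∞ F M.U) :
    M.lap (M.fn F hF) = M.fn (laplace M.x F) (M.smooth_laplace hF) := by
  apply Subtype.ext
  funext u
  rw [M.lap_apply, M.fn_apply]
  exact M.laplace_congr (fun v hv => M.ext_fn F hF hv) u.2

theorem car_fn (F G : Dom n → ℝ) (hF : ContDiffOn ℝ ∞ F M.U) (hG : ContDiffOn ℝ ∞ G M.U) :
    M.car (M.fn F hF) (M.fn G hG) = M.fn (M.gradInner F G) (M.smooth_gradInner hF hG) := by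
  apply Subtype.ext
  funext u
  rw [M.car_apply, M.fn_apply]
  exact M.gradInner_congr (fun v hv => M.ext_fn F hF hv) (fun v hv => M.ext_fn G hG hv) u.2

end Hypersurface

end Pool.Agent.Helper21.Dupin
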