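import Mathlib

/-!
Banded operators on real polynomials.
-/

namespace Pool.Agent.Helper21.Dupin

open Polynomial

/-- the linear operator with `X^j ↦ α_j X^j + β_j X^{j+1} + γ_j X^{j+2}` -/
noncomputable def tri (α β γ : ℕ → ℝ) : ℝ[X] →ₗ[ℝ] ℝ[X] :=
  Polynomial.lsum fun j =>
    α j • Polynomial.monomial j + β j • Polynomial.monomial (j + 1)
      + γ j • Polynomial.monomial (j + 2)

variable {α β γ : ℕ → ℝ}

theorem tri_monomial (j : ℕ) (a : ℝ) :
    tri α β γ (monomial j a) = monomial j (α j * a) + monomial (j + 1) (β j * a)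
      + monomial (j + 2) (γ j * a) := by
  unfold tri
  rw [Polynomial.lsum_apply, Polynomial.sum_monomial_index]
  · simp [smul_monomial]
  · simp

theorem tri_coeff (A : ℝ[X]) (m : ℕ) :
    (tri α β γ A).coeff m = α m * A.coeff m
      + (if 1 ≤ m then β (m - 1) * A.coeff (m - 1) else 0)
      + (if 2 ≤ m then γ (m - 2) * A.coeff (m - 2) else 0) := by
  induction A using Polynomial.induction_on' with
  | add p q hp hq =>
    rw [map_add, coeff_add, hp, hq]
    simp only [coeff_add]
    split_ifs <;> ring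
  | monomial j a =>
    rw [tri_monomial]
    simp only [coeff_add, coeff_monomial]
    by_cases h0 : j = m
    · subst h0
      have h1 : ¬ (j + 1 = j) := by omega
      have h2 : ¬ (j + 2 = j) := by omega
      rw [if_pos rfl, if_neg h1, if_neg h2]
      by_cases h3 : 1 ≤ j
      · have h4 : ¬ (j = j - 1) := by omega
        by_cases h5 : 2 ≤ j
        · have h6 : ¬ (j = j - 2) := by omega
          simp [h3, h4, h5, h6]
        · simp [h3, h4, h5]
      · have h5 : ¬ 2 ≤ j := by omega
        simp [h3, h5]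
    · rw [if_neg h0]
      by_cases h1 : j + 1 = m
      · subst h1
        have h2 : ¬ (j + 2 = j + 1) := by omega
        rw [if_pos rfl, if_neg h2]
        by_cases h5 : 2 ≤ j + 1
        · have h6 : ¬ (j = j + 1 - 2) := by omega
          have h7 : ¬ (j = j - 1) := by omega
          simp [h5, h6, h7]
        · simp [h5]
      · rw [if_neg h1]
        by_cases h2 : j + 2 = m
        · subst h2
          rw [if_pos rfl]
          have h6 : ¬ (j = j + 2 - 1) := by omega
          simp [h6]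
        · rw [if_neg h2]
          have h3 : ¬ (1 ≤ m ∧ j = m - 1) := by omega
          have h4 : ¬ (2 ≤ m ∧ j = m - 2) := by omega
          by_cases h5 : 1 ≤ m
          · have h6 : ¬ (j = m - 1) := by omega
            by_cases h7 : 2 ≤ m
            · have h8 : ¬ (j = m - 2) := by omega
              simp [h0, h5, h6, h7, h8]
            · simp [h0, h5, h6, h7]
          · have h7 : ¬ 2 ≤ m := by omega
            simp [h0, h5, h7]

theorem tri_X_pow (j : ℕ) :
    tri α β γ (X ^ j) = C (α j) * X ^ j + C (β j) * X ^ (j + 1) + C (γ j) * X ^ (j + 2) := by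
  have : (X ^ j : ℝ[X]) = monomial j 1 := (monomial_one_right_eq_X_pow j).symm
  conv_lhs => rw [this]
  rw [tri_monomial, mul_one, mul_one, mul_one,
    ← C_mul_X_pow_eq_monomial, ← C_mul_X_pow_eq_monomial, ← C_mul_X_pow_eq_monomial]

/-- evaluation of a polynomial in an operator -/
theorem aeval_apply_sum {V : Type*} [AddCommGroup V] [Module ℝ V] (T : V →ₗ[ℝ] V) (P : ℝ[X])
    (v : V) : aeval T P v = ∑ j ∈ Finset.range (P.natDegree + 1), P.coeff j • (T^[j] v) := by
  rw [Polynomial.aeval_eq_sum_range, LinearMap.sum_apply]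
  refine Finset.sum_congr rfl fun j _ => ?_
  rw [LinearMap.smul_apply, Module.End.pow_apply]

/-- If the iterates `T^j v` have strictly increasing exact degrees, then a combination has the top
degree. -/
theorem coeff_top (T : ℝ[X] →ₗ[ℝ] ℝ[X]) (v : ℝ[X]) (d : ℕ → ℕ) (hd : StrictMono d)
    (h1 : ∀ j, (T^[j] v).coeff (d j) ≠ 0) (h2 : ∀ j m, d j < m → (T^[j] v).coeff m = 0)
    (P : ℝ[X]) (hP : P ≠ 0) : (aeval T P v).coeff (d P.natDegree) ≠ 0 := by
  rw [aeval_apply_sum, finsetSum_coeff, Finset.sum_range_succ]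
  rw [Finset.sum_eq_zero, zero_add, coeff_smul, smul_eq_mul]
  · exact mul_ne_zero (by simpa using hP) (h1 _)
  · intro j hj
    rw [coeff_smul, h2 j _ (hd (Finset.mem_range.mp hj)), smul_zero]

/-- top coefficients of `tri` -/
theorem tri_top {A : ℝ[X]} {d : ℕ} (h : ∀ m, d < m → A.coeff m = 0) :
    (∀ m, d + 2 < m → (tri α β γ A).coeff m = 0) ∧
    (tri α β γ A).coeff (d + 2) = γ d * A.coeff d ∧
    (tri α β γ A).coeff (d + 1) = β d * A.coeff d
      + (if 1 ≤ d then γ (d - 1) * A.coeff (d - 1) else 0) := by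
  refine ⟨?_, ?_, ?_⟩
  · intro m hm
    rw [tri_coeff, h m (by omega), h (m - 1) (by omega), h (m - 2) (by omega)]
    simp
  · rw [tri_coeff, h (d + 2) (by omega)]
    have : d + 2 - 1 = d + 1 := by omega
    rw [this, h (d + 1) (by omega)]
    simp
  · rw [tri_coeff, h (d + 1) (by omega)]
    have e1 : d + 1 - 1 = d := by omega
    rw [e1]
    rcases Nat.eq_zero_or_pos d with h0 | h0
    · subst h0; simp
    · have e2 : d + 1 - 2 = d - 1 := by omega
      rw [e2, if_pos (by omega), if_pos (by omega), if_pos (by omega)]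
      ring

/-- Polynomials without terms of degree `< m` are stable. -/
theorem tri_low {A : ℝ[X]} {m : ℕ} (h : ∀ j, j < m → A.coeff j = 0) :
    ∀ j, j < m → (tri α β γ A).coeff j = 0 := by
  intro j hj
  rw [tri_coeff, h j hj, h (j - 1) (by omega), h (j - 2) (by omega)]
  simp

theorem aeval_tri_low {A : ℝ[X]} {m : ℕ} (h : ∀ j, j < m → A.coeff j = 0) (P : ℝ[X]) :
    ∀ j, j < m → (aeval (tri α β γ) P A).coeff j = 0 := by
  have hit : ∀ i j, j < m → ((tri α β γ)^[i] A).coeff j = 0 := by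
    intro i
    induction i with
    | zero => exact h
    | succ i ih =>
      rw [Function.iterate_succ_apply']
      exact tri_low ih
  intro j hj
  rw [aeval_apply_sum, finsetSum_coeff]
  apply Finset.sum_eq_zero
  intro i _
  rw [coeff_smul, hit i j hj, smul_zero]

/-- One step of the chain argument (`β = 0`). -/
theorem chain_step {α γ : ℕ → ℝ} {P : ℝ[X]} {i : ℕ}
    (h : aeval (tri α (fun _ => 0) γ) P (X ^ i) = 0) (hc : γ i ≠ 0) :
    ∃ P' : ℝ[X], P = (X - C (α i)) * P' ∧ aeval (tri α (fun _ => 0) γ) P' (X ^ (i + 2)) = 0 := by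
  set T := tri α (fun _ => 0) γ with hT
  refine ⟨P /ₘ (X - C (α i)), ?_⟩
  have hdiv : P = (X - C (α i)) * (P /ₘ (X - C (α i))) + C (P.eval (α i)) := by
    have := modByMonic_add_div P (X - C (α i))
    rw [modByMonic_X_sub_C_eq_C_eval] at this
    rw [add_comm] at this
    exact this.symm
  set P' := P /ₘ (X - C (α i)) with hP'
  have hTi : T (X ^ i) = α i • (X ^ i : ℝ[X]) + γ i • (X ^ (i + 2) : ℝ[X]) := by
    rw [hT, tri_X_pow]
    simp [smul_eq_C_mul]
  have h1 : aeval T P (X ^ i) = γ i • aeval T P' (X ^ (i + 2)) + (P.eval (α i)) • (X ^ i : ℝ[X]) := by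
    conv_lhs => rw [hdiv]
    rw [map_add, mul_comm, map_mul, LinearMap.add_apply, Module.End.mul_apply]
    have e1 : aeval T (X - C (α i)) (X ^ i : ℝ[X]) = γ i • (X ^ (i + 2) : ℝ[X]) := by
      rw [map_sub, aeval_X, aeval_C, LinearMap.sub_apply, hTi, Module.algebraMap_end_apply]
      abel
    rw [e1, map_smul, aeval_C, Module.algebraMap_end_apply]
  rw [h] at h1
  have h2 : (aeval T P' (X ^ (i + 2) : ℝ[X])).coeff i = 0 := by
    apply aeval_tri_low (m := i + 2)
    · intro j hj
      rw [coeff_X_pow, if_neg (by omega)]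
    · omega
  have h3 := congrArg (fun Q : ℝ[X] => Q.coeff i) h1
  simp only [coeff_zero, coeff_add, coeff_smul, h2, coeff_X_pow_self, smul_eq_mul, mul_zero,
    zero_add, mul_one] at h3
  constructor
  · rw [← h3, map_zero, add_zero] at hdiv
    exact hdiv
  · rw [← h3, zero_smul, add_zero] at h1
    exact (smul_eq_zero.mp h1.symm).resolve_left hc

/-- The chain argument (`β = 0`), starting from `X^0`. -/
theorem chain {α γ : ℕ → ℝ} {P : ℝ[X]} (h : aeval (tri α (fun _ => 0) γ) P (1 : ℝ[X]) = 0) (r : ℕ)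
    (hc : ∀ i, i < r → γ (2 * i) ≠ 0) :
    ∃ P' : ℝ[X], P = (∏ i ∈ Finset.range r, (X - C (α (2 * i)))) * P' ∧
      aeval (tri α (fun _ => 0) γ) P' (X ^ (2 * r)) = 0 := by
  induction r with
  | zero => exact ⟨P, by simp, by simpa using h⟩
  | succ r ih =>
    obtain ⟨P₁, h1, h2⟩ := ih fun i hi => hc i (by omega)
    obtain ⟨P₂, h3, h4⟩ := chain_step h2 (hc r (by omega))
    refine ⟨P₂, ?_, h4⟩
    rw [Finset.prod_range_succ, h1, h3]
    ring

/-- If the chain never stops, then `P = 0`. -/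
theorem chain_infinite {α γ : ℕ → ℝ} {P : ℝ[X]}
    (h : aeval (tri α (fun _ => 0) γ) P (1 : ℝ[X]) = 0) (hc : ∀ i, γ (2 * i) ≠ 0) : P = 0 := by
  by_contra hP
  obtain ⟨P', h1, -⟩ := chain h (P.natDegree + 1) fun i _ => hc i
  have hP' : P' ≠ 0 := by
    rintro rfl
    rw [mul_zero] at h1
    exact hP h1
  have h2 := congrArg natDegree h1
  rw [natDegree_mul (Finset.prod_ne_zero_iff.mpr fun i _ => X_sub_C_ne_zero _) hP',
    natDegree_prod_of_monic _ _ fun i _ => monic_X_sub_C _] at h2
  simp at h2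
  omega

/-- If the chain stops for the first time at `r`, then all the `α (2 i)`, `i ≤ r`, are roots
of `P`. -/
theorem chain_stop {α γ : ℕ → ℝ} {P : ℝ[X]}
    (h : aeval (tri α (fun _ => 0) γ) P (1 : ℝ[X]) = 0) (r : ℕ)
    (hc : ∀ i, i < r → γ (2 * i) ≠ 0) (hr : γ (2 * r) = 0) :
    (∏ i ∈ Finset.range (r + 1), (X - C (α (2 * i)))) ∣ P := by
  obtain ⟨P', h1, h2⟩ := chain h r hc
  have hTr : (tri α (fun _ => 0) γ) (X ^ (2 * r)) = α (2 * r) • (X ^ (2 * r) : ℝ[X]) := by
    rw [tri_X_pow, hr]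
    simp [smul_eq_C_mul]
  have h3 : aeval (tri α (fun _ => 0) γ) P' (X ^ (2 * r) : ℝ[X])
      = P'.eval (α (2 * r)) • (X ^ (2 * r) : ℝ[X]) := by
    have hit : ∀ j, (tri α (fun _ => 0) γ)^[j] (X ^ (2 * r) : ℝ[X])
        = (α (2 * r)) ^ j • (X ^ (2 * r) : ℝ[X]) := by
      intro j
      induction j with
      | zero => simp
      | succ j ih => rw [Function.iterate_succ_apply', ih, map_smul, hTr, smul_smul, pow_succ]
    rw [aeval_apply_sum, eval_eq_sum_range, Finset.sum_smul]
    refine Finset.sum_congr rfl fun j _ => ?_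
    rw [hit, smul_smul]
  rw [h2] at h3
  have h4 : P'.eval (α (2 * r)) = 0 := by
    have h5 := congrArg (fun Q : ℝ[X] => Q.coeff (2 * r)) h3
    simp only [coeff_zero, coeff_smul, coeff_X_pow_self, smul_eq_mul, mul_one] at h5
    exact h5.symm
  obtain ⟨P'', hP''⟩ := dvd_iff_isRoot.mpr h4
  refine ⟨P'', ?_⟩
  rw [Finset.prod_range_succ, h1, hP'']
  ring

end Pool.Agent.Helper21.Dupin
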