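import Pool.Agent.Helper21.Dupin.OneConst2

/-!
The case where both principal curvatures are non-constant: finite type is impossible.
-/

namespace Pool.Agent.Helper21.Dupin

open scoped ContDiff InnerProductSpace Polynomial

namespace Diffusion

variable {A : Type*} [CommRing A] [Algebra ℝ A] (D : Diffusion A)

/-- All relations for two principal curvatures. -/
structure TwoRel (lam w y : A) (p q : ℕ) (s k ε : ℝ) : Prop where
  hy : y * w = 1
  Γll : D.Γ lam lam =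
    w ^ 2 * (algebraMap ℝ A ε - 2 * algebraMap ℝ A s * lam - algebraMap ℝ A k * lam ^ 2)
  Γlw : D.Γ lam w =
    w ^ 2 * (algebraMap ℝ A ε - 2 * algebraMap ℝ A s * lam - algebraMap ℝ A k * lam ^ 2)
  Γww : D.Γ w w =
    w ^ 2 * (-(1 + lam ^ 2) + w * (2 * algebraMap ℝ A (-s)
      + algebraMap ℝ A (1 - k) * (2 * lam - w)))
  Ll : D.L lam = -((q : A) * w ^ 2 * (algebraMap ℝ A s + algebraMap ℝ A k * lam))
    - (((p + q : ℕ) : A) - 2) * w *
      (algebraMap ℝ A ε - 2 * algebraMap ℝ A s * lam - algebraMap ℝ A k * lam ^ 2)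
  Lw : D.L w = -((q : A) * w ^ 2 * (algebraMap ℝ A s + algebraMap ℝ A k * lam))
    + (p : A) * w ^ 2 * (algebraMap ℝ A (-s) + algebraMap ℝ A (1 - k) * (lam - w))
    - (((p + q : ℕ) : A) - 2) * w *
      (-(1 + lam ^ 2) + w * (2 * algebraMap ℝ A (-s) + algebraMap ℝ A (1 - k) * (2 * lam - w)))

variable {D}

theorem TwoRel.step {lam w y : A} {p q : ℕ} {s k ε : ℝ} (h : D.TwoRel lam w y p q s k ε)
    (g : ℝ[X]) {r : A} (hr : r ∈ Algebra.adjoin ℝ {lam, w}) :
    ∃ r' ∈ Algebra.adjoin ℝ {lam, w}, D.L (y * Polynomial.aeval lam g + r)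
      = y * Polynomial.aeval lam (-(Polynomial.C ((p + q : ℕ) : ℝ)) * (1 + Polynomial.X ^ 2) * g)
        + r' := by
  set PP := Algebra.adjoin ℝ {lam, w} with hPP
  have hlam : lam ∈ PP := Algebra.subset_adjoin (by simp)
  have hw : w ∈ PP := Algebra.subset_adjoin (by simp)
  have hc : ∀ r : ℝ, algebraMap ℝ A r ∈ PP := fun r => PP.algebraMap_mem r
  have hnat : ∀ m : ℕ, (m : A) ∈ PP := fun m => natCast_mem PP m
  have h2m : (2 : A) ∈ PP := by have := hnat 2; simpa using this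
  have hQ : algebraMap ℝ A ε - 2 * algebraMap ℝ A s * lam - algebraMap ℝ A k * lam ^ 2 ∈ PP :=
    sub_mem (sub_mem (hc _) (mul_mem (mul_mem h2m (hc _)) hlam)) (mul_mem (hc _) (pow_mem hlam 2))
  have hQ2 : -(1 + lam ^ 2) + w * (2 * algebraMap ℝ A (-s)
      + algebraMap ℝ A (1 - k) * (2 * lam - w)) ∈ PP :=
    add_mem (neg_mem (add_mem (one_mem _) (pow_mem hlam 2)))
      (mul_mem hw (add_mem (mul_mem h2m (hc _)) (mul_mem (hc _) (sub_mem (mul_mem h2m hlam) hw))))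
  -- Γ
  have gen : ∀ g : A, (∃ b ∈ PP, D.Γ g lam = w ^ 2 * b) → (∃ b ∈ PP, D.Γ g w = w ^ 2 * b) →
      ∀ a ∈ PP, ∃ b ∈ PP, D.Γ g a = w ^ 2 * b := by
    intro g h1 h2 a ha
    induction ha using Algebra.adjoin_induction with
    | mem x hx =>
      rcases hx with rfl | hx
      · exact h1
      · rw [Set.mem_singleton_iff] at hx
        rw [hx]; exact h2
    | algebraMap r => exact ⟨0, zero_mem _, by rw [D.symm, D.Γ_algebraMap, mul_zero]⟩
    | add x y hx hy ihx ihy =>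
      obtain ⟨b₁, hb₁, e₁⟩ := ihx
      obtain ⟨b₂, hb₂, e₂⟩ := ihy
      exact ⟨b₁ + b₂, add_mem hb₁ hb₂, by rw [map_add, e₁, e₂]; ring⟩
    | mul x y hx hy ihx ihy =>
      obtain ⟨b₁, hb₁, e₁⟩ := ihx
      obtain ⟨b₂, hb₂, e₂⟩ := ihy
      exact ⟨x * b₂ + y * b₁, add_mem (mul_mem hx hb₂) (mul_mem hy hb₁), by
        rw [D.Γ_mul_right, e₁, e₂]; ring⟩
  have Γl : ∀ a ∈ PP, ∃ b ∈ PP, D.Γ lam a = w ^ 2 * b :=
    gen lam ⟨_, hQ, h.Γll⟩ ⟨_, hQ, h.Γlw⟩
  have Γw : ∀ a ∈ PP, ∃ b ∈ PP, D.Γ w a = w ^ 2 * b :=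
    gen w ⟨_, hQ, by rw [D.symm, h.Γlw]⟩ ⟨_, hQ2, h.Γww⟩
  have Γall : ∀ a ∈ PP, ∀ b ∈ PP, ∃ c ∈ PP, D.Γ a b = w ^ 2 * c := by
    intro a ha
    refine gen a ?_ ?_
    · obtain ⟨b, hb, e⟩ := Γl a ha
      exact ⟨b, hb, by rw [D.symm, e]⟩
    · obtain ⟨b, hb, e⟩ := Γw a ha
      exact ⟨b, hb, by rw [D.symm, e]⟩
  -- L
  have Lall : ∀ a ∈ PP, ∃ b ∈ PP, D.L a = w * b := by
    intro a ha
    induction ha using Algebra.adjoin_induction with
    | mem x hx =>
      rcases hx with rfl | hx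
      · refine ⟨-((q : A) * w * (algebraMap ℝ A s + algebraMap ℝ A k * x))
          - (((p + q : ℕ) : A) - 2) *
          (algebraMap ℝ A ε - 2 * algebraMap ℝ A s * x - algebraMap ℝ A k * x ^ 2), ?_, ?_⟩
        · exact sub_mem (neg_mem (mul_mem (mul_mem (hnat _) hw) (add_mem (hc _)
            (mul_mem (hc _) hlam)))) (mul_mem (sub_mem (hnat _) h2m) hQ)
        · rw [h.Ll]; ring
      · rw [Set.mem_singleton_iff] at hx
        subst hx
        refine ⟨-((q : A) * x * (algebraMap ℝ A s + algebraMap ℝ A k * lam))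
          + (p : A) * x * (algebraMap ℝ A (-s) + algebraMap ℝ A (1 - k) * (lam - x))
          - (((p + q : ℕ) : A) - 2) *
          (-(1 + lam ^ 2) + x * (2 * algebraMap ℝ A (-s)
            + algebraMap ℝ A (1 - k) * (2 * lam - x))), ?_, ?_⟩
        · exact sub_mem (add_mem (neg_mem (mul_mem (mul_mem (hnat _) hw) (add_mem (hc _)
            (mul_mem (hc _) hlam)))) (mul_mem (mul_mem (hnat _) hw) (add_mem (hc _)
            (mul_mem (hc _) (sub_mem hlam hw))))) (mul_mem (sub_mem (hnat _) h2m) hQ2)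
        · rw [h.Lw]; ring
    | algebraMap r => exact ⟨0, zero_mem _, by rw [D.L_algebraMap, mul_zero]⟩
    | add x y hx hy ihx ihy =>
      obtain ⟨b₁, hb₁, e₁⟩ := ihx
      obtain ⟨b₂, hb₂, e₂⟩ := ihy
      exact ⟨b₁ + b₂, add_mem hb₁ hb₂, by rw [map_add, e₁, e₂]; ring⟩
    | mul x y hx hy ihx ihy =>
      obtain ⟨b₁, hb₁, e₁⟩ := ihx
      obtain ⟨b₂, hb₂, e₂⟩ := ihy
      obtain ⟨b₃, hb₃, e₃⟩ := Γall x hx y hy
      exact ⟨x * b₂ + y * b₁ + 2 * w * b₃,
        add_mem (add_mem (mul_mem hx hb₂) (mul_mem hy hb₁)) (mul_mem (mul_mem h2m hw) hb₃), by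
        rw [D.L_mul, e₁, e₂, e₃]; ring⟩
  -- L y
  have hy := h.hy
  have Ly : D.L y = -((p + q : ℕ) : A) * (1 + lam ^ 2) * y
      + (((p + q : ℕ) : A) * (2 * algebraMap ℝ A (-s)
      + algebraMap ℝ A (1 - k) * (2 * lam - w)) + (q : A) * (algebraMap ℝ A s
        + algebraMap ℝ A k * lam) - (p : A) * (algebraMap ℝ A (-s)
        + algebraMap ℝ A (1 - k) * (lam - w))) := by
    rw [D.L_inv hy, h.Γww, h.Lw]
    have e1 : y ^ 3 * w ^ 2 = y := by
      calc y ^ 3 * w ^ 2 = (y * w) ^ 2 * y := by ring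
        _ = y := by rw [hy]; ring
    have e2 : y ^ 2 * w = y := by
      calc y ^ 2 * w = (y * w) * y := by ring
        _ = y := by rw [hy, one_mul]
    have e3 : y ^ 2 * w ^ 2 = 1 := by
      calc y ^ 2 * w ^ 2 = (y * w) ^ 2 := by ring
        _ = 1 := by rw [hy]; ring
    set T := -(1 + lam ^ 2) + w * (2 * algebraMap ℝ A (-s)
      + algebraMap ℝ A (1 - k) * (2 * lam - w)) with hT
    linear_combination (2 * T) * e1 + (((p + q : ℕ) : A) - 2) * T * e2
      + ((q : A) * (algebraMap ℝ A s + algebraMap ℝ A k * lam)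
        - (p : A) * (algebraMap ℝ A (-s) + algebraMap ℝ A (1 - k) * (lam - w))) * e3
      + ((p + q : ℕ) : A) * (2 * algebraMap ℝ A (-s)
      + algebraMap ℝ A (1 - k) * (2 * lam - w)) * hy
  -- assemble
  have hgm : Polynomial.aeval lam g ∈ PP := by
    have : Polynomial.aeval lam g ∈ Algebra.adjoin ℝ {lam} :=
      Polynomial.aeval_mem_adjoin_singleton ℝ lam
    exact Algebra.adjoin_mono (by simp) this
  obtain ⟨b₁, hb₁, e₁⟩ := Lall _ hgm
  obtain ⟨b₂, hb₂, e₂⟩ := Lall _ hr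
  obtain ⟨b₃, hb₃, e₃⟩ := Γw _ hgm
  refine ⟨b₁ + Polynomial.aeval lam g * (((p + q : ℕ) : A) * (2 * algebraMap ℝ A (-s)
      + algebraMap ℝ A (1 - k) * (2 * lam - w)) + (q : A) * (algebraMap ℝ A s
        + algebraMap ℝ A k * lam) - (p : A) * (algebraMap ℝ A (-s)
        + algebraMap ℝ A (1 - k) * (lam - w))) - 2 * b₃ + w * b₂, ?_, ?_⟩
  · refine add_mem (sub_mem (add_mem hb₁ (mul_mem hgm ?_)) (mul_mem h2m hb₃)) (mul_mem hw hb₂)
    exact sub_mem (add_mem (mul_mem (hnat _) (add_mem (mul_mem h2m (hc _)) (mul_mem (hc _)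
      (sub_mem (mul_mem h2m hlam) hw)))) (mul_mem (hnat _) (add_mem (hc _) (mul_mem (hc _) hlam))))
      (mul_mem (hnat _) (add_mem (hc _) (mul_mem (hc _) (sub_mem hlam hw))))
  · rw [map_add, D.L_mul, D.Γ_inv hy, e₁, e₂, e₃, Ly]
    simp only [map_mul, map_neg, Polynomial.aeval_C, map_add, map_one, map_pow,
      Polynomial.aeval_X, map_natCast]
    linear_combination (b₁ - 2 * (y * w + 1) * b₃) * hy

theorem TwoRel.iterate {lam w y : A} {p q : ℕ} {s k ε : ℝ} (h : D.TwoRel lam w y p q s k ε)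
    (j : ℕ) : ∃ r ∈ Algebra.adjoin ℝ {lam, w}, D.L^[j] y = y * Polynomial.aeval lam
      ((-(Polynomial.C ((p + q : ℕ) : ℝ)) * (1 + Polynomial.X ^ 2)) ^ j) + r := by
  induction j with
  | zero => exact ⟨0, zero_mem _, by simp⟩
  | succ j ih =>
    obtain ⟨r, hr, e⟩ := ih
    obtain ⟨r', hr', e'⟩ := h.step ((-(Polynomial.C ((p + q : ℕ) : ℝ))
      * (1 + Polynomial.X ^ 2)) ^ j) hr
    refine ⟨r', hr', ?_⟩
    rw [Function.iterate_succ_apply', e, e', pow_succ' (-(Polynomial.C ((p + q : ℕ) : ℝ))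
      * (1 + Polynomial.X ^ 2) : ℝ[X]) j]

theorem TwoRel.aeval_y {lam w y : A} {p q : ℕ} {s k ε : ℝ} (h : D.TwoRel lam w y p q s k ε)
    (P : ℝ[X]) : ∃ r ∈ Algebra.adjoin ℝ {lam, w}, Polynomial.aeval D.L P y
      = y * Polynomial.aeval lam
        (P.comp (-(Polynomial.C ((p + q : ℕ) : ℝ)) * (1 + Polynomial.X ^ 2))) + r := by
  choose r hr e using h.iterate
  refine ⟨∑ j ∈ Finset.range (P.natDegree + 1), P.coeff j • r j,
    sum_mem fun j _ => Subalgebra.smul_mem _ (hr j) _, ?_⟩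
  rw [aeval_apply_sum, Polynomial.comp, Polynomial.eval₂_eq_sum_range, map_sum, Finset.mul_sum,
    ← Finset.sum_add_distrib]
  refine Finset.sum_congr rfl fun j _ => ?_
  rw [e j, smul_add, map_mul, Polynomial.aeval_C, Algebra.smul_def]
  ring

end Diffusion

namespace Hypersurface

variable {n : ℕ} {M : Hypersurface n} {lam mu : Dom n → ℝ} {p q : ℕ}

theorem Local.twoRel (hl : M.Local lam mu p q M.U)
    {f f' : LV n} (hf : f ∈ M.spanK lam M.U)
    (hf' : f' ∈ M.spanK lam M.U) (hf2 : e₁ n - f ∈ M.spanK mu M.U)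
    (hf2' : e₀ n - f' ∈ M.spanK mu M.U) :
    M.diff.TwoRel (M.fn lam hl.two.smooth_lam)
      (M.fn lam hl.two.smooth_lam - M.fn mu hl.two.smooth_mu) (M.fn _ hl.two.smooth_inv) p q
      (form n f f') (-(form n f f)) (form n f' f') := by
  obtain ⟨g1, g2, g3⟩ := hl.complement hf hf' hf2 hf2'
  have ids := hl.ids hf hf' hf2 hf2'
  have ids2 := hl.symm.ids hf2 hf2' (by rw [sub_sub_cancel]; exact hf)
    (by rw [sub_sub_cancel]; exact hf')
  rw [g1, g2, g3] at ids2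
  set s := form n f f' with hs
  set k := -(form n f f) with hk
  set ε := form n f' f' with hε
  set lamS := M.fn lam hl.two.smooth_lam with hlamS
  set muS := M.fn mu hl.two.smooth_mu with hmuS
  set y := M.fn _ hl.two.smooth_inv with hyd
  set w := lamS - muS with hw
  have hk2 : -(-1 - form n f f) = 1 - k := by rw [hk]; ring
  rw [hk2] at ids2
  have hmu : muS = lamS - w := by rw [hw]; ring
  have hlw : M.diff.Γ lamS w = w ^ 2 * (algebraMap ℝ M.Sm ε - 2 * algebraMap ℝ M.Sm s * lamS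
      - algebraMap ℝ M.Sm k * lamS ^ 2) := by
    have h1 := M.diff.Γ_inv ids.hy lamS
    rw [ids.Γyl] at h1
    rw [M.diff.symm]
    have h2 := ids.hy
    linear_combination (w ^ 2) * h1 - (y * w + 1) * (M.diff.Γ w lamS) * h2
  have hlm : M.diff.Γ lamS muS = 0 := by
    rw [hmu, map_sub, ids.Γll, hlw, sub_self]
  have hww : M.diff.Γ w w = M.diff.Γ lamS w + M.diff.Γ muS muS := by
    have h3 : M.diff.Γ w w = M.diff.Γ lamS w - M.diff.Γ muS w := by
      have h6 : M.diff.Γ w = M.diff.Γ lamS - M.diff.Γ muS := by rw [hw, map_sub]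
      exact DFunLike.congr_fun h6 w
    have h4 : M.diff.Γ muS w = - M.diff.Γ muS muS := by
      rw [hw, map_sub, M.diff.symm muS lamS, hlm, zero_sub]
    rw [h3, h4, sub_neg_eq_add]
  refine ⟨ids.hy, ids.Γll, hlw, ?_, ids.Ll, ?_⟩
  · rw [hww, hlw, ids2.Γll, hmu]
    simp only [map_neg, map_sub, map_one]
    ring
  · have h5 : M.diff.L w = M.diff.L lamS - M.diff.L muS := by rw [hw, map_sub]
    rw [h5, ids.Ll, ids2.Ll, hmu]
    simp only [map_neg, map_sub, map_one]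
    push_cast
    ring

/-- Evaluation of an element of the algebra generated by `lam` and `w` on a level set of `lam`. -/
theorem eval_adjoin {lamS muS r : M.Sm} (hr : r ∈ Algebra.adjoin ℝ {lamS, lamS - muS}) (t : ℝ) :
    ∃ R : ℝ[X], ∀ u, lamS.1 u = t → r.1 u = R.eval (muS.1 u) := by
  induction hr using Algebra.adjoin_induction with
  | mem x hx =>
    rcases hx with rfl | hx
    · exact ⟨Polynomial.C t, fun u hu => by simpa using hu⟩
    · rw [Set.mem_singleton_iff] at hx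
      subst hx
      refine ⟨Polynomial.C t - Polynomial.X, fun u hu => ?_⟩
      have : (lamS - muS).1 u = lamS.1 u - muS.1 u := rfl
      rw [this, hu]; simp
  | algebraMap r => exact ⟨Polynomial.C r, fun u hu => by simp⟩
  | add x y hx hy ihx ihy =>
    obtain ⟨R₁, h₁⟩ := ihx
    obtain ⟨R₂, h₂⟩ := ihy
    refine ⟨R₁ + R₂, fun u hu => ?_⟩
    have : (x + y).1 u = x.1 u + y.1 u := rfl
    rw [this, h₁ u hu, h₂ u hu, Polynomial.eval_add]
  | mul x y hx hy ihx ihy =>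
    obtain ⟨R₁, h₁⟩ := ihx
    obtain ⟨R₂, h₂⟩ := ihy
    refine ⟨R₁ * R₂, fun u hu => ?_⟩
    have : (x * y).1 u = x.1 u * y.1 u := rfl
    rw [this, h₁ u hu, h₂ u hu, Polynomial.eval_mul]

theorem aeval_apply' (w : M.Sm) (A : ℝ[X]) (u : M.U) :
    (Polynomial.aeval w A).1 u = A.eval (w.1 u) := by
  have h2 : (Polynomial.aeval w A).1 = Polynomial.aeval w.1 A := by
    have := Polynomial.aeval_algHom_apply M.Sm.val w A
    exact this.symm
  rw [h2]
  have h3 := Polynomial.aeval_algHom_apply (Pi.evalAlgHom ℝ (fun _ : M.U => ℝ) u) w.1 A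
  simp only [Pi.evalAlgHom_apply] at h3
  rw [← h3, ← Polynomial.coe_aeval_eq_eval]

/-- Both principal curvatures cannot be non-constant. -/
theorem Local.two_nonconst (hl : M.Local lam mu p q M.U)
    (hne : ∃ u₁ ∈ M.U, ∃ u₂ ∈ M.U, lam u₁ ≠ lam u₂)
    (hne' : ∃ u₁ ∈ M.U, ∃ u₂ ∈ M.U, mu u₁ ≠ mu u₂)
    {P : ℝ[X]} (hP0 : P ≠ 0) (hP : M.PolyType P) : False := by
  obtain ⟨f, f', hf, hf', hf2, hf2'⟩ := hl.exists_split
  have rel := hl.twoRel hf hf' hf2 hf2'
  obtain ⟨c, hc⟩ := hP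
  set lamS := M.fn lam hl.two.smooth_lam with hlamS
  set muS := M.fn mu hl.two.smooth_mu with hmuS
  set y := M.fn _ hl.two.smooth_inv with hyd
  obtain ⟨r, hr, e⟩ := rel.aeval_y P
  have hy1 : Polynomial.aeval M.diff.L P y
      = algebraMap ℝ M.Sm (-(⟪f.2.1, c⟫_ℝ - P.eval 0 * f.1)) := by
    have h1 : y = -M.aS f := by rw [hl.aS_f hf hf2, neg_neg]
    rw [h1, map_neg, map_neg]
    congr 1
    unfold aS
    rw [map_sub, M.diff.aeval_L_algebraMap, map_sub]
    congr 1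
    exact hc _
  rw [hy1] at e
  set c' := -(⟪f.2.1, c⟫_ℝ - P.eval 0 * f.1) with hc'
  set G : ℝ[X] := -(Polynomial.C ((p + q : ℕ) : ℝ)) * (1 + Polynomial.X ^ 2) with hG
  have hinf := infinite_range (M := M) hl.two.smooth_lam hne
  have hinf' := infinite_range (M := M) hl.two.smooth_mu hne'
  -- for each value of lam
  have key : ∀ t ∈ lam '' M.U, (P.comp G).eval t = 0 := by
    rintro t ⟨u₁, h₁, rfl⟩
    obtain ⟨R, hR⟩ := eval_adjoin (muS := muS) hr (lam u₁)
    set T : ℝ[X] := Polynomial.C ((P.comp G).eval (lam u₁))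
      + (Polynomial.C (lam u₁) - Polynomial.X) * (R - Polynomial.C c') with hT
    have hT0 : T = 0 := by
      apply Polynomial.eq_zero_of_infinite_isRoot
      apply hinf'.mono
      rintro _ ⟨u₂, h₂, rfl⟩
      rw [Set.mem_ofPred_eq, Polynomial.IsRoot.def, hT]
      obtain ⟨u₃, h₃, a1, a2⟩ := hl.pairs u₁ h₁ u₂ h₂
      have a3 : lam u₃ = lam u₁ := congrArg Prod.fst a1
      have a4 : mu u₃ = mu u₂ := congrArg Prod.fst a2
      have e1 := congrArg (fun g : M.Sm => g.1 ⟨u₃, h₃⟩) e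
      have e2 : c' = (lam u₃ - mu u₃)⁻¹ * (Polynomial.aeval lamS (P.comp G)).1 ⟨u₃, h₃⟩
        + r.1 ⟨u₃, h₃⟩ := e1
      rw [aeval_apply', hR ⟨u₃, h₃⟩ a3] at e2
      have e3 : lamS.1 ⟨u₃, h₃⟩ = lam u₃ := rfl
      have e4 : muS.1 ⟨u₃, h₃⟩ = mu u₃ := rfl
      rw [e3, e4, a3, a4] at e2
      have hne3 : lam u₁ - mu u₂ ≠ 0 := by
        have := sub_ne_zero.mpr (hl.two.ne u₃ h₃)
        rwa [a3, a4] at this
      simp only [Polynomial.eval_add, Polynomial.eval_C, Polynomial.eval_mul, Polynomial.eval_sub,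
        Polynomial.eval_X]
      rw [e2]
      field_simp
      ring
    have := congrArg (fun Q : ℝ[X] => Q.eval (lam u₁)) hT0
    simp only [hT, Polynomial.eval_add, Polynomial.eval_C, Polynomial.eval_mul,
      Polynomial.eval_sub, Polynomial.eval_X, sub_self, zero_mul, add_zero,
      Polynomial.eval_zero] at this
    exact this
  have hcomp : P.comp G = 0 := by
    apply Polynomial.eq_zero_of_infinite_isRoot
    apply hinf.mono
    intro t ht
    rw [Set.mem_ofPred_eq, Polynomial.IsRoot.def]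
    exact key t ht
  rcases Polynomial.comp_eq_zero_iff.mp hcomp with h1 | h1
  · exact hP0 h1
  · have h2 := h1.2
    have h3 := congrArg (fun Q : ℝ[X] => Q.coeff 2) h2
    simp only [hG] at h3
    have h4 : (-(Polynomial.C ((p + q : ℕ) : ℝ)) * (1 + Polynomial.X ^ 2) : ℝ[X])
        = Polynomial.C (-((p + q : ℕ) : ℝ)) + Polynomial.C (-((p + q : ℕ) : ℝ)) * Polynomial.X ^ 2 := by
      rw [map_neg]; ring
    rw [h4] at h3
    simp only [Polynomial.coeff_add, Polynomial.coeff_C_mul, Polynomial.coeff_X_pow_self,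
      Polynomial.coeff_C] at h3
    have := hl.two.hp
    norm_num at h3
    have h5 : ((p : ℝ) + q) = 0 := by linarith
    have h6 : (0 : ℝ) < p := by exact_mod_cast this
    have h7 : (0 : ℝ) ≤ q := Nat.cast_nonneg q
    linarith

end Hypersurface

end Pool.Agent.Helper21.Dupin
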